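import Pool.Agent.CRD.C.GStmts

set_option autoImplicit false

open CategoryTheory Opposite Limits Pretriangulated Abelian

namespace Pool.CRD.Sky

namespace AXK_

section
variable {K : Type} [CommRing K] {C : Type} [SmallCategory C] {R : PAlg K C} [R.Good]

instance sgBAdditive : (sgB R).Additive where
  map_add {X Y f g} := by
    apply (DerivedCategory.Bounded.ι (C := Coh R)).map_injective
    exact Functor.map_add (DerivedCategory.singleFunctor (Coh R) 0)

lemma map_sum' {X Y : Coh R} {n : ℕ} (f : Fin n → (X ⟶ Y)) :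
    (sgB R).map (∑ k, f k) = ∑ k, (sgB R).map (f k) := Functor.map_sum _ _ _

end

end AXK_

open AXK_

theorem axk_proof (hKSC : Stmt_KSC) (hKOS : Stmt_KOS) : Stmt_AXK := by
  intro K _ _ _ C _ R _ A _ hB d e
  obtain ⟨d₀, hd₀⟩ := hB (A.LO d)
  have hm : 0 < max d₀ 1 := lt_of_lt_of_le Nat.one_pos (le_max_right _ _)
  obtain ⟨S₁, S₂, h1, h2, ⟨i₁⟩, ⟨i₂⟩, i₃, ⟨i₄⟩, n, S, a, b, hS, hab⟩ :=
    hKSC K C R A (max d₀ 1) d hm
  have z1 : ∀ f : (sgB R).obj S₁.X₁ ⟶ ((sgB R).obj (A.LO d))⟦(1 : ℤ)⟧, f = 0 := by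
    intro f
    have h := hd₀ (d + 2 * max d₀ 1) (by have := le_max_left d₀ 1; omega) 1 (by norm_num)
      ((sgB R).map i₁.inv ≫ f)
    have h' : (sgB R).map i₁.hom ≫ (sgB R).map i₁.inv ≫ f = 0 := by rw [h, comp_zero]
    rw [← Category.assoc, ← Functor.map_comp, i₁.hom_inv_id, CategoryTheory.Functor.map_id,
      Category.id_comp] at h'
    exact h'
  have z2 : ∀ f : (sgB R).obj S₁.X₂ ⟶ ((sgB R).obj (A.LO d))⟦(2 : ℤ)⟧, f = 0 := by
    intro f
    have h0 : (sgB R).map i₂.inv ≫ f = 0 := by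
      have hs : (sgB R).map (∑ j : Fin 2, biproduct.π (fun _ : Fin 2 => A.LO (d + max d₀ 1)) j ≫
          biproduct.ι (fun _ : Fin 2 => A.LO (d + max d₀ 1)) j) = 𝟙 _ := by
        rw [biproduct.total, CategoryTheory.Functor.map_id]
      rw [map_sum'] at hs
      rw [← Category.id_comp ((sgB R).map i₂.inv ≫ f), ← hs, Preadditive.sum_comp]
      refine Finset.sum_eq_zero (fun j _ => ?_)
      rw [Functor.map_comp, Category.assoc,
        hd₀ (d + max d₀ 1) (by have := le_max_left d₀ 1; omega) 2 (by norm_num)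
          ((sgB R).map (biproduct.ι (fun _ : Fin 2 => A.LO (d + max d₀ 1)) j) ≫
            (sgB R).map i₂.inv ≫ f), comp_zero]
    have h' : (sgB R).map i₂.hom ≫ (sgB R).map i₂.inv ≫ f = 0 := by rw [h0, comp_zero]
    rw [← Category.assoc, ← Functor.map_comp, i₂.hom_inv_id, CategoryTheory.Functor.map_id,
      Category.id_comp] at h'
    exact h'
  obtain ⟨e', he'⟩ := hKOS K C R S₁ S₂ h1 h2 i₃ ((sgB R).obj (A.LO d)) z1 z2
    ((sgB R).map i₄.hom ≫ e)
  refine ⟨n, S, fun k => i₄.inv ≫ S₂.g ≫ a k, fun k => (sgB R).map (b k) ≫ e', hS, ?_⟩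
  have e1 : e = (sgB R).map i₄.inv ≫ (sgB R).map S₂.g ≫ e' := by
    rw [← he', ← Category.assoc, ← Functor.map_comp, i₄.inv_hom_id,
      CategoryTheory.Functor.map_id, Category.id_comp]
  have e2 : (sgB R).map (∑ k, a k ≫ b k) = 𝟙 _ := by
    rw [hab, CategoryTheory.Functor.map_id]
  rw [map_sum'] at e2
  conv_lhs => rw [e1, ← Category.id_comp e', ← e2, Preadditive.sum_comp, Preadditive.comp_sum,
    Preadditive.comp_sum]
  refine Finset.sum_congr rfl (fun k _ => ?_)
  simp only [Functor.map_comp, Category.assoc]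

end Pool.CRD.Sky
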