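import Pool.Agent.CRD.C.EXD

open CategoryTheory Opposite Limits Pretriangulated Abelian

namespace Pool.CRD.Sky

namespace DTP_

section Lin
variable {K : Type*} [Field K] {V₁ V₂ W U₁ U₂ W' : Type*} [AddCommGroup V₁] [AddCommGroup V₂]
  [AddCommGroup W] [AddCommGroup U₁] [AddCommGroup U₂] [AddCommGroup W'] [Module K V₁]
  [Module K V₂] [Module K W] [Module K U₁] [Module K U₂] [Module K W']

lemma tr_bij' (B : V₁ →ₗ[K] V₂ →ₗ[K] W) (B' : U₁ →ₗ[K] U₂ →ₗ[K] W') (e : V₁ ≃ₗ[K] U₁)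
    (f : V₂ ≃ₗ[K] U₂) (g : W ≃ₗ[K] W') (h : ∀ x y, B' (e x) (f y) = g (B x y))
    (hB : Function.Bijective B') : Function.Bijective B := by
  refine EXD_.tr_bij B' B e.symm f.symm g.symm (fun x y => ?_) hB
  apply g.injective
  rw [← h]
  simp

end Lin

section Cat
variable {K : Type} [Field K] {T : Type*} [Category T] [Preadditive T] [Linear K T]

/-- composition with an isomorphism -/
noncomputable def preIso {X Y : T} (Z : T) (e : X ≅ Y) : (X ⟶ Z) ≃ₗ[K] (Y ⟶ Z) where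
  toFun f := e.inv ≫ f
  invFun f := e.hom ≫ f
  map_add' f g := Preadditive.comp_add _ _ _ _ _ _
  map_smul' c f := Linear.comp_smul _ _ _ _ _ _
  left_inv f := by simp
  right_inv f := by simp

end Cat

end DTP_

open DTP_ EXD_ in
theorem dtp_proof : Stmt_DTP := by
  intro K _ T _ _ _ _ _ _ _ _ T' _ _ _ _ _ _ _ _ F _ _ _ P M P' M' ⟨α⟩ ⟨μ⟩ b1 b2 b3 hD
  let E1 : (P ⟶ M⟦(2 : ℤ)⟧) ≃ₗ[K] (F.obj P ⟶ F.obj (M⟦(2 : ℤ)⟧)) :=
    LinearEquiv.ofBijective (F.mapLinearMap K) b1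
  let E2 : (M ⟶ P) ≃ₗ[K] (F.obj M ⟶ F.obj P) := LinearEquiv.ofBijective (F.mapLinearMap K) b2
  let E3 : (P ⟶ P⟦(2 : ℤ)⟧) ≃ₗ[K] (F.obj P ⟶ F.obj (P⟦(2 : ℤ)⟧)) :=
    LinearEquiv.ofBijective (F.mapLinearMap K) b3
  refine tr_bij' (duP K P M) (duP K P' M')
    (E1.trans ((postIso (F.obj P) ((F.commShiftIso (2 : ℤ)).app M ≪≫
      (shiftFunctor T' (2 : ℤ)).mapIso μ)).trans (preIso (M'⟦(2 : ℤ)⟧) α)))
    (E2.trans ((postIso (F.obj M) α).trans (preIso P' μ)))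
    (E3.trans ((postIso (F.obj P) ((F.commShiftIso (2 : ℤ)).app P ≪≫
      (shiftFunctor T' (2 : ℤ)).mapIso α)).trans (preIso (P'⟦(2 : ℤ)⟧) α))) ?_ hD
  intro h f
  change (α.inv ≫ F.map h ≫ (F.commShiftIso (2 : ℤ)).hom.app M ≫ μ.hom⟦(2 : ℤ)⟧') ≫
    (μ.inv ≫ F.map f ≫ α.hom)⟦(2 : ℤ)⟧' = α.inv ≫ F.map (h ≫ f⟦(2 : ℤ)⟧') ≫
      (F.commShiftIso (2 : ℤ)).hom.app P ≫ α.hom⟦(2 : ℤ)⟧'
  have hn := F.commShiftIso_hom_naturality f (2 : ℤ)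
  have h1 : μ.hom⟦(2 : ℤ)⟧' ≫ μ.inv⟦(2 : ℤ)⟧' = 𝟙 _ := by
    rw [← Functor.map_comp, μ.hom_inv_id, CategoryTheory.Functor.map_id]
  simp only [Functor.map_comp, Category.assoc]
  rw [reassoc_of% h1, reassoc_of% hn]

end Pool.CRD.Sky
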