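import Pool.Agent.CRD.C.GStmts

open CategoryTheory Opposite Limits Pretriangulated Abelian

namespace Pool.CRD.Sky

namespace DTR_

variable {K : Type} [Field K] {T : Type 1} [Category.{1} T] [HasZeroObject T]
  [HasShift T ℤ] [Preadditive T] [∀ n : ℤ, (shiftFunctor T n).Additive] [Pretriangulated T]
  [Linear K T] [∀ n : ℤ, (shiftFunctor T n).Linear K] {P : T}

omit [HasZeroObject T] [Pretriangulated T] in
lemma duP_apply (M : T) (h : P ⟶ M⟦(2 : ℤ)⟧) (f : M ⟶ P) :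
    duP K P M h f = h ≫ f⟦(2 : ℤ)⟧' := rfl

omit [HasZeroObject T] [Pretriangulated T] in
lemma nat {M N : T} (g : M ⟶ N) (h : P ⟶ M⟦(2 : ℤ)⟧) (f : N ⟶ P) :
    duP K P N (h ≫ g⟦(2 : ℤ)⟧') f = duP K P M h (g ≫ f) := by
  rw [duP_apply, duP_apply, Functor.map_comp, Category.assoc]

omit [HasZeroObject T] [Pretriangulated T] in
lemma inj {M : T} (hM : DU K P M) (h : P ⟶ M⟦(2 : ℤ)⟧)
    (h0 : ∀ f, duP K P M h f = 0) : h = 0 := by
  apply hM.1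
  rw [map_zero]
  ext f
  exact h0 f

omit [HasZeroObject T] [Pretriangulated T] in
lemma iso {X Y : T} (e : X ≅ Y) (hX : DU K P X) : DU K P Y := by
  constructor
  · rw [injective_iff_map_eq_zero]
    intro h hh
    have h1 : h ≫ e.inv⟦(2 : ℤ)⟧' = 0 := by
      apply inj hX
      intro f
      rw [nat, hh]
      rfl
    have h2 : h = (h ≫ e.inv⟦(2 : ℤ)⟧') ≫ e.hom⟦(2 : ℤ)⟧' := by
      rw [Category.assoc, ← Functor.map_comp, e.inv_hom_id, CategoryTheory.Functor.map_id, Category.comp_id]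
    rw [h2, h1, zero_comp]
  · intro μ
    obtain ⟨h', hh'⟩ := hX.2 (μ.comp (Linear.leftComp K P e.inv))
    refine ⟨h' ≫ e.hom⟦(2 : ℤ)⟧', ?_⟩
    ext f
    rw [nat, hh']
    simp

/-- a linear map which kills the image of `a` factors through `b` -/
lemma factor {A B C W : Type*} [AddCommGroup A] [AddCommGroup B] [AddCommGroup C]
    [AddCommGroup W] [Module K A] [Module K B] [Module K C] [Module K W] (a : A →ₗ[K] B)
    (b : B →ₗ[K] C) (hab : ∀ x, b x = 0 → ∃ y, a y = x) (μ : B →ₗ[K] W)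
    (hμ : ∀ y, μ (a y) = 0) : ∃ l : C →ₗ[K] W, ∀ x, μ x = l (b x) := by
  have h1 : LinearMap.ker b ≤ LinearMap.ker μ := by
    intro x hx
    obtain ⟨y, rfl⟩ := hab x hx
    exact hμ y
  obtain ⟨l, hl⟩ := LinearMap.exists_extend
    (((LinearMap.ker b).liftQ μ h1).comp b.quotKerEquivRange.symm.toLinearMap)
  refine ⟨l, fun x => ?_⟩
  have h2 := LinearMap.congr_fun hl ⟨b x, LinearMap.mem_range_self b x⟩
  have h3 : b.quotKerEquivRange.symm ⟨b x, LinearMap.mem_range_self b x⟩ =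
      (LinearMap.ker b).mkQ x := by
    rw [LinearEquiv.symm_apply_eq]
    rfl
  rw [LinearMap.comp_apply, LinearMap.comp_apply, LinearEquiv.coe_coe, h3] at h2
  exact h2.symm

lemma five (Δ : Triangle T) (hΔ : Δ ∈ distTriang T) (h3' : DU K P (Δ.obj₃⟦(-1 : ℤ)⟧))
    (h1 : DU K P Δ.obj₁) (h3 : DU K P Δ.obj₃) (h1' : DU K P (Δ.obj₁⟦(1 : ℤ)⟧)) :
    DU K P Δ.obj₂ := by
  have hs := Triangle.shift_distinguished Δ hΔ 2
  have hsign : ((2 : ℤ).negOnePow : ℤˣ) = 1 := Int.negOnePow_even 2 (by decide)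
  have E1 : ∀ h : P ⟶ Δ.obj₂⟦(2 : ℤ)⟧, h ≫ Δ.mor₂⟦(2 : ℤ)⟧' = 0 →
      ∃ h' : P ⟶ Δ.obj₁⟦(2 : ℤ)⟧, h = h' ≫ Δ.mor₁⟦(2 : ℤ)⟧' := by
    intro h hh
    obtain ⟨g, hg⟩ := Triangle.coyoneda_exact₂ _ hs h (by
      change h ≫ ((2 : ℤ).negOnePow • Δ.mor₂⟦(2 : ℤ)⟧') = 0
      rw [hsign, one_smul]; exact hh)
    refine ⟨g, ?_⟩
    rw [hg]
    change g ≫ ((2 : ℤ).negOnePow • Δ.mor₁⟦(2 : ℤ)⟧') = _
    rw [hsign, one_smul]
    rfl
  have hr := rot_of_distTriang Δ hΔ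
  have hsr := Triangle.shift_distinguished _ hr 2
  have E2 : ∀ h : P ⟶ Δ.obj₃⟦(2 : ℤ)⟧, h ≫ Δ.mor₃⟦(2 : ℤ)⟧' = 0 →
      ∃ h' : P ⟶ Δ.obj₂⟦(2 : ℤ)⟧, h = h' ≫ Δ.mor₂⟦(2 : ℤ)⟧' := by
    intro h hh
    obtain ⟨g, hg⟩ := Triangle.coyoneda_exact₂ _ hsr h (by
      change h ≫ ((2 : ℤ).negOnePow • Δ.mor₃⟦(2 : ℤ)⟧') = 0
      rw [hsign, one_smul]; exact hh)
    refine ⟨g, ?_⟩
    rw [hg]
    change g ≫ ((2 : ℤ).negOnePow • Δ.mor₂⟦(2 : ℤ)⟧') = _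
    rw [hsign, one_smul]
    rfl
  have hir := inv_rot_of_distTriang Δ hΔ
  let w' : Δ.obj₃⟦(-1 : ℤ)⟧ ⟶ Δ.obj₁ := Δ.invRotate.mor₁
  have E3 : ∀ f : Δ.obj₁ ⟶ P, w' ≫ f = 0 → ∃ g : Δ.obj₂ ⟶ P, f = Δ.mor₁ ≫ g := by
    intro f hf
    exact Triangle.yoneda_exact₂ _ hir f hf
  have E4 : ∀ f : Δ.obj₂ ⟶ P, Δ.mor₁ ≫ f = 0 → ∃ g : Δ.obj₃ ⟶ P, f = Δ.mor₂ ≫ g :=
    fun f hf => Triangle.yoneda_exact₂ _ hΔ f hf
  have hw : w' ≫ Δ.mor₁ = 0 := comp_distTriang_mor_zero₁₂ _ hir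
  constructor
  · rw [injective_iff_map_eq_zero]
    intro h hh
    have hh' : ∀ f, duP K P Δ.obj₂ h f = 0 := fun f => by rw [hh]; rfl
    obtain ⟨h', rfl⟩ := E1 h (inj h3 _ (fun f => by rw [nat]; exact hh' _))
    obtain ⟨l, hl⟩ := factor (K := K) (Linear.leftComp K P Δ.mor₁) (Linear.leftComp K P w')
      (fun x hx => by
        obtain ⟨g, hg⟩ := E3 x hx
        exact ⟨g, hg.symm⟩) (duP K P Δ.obj₁ h') (fun y => by
        rw [Linear.leftComp_apply, ← nat]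
        exact hh' y)
    obtain ⟨h'', hh''⟩ := h3'.2 l
    have h5 : h' = h'' ≫ w'⟦(2 : ℤ)⟧' := by
      rw [← sub_eq_zero]
      apply inj h1
      intro f
      rw [map_sub, LinearMap.sub_apply, nat, hh'', hl f, Linear.leftComp_apply, sub_self]
    rw [h5, Category.assoc, ← Functor.map_comp, hw, Functor.map_zero, comp_zero]
  · intro μ
    obtain ⟨k1, hk1⟩ := h3.2 (μ.comp (Linear.leftComp K P Δ.mor₂))
    obtain ⟨k2, rfl⟩ := E2 k1 (inj h1' _ (fun f => by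
      rw [nat, hk1, LinearMap.comp_apply, Linear.leftComp_apply, ← Category.assoc,
        comp_distTriang_mor_zero₂₃ _ hΔ, zero_comp, map_zero]))
    obtain ⟨l, hl⟩ := factor (K := K) (Linear.leftComp K P Δ.mor₂) (Linear.leftComp K P Δ.mor₁)
      (fun x hx => by
        obtain ⟨g, hg⟩ := E4 x hx
        exact ⟨g, hg.symm⟩) (μ - duP K P Δ.obj₂ k2) (fun y => by
        have h6 := LinearMap.congr_fun hk1 y
        rw [nat] at h6
        rw [LinearMap.sub_apply, Linear.leftComp_apply, h6, LinearMap.comp_apply,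
          Linear.leftComp_apply, sub_self])
    obtain ⟨k3, hk3⟩ := h1.2 l
    refine ⟨k2 + k3 ≫ Δ.mor₁⟦(2 : ℤ)⟧', ?_⟩
    ext f
    rw [map_add, LinearMap.add_apply, nat, hk3]
    have h7 := hl f
    rw [LinearMap.sub_apply, Linear.leftComp_apply] at h7
    rw [← h7]
    abel

end DTR_

theorem dtr_proof : Stmt_DTR := by
  intro K _ T _ _ _ _ _ _ _ _ P
  refine ⟨fun X Y ⟨e⟩ h => DTR_.iso e h, ?_⟩
  intro Δ hΔ h1 h3 n
  have hs := Triangle.shift_distinguished Δ hΔ n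
  refine DTR_.five ((Triangle.shiftFunctor T n).obj Δ) hs ?_ (h1 n) (h3 n) ?_
  · exact DTR_.iso ((shiftFunctorAdd T n (-1)).app Δ.obj₃) (h3 (n + -1))
  · exact DTR_.iso ((shiftFunctorAdd T n 1).app Δ.obj₁) (h1 (n + 1))

end Pool.CRD.Sky
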