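import Pool.Agent.CRD.C.EMR

open CategoryTheory Opposite Limits Pretriangulated Abelian

namespace Pool.CRD.Sky

open EMR_ in
theorem em1_proof : Stmt_EM1 := by
  intro K _ C _ R _ φ hφ M hM n
  ext e
  obtain ⟨e₀, rfl⟩ := exists_shift _ _ n e
  obtain ⟨r, S, a, b, hS, rfl⟩ := hM e₀
  have h1 : (∑ k, (sgB R).map (a k) ≫ b k)⟦n⟧' ≫
      (shiftComm ((sgB R).obj M) (2 : ℤ) n).hom =
      ∑ k, ((sgB R).map (a k))⟦n⟧' ≫ ((b k)⟦n⟧' ≫
        (shiftComm ((sgB R).obj M) (2 : ℤ) n).hom) := by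
    rw [Functor.map_sum, Preadditive.sum_comp]
    refine Finset.sum_congr rfl (fun k _ => ?_)
    rw [Functor.map_comp, Category.assoc]
  rw [h1, map_sum]
  refine (Finset.sum_eq_zero (fun k _ => ?_)).trans rfl
  rw [φ.cyc, hφ (S k) (hS k) n]
  rfl

end Pool.CRD.Sky
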