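import Pool.Agent.CRD.C.EMR

/-!
# CRD, area C: the triangle of a short exact sequence of coherent modules; EM2
-/

open CategoryTheory Opposite Limits Pretriangulated Abelian

namespace Pool.CRD.Sky

namespace EM2_

variable {K : Type} [CommRing K] {C : Type} [SmallCategory C] {R : PAlg K C} [R.Good]

/-- the triangle of a short exact sequence in the bounded derived category -/
theorem triangle (S : ShortComplex (Coh R)) (hS : S.ShortExact) :
    ∃ δ : (sgB R).obj S.X₃ ⟶ ((sgB R).obj S.X₁)⟦(1 : ℤ)⟧,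
      Triangle.mk ((sgB R).map S.f) ((sgB R).map S.g) δ ∈ distTriang (Db R) := by
  let ι : Db R ⥤ DerivedCategory (Coh R) := DerivedCategory.Bounded.ι
  let c : ι.obj (((sgB R).obj S.X₁)⟦(1 : ℤ)⟧) ≅
      ((DerivedCategory.singleFunctor (Coh R) 0).obj S.X₁)⟦(1 : ℤ)⟧ :=
    (ι.commShiftIso (1 : ℤ)).app ((sgB R).obj S.X₁)
  obtain ⟨w, hw⟩ := ι.map_surjective (X := (sgB R).obj S.X₃) (Y := ((sgB R).obj S.X₁)⟦(1 : ℤ)⟧)
    (hS.singleδ ≫ c.inv)
  refine ⟨w, ?_⟩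
  rw [← ι.map_distinguished_iff]
  refine isomorphic_distinguished _ hS.singleTriangle_distinguished _ ?_
  refine Triangle.isoMk _ _ (Iso.refl _) (Iso.refl _) (Iso.refl _) ?_ ?_ ?_
  · exact (Category.comp_id _).trans (Category.id_comp _).symm
  · exact (Category.comp_id _).trans (Category.id_comp _).symm
  · change (ι.map w ≫ c.hom) ≫ (shiftFunctor (DerivedCategory (Coh R)) (1 : ℤ)).map
      (𝟙 ((DerivedCategory.singleFunctor (Coh R) 0).obj S.X₁)) = 𝟙 _ ≫ hS.singleδ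
    rw [hw, CategoryTheory.Functor.map_id, Category.assoc, Category.assoc, Category.comp_id,
      Category.id_comp, Iso.inv_hom_id, Category.comp_id]

end EM2_

open EM2_ in
theorem em2_proof (hEMR : Stmt_EMR) : Stmt_EM2 := by
  intro K _ C _ R _ φ S hS h2 h3
  obtain ⟨δ, hT⟩ := triangle S hS
  refine hEMR K C R φ _ _ ((sgB R).map S.g) h2 (fun e => ?_)
  have hT2 := Triangle.shift_distinguished _ hT 2
  let T : Triangle (Db R) := Triangle.mk ((sgB R).map S.f) ((sgB R).map S.g) δ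
  let m : ((sgB R).obj S.X₃)⟦(2 : ℤ)⟧ ⟶ (((sgB R).obj S.X₁)⟦(2 : ℤ)⟧)⟦(1 : ℤ)⟧ :=
    ((Triangle.shiftFunctor (Db R) 2).obj T).mor₃
  have h4 : e ≫ m = 0 := by
    let i := (shiftFunctorAdd' (Db R) (2 : ℤ) (1 : ℤ) (3 : ℤ) (by norm_num)).app
      ((sgB R).obj S.X₁)
    have h5 : e ≫ m ≫ i.inv = 0 := h3 _
    calc e ≫ m = (e ≫ m ≫ i.inv) ≫ i.hom := by
          rw [Category.assoc, Category.assoc, Iso.inv_hom_id]
          exact congrArg (fun t => e ≫ t) (Category.comp_id m).symm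
      _ = 0 := by rw [h5, zero_comp]
  obtain ⟨g, hg⟩ := Triangle.coyoneda_exact₃ _ hT2 e h4
  let g' : (sgB R).obj S.X₃ ⟶ ((sgB R).obj S.X₂)⟦(2 : ℤ)⟧ := g
  have h6 : e = g' ≫ ((2 : ℤ).negOnePow • ((sgB R).map S.g)⟦(2 : ℤ)⟧') := hg
  refine ⟨g', ?_⟩
  rw [Int.negOnePow_even 2 ⟨1, rfl⟩, one_smul] at h6
  exact h6

end Pool.CRD.Sky
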