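import Pool.Agent.CRD.C.EM2

/-!
# CRD, area C: EM3
-/

open CategoryTheory Opposite Limits Pretriangulated Abelian

namespace Pool.CRD.Sky

open EM2_ in
theorem em3_proof (hEMZ : Stmt_EMZ) (hEML : Stmt_EML) : Stmt_EM3 := by
  intro K _ C _ R _ φ S hS h2 h1
  obtain ⟨-, z2, -, -⟩ := hEMZ K C R φ
  obtain ⟨δ, hT⟩ := triangle S hS
  refine hEML K C R φ _ _ δ (z2 _ 1 h1) (fun e => ?_)
  exact Triangle.yoneda_exact₃ _ hT e (h2 _)

end Pool.CRD.Sky
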