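import Pool.Agent.CRD.C.EStmts

set_option autoImplicit false

open CategoryTheory Opposite Limits Pretriangulated Abelian

namespace Pool.CRD.Sky

namespace EM4_

variable {K : Type} [Field K] {C : Type} [SmallCategory C] {R : PAlg K C} [R.Good]

lemma conc (M : Db R) (a : ℤ) (h1 : M.obj.IsGE a) (h2 : M.obj.IsLE a) :
    ∃ F : Coh R, Nonempty (((sgB R).obj F)⟦-a⟧ ≅ M) := by
  obtain ⟨Y, ⟨e⟩⟩ := M.obj.exists_iso_singleFunctor_obj_of_isGE_of_isLE a
  refine ⟨Y, ⟨?_⟩⟩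
  let e1 : ((DerivedCategory.singleFunctor (Coh R) 0).obj Y)⟦-a⟧ ≅
      (DerivedCategory.singleFunctor (Coh R) a).obj Y :=
    ((DerivedCategory.singleFunctors (Coh R)).shiftIso (-a) a 0 (by omega)).app Y
  let e2 : (DerivedCategory.Bounded.ι (C := Coh R)).obj (((sgB R).obj Y)⟦-a⟧) ≅
      ((DerivedCategory.singleFunctor (Coh R) 0).obj Y)⟦-a⟧ :=
    ((DerivedCategory.Bounded.ι (C := Coh R)).commShiftIso (-a)).app ((sgB R).obj Y)
  exact (DerivedCategory.Bounded.ι (C := Coh R)).preimageIso (e2 ≪≫ e1 ≪≫ e.symm)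

end EM4_

open EM4_

theorem em4_proof (hEMZ : Stmt_EMZ) (hEML : Stmt_EML) (hEMS : Stmt_EMS) : Stmt_EM4 := by
  intro K _ C _ R _ φ L hA hB hF
  obtain ⟨z1, z2, z3, z4⟩ := hEMZ K C R φ
  have key : ∀ (n : ℕ) (M : Db R) (a b : ℤ), b - a ≤ n → M.obj.IsGE a → M.obj.IsLE b →
      Van φ M := by
    intro n
    induction n with
    | zero =>
      intro M a b hab h1 h2
      have h2' : M.obj.IsLE a := DerivedCategory.TStructure.t.isLE_of_le M.obj b a (by
        have : ((0 : ℕ) : ℤ) = 0 := rfl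
        omega)
      obtain ⟨F, hM⟩ := conc M a h1 h2'
      exact z1 _ _ hM (z2 _ _ (hF F))
    | succ n ih =>
      intro M a b hab h1 h2
      by_cases hlt : a < b
      · obtain ⟨N, δ, g1, g2, g3⟩ := hEMS K C R L hA hB M a b hlt h1 h2
        exact hEML K C R φ M N δ (ih N a (b - 1) (by push_cast at hab; omega) g1 g2) g3
      · exact ih M a b (by omega) h1 h2
  intro M
  obtain ⟨⟨a, ha⟩, ⟨b, hb⟩⟩ := M.property
  exact key (b - a).toNat M a b (Int.self_le_toNat _) ha hb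

end Pool.CRD.Sky
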