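import Pool.Agent.CRD.C.GStmts

/-!
# CRD, area C, module EMA: the elimination theorem
-/

open CategoryTheory Opposite Limits Pretriangulated Abelian

namespace Pool.CRD.Sky

namespace EMA_

section
variable {K : Type} [Field K] {C : Type} [SmallCategory C] {R : PAlg K C} [R.Good]

omit [R.Good] in
lemma evc_additive (s : C) : (evc R s).Additive := ⟨fun {M N f g} => by
  ext x
  rfl⟩

lemma sgB_additive : (sgB R).Additive := ⟨fun {M N f g} => by
  apply (DerivedCategory.TStructure.t (C := Coh R)).bounded.ι.map_injective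
  exact (DerivedCategory.singleFunctor (Coh R) 0).map_add⟩

noncomputable instance evc_fl (s : C) : PreservesFiniteLimits (evc R s) := by
  unfold evc
  exact comp_preservesFiniteLimits (IsCoh R).ι (ev R (op s))

noncomputable instance evc_fc (s : C) : PreservesFiniteColimits (evc R s) := by
  unfold evc
  exact comp_preservesFiniteColimits (IsCoh R).ι (ev R (op s))

omit [R.Good] in
lemma proj_iff (V : Coh R) (s : C) :
    Module.Projective (R.ring s) (sec V.obj s) ↔ Projective ((evc R s).obj V) :=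
  IsProjective.iff_projective (R := R.ring s) (P := sec V.obj s)

lemma locProj_biproduct {L : Coh R} (hL : LocProj L) (r : ℕ) :
    LocProj (⨁ fun _ : Fin r => L) := by
  intro s
  have h0 : (evc R s).Additive := evc_additive s
  have h1 : Projective ((evc R s).obj L) := (proj_iff L s).1 (hL s)
  have h2 : Projective (⨁ fun _ : Fin r => (evc R s).obj L) := inferInstance
  have h3 : Projective ((evc R s).obj (⨁ fun _ : Fin r => L)) :=
    Projective.of_iso ((evc R s).mapBiproduct (fun _ : Fin r => L)).symm h2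
  exact (proj_iff _ s).2 h3

lemma ker_se {M N : Coh R} (p : M ⟶ N) [Epi p] :
    (ShortComplex.mk (kernel.ι p) p (kernel.condition p)).ShortExact :=
  { exact := ShortComplex.exact_kernel p
    mono_f := inferInstance
    epi_g := inferInstance }

lemma hom_sum_zero {L : Coh R} (r : ℕ) {M : Db R}
    (h : ∀ f : (sgB R).obj L ⟶ M, f = 0) (f : (sgB R).obj (⨁ fun _ : Fin r => L) ⟶ M) :
    f = 0 := by
  have h0 : (sgB R).Additive := sgB_additive
  have h1 : (sgB R).map (𝟙 (⨁ fun _ : Fin r => L)) ≫ f = f := by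
    rw [CategoryTheory.Functor.map_id, Category.id_comp]
  rw [← h1, ← biproduct.total, Functor.map_sum, Preadditive.sum_comp]
  refine Finset.sum_eq_zero fun k _ => ?_
  have h2 : (sgB R).map (biproduct.ι (fun _ : Fin r => L) k) ≫ f = 0 := h _
  rw [Functor.map_comp, Category.assoc, h2, comp_zero]

end

end EMA_

theorem ema_proof (hEMZ : Stmt_EMZ) (hEM1 : Stmt_EM1) (hEM2 : Stmt_EM2) (hEM3 : Stmt_EM3)
    (hEM4 : Stmt_EM4) : Stmt_EMA := by
  intro K _ C _ R _ φ L hA hB hLP hAX h3 hpd hS
  obtain ⟨-, -, -, z4⟩ := hEMZ K C R φ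
  -- locally projective modules
  have hV : ∀ V : Coh R, LocProj V → Van φ ((sgB R).obj V) := by
    intro V hV
    obtain ⟨d, hd⟩ := hA V
    obtain ⟨r, p, hp⟩ := hd d le_rfl
    have h1 : Van φ ((sgB R).obj (⨁ fun _ : Fin r => L d)) :=
      z4 (L d) r (hEM1 K C R φ hS (L d) (hAX d))
    exact hEM2 K C R φ _ (EMA_.ker_se p) h1 (fun f => h3 V (kernel p) hV f)
  -- all coherent modules
  have hstep : ∀ F : Coh R, ∃ (d r : ℕ) (p : (⨁ fun _ : Fin r => L d) ⟶ F), Epi p ∧
      (Van φ ((sgB R).obj (kernel p)) → Van φ ((sgB R).obj F)) := by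
    intro F
    obtain ⟨d1, hd1⟩ := hA F
    obtain ⟨d2, hd2⟩ := hB F
    obtain ⟨r, p, hp⟩ := hd1 (max d1 d2) (le_max_left _ _)
    refine ⟨max d1 d2, r, p, hp, fun hK => ?_⟩
    refine hEM3 K C R φ _ (EMA_.ker_se p) ?_ hK
    intro f
    exact EMA_.hom_sum_zero r (fun g => hd2 (max d1 d2) (le_max_right _ _) 2 (by norm_num) g) f
  have hF : ∀ F : Coh R, Van φ ((sgB R).obj F) := by
    intro F
    obtain ⟨d, r, p, hp, h1⟩ := hstep F
    obtain ⟨d', r', p', hp', h2⟩ := hstep (kernel p)
    refine h1 (h2 (hV _ ?_))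
    intro s
    rw [EMA_.proj_iff, projective_iff_hasProjectiveDimensionLT_one]
    have e1 := (EMA_.ker_se p).map_of_exact (evc R s)
    have e2 := (EMA_.ker_se p').map_of_exact (evc R s)
    have q1 : Projective ((evc R s).obj (⨁ fun _ : Fin r => L d)) :=
      (EMA_.proj_iff _ s).1 (EMA_.locProj_biproduct (hLP d) r s)
    have q2 : Projective ((evc R s).obj (⨁ fun _ : Fin r' => L d')) :=
      (EMA_.proj_iff _ s).1 (EMA_.locProj_biproduct (hLP d') r' s)
    have f3 : HasProjectiveDimensionLT ((evc R s).obj F) 3 :=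
      hpd s ((evc R s).obj F) (F.property.1 (op s))
    have f2 : HasProjectiveDimensionLT ((evc R s).obj (kernel p)) 2 :=
      e1.hasProjectiveDimensionLT_X₁ 2
        (show HasProjectiveDimensionLT ((evc R s).obj (⨁ fun _ : Fin r => L d)) 2 from
          inferInstance) f3
    exact e2.hasProjectiveDimensionLT_X₁ 1
        (show HasProjectiveDimensionLT ((evc R s).obj (⨁ fun _ : Fin r' => L d')) 1 from
          inferInstance) f2
  exact hEM4 K C R φ L hA hB hF

end Pool.CRD.Sky
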