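import Pool.Agent.CRD.C.GStmts

/-!
# CRD, area C: EMB, Serre vanishing for complexes
-/

open CategoryTheory Opposite Limits Pretriangulated Abelian

namespace Pool.CRD.Sky

namespace EMB_

variable {A : Type 1} [Category.{0} A] [Abelian A] [HasDerivedCategory.{1} A]

theorem iso_left (T : Triangle (DerivedCategory A)) (hT : T ∈ distTriang _) (i : ℤ)
    (h1 : IsZero ((DerivedCategory.homologyFunctor A (i - 1)).obj T.obj₃))
    (h2 : IsZero ((DerivedCategory.homologyFunctor A i).obj T.obj₃)) :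
    IsIso ((DerivedCategory.homologyFunctor A i).map T.mor₁) := by
  have hm : Mono ((DerivedCategory.homologyFunctor A i).map T.mor₁) := by
    rw [DerivedCategory.HomologySequence.mono_homologyMap_mor₁_iff T hT (i - 1) i (by lia)]
    exact h1.eq_of_src _ _
  have he : Epi ((DerivedCategory.homologyFunctor A i).map T.mor₁) := by
    rw [DerivedCategory.HomologySequence.epi_homologyMap_mor₁_iff T hT]
    exact h2.eq_of_tgt _ _
  exact isIso_of_mono_of_epi _

theorem iso_right (T : Triangle (DerivedCategory A)) (hT : T ∈ distTriang _) (i : ℤ)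
    (h1 : IsZero ((DerivedCategory.homologyFunctor A i).obj T.obj₁))
    (h2 : IsZero ((DerivedCategory.homologyFunctor A (i + 1)).obj T.obj₁)) :
    IsIso ((DerivedCategory.homologyFunctor A i).map T.mor₂) := by
  have he : Epi ((DerivedCategory.homologyFunctor A i).map T.mor₂) := by
    rw [DerivedCategory.HomologySequence.epi_homologyMap_mor₂_iff T hT i (i + 1) (by lia)]
    exact h2.eq_of_tgt _ _
  have hm : Mono ((DerivedCategory.homologyFunctor A i).map T.mor₂) := by
    rw [DerivedCategory.HomologySequence.mono_homologyMap_mor₂_iff T hT]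
    exact h1.eq_of_src _ _
  exact isIso_of_mono_of_epi _

/-- an object concentrated in degree `b` -/
theorem single (L N : A) (b m : ℤ)
    (h : ∀ f : (DerivedCategory.singleFunctor A 0).obj L ⟶
      ((DerivedCategory.singleFunctor A 0).obj N)⟦m - b⟧, f = 0)
    (f : (DerivedCategory.singleFunctor A 0).obj L ⟶
      ((DerivedCategory.singleFunctor A b).obj N)⟦m⟧) : f = 0 := by
  let e1 := ((DerivedCategory.singleFunctors A).shiftIso b 0 b (by lia)).app N
  let e2 := (shiftFunctorAdd' (DerivedCategory A) b (m - b) m (by lia)).app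
    ((DerivedCategory.singleFunctor A b).obj N)
  let e3 : ((DerivedCategory.singleFunctor A b).obj N)⟦m⟧ ≅
      ((DerivedCategory.singleFunctor A 0).obj N)⟦m - b⟧ :=
    e2 ≪≫ (shiftFunctor (DerivedCategory A) (m - b)).mapIso e1
  have h1 := h (f ≫ e3.hom)
  rw [← cancel_mono e3.hom, h1, zero_comp]

theorem main (L : ℕ → A)
    (hB : ∀ F : A, ∃ d₀ : ℕ, ∀ d, d₀ ≤ d → ∀ n : ℤ, 0 < n →
      ∀ f : (DerivedCategory.singleFunctor A 0).obj (L d) ⟶
        ((DerivedCategory.singleFunctor A 0).obj F)⟦n⟧, f = 0) (n : ℕ) :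
    ∀ (b : ℤ) (X : DerivedCategory A), X.IsGE (b - n + 1) → X.IsLE b →
      ∃ d₀ : ℕ, ∀ d, d₀ ≤ d → ∀ m : ℤ, b < m →
        ∀ f : (DerivedCategory.singleFunctor A 0).obj (L d) ⟶ X⟦m⟧, f = 0 := by
  induction n with
  | zero =>
    intro b X h1 h2
    have h3 : X.IsGE (b + 1) := by simpa using h1
    have hz : IsZero X := DerivedCategory.TStructure.t.isZero X b (b + 1) (by lia)
    exact ⟨0, fun d _ m _ f => ((shiftFunctor (DerivedCategory A) m).map_isZero hz).eq_of_tgt _ _⟩
  | succ n ih =>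
    intro b X h1 h2
    obtain ⟨X', Y', hX', hY', f, g, h, mem⟩ :=
      DerivedCategory.TStructure.t.exists_triangle X (b - 1) b (by lia)
    have hX1 : X'.IsLE (b - 1) := ⟨hX'⟩
    have hY1 : Y'.IsGE b := ⟨hY'⟩
    have hX2 : X'.IsGE (b - 1 - n + 1) := by
      rw [DerivedCategory.isGE_iff]
      intro i hi
      have : IsIso ((DerivedCategory.homologyFunctor A i).map f) := iso_left _ mem i
        (Y'.isZero_of_isGE b _ (by lia)) (Y'.isZero_of_isGE b _ (by lia))
      exact (X.isZero_of_isGE (b - (n + 1 : ℕ) + 1) i (by push_cast; lia)).of_iso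
        (asIso ((DerivedCategory.homologyFunctor A i).map f))
    have hY2 : Y'.IsLE b := by
      rw [DerivedCategory.isLE_iff]
      intro i hi
      have : IsIso ((DerivedCategory.homologyFunctor A i).map g) := iso_right _ mem i
        (X'.isZero_of_isLE (b - 1) _ (by lia)) (X'.isZero_of_isLE (b - 1) _ (by lia))
      exact (X.isZero_of_isLE b i hi).of_iso
        (asIso ((DerivedCategory.homologyFunctor A i).map g)).symm
    obtain ⟨d₁, hd₁⟩ := ih (b - 1) X' hX2 hX1
    obtain ⟨N, ⟨e⟩⟩ := DerivedCategory.exists_iso_singleFunctor_obj_of_isGE_of_isLE Y' b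
    obtain ⟨d₂, hd₂⟩ := hB N
    refine ⟨max d₁ d₂, fun d hd m hm u => ?_⟩
    have k1 : u ≫ g⟦m⟧' = 0 := by
      have k2 := single (L d) N b m (hd₂ d (le_trans (le_max_right _ _) hd) (m - b) (by lia))
        ((u ≫ g⟦m⟧') ≫ e.hom⟦m⟧')
      have : IsIso (e.hom⟦m⟧') := inferInstance
      rw [← cancel_mono (e.hom⟦m⟧'), k2, zero_comp]
    have mem' := Triangle.shift_distinguished _ mem m
    obtain ⟨v, hv⟩ := Triangle.coyoneda_exact₂ _ mem' u (by
      show u ≫ (m.negOnePow • g⟦m⟧') = 0
      rw [Linear.comp_units_smul, k1, smul_zero])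
    have hv0 : v = 0 := hd₁ d (le_trans (le_max_left _ _) hd) m (by lia) v
    refine hv.trans ?_
    rw [hv0]
    exact zero_comp

end EMB_

open EMB_ in
theorem emb_proof : Stmt_EMB := by
  intro K _ C _ R _ L hL M b hb
  have hB : ∀ F : Coh R, ∃ d₀ : ℕ, ∀ d, d₀ ≤ d → ∀ n : ℤ, 0 < n →
      ∀ f : (DerivedCategory.singleFunctor (Coh R) 0).obj (L d) ⟶
        ((DerivedCategory.singleFunctor (Coh R) 0).obj F)⟦n⟧, f = 0 := by
    intro F
    obtain ⟨d₀, hd₀⟩ := hL F
    refine ⟨d₀, fun d hd n hn f => ?_⟩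
    let ι := DerivedCategory.Bounded.ι (C := Coh R)
    let e := (ι.commShiftIso n).app ((sgB R).obj F)
    let f' : (sgB R).obj (L d) ⟶ ((sgB R).obj F)⟦n⟧ := ι.preimage (f ≫ e.inv)
    have h1 : ι.map f' = f ≫ e.inv := ι.map_preimage _
    rw [hd₀ d hd n hn f', Functor.map_zero] at h1
    have h2 : f = (f ≫ e.inv) ≫ e.hom :=
      (Category.comp_id f).symm.trans ((congrArg (fun t => f ≫ t) e.inv_hom_id.symm).trans
        (Category.assoc _ _ _).symm)
    refine h2.trans ?_
    rw [← h1]
    exact zero_comp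
  obtain ⟨a, ha⟩ := M.property.1
  have ha' : M.obj.IsGE (b - (b - a + 1).toNat + 1) :=
    DerivedCategory.TStructure.t.isGE_of_ge M.obj _ a (by
      have := Int.self_le_toNat (b - a + 1)
      lia)
  obtain ⟨d₀, hd₀⟩ := main L hB (b - a + 1).toNat b M.obj ha' hb
  refine ⟨d₀, fun d hd n hn f => ?_⟩
  let ι := DerivedCategory.Bounded.ι (C := Coh R)
  let e := (ι.commShiftIso n).app M
  apply ι.map_injective
  rw [Functor.map_zero, ← cancel_mono e.hom, zero_comp]
  exact hd₀ d hd n hn _

end Pool.CRD.Sky
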