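import Pool.Agent.CRD.C.EMR

open CategoryTheory Opposite Limits Pretriangulated Abelian

namespace Pool.CRD.Sky

open EMR_ in
theorem eml_proof : Stmt_EML := by
  intro K _ C _ R _ φ M N δ hN he n
  ext e
  obtain ⟨e₀, rfl⟩ := exists_shift M M n e
  obtain ⟨e', rfl⟩ := he e₀
  rw [Functor.map_comp, Category.assoc, φ.cyc, hN n]
  rfl

end Pool.CRD.Sky
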