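import Pool.Agent.CRD.C.GStmts

open CategoryTheory Opposite Limits Pretriangulated Abelian

namespace Pool.CRD.Sky

namespace EMR_

section
variable {T : Type*} [Category T] [HasShift T ℤ]

lemma exists_shift (M N : T) (n : ℤ) (e : M⟦n⟧ ⟶ N⟦n⟧⟦(2 : ℤ)⟧) :
    ∃ e₀ : M ⟶ N⟦(2 : ℤ)⟧, e = e₀⟦n⟧' ≫ (shiftComm N (2 : ℤ) n).hom := by
  obtain ⟨e₀, he₀⟩ := (shiftFunctor T n).map_surjective (e ≫ (shiftComm N (2 : ℤ) n).inv)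
  refine ⟨e₀, ?_⟩
  rw [he₀, Category.assoc, Iso.inv_hom_id, Category.comp_id]

lemma comm_nat {M N : T} (p : M ⟶ N) (n : ℤ) :
    p⟦(2 : ℤ)⟧'⟦n⟧' ≫ (shiftComm N (2 : ℤ) n).hom =
      (shiftComm M (2 : ℤ) n).hom ≫ p⟦n⟧'⟦(2 : ℤ)⟧' := by
  rw [shiftComm_hom_comp]

end

end EMR_

open EMR_ in
theorem emr_proof : Stmt_EMR := by
  intro K _ C _ R _ φ L M p hL he n
  ext e
  obtain ⟨e₀, rfl⟩ := exists_shift M M n e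
  obtain ⟨e', rfl⟩ := he e₀
  have h1 : (e' ≫ p⟦(2 : ℤ)⟧')⟦n⟧' ≫ (shiftComm M (2 : ℤ) n).hom =
      (e'⟦n⟧' ≫ (shiftComm L (2 : ℤ) n).hom) ≫ p⟦n⟧'⟦(2 : ℤ)⟧' := by
    rw [Functor.map_comp, Category.assoc, comm_nat, Category.assoc]
  rw [h1, ← φ.cyc, hL n]
  rfl

end Pool.CRD.Sky
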