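import Pool.Agent.CRD.C.GStmts

/-!
# CRD, area C, part E: one step of the induction over the amplitude
-/

open CategoryTheory Opposite Limits Pretriangulated Abelian

namespace Pool.CRD.Sky

namespace EMS_

/-- transport of the vanishing of morphisms by the shift functors -/
theorem shift_zero {T : Type*} [Category T] [Preadditive T] [HasShift T ℤ]
    [∀ n : ℤ, (shiftFunctor T n).Additive] {S X : T} {n : ℤ} (h : ∀ f : S ⟶ X⟦n⟧, f = 0)
    (c m : ℤ) (hm : n + c = m) (g : S⟦c⟧ ⟶ X⟦m⟧) : g = 0 := by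
  let e : X⟦m⟧ ≅ (X⟦n⟧)⟦c⟧ := (shiftFunctorAdd' T n c m hm).app X
  obtain ⟨f, hf⟩ := (shiftFunctor T c).map_surjective (g ≫ e.hom)
  rw [h f, Functor.map_zero] at hf
  rw [← cancel_mono e.hom, ← hf, zero_comp]

section
variable {A : Type*} [Category A] [Abelian A] [HasDerivedCategory A]

open DerivedCategory DerivedCategory.TStructure

/-- objects of the abelian category as bounded complexes -/
noncomputable abbrev sB (A : Type*) [Category A] [Abelian A] [HasDerivedCategory A] :
    A ⥤ DerivedCategory.Bounded A :=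
  (DerivedCategory.TStructure.t (C := A)).bounded.lift (DerivedCategory.singleFunctor A 0)
    (fun _ => ⟨⟨0, inferInstance⟩, ⟨0, inferInstance⟩⟩)

/-- the shift of an object in degree zero -/
noncomputable def kap (P : A) (b : ℤ) :
    (DerivedCategory.Bounded.ι (C := A)).obj (((sB A).obj P)⟦-b⟧) ≅ (singleFunctor A b).obj P :=
  ((DerivedCategory.Bounded.ι (C := A)).commShiftIso (-b)).app ((sB A).obj P) ≪≫
    ((singleFunctors A).shiftIso (-b) b 0 (by omega)).app P

theorem epi_single {P H : A} (p : P ⟶ H) [Epi p] (b : ℤ) :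
    Epi ((homologyFunctor A b).map ((singleFunctor A b).map p)) := by
  have h := (singleFunctorCompHomologyFunctorIso A b).hom.naturality p
  have h2 : (homologyFunctor A b).map ((singleFunctor A b).map p) =
      (singleFunctorCompHomologyFunctorIso A b).hom.app P ≫ p ≫
        (singleFunctorCompHomologyFunctorIso A b).inv.app H := by
    have h3 : (homologyFunctor A b).map ((singleFunctor A b).map p) ≫
        (singleFunctorCompHomologyFunctorIso A b).hom.app H =
        (singleFunctorCompHomologyFunctorIso A b).hom.app P ≫ p := h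
    rw [← Category.assoc, ← h3, Category.assoc, Iso.hom_inv_id_app]
    exact (Category.comp_id _).symm
  rw [h2]
  infer_instance

theorem core (M : DerivedCategory.Bounded A) (a b : ℤ) (hab : a < b) (hGE : M.obj.IsGE a)
    (hLE : M.obj.IsLE b) :
    ∃ (H : A) (A₁ : DerivedCategory.Bounded A), A₁.obj.IsLE (b - 1) ∧
      ∀ (P : A) (p : P ⟶ H), Epi p → (∀ f : (sB A).obj P ⟶ A₁⟦b + 1⟧, f = 0) →
        (∀ f : (sB A).obj P ⟶ M⟦b + 2⟧, f = 0) →
        ∃ (N : DerivedCategory.Bounded A) (δ : M ⟶ N), N.obj.IsGE a ∧ N.obj.IsLE (b - 1) ∧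
          ∀ e : M ⟶ M⟦(2 : ℤ)⟧, ∃ e' : N ⟶ M⟦(2 : ℤ)⟧, e = δ ≫ e' := by
  let T₀ := (t.triangleLTGE b).obj M.obj
  have hT₀ : T₀ ∈ distTriang _ := t.triangleLTGE_distinguished b M.obj
  have h1LE : t.IsLE T₀.obj₁ (b - 1) := by
    change t.IsLE ((t.truncLT b).obj M.obj) (b - 1)
    infer_instance
  have h1GE : t.IsGE T₀.obj₁ a := by
    change t.IsGE ((t.truncLT b).obj M.obj) a
    infer_instance
  have h3GE : t.IsGE T₀.obj₃ b := by
    change t.IsGE ((t.truncGE b).obj M.obj) b
    infer_instance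
  have h3LE : t.IsLE T₀.obj₃ b := by
    change t.IsLE ((t.truncGE b).obj M.obj) b
    infer_instance
  obtain ⟨H, ⟨eH⟩⟩ := exists_iso_singleFunctor_obj_of_isGE_of_isLE T₀.obj₃ b
  let A₁ : DerivedCategory.Bounded A := ⟨T₀.obj₁, ⟨a, h1GE⟩, ⟨b - 1, h1LE⟩⟩
  refine ⟨H, A₁, h1LE, ?_⟩
  intro P p hp hA hM
  let v : (singleFunctor A b).obj P ⟶ T₀.obj₃ := (singleFunctor A b).map p ≫ eH.inv
  have hv : v ≫ T₀.mor₃ = 0 := by
    let w : (DerivedCategory.Bounded.ι (C := A)).obj (((sB A).obj P)⟦-b⟧) ⟶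
        (DerivedCategory.Bounded.ι (C := A)).obj (A₁⟦(1 : ℤ)⟧) :=
      (kap P b).hom ≫ (v ≫ T₀.mor₃) ≫
        ((DerivedCategory.Bounded.ι (C := A)).commShiftIso (1 : ℤ)).inv.app A₁
    have hw : w = 0 := by
      have h1 := shift_zero hA (-b) 1 (by omega)
        ((DerivedCategory.Bounded.ι (C := A)).preimage w)
      have h2 := (DerivedCategory.Bounded.ι (C := A)).map_preimage w
      rw [h1, Functor.map_zero] at h2
      exact h2.symm
    have h3 : v ≫ T₀.mor₃ = (kap P b).inv ≫ w ≫
        ((DerivedCategory.Bounded.ι (C := A)).commShiftIso (1 : ℤ)).hom.app A₁ := by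
      simp [w, A₁]
    rw [h3, hw, zero_comp, comp_zero]
  obtain ⟨v', hv'⟩ := Triangle.coyoneda_exact₃ T₀ hT₀ v hv
  have hepi : Epi ((homologyFunctor A b).map v') := by
    have h1 : (homologyFunctor A b).map v' ≫ (homologyFunctor A b).map T₀.mor₂ =
        (homologyFunctor A b).map ((singleFunctor A b).map p) ≫
          (homologyFunctor A b).map eH.inv := by
      rw [← Functor.map_comp, ← Functor.map_comp]
      exact congrArg _ hv'.symm
    have h2 : Epi ((homologyFunctor A b).map v' ≫ (homologyFunctor A b).map T₀.mor₂) := by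
      rw [h1]
      have := epi_single p b
      infer_instance
    have h3 : Mono ((homologyFunctor A b).map T₀.mor₂) := by
      rw [HomologySequence.mono_homologyMap_mor₂_iff T₀ hT₀ b]
      exact (isZero_of_isLE T₀.obj₁ (b - 1) b (by omega)).eq_of_src _ _
    have h4 : Epi ((homologyFunctor A b).map T₀.mor₂) := epi_of_epi ((homologyFunctor A b).map v') _
    have h5 : IsIso ((homologyFunctor A b).map T₀.mor₂) := isIso_of_mono_of_epi _
    have h6 : (homologyFunctor A b).map v' = ((homologyFunctor A b).map v' ≫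
        (homologyFunctor A b).map T₀.mor₂) ≫ inv ((homologyFunctor A b).map T₀.mor₂) := by simp
    rw [h6]
    infer_instance
  let u : ((sB A).obj P)⟦-b⟧ ⟶ M :=
    (DerivedCategory.Bounded.ι (C := A)).preimage ((kap P b).hom ≫ v')
  have hu : (DerivedCategory.Bounded.ι (C := A)).map u = (kap P b).hom ≫ v' :=
    (DerivedCategory.Bounded.ι (C := A)).map_preimage _
  have hepi2 : Epi ((homologyFunctor A b).map ((DerivedCategory.Bounded.ι (C := A)).map u)) := by
    have h1 : (homologyFunctor A b).map ((DerivedCategory.Bounded.ι (C := A)).map u) =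
        (homologyFunctor A b).map (kap P b).hom ≫ (homologyFunctor A b).map v' := by
      rw [hu]
      exact Functor.map_comp _ _ _
    rw [h1]
    exact @epi_comp _ _ _ _ _ _ inferInstance _ hepi
  obtain ⟨N, δ, h, hT⟩ := distinguished_cocone_triangle u
  have hD : (DerivedCategory.Bounded.ι (C := A)).mapTriangle.obj (Triangle.mk u δ h) ∈
      distTriang _ := (DerivedCategory.Bounded.ι (C := A)).map_distinguished _ hT
  have hSGE : t.IsGE ((DerivedCategory.Bounded.ι (C := A)).obj (((sB A).obj P)⟦-b⟧)) b :=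
    t.isGE_of_iso (kap P b).symm b
  have hSLE : t.IsLE ((DerivedCategory.Bounded.ι (C := A)).obj (((sB A).obj P)⟦-b⟧)) b :=
    t.isLE_of_iso (kap P b).symm b
  refine ⟨N, δ, ?_, ?_, ?_⟩
  · refine t.isGE₂ _ (rot_of_distTriang _ hD) a hGE ?_
    have h1 : t.IsGE (((DerivedCategory.Bounded.ι (C := A)).obj
        (((sB A).obj P)⟦-b⟧))⟦(1 : ℤ)⟧) (b - 1) := t.isGE_shift _ b 1 (b - 1) (by omega)
    exact @Triangulated.TStructure.isGE_of_ge _ _ _ _ _ _ _ t _ a (b - 1) (by omega) h1
  · rw [isLE_iff]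
    intro i hi
    have h1 : Epi ((homologyFunctor A i).map
        ((DerivedCategory.Bounded.ι (C := A)).mapTriangle.obj (Triangle.mk u δ h)).mor₂) := by
      rw [HomologySequence.epi_homologyMap_mor₂_iff _ hD i (i + 1) rfl]
      have h2 : IsZero ((homologyFunctor A (i + 1)).obj
          ((DerivedCategory.Bounded.ι (C := A)).mapTriangle.obj (Triangle.mk u δ h)).obj₁) :=
        @isZero_of_isLE A _ _ _ ((DerivedCategory.Bounded.ι (C := A)).obj
          (((sB A).obj P)⟦-b⟧)) b (i + 1) (by omega) hSLE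
      exact h2.eq_of_tgt _ _
    have h3 : (homologyFunctor A i).map
        ((DerivedCategory.Bounded.ι (C := A)).mapTriangle.obj (Triangle.mk u δ h)).mor₂ = 0 := by
      rcases eq_or_lt_of_le (show b ≤ i by omega) with rfl | hlt
      · rw [← HomologySequence.epi_homologyMap_mor₁_iff _ hD b]
        exact hepi2
      · have h4 : IsZero ((homologyFunctor A i).obj
            ((DerivedCategory.Bounded.ι (C := A)).mapTriangle.obj (Triangle.mk u δ h)).obj₂) :=
          @isZero_of_isLE A _ _ _ M.obj b i hlt hLE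
        exact h4.eq_of_src _ _
    exact @IsZero.of_epi_eq_zero _ _ _ _ _ _ h1 h3
  · intro e
    have h1 : u ≫ e = 0 := shift_zero hM (-b) 2 (by omega) (u ≫ e)
    exact Triangle.yoneda_exact₂ _ hT e h1

end

end EMS_

open EMS_ in
theorem ems_proof (hEMB : Stmt_EMB) : Stmt_EMS := by
  intro K _ C _ R _ L hA hB M a b hab hGE hLE
  obtain ⟨H, A₁, hA₁, hcore⟩ := core M a b hab hGE hLE
  obtain ⟨d₁, hd₁⟩ := hA H
  obtain ⟨d₂, hd₂⟩ := hEMB K C R L hB A₁ (b - 1) hA₁
  obtain ⟨d₃, hd₃⟩ := hEMB K C R L hB M b hLE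
  obtain ⟨r, p, hp⟩ := hd₁ (max d₁ (max d₂ d₃)) (le_max_left _ _)
  have hsum : ∀ (X : Db R), (∀ f : (sgB R).obj (L (max d₁ (max d₂ d₃))) ⟶ X, f = 0) →
      ∀ f : (sgB R).obj (⨁ fun _ : Fin r => L (max d₁ (max d₂ d₃))) ⟶ X, f = 0 := by
    intro X hX f
    have h1 : (sgB R).map (∑ k : Fin r, biproduct.π (fun _ : Fin r =>
        L (max d₁ (max d₂ d₃))) k ≫ biproduct.ι (fun _ : Fin r =>
        L (max d₁ (max d₂ d₃))) k) ≫ f = f := by
      rw [biproduct.total, CategoryTheory.Functor.map_id, Category.id_comp]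
    have h2 : (sgB R).Additive := ⟨fun {X Y f g} => by
      apply (DerivedCategory.Bounded.ι (C := Coh R)).map_injective
      exact (DerivedCategory.singleFunctor (Coh R) 0).map_add⟩
    rw [Functor.map_sum, Preadditive.sum_comp] at h1
    rw [← h1]
    refine Finset.sum_eq_zero (fun k _ => ?_)
    rw [CategoryTheory.Functor.map_comp, Category.assoc, hX (_ ≫ f), comp_zero]
  exact hcore _ p hp (hsum _ (hd₂ _ (le_trans (le_max_left _ _) (le_max_right _ _)) _ (by omega)))
    (hsum _ (hd₃ _ (le_trans (le_max_right _ _) (le_max_right _ _)) _ (by omega)))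

end Pool.CRD.Sky
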