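import Pool.Agent.CRD.C.GStmts
import Pool.Agent.CRD.A0.FunL
import Pool.Agent.CRD.A0.FunM

/-!
# CRD, area C: EVP, restriction to a chart on principal sieves
-/

open CategoryTheory Opposite Limits Pretriangulated

namespace Pool.CRD.Sky

namespace EVP_

section

variable {K : Type} [Field K] {C : Type} [Preorder C] {R : PAlg K C}

/-! ### shifts and single objects -/

/-- cohomology of a shift -/
noncomputable def hsh (Y : DPM R) (n i : ℤ) : hD i (Y⟦n⟧) ≅ hD (n + i) Y :=
  ((DerivedCategory.homologyFunctor (PMod R) 0).shiftIso n i (n + i) rfl).app Y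

lemma cohD_shift {Y : DPM R} (h : IsCohD R Y) (n : ℤ) : IsCohD R (Y⟦n⟧) := by
  obtain ⟨⟨a, b, ha, hb⟩, h2⟩ := h
  refine ⟨⟨a - n, b - n, ?_, ?_⟩, fun i => (IsCoh R).prop_of_iso (hsh Y n i).symm (h2 _)⟩
  · rw [DerivedCategory.isGE_iff] at ha ⊢
    exact fun i hi => (ha (n + i) (by omega)).of_iso (hsh Y n i)
  · rw [DerivedCategory.isLE_iff] at hb ⊢
    exact fun i hi => (hb (n + i) (by omega)).of_iso (hsh Y n i)

/-- cohomology of a module -/
noncomputable def hsg (S : PMod R) : hD 0 ((sg R).obj S) ≅ S :=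
  (DerivedCategory.singleFunctorCompHomologyFunctorIso (PMod R) 0).app S

lemma hsg_zero (S : PMod R) (i : ℤ) (hi : i ≠ 0) : IsZero (hD i ((sg R).obj S)) := by
  rcases lt_or_gt_of_ne hi with h | h
  · exact DerivedCategory.isZero_of_isGE _ 0 i h
  · exact DerivedCategory.isZero_of_isLE _ 0 i h

lemma cohD_single {S : PMod R} (hS : IsCoh R S) : IsCohD R ((sg R).obj S) := by
  refine ⟨⟨0, 0, inferInstance, inferInstance⟩, fun i => ?_⟩
  by_cases hi : i = 0
  · subst hi
    exact (IsCoh R).prop_of_iso (hsg S).symm hS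
  · exact isCoh_zero (hsg_zero S i hi)

/-! ### multiplication -/

lemma mulU_isIso {U : LowerSet C} (w : SecOn R U) (M : PMod R)
    (h : ∀ X : Cᵒᵖ, X.unop ∈ U →
      Function.Bijective (fun x : M.obj X => (w.a X • x : M.obj X))) :
    IsIso ((mulU w).app M) := by
  have h1 : Mono ((mulU w).app M) := by
    rw [pmod_mono_iff]
    intro X x y hxy
    have h2 : (w.a X • x.1 : M.obj X) = w.a X • y.1 := congrArg Subtype.val hxy
    apply Subtype.ext
    by_cases hX : X.unop ∈ U
    · exact (h X hX).1 h2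
    · rw [x.2 hX, y.2 hX]
  have h2 : Epi ((mulU w).app M) := by
    rw [pmod_epi_iff]
    intro X y
    by_cases hX : X.unop ∈ U
    · obtain ⟨x, hx⟩ := (h X hX).2 y.1
      exact ⟨⟨x, fun h' => absurd hX h'⟩, Subtype.ext hx⟩
    · refine ⟨0, ?_⟩
      rw [map_zero]
      exact Subtype.ext (y.2 hX).symm
  exact isIso_of_mono_of_epi _

lemma isIso_zero {U : LowerSet C} (w : SecOn R U) {M : PMod R} (h : IsZero M) :
    IsIso ((mulU w).app M) := by
  have h1 := (tr R U).map_isZero h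
  exact ⟨0, h1.eq_of_src _ _, h1.eq_of_src _ _⟩

lemma mulD_isIso {U : LowerSet C} (w : SecOn R U) (S : PMod R) (h : IsIso ((mulU w).app S))
    (n : ℤ) : IsIso ((mulD w).app (((sg R).obj S)⟦n⟧)) := by
  apply Pool.CRD.natD_isIso
  intro i
  have e := hsh ((sg R).obj S) n i
  by_cases hi : n + i = 0
  · rw [hi] at e
    exact (NatTrans.isIso_app_iff_of_iso (mulU w) (e ≪≫ hsg S)).2 h
  · exact isIso_zero w ((hsg_zero S _ hi).of_iso e)

lemma mulD_isIso0 {U : LowerSet C} (w : SecOn R U) (S : PMod R) (h : IsIso ((mulU w).app S)) :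
    IsIso ((mulD w).app ((sg R).obj S)) := by
  apply Pool.CRD.natD_isIso
  intro i
  by_cases hi : i = 0
  · subst hi
    exact (NatTrans.isIso_app_iff_of_iso (mulU w) (hsg S)).2 h
  · exact isIso_zero w (hsg_zero S _ hi)

lemma itr_isIso {T : Type*} [Category T] {A : T} (f : A ⟶ A) [IsIso f] (k : ℕ) :
    IsIso (itr f k) := by
  induction k with
  | zero => exact inferInstanceAs (IsIso (𝟙 A))
  | succ k ih => exact inferInstanceAs (IsIso (f ≫ itr f k))

lemma itr_nat {T : Type*} [Category T] {A B : T} (f : A ⟶ A) (g : B ⟶ B) (φ : A ⟶ B)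
    (h : f ≫ φ = φ ≫ g) (k : ℕ) : itr f k ≫ φ = φ ≫ itr g k := by
  induction k with
  | zero => exact (Category.id_comp φ).trans (Category.comp_id φ).symm
  | succ k ih =>
    change (f ≫ itr f k) ≫ φ = φ ≫ g ≫ itr g k
    rw [Category.assoc, ih, ← Category.assoc, h, Category.assoc]

lemma mulD_trDLE {U D : LowerSet C} (hD : D ≤ U) (w : SecOn R U) (X : DPM R) :
    (mulD (w.res hD)).app X ≫ (trDLE R hD).app X = (trDLE R hD).app X ≫ (mulD w).app X := by
  unfold mulD trDLE
  rw [FunL.natD_comp_app, FunL.natD_comp_app]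
  rfl

/-- the transformation `(M_U)_D ⟶ M_U` -/
noncomputable def whi (U D : LowerSet C) : tr R U ⋙ tr R D ⟶ tr R U :=
  Functor.whiskerLeft (tr R U) (trι R D) ≫ (Functor.rightUnitor _).hom

lemma trDι_trD (U D : LowerSet C) (X : DPM R) :
    (trDι R D).app ((trD R U).obj X) =
      (FunL.compD (tr R U) (tr R D)).hom.app X ≫ (natD (whi U D)).app X :=
  FunL.natDid_app_mD _ _ _

lemma mul_whi {U D : LowerSet C} (hD : D ≤ U) (w : SecOn R U) :
    Functor.whiskerLeft (tr R U) (mulU (w.res hD)) ≫ whi U D = whi U D ≫ mulU w := rfl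

lemma mul_ι {U D : LowerSet C} (hD : D ≤ U) (w : SecOn R U) (X : DPM R) :
    (mulD (w.res hD)).app ((trD R U).obj X) ≫ (trDι R D).app ((trD R U).obj X) =
      (trDι R D).app ((trD R U).obj X) ≫ (mulD w).app X := by
  rw [trDι_trD]
  unfold mulD
  rw [FunL.natD_whiskerLeft_app_assoc, FunL.natD_comp_app, Category.assoc, FunL.natD_comp_app,
    mul_whi]

lemma ι_isIso (D : LowerSet C) (X : DPM R) : IsIso ((trDι R D).app ((trD R D).obj X)) := by
  apply FunL.isIso_natDid_mD
  intro M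
  refine ⟨mkHom (M := trObj D M) (N := trObj D (trObj D M))
    (fun X => { toFun := fun x => (⟨x, fun h => Subtype.ext (x.2 h)⟩ : trSub D (trObj D M) X)
                map_add' := fun x y => rfl
                map_smul' := fun r x => rfl })
    (fun f x => rfl), rfl, rfl⟩

/-- morphisms from `X_D` to `T_U` commute with the multiplication -/
lemma mul_comm' {U D : LowerSet C} (hD : D ≤ U) (w : SecOn R U) {X T : DPM R}
    (g : (trD R D).obj X ⟶ (trD R U).obj T) :
    (mulD (w.res hD)).app X ≫ g = g ≫ (mulD w).app T := by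
  have h0 := ι_isIso D X
  have h1 := mul_ι (le_refl D) (w.res hD) X
  have h2 := mul_ι hD w T
  have h3 := (mulD (w.res hD)).naturality g
  have h4 := (trDι R D).naturality g
  dsimp only [Functor.id_map] at h4
  rw [← cancel_epi ((trDι R D).app ((trD R D).obj X)), ← Category.assoc, ← h1, Category.assoc,
    ← h4]
  change (mulD (w.res hD)).app ((trD R D).obj X) ≫ (trD R D).map g ≫ _ = _
  rw [← Category.assoc, ← h3, Category.assoc, h2, ← Category.assoc, h4, Category.assoc]

end

section Main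

variable {K : Type} [Field K] {C : Type} [SemilatticeInf C] {R : PAlg K C}

lemma restr_eq (hTRF : Stmt_TRF) (hTRH : Stmt_TRH) (U V : LowerSet C) (X : DPM R) :
    ∃ e : (trD R U).obj ((trD R V).obj X) ≅ (trD R (U ⊓ V)).obj X,
      (trD R U).map ((trDι R V).app X) =
        e.hom ≫ (trDLE R (inf_le_left : U ⊓ V ≤ U)).app X := by
  obtain ⟨-, -, h3, -, h5, -⟩ := hTRF K C R
  obtain ⟨e, he⟩ := h5 U V X
  refine ⟨e, ?_⟩
  apply (hTRH K C R U U le_rfl ((trD R V).obj X) X).1
  dsimp only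
  have h7 := congr_app (h3 (U ⊓ V) U inf_le_left) X
  rw [NatTrans.comp_app] at h7
  rw [Category.assoc, h7, he]
  exact (trDι R U).naturality ((trDι R V).app X)

lemma bijA (hLOC : Stmt_LOC) [Finite C] [R.Good] {U D : LowerSet C} (hD : D ≤ U) (w : SecOn R U)
    (hw : IsDOn R U D w) {X T : DPM R} (hX : IsCohD R X) (hT : IsCohD R T)
    (h1 : IsIso ((mulD w).app X)) (h2 : IsIso ((mulD (w.res hD)).app X)) :
    Function.Bijective (fun f : (trD R U).obj X ⟶ T => (trDLE R hD).app X ≫ f) := by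
  obtain ⟨L1, L2⟩ := hLOC K C R U D hD w hw X T hX hT
  constructor
  · intro f g hfg
    dsimp only at hfg
    obtain ⟨k, hk⟩ := L1 (f - g) (by rw [Preadditive.comp_sub, hfg, sub_self])
    have := itr_isIso ((mulD w).app X) k
    rw [← sub_eq_zero, ← cancel_epi (itr ((mulD w).app X) k), hk, comp_zero]
  · intro g
    obtain ⟨k, f, hf⟩ := L2 g
    have i1 := itr_isIso ((mulD w).app X) k
    have i2 := itr_isIso ((mulD (w.res hD)).app X) k
    refine ⟨inv (itr ((mulD w).app X) k) ≫ f, ?_⟩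
    dsimp only
    have h3 := itr_nat _ _ _ (mulD_trDLE hD w X) k
    rw [← cancel_epi (itr ((mulD (w.res hD)).app X) k), hf, ← Category.assoc, h3,
      Category.assoc, IsIso.hom_inv_id_assoc]

lemma bijB (hTRH : Stmt_TRH) (hLOC : Stmt_LOC) [Finite C] [R.Good] {U D : LowerSet C}
    (hD : D ≤ U) (w : SecOn R U)
    (hw : IsDOn R U D w) {X T : DPM R} (hX : IsCohD R X) (hT : IsCohD R T)
    (h1 : IsIso ((mulD w).app T)) :
    Function.Bijective (fun f : (trD R U).obj X ⟶ T => (trDLE R hD).app X ≫ f) := by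
  obtain ⟨L1, L2⟩ := hLOC K C R U D hD w hw X T hX hT
  constructor
  · intro f g hfg
    dsimp only at hfg
    obtain ⟨k, hk⟩ := L1 (f - g) (by rw [Preadditive.comp_sub, hfg, sub_self])
    have := itr_isIso ((mulD w).app T) k
    obtain ⟨f', hf'⟩ := (hTRH K C R U U le_rfl X T).2 (f - g)
    dsimp only at hf'
    have h3 : itr ((mulD w).app X) k ≫ f' = f' ≫ itr ((mulD w).app T) k :=
      itr_nat _ _ _ (mul_comm' (le_refl U) w f') k
    have h4 : itr ((mulD w).app X) k ≫ f' = 0 := by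
      apply (hTRH K C R U U le_rfl X T).1
      dsimp only
      rw [Category.assoc, hf', hk, zero_comp]
    rw [h3] at h4
    have h5 : f' = 0 := by
      rw [← cancel_mono (itr ((mulD w).app T) k), h4, zero_comp]
    rw [← sub_eq_zero, ← hf', h5, zero_comp]
  · intro g
    obtain ⟨k, f, hf⟩ := L2 g
    have i1 := itr_isIso ((mulD w).app T) k
    obtain ⟨f', hf'⟩ := (hTRH K C R U U le_rfl X T).2 f
    obtain ⟨g', hg'⟩ := (hTRH K C R D U hD X T).2 g
    dsimp only at hf' hg'
    have h3 : itr ((mulD (w.res hD)).app X) k ≫ g' = g' ≫ itr ((mulD w).app T) k :=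
      itr_nat _ _ _ (mul_comm' hD w g') k
    have h4 : itr ((mulD (w.res hD)).app X) k ≫ g' = (trDLE R hD).app X ≫ f' := by
      apply (hTRH K C R D U hD X T).1
      dsimp only
      rw [Category.assoc, hg', Category.assoc, hf', hf]
    refine ⟨f' ≫ inv (itr ((mulD w).app T) k) ≫ (trDι R U).app T, ?_⟩
    dsimp only
    rw [← Category.assoc, ← h4, h3, Category.assoc, IsIso.hom_inv_id_assoc, hg']

open Classical in
/-- a function on the chart `s` as a function on the sieve `Iic s` -/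
noncomputable def wOn (s : C) (w : R.ring s) : SecOn R (LowerSet.Iic s) where
  a X := if h : X.unop ≤ s then (R.map (homOfLE h).op).hom w else (0 : R.obj X)
  compat {X Y} f hX := by
    have hX' : X.unop ≤ s := hX
    have hY : Y.unop ≤ s := (leOfHom f.unop).trans hX'
    rw [dif_pos hX', dif_pos hY]
    have h := R.map_comp (homOfLE hX').op f
    exact (congr(($h).hom w)).symm

lemma wOn_a (s : C) (w : R.ring s) (t : C) (h : t ≤ s) :
    (wOn s w).a (op t) = (R.map (homOfLE h).op).hom w := dif_pos h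

lemma wOn_isDOn (V s : C) (w : R.ring s) (hw : ∀ (t : C) (h : t ≤ s),
    letI := (R.map (homOfLE (inf_le_left : t ⊓ V ≤ t)).op).hom.toRingHom.toAlgebra
    IsLocalization.Away ((R.map (homOfLE h).op).hom w) (R.ring (t ⊓ V))) :
    IsDOn R (LowerSet.Iic s) (LowerSet.Iic s ⊓ LowerSet.Iic V) (wOn s w) := by
  intro t ht
  refine ⟨t ⊓ V, inf_le_left, ⟨inf_le_left.trans ht, inf_le_right⟩,
    fun W hW hW' => le_inf hW hW'.2, ?_⟩
  rw [wOn_a s w t ht]
  exact hw t ht

lemma wOn_bij (V s : C) (w : R.ring s) (hw : ∀ (t : C) (h : t ≤ s),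
    letI := (R.map (homOfLE (inf_le_left : t ⊓ V ≤ t)).op).hom.toRingHom.toAlgebra
    IsLocalization.Away ((R.map (homOfLE h).op).hom w) (R.ring (t ⊓ V)))
    (S : PMod R) (hS : SuppIn V S) (X : Cᵒᵖ) (hX : X.unop ∈ LowerSet.Iic s) :
    Function.Bijective (fun x : S.obj X => ((wOn s w).a X • x : S.obj X)) := by
  obtain ⟨t⟩ := X
  replace hX : t ≤ s := hX
  have hb := hS t
  have hu : IsUnit ((R.map (homOfLE (inf_le_left : t ⊓ V ≤ t)).op).hom
      ((R.map (homOfLE hX).op).hom w)) := by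
    letI := (R.map (homOfLE (inf_le_left : t ⊓ V ≤ t)).op).hom.toRingHom.toAlgebra
    have := hw t hX
    exact IsLocalization.Away.algebraMap_isUnit (S := R.ring (t ⊓ V))
      ((R.map (homOfLE hX).op).hom w)
  obtain ⟨u, hu⟩ := hu
  obtain ⟨v, hu1, hu2⟩ : ∃ v : R.toRing.obj (op (t ⊓ V)),
      v * R.toRing.map (homOfLE (inf_le_left : t ⊓ V ≤ t)).op ((wOn s w).a (op t)) = 1 ∧
      R.toRing.map (homOfLE (inf_le_left : t ⊓ V ≤ t)).op ((wOn s w).a (op t)) * v = 1 := by
    rw [wOn_a s w t hX]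
    have e1 : ∃ v : R.obj (op (t ⊓ V)), v * (R.map (homOfLE (inf_le_left : t ⊓ V ≤ t)).op).hom
        ((R.map (homOfLE hX).op).hom w) = 1 ∧
        (R.map (homOfLE (inf_le_left : t ⊓ V ≤ t)).op).hom ((R.map (homOfLE hX).op).hom w) * v =
          1 := ⟨((u⁻¹ : (R.obj (op (t ⊓ V)))ˣ) : R.obj (op (t ⊓ V))), by rw [← hu, u.inv_mul],
        by rw [← hu, u.mul_inv]⟩
    exact e1
  constructor
  · intro x y hxy
    dsimp only at hxy
    apply hb.1
    have h1 := congrArg (rs S (homOfLE (inf_le_left : t ⊓ V ≤ t)).op) hxy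
    rw [rs_smul, rs_smul] at h1
    have h2 := congrArg (fun z => v • z) h1
    dsimp only at h2
    rwa [smul_smul, smul_smul, hu1, one_smul, one_smul] at h2
  · intro y
    obtain ⟨x, hx⟩ := hb.2 (v • rs S (homOfLE (inf_le_left : t ⊓ V ≤ t)).op y)
    refine ⟨x, hb.1 ?_⟩
    dsimp only
    rw [rs_smul, hx, smul_smul, hu2, one_smul]

end Main

end EVP_

open EVP_ in
/-- EVP: restriction to the chart `V`, principal sieves -/
theorem evp_proof (hTRF : Stmt_TRF) (hTRH : Stmt_TRH) (hLOC : Stmt_LOC) : Stmt_EVP := by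
  intro K _ C _ _ R _ V hV S hS hSV Y hY s
  obtain ⟨w, hw⟩ := hV s
  have hD := wOn_isDOn V s w hw
  have h1 : IsIso ((mulU (wOn s w)).app S) := mulU_isIso _ S (wOn_bij V s w hw S hSV)
  have h2 : IsIso ((mulU ((wOn s w).res
      (inf_le_left : LowerSet.Iic s ⊓ LowerSet.Iic V ≤ LowerSet.Iic s))).app S) :=
    mulU_isIso _ S (fun X hX => wOn_bij V s w hw S hSV X hX.1)
  have key : ∀ (X T : DPM R), Function.Bijective (fun f : (trD R (LowerSet.Iic s)).obj X ⟶ T =>
      (trDLE R (inf_le_left : LowerSet.Iic s ⊓ LowerSet.Iic V ≤ LowerSet.Iic s)).app X ≫ f) →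
      Function.Bijective (fun f : (trD R (LowerSet.Iic s)).obj X ⟶ T =>
        (trD R (LowerSet.Iic s)).map ((trDι R (LowerSet.Iic V)).app X) ≫ f) := by
    intro X T hb
    obtain ⟨e, he⟩ := restr_eq hTRF hTRH (LowerSet.Iic s) (LowerSet.Iic V) X
    constructor
    · intro f g hfg
      apply hb.1
      dsimp only at hfg ⊢
      rwa [he, Category.assoc, Category.assoc, cancel_epi] at hfg
    · intro g
      obtain ⟨f, hf⟩ := hb.2 (e.inv ≫ g)
      refine ⟨f, ?_⟩
      dsimp only at hf ⊢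
      rw [he, Category.assoc, hf, e.hom_inv_id_assoc]
  constructor
  · intro n
    exact key _ _ (bijA hLOC inf_le_left (wOn s w) hD (cohD_single hS) (cohD_shift hY n)
      (mulD_isIso0 _ S h1) (mulD_isIso0 _ S h2))
  · intro n
    exact key _ _ (bijB hTRH hLOC inf_le_left (wOn s w) hD hY (cohD_shift (cohD_single hS) n)
      (mulD_isIso _ S h1 n))

end Pool.CRD.Sky
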