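import Pool.Agent.CRD.C.GStmts

/-!
# CRD, area C: evaluation at a chart on modules supported there
-/

open CategoryTheory Opposite Limits Pretriangulated

namespace Pool.CRD.Sky

namespace EVS_

section
variable {K : Type} [Field K] {C : Type} [SemilatticeInf C] {R : PAlg K C}

theorem bij_comp_iso {A : Type*} [Category A] {X X' Y Y' : A} (e : X ≅ X') (e' : Y ≅ Y') :
    Function.Bijective (fun f : X ⟶ Y => e.inv ≫ f ≫ e'.hom) := by
  constructor
  · intro f g h
    have h1 : e.inv ≫ f ≫ e'.hom = e.inv ≫ g ≫ e'.hom := h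
    simpa using h1
  · intro f
    exact ⟨e.hom ≫ f ≫ e'.inv, by simp⟩

/-- transport of `SieveBij` along isomorphisms -/
theorem sieve_iso {X X' Y Y' : DPM R} (e : X ≅ X') (e' : Y ≅ Y') {V : C} {U : LowerSet C}
    (h : SieveBij X' Y' V U) : SieveBij X Y V U := by
  intro n
  have h1 := h n
  let eX : (trD R U).obj X ≅ (trD R U).obj X' := (trD R U).mapIso e
  let eV : (trD R U).obj ((trD R (LowerSet.Iic V)).obj X) ≅
    (trD R U).obj ((trD R (LowerSet.Iic V)).obj X') :=
    (trD R U).mapIso ((trD R (LowerSet.Iic V)).mapIso e)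
  let eY : Y⟦n⟧ ≅ Y'⟦n⟧ := (shiftFunctor _ n).mapIso e'
  have h2 := bij_comp_iso eX eY
  have h3 := bij_comp_iso eV eY
  have h4 : (fun f : (trD R U).obj X ⟶ Y⟦n⟧ => eV.inv ≫
      ((trD R U).map ((trDι R (LowerSet.Iic V)).app X) ≫ f) ≫ eY.hom) =
      (fun f : (trD R U).obj X ⟶ Y⟦n⟧ => (trD R U).map ((trDι R (LowerSet.Iic V)).app X') ≫
        (eX.inv ≫ f ≫ eY.hom)) := by
    funext f
    have h5 : eV.inv ≫ (trD R U).map ((trDι R (LowerSet.Iic V)).app X) =
        (trD R U).map ((trDι R (LowerSet.Iic V)).app X') ≫ eX.inv := by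
      change (trD R U).map ((trD R (LowerSet.Iic V)).map e.inv) ≫ _ = _ ≫ (trD R U).map e.inv
      rw [← Functor.map_comp, ← Functor.map_comp, (trDι R (LowerSet.Iic V)).naturality]
      rfl
    simp only [Category.assoc]
    rw [← Category.assoc, h5, Category.assoc]
  have h5 : Function.Bijective (fun f : (trD R U).obj X ⟶ Y⟦n⟧ => eV.inv ≫
      ((trD R U).map ((trDι R (LowerSet.Iic V)).app X) ≫ f) ≫ eY.hom) := by
    rw [h4]
    exact h1.comp h2
  exact (Function.Bijective.of_comp_iff' h3 _).1 h5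

end

end EVS_

open EVS_ in
theorem evs_proof (hEVP : Stmt_EVP) (hEVU : Stmt_EVU) (hEVB : Stmt_EVB) (hTRF : Stmt_TRF)
    (hFFD : Stmt_FFD) : Stmt_EVS := by
  intro K _ C _ _ R _ hE V hloc S hsupp M
  obtain ⟨hfull, hfaith, hess⟩ := hFFD K C R hE
  obtain ⟨-, -, -, -, -, -, hTR, -⟩ := hTRF K C R
  have hiso : (ιD R).obj ((sgB R).obj S) ≅ (sg R).obj S.obj :=
    ((IsCoh R).ι.mapDerivedCategorySingleFunctor 0).app S
  -- the general statement on DPM
  have key : ∀ X Y : DPM R, IsCohD R X → (∀ s : C, SieveBij X Y V (LowerSet.Iic s)) →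
      Function.Bijective (fun f : X ⟶ Y => (evD R (op V)).map f) := by
    intro X Y hX hs
    have h1 := hEVU K C R V X Y hs 0
    have h2 : Function.Bijective (fun f : X ⟶ Y => (trDι R (LowerSet.Iic V)).app X ≫ f) := by
      let z : Y⟦(0 : ℤ)⟧ ≅ Y := (shiftFunctorZero (DPM R) ℤ).app Y
      have h3 := bij_comp_iso (Iso.refl X) z.symm
      have h4 := bij_comp_iso (Iso.refl ((trD R (LowerSet.Iic V)).obj X)) z
      have h5 : (fun f : X ⟶ Y => (trDι R (LowerSet.Iic V)).app X ≫ f) =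
          (fun g : (trD R (LowerSet.Iic V)).obj X ⟶ Y⟦(0 : ℤ)⟧ =>
            (Iso.refl ((trD R (LowerSet.Iic V)).obj X)).inv ≫ g ≫ z.hom) ∘
          (fun f : X ⟶ Y⟦(0 : ℤ)⟧ => (trDι R (LowerSet.Iic V)).app X ≫ f) ∘
          (fun f : X ⟶ Y => (Iso.refl X).inv ≫ f ≫ z.symm.hom) := by
        funext f
        simp
      rw [h5]
      exact h4.comp (h1.comp h3)
    have h6 := hEVB K C R V X Y (fun n W h => (hX.2 n).2 _)
    have h7 : IsIso ((evD R (op V)).map ((trDι R (LowerSet.Iic V)).app X)) :=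
      hTR (LowerSet.Iic V) V (by simp) X
    have h8 := h6.comp h2
    let w := asIso ((evD R (op V)).map ((trDι R (LowerSet.Iic V)).app X))
    have h9 : ((fun f : (trD R (LowerSet.Iic V)).obj X ⟶ Y => (evD R (op V)).map f) ∘
        fun f : X ⟶ Y => (trDι R (LowerSet.Iic V)).app X ≫ f) =
        (fun g : (evD R (op V)).obj X ⟶ (evD R (op V)).obj Y => w.hom ≫ g) ∘
        fun f : X ⟶ Y => (evD R (op V)).map f := by
      funext f
      simp [w]
    rw [h9] at h8
    have h10 : Function.Bijective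
        (fun g : (evD R (op V)).obj X ⟶ (evD R (op V)).obj Y => w.hom ≫ g) := by
      have h11 := bij_comp_iso w.symm (Iso.refl ((evD R (op V)).obj Y))
      simpa using h11
    exact (Function.Bijective.of_comp_iff' h10 _).1 h8
  have hcoh : ∀ N : Db R, IsCohD R ((ιD R).obj N) := fun N => (hess _).2 ⟨N, ⟨Iso.refl _⟩⟩
  have hff : ∀ N N' : Db R, Function.Bijective (fun f : N ⟶ N' => (ιD R).map f) := fun N N' =>
    ⟨fun f g h => (ιD R).map_injective h, fun g => ⟨(ιD R).preimage g, (ιD R).map_preimage g⟩⟩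
  constructor
  · have h1 := key ((ιD R).obj ((sgB R).obj S)) ((ιD R).obj M) (hcoh _) (fun s =>
      sieve_iso hiso (Iso.refl _) (hEVP K C R V hloc S.obj S.property hsupp _ (hcoh M) s).1)
    exact h1.comp (hff _ _)
  · have h1 := key ((ιD R).obj M) ((ιD R).obj ((sgB R).obj S)) (hcoh _) (fun s =>
      sieve_iso (Iso.refl _) hiso (hEVP K C R V hloc S.obj S.property hsupp _ (hcoh M) s).2)
    exact h1.comp (hff _ _)

end Pool.CRD.Sky
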