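import Pool.Agent.CRD.C.GStmts

/-!
# CRD C, module EVU: from principal sieves to everything
-/

open CategoryTheory Opposite Limits Pretriangulated Abelian

namespace Pool.CRD.Sky

namespace EVU_

section
variable {D : Type*} [Category* D] [Preadditive D] [HasZeroObject D] [HasShift D ℤ]
  [∀ n : ℤ, (shiftFunctor D n).Additive] [Pretriangulated D]

/-- morphisms from `A⟦1⟧` to `Y⟦n⟧` -/
lemma unshift {A Y : D} (n : ℤ) (g : A⟦(1 : ℤ)⟧ ⟶ Y⟦n⟧) : ∃ g' : A ⟶ Y⟦n - 1⟧,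
    g = g'⟦(1 : ℤ)⟧' ≫ (shiftFunctorAdd' D (n - 1) 1 n (by omega)).inv.app Y := by
  obtain ⟨g', hg'⟩ := (shiftFunctor D (1 : ℤ)).map_surjective
    (g ≫ (shiftFunctorAdd' D (n - 1) 1 n (by omega)).hom.app Y)
  refine ⟨g', ?_⟩
  rw [hg', Category.assoc, Iso.hom_inv_id_app, Category.comp_id]

lemma zero_of_unshift {A Y : D} (h : ∀ (n : ℤ) (f : A ⟶ Y⟦n⟧), f = 0) (n : ℤ)
    (g : A⟦(1 : ℤ)⟧ ⟶ Y⟦n⟧) : g = 0 := by
  obtain ⟨g', hg'⟩ := unshift n g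
  rw [hg', h _ g', Functor.map_zero, zero_comp]

lemma third_zero (T : Triangle D) (hT : T ∈ distTriang D) {Y : D}
    (h : ∀ n : ℤ, Function.Bijective (fun f : T.obj₂ ⟶ Y⟦n⟧ => T.mor₁ ≫ f)) (n : ℤ)
    (f : T.obj₃ ⟶ Y⟦n⟧) : f = 0 := by
  have h1 : T.mor₂ ≫ f = 0 := by
    apply (h n).1
    change T.mor₁ ≫ T.mor₂ ≫ f = T.mor₁ ≫ 0
    rw [← Category.assoc, comp_distTriang_mor_zero₁₂ _ hT, zero_comp, comp_zero]
  obtain ⟨g, hg⟩ := Triangle.yoneda_exact₃ _ hT f h1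
  obtain ⟨g', hg'⟩ := unshift n g
  obtain ⟨k, hk⟩ := (h (n - 1)).2 g'
  change T.mor₁ ≫ k = g' at hk
  rw [hg, hg', ← hk, Functor.map_comp, Category.assoc, ← Category.assoc T.mor₃,
    comp_distTriang_mor_zero₃₁ _ hT, zero_comp]

lemma bij_of_third (T : Triangle D) (hT : T ∈ distTriang D) {Y : D}
    (h : ∀ (n : ℤ) (f : T.obj₃ ⟶ Y⟦n⟧), f = 0) (n : ℤ) :
    Function.Bijective (fun f : T.obj₂ ⟶ Y⟦n⟧ => T.mor₁ ≫ f) := by
  constructor
  · intro f g hfg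
    have h1 : T.mor₁ ≫ (f - g) = 0 := by
      rw [Preadditive.comp_sub, sub_eq_zero]
      exact hfg
    obtain ⟨k, hk⟩ := Triangle.yoneda_exact₂ _ hT (f - g) h1
    rw [h n k, comp_zero, sub_eq_zero] at hk
    exact hk
  · intro g
    have h1 : T.mor₃ ≫ g⟦(1 : ℤ)⟧' = 0 := by
      have := h (n + 1) (T.mor₃ ≫ g⟦(1 : ℤ)⟧' ≫ (shiftFunctorAdd' D n 1 (n + 1) rfl).inv.app Y)
      rw [← Category.assoc] at this
      have h2 := congrArg (fun z => z ≫ (shiftFunctorAdd' D n 1 (n + 1) rfl).hom.app Y) this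
      simpa using h2
    obtain ⟨k, hk⟩ := Triangle.yoneda_exact₃ _ (rot_of_distTriang _ hT) (g⟦(1 : ℤ)⟧') h1
    obtain ⟨k', hk'⟩ : ∃ k' : T.obj₂ ⟶ Y⟦n⟧, (shiftFunctor D (1 : ℤ)).map k' = k :=
      (shiftFunctor D (1 : ℤ)).map_surjective k
    refine ⟨-k', ?_⟩
    apply (shiftFunctor D (1 : ℤ)).map_injective
    rw [hk, ← hk']
    change (shiftFunctor D (1 : ℤ)).map (T.mor₁ ≫ (-k')) =
      (-(shiftFunctor D (1 : ℤ)).map T.mor₁) ≫ _
    rw [Functor.map_comp, Functor.map_neg]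
    simp

omit [HasShift D ℤ] [∀ n : ℤ, (shiftFunctor D n).Additive] [Pretriangulated D] in
lemma zero_of_biprod {A B Y : D} [HasBinaryBiproduct A B] (f : A ⊞ B ⟶ Y)
    (h1 : biprod.inl ≫ f = 0) (h2 : biprod.inr ≫ f = 0) : f = 0 := by
  apply biprod.hom_ext'
  · rw [h1, comp_zero]
  · rw [h2, comp_zero]

lemma mid_zero (T : Triangle D) (hT : T ∈ distTriang D) {Y : D}
    (h2 : ∀ (n : ℤ) (f : T.obj₂ ⟶ Y⟦n⟧), f = 0)
    (h1 : ∀ (n : ℤ) (f : T.obj₁ ⟶ Y⟦n⟧), f = 0) (n : ℤ)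
    (f : T.obj₃ ⟶ Y⟦n⟧) : f = 0 := by
  obtain ⟨g, hg⟩ := Triangle.yoneda_exact₃ _ hT f (h2 n _)
  rw [hg, zero_of_unshift h1 n g, comp_zero]

end

end EVU_

/-- restriction to the chart `V`, from principal sieves to everything -/
theorem evu_proof (hIND : Stmt_IND) (hMVT : Stmt_MVT) (hTRF : Stmt_TRF) : Stmt_EVU := by
  intro K _ C _ _ R V X Y h
  obtain ⟨hTop, hBot, -⟩ := hTRF K C R
  obtain ⟨Z, g, w, hT⟩ := distinguished_cocone_triangle ((trDι R (LowerSet.Iic V)).app X)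
  have hQ : ∀ U : LowerSet C, ∀ (n : ℤ) (f : (trD R U).obj Z ⟶ Y⟦n⟧), f = 0 := by
    refine hIND C _ ?_ ?_ ?_
    · intro n f
      exact (hBot Z).eq_of_src _ _
    · intro s
      exact EVU_.third_zero ((trD R (LowerSet.Iic s)).mapTriangle.obj
        (Triangle.mk ((trDι R (LowerSet.Iic V)).app X) g w))
        ((trD R (LowerSet.Iic s)).map_distinguished _ hT) (h s)
    · intro U W hU hW hUW
      obtain ⟨mv⟩ := hMVT K C R U W
      refine EVU_.mid_zero _ (mv.dist Z) ?_ hUW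
      intro n f
      exact EVU_.zero_of_biprod _ (hU n _) (hW n _)
  refine EVU_.bij_of_third (Triangle.mk ((trDι R (LowerSet.Iic V)).app X) g w) hT ?_
  intro n f
  have h1 := hQ ⊤ n ((trDι R ⊤).app Z ≫ f)
  haveI := hTop Z
  exact (cancel_epi ((trDι R ⊤).app Z)).1 (h1.trans comp_zero.symm)

end Pool.CRD.Sky
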