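import Pool.Agent.CRD.C.GStmts

open CategoryTheory Opposite Limits Pretriangulated Abelian

namespace Pool.CRD.Sky

namespace EXD_

section Lin
variable {K : Type*} [Field K] {V₁ V₂ W U₁ U₂ W' : Type*} [AddCommGroup V₁] [AddCommGroup V₂]
  [AddCommGroup W] [AddCommGroup U₁] [AddCommGroup U₂] [AddCommGroup W'] [Module K V₁]
  [Module K V₂] [Module K W] [Module K U₁] [Module K U₂] [Module K W']

lemma tr_bij (B : V₁ →ₗ[K] V₂ →ₗ[K] W) (B' : U₁ →ₗ[K] U₂ →ₗ[K] W') (e : V₁ ≃ₗ[K] U₁)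
    (f : V₂ ≃ₗ[K] U₂) (g : W ≃ₗ[K] W') (h : ∀ x y, B' (e x) (f y) = g (B x y))
    (hB : Function.Bijective B) : Function.Bijective B' := by
  constructor
  · rw [injective_iff_map_eq_zero]
    intro x' hx'
    have h1 : B (e.symm x') = 0 := by
      ext y
      apply g.injective
      rw [← h, e.apply_symm_apply, hx']
      simp
    have h2 : e.symm x' = 0 := hB.1 (by rw [h1, map_zero])
    rw [← e.apply_symm_apply x', h2, map_zero]
  · intro μ
    obtain ⟨x, hx⟩ := hB.2 ((g.symm.toLinearMap.comp μ).comp f.toLinearMap)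
    refine ⟨e x, ?_⟩
    ext y
    obtain ⟨y, rfl⟩ := f.surjective y
    rw [h, hx]
    simp

lemma bij_of_subsingleton (B : V₁ →ₗ[K] V₂ →ₗ[K] W) [Subsingleton V₁] [Subsingleton V₂] :
    Function.Bijective B := by
  constructor
  · intro x y _
    exact Subsingleton.elim _ _
  · intro μ
    refine ⟨0, ?_⟩
    ext y
    rw [Subsingleton.elim y 0, map_zero, map_zero]

end Lin

section Cat
variable {K : Type} [Field K] {T : Type*} [Category T] [Preadditive T] [Linear K T]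

/-- composition with an isomorphism -/
noncomputable def postIso (X : T) {Y Z : T} (e : Y ≅ Z) : (X ⟶ Y) ≃ₗ[K] (X ⟶ Z) where
  toFun f := f ≫ e.hom
  invFun f := f ≫ e.inv
  map_add' f g := Preadditive.add_comp _ _ _ _ _ _
  map_smul' c f := Linear.smul_comp _ _ _ _ _ _
  left_inv f := by simp
  right_inv f := by simp

variable [HasShift T ℤ] [∀ n : ℤ, (shiftFunctor T n).Additive]
  [∀ n : ℤ, (shiftFunctor T n).Linear K]

/-- the shift functor on morphisms -/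
noncomputable def shEq (X Y : T) (n : ℤ) : (X ⟶ Y) ≃ₗ[K] (X⟦n⟧ ⟶ Y⟦n⟧) :=
  { (Functor.FullyFaithful.ofFullyFaithful (shiftFunctor T n)).homEquiv with
    map_add' := fun _ _ => Functor.map_add _
    map_smul' := fun _ _ => Functor.map_smul _ _ _ }

omit [∀ n : ℤ, (shiftFunctor T n).Additive] in
lemma shEq_apply [∀ n : ℤ, (shiftFunctor T n).Additive] (X Y : T) (n : ℤ) (f : X ⟶ Y) :
    shEq (K := K) X Y n f = f⟦n⟧' := rfl

end Cat

section Ab
variable {K : Type} [Field K] {A : Type} [CommRing A] [Algebra K A]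

lemma neg_vanish (k M : ModuleCat.{0} A) (n : ℤ) (hn : n < 0) :
    Subsingleton ((DerivedCategory.singleFunctor (ModuleCat.{0} A) 0).obj k ⟶ ((DerivedCategory.singleFunctor (ModuleCat.{0} A) 0).obj M)⟦n⟧) := by
  refine ⟨fun f g => ?_⟩
  have h1 : DerivedCategory.TStructure.t.IsGE (((DerivedCategory.singleFunctor (ModuleCat.{0} A) 0).obj M)⟦n⟧) (-n) :=
    DerivedCategory.TStructure.t.isGE_shift _ 0 n (-n)
  rw [DerivedCategory.TStructure.t.zero f 0 (-n), DerivedCategory.TStructure.t.zero g 0 (-n)]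

lemma ext_vanish (k M : ModuleCat.{0} A) (n : ℤ) (m : ℕ) (h : (m : ℤ) = n)
    (hn : Subsingleton (Ext k M m)) : Subsingleton ((DerivedCategory.singleFunctor (ModuleCat.{0} A) 0).obj k ⟶ ((DerivedCategory.singleFunctor (ModuleCat.{0} A) 0).obj M)⟦n⟧) := by
  subst h
  exact (Ext.homEquiv (X := k) (Y := M) (n := m)).symm.subsingleton

end Ab

end EXD_

open EXD_ in
theorem exd_proof : Stmt_EXD := by
  intro K _ A _ _ k M hb hv n
  set X := (DerivedCategory.singleFunctor (ModuleCat.{0} A) 0).obj k with hX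
  set Y := (DerivedCategory.singleFunctor (ModuleCat.{0} A) 0).obj M with hY
  -- reduction of the two Hom spaces
  have s1 : ∀ a : ℤ, n + 2 = a → Subsingleton (X ⟶ Y⟦a⟧) → Subsingleton (X ⟶ Y⟦n⟧⟦(2 : ℤ)⟧) := by
    intro a ha hs
    exact ((postIso (K := K) X ((shiftFunctorAdd' _ n 2 a ha).app Y)).symm.toEquiv).subsingleton
  have s2 : ∀ b : ℤ, b + n = 0 → Subsingleton (Y ⟶ X⟦b⟧) → Subsingleton (Y⟦n⟧ ⟶ X) := by
    intro b hb' hs
    exact (((shEq (K := K) Y (X⟦b⟧) n).trans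
      (postIso (K := K) (Y⟦n⟧) ((shiftFunctorCompIsoId _ b n hb').app X))).symm.toEquiv).subsingleton
  rcases lt_or_ge 0 n with hn | hn
  · have h1 : Subsingleton (X ⟶ Y⟦n⟧⟦(2 : ℤ)⟧) := by
      refine s1 (n + 2) rfl (ext_vanish k M (n + 2) (n + 2).toNat (by omega) ?_)
      exact (hv _ (by omega)).1
    have h2 : Subsingleton (Y⟦n⟧ ⟶ X) := s2 (-n) (by omega) (neg_vanish M k (-n) (by omega))
    exact bij_of_subsingleton _
  rcases lt_or_ge n (-2) with hn2 | hn2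
  · have h1 : Subsingleton (X ⟶ Y⟦n⟧⟦(2 : ℤ)⟧) :=
      s1 (n + 2) rfl (neg_vanish k M (n + 2) (by omega))
    have h2 : Subsingleton (Y⟦n⟧ ⟶ X) := by
      refine s2 (-n) (by omega) (ext_vanish M k (-n) (-n).toNat (by omega) ?_)
      exact (hv _ (by omega)).2
    exact bij_of_subsingleton _
  obtain ⟨i, hi⟩ : ∃ i : ℕ, (i : ℤ) = n + 2 := ⟨(n + 2).toNat, by omega⟩
  obtain ⟨j, hj⟩ : ∃ j : ℕ, (j : ℤ) = -n := ⟨(-n).toNat, by omega⟩
  have hij : i + j = 2 := by omega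
  have p1 : (j : ℤ) + (i : ℤ) = ((2 : ℕ) : ℤ) := by push_cast; omega
  have p2 : n + 2 = (i : ℤ) := by omega
  let c : X⟦(j : ℤ)⟧⟦n⟧ ≅ X := (shiftFunctorCompIsoId _ (j : ℤ) n (by omega)).app X
  let e1 : Y⟦(i : ℤ)⟧ ≅ Y⟦n⟧⟦(2 : ℤ)⟧ := (shiftFunctorAdd' _ n 2 (i : ℤ) (by omega)).app Y
  let t : X⟦((2 : ℕ) : ℤ)⟧ ≅ X⟦(2 : ℤ)⟧ :=
    (shiftFunctorAdd' _ (j : ℤ) (i : ℤ) ((2 : ℕ) : ℤ) (by push_cast; omega)).app X ≪≫
      (shiftFunctorAdd' _ n 2 (i : ℤ) (by omega)).app (X⟦(j : ℤ)⟧) ≪≫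
      (shiftFunctor _ (2 : ℤ)).mapIso c
  refine tr_bij (Ext.bilinearCompOfLinear K k M k i j 2 hij) (duP K X (Y⟦n⟧))
    (Ext.homLinearEquiv.trans (postIso X e1))
    (Ext.homLinearEquiv.trans ((shEq Y (X⟦(j : ℤ)⟧) n).trans (postIso (Y⟦n⟧) c)))
    (Ext.homLinearEquiv.trans (postIso X t)) ?_ (hb i j hij)
  intro x y
  have hnat := (shiftFunctorAdd' (DerivedCategory (ModuleCat.{0} A)) n 2 (i : ℤ)
    (by omega)).hom.naturality y.hom
  change (x.hom ≫ e1.hom) ≫ (shiftFunctor _ (2 : ℤ)).map ((shiftFunctor _ n).map y.hom ≫ c.hom) =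
    (x.comp y hij).hom ≫ t.hom
  rw [Ext.comp_hom, Functor.map_comp]
  change (x.hom ≫ e1.hom) ≫ (shiftFunctor _ (2 : ℤ)).map ((shiftFunctor _ n).map y.hom) ≫
    (shiftFunctor _ (2 : ℤ)).map c.hom = (x.hom ≫ y.hom⟦(i : ℤ)⟧' ≫
      (shiftFunctorAdd' _ (j : ℤ) (i : ℤ) ((2 : ℕ) : ℤ) p1).inv.app X) ≫
      (shiftFunctorAdd' _ (j : ℤ) (i : ℤ) ((2 : ℕ) : ℤ) p1).hom.app X ≫
      (shiftFunctorAdd' _ n 2 (i : ℤ) p2).hom.app (X⟦(j : ℤ)⟧) ≫
      (shiftFunctor _ (2 : ℤ)).map c.hom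
  simp only [Category.assoc, Iso.inv_hom_id_app_assoc]
  congr 1
  have hnat' : (shiftFunctor _ (i : ℤ)).map y.hom ≫
      (shiftFunctorAdd' (DerivedCategory (ModuleCat.{0} A)) n 2 (i : ℤ) (by omega)).hom.app
        (X⟦(j : ℤ)⟧) = e1.hom ≫
      (shiftFunctor _ (2 : ℤ)).map ((shiftFunctor _ n).map y.hom) := hnat
  rw [← Category.assoc, ← Category.assoc, ← hnat']

end Pool.CRD.Sky
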