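import Pool.Agent.CRD.C.FStmts

/-!
# CRD, area C: Serre's theorem A for the coherent modules `O(-d)`
-/

open CategoryTheory Opposite Limits Pretriangulated Abelian

namespace Pool.CRD.Sky

theorem fsa_proof (hSRA : Pool.CRD.Stmt_SRA) : Stmt_FSA := by
  intro K _ C _ R _ A F
  obtain ⟨d0, hd0⟩ := hSRA K K (Fin 3) C R A F.obj F.property
  refine ⟨d0.toNat, fun d hd => ?_⟩
  obtain ⟨n, f, hf⟩ := hd0 d (by omega)
  let g : ∀ k : Fin n, A.LO d ⟶ F := fun k =>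
    (IsCoh R).homMk (Sigma.ι (fun _ : Fin n => A.O (-(d : ℤ))) k ≫ f)
  let p : (⨁ fun _ : Fin n => A.LO d) ⟶ F := biproduct.desc g
  refine ⟨n, p, ?_⟩
  let q : (∐ fun _ : Fin n => A.O (-(d : ℤ))) ⟶ (IsCoh R).ι.obj (⨁ fun _ : Fin n => A.LO d) :=
    Sigma.desc (fun k => (IsCoh R).ι.map (biproduct.ι (fun _ : Fin n => A.LO d) k))
  have h1 : q ≫ (IsCoh R).ι.map p = f := by
    refine Sigma.hom_ext _ _ (fun k => ?_)
    rw [← Category.assoc, Sigma.ι_desc]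
    exact congrArg (fun t => (IsCoh R).ι.map t) (biproduct.ι_desc g k)
  have h2 : Epi ((IsCoh R).ι.map p) := by
    have h3 : Epi (q ≫ (IsCoh R).ι.map p) := by rw [h1]; exact hf
    exact epi_of_epi q _
  exact (IsCoh R).ι.epi_of_epi_map h2

end Pool.CRD.Sky
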