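import Pool.Agent.CRD.C.FV3

/-!
# CRD, area C: Serre's theorem B for the coherent modules `O(-d)`
-/

open CategoryTheory Opposite Limits Pretriangulated Abelian

namespace Pool.CRD.Sky

open FV3_ in
theorem fsb_proof (hSRB : Pool.CRD.Stmt_SRB) (hSEF : Pool.CRD.Stmt_SEF)
    (hFFD : Pool.CRD.Stmt_FFD) : Stmt_FSB := by
  intro K _ C _ R _ A F
  obtain ⟨-, hf, -⟩ := hFFD K C R (hSEF K K (Fin 3) C R A)
  obtain ⟨d0, hd0⟩ := hSRB K K (Fin 3) C R A F.obj F.property
  refine ⟨d0.toNat, fun d hd n hn f => ?_⟩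
  refine zero_of hf (A.LO d) F n (fun g => ?_) f
  exact (hd0 d (by omega) n (by omega)).elim _ _

end Pool.CRD.Sky
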