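import Pool.Agent.CRD.C.GStmts

/-!
# CRD, area C: the rings of the charts `v i` are finitely generated algebras
-/

open CategoryTheory Opposite Limits Pretriangulated Abelian

namespace Pool.CRD.Sky

theorem ftr_proof : Stmt_FTR := by
  intro K _ C _ R ι _ A i
  have hfin := A.fin i
  let φ : MvPolynomial ι K →+* R.ring (A.v i) := chartHom A.ρ A.x (A.v i) i
  have hC : ∀ c : K, φ (MvPolynomial.C c) = algebraMap K (R.ring (A.v i)) c := by
    intro c
    have h1 : φ (MvPolynomial.C c) = (A.ρ.app (op (A.v i))).hom (c : K) :=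
      MvPolynomial.eval₂Hom_C _ _ _
    rw [h1]
    exact (A.ρ.app (op (A.v i))).hom.commutes c
  let _ : Algebra (MvPolynomial ι K) (R.ring (A.v i)) := φ.toAlgebra
  have _ : IsScalarTower K (MvPolynomial ι K) (R.ring (A.v i)) :=
    IsScalarTower.of_algebraMap_eq (fun c => (hC c).symm)
  have _ : Module.Finite (MvPolynomial ι K) (R.ring (A.v i)) := hfin
  exact Algebra.FiniteType.trans (S := MvPolynomial ι K) inferInstance inferInstance

end Pool.CRD.Sky
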