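import Pool.Agent.CRD.C.FStmts

/-!
# CRD, area C: vanishing of `Ext³` from locally projective modules
-/

open CategoryTheory Opposite Limits Pretriangulated Abelian

namespace Pool.CRD.Sky

namespace FV3_

variable {K : Type} [CommRing K] {C : Type} [SmallCategory C] {R : PAlg K C} [R.Good]

/-- coherent modules in `D(Mod R)` -/
noncomputable def toSg (F : Coh R) : (ιD R).obj ((sgB R).obj F) ≅ (sg R).obj F.obj :=
  ((IsCoh R).ι.mapDerivedCategorySingleFunctor 0).app F

/-- shifts of coherent modules in `D(Mod R)` -/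
noncomputable def toSgSh (F : Coh R) (n : ℤ) :
    (ιD R).obj (((sgB R).obj F)⟦n⟧) ≅ ((sg R).obj F.obj)⟦n⟧ :=
  ((ιD R).commShiftIso n).app ((sgB R).obj F) ≪≫ (shiftFunctor (DPM R) n).mapIso (toSg F)

/-- morphisms in `D^b(Coh R)` vanish if the corresponding morphisms in `D(Mod R)` do -/
theorem zero_of (hf : (ιD R).Faithful) (M F : Coh R) (n : ℤ)
    (h : ∀ g : (sg R).obj M.obj ⟶ ((sg R).obj F.obj)⟦n⟧, g = 0)
    (f : (sgB R).obj M ⟶ ((sgB R).obj F)⟦n⟧) : f = 0 := by
  apply (ιD R).map_injective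
  have h1 := h ((toSg M).inv ≫ (ιD R).map f ≫ (toSgSh F n).hom)
  rw [Functor.map_zero, ← cancel_mono (toSgSh F n).hom, zero_comp, ← cancel_epi (toSg M).inv,
    h1, comp_zero]

end FV3_

open FV3_ in
theorem fv3_proof (hBDM : Pool.CRD.Stmt_BDM) (hFFD : Pool.CRD.Stmt_FFD) : Stmt_FV3 := by
  intro K _ R _ hE V F hV
  obtain ⟨-, hf, -⟩ := hFFD K (Cov (Fin 3)) R hE
  refine zero_of hf V F 3 (fun g => ?_)
  have h1 := hBDM K (Cov (Fin 3)) R 3 0 Cov.one (fun W => ?_) V.obj (fun W U h => V.property.2 _)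
    (fun W => ?_) (((sg R).obj F.obj)⟦(3 : ℤ)⟧) ?_
  · exact h1.elim _ _
  · obtain ⟨i, hi⟩ := W.ne
    exact ⟨i, Finset.singleton_subset_iff.2 hi⟩
  · have h2 : Projective (ModuleCat.of (R.ring W) (sec V.obj W)) :=
      (IsProjective.iff_projective (R := R.ring W) (P := sec V.obj W)).1 (hV W)
    exact projective_iff_hasProjectiveDimensionLT_one.1 h2
  · have h3 : DerivedCategory.TStructure.t.IsLE ((sg R).obj F.obj) 0 := inferInstance
    exact DerivedCategory.TStructure.t.isLE_shift _ 0 3 _ (by norm_num)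

end Pool.CRD.Sky
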