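import Pool.Agent.CRD.C.GStmts

set_option autoImplicit false

open CategoryTheory Opposite Limits Pretriangulated Abelian

namespace Pool.CRD.Sky

theorem gb0_proof (hKPO : Stmt_KPO) (hKLC : Stmt_KLC) (hRSM : Stmt_RSM) (hGFL : Stmt_GFL)
    (hGET : Stmt_GET) (hGCH : Stmt_GCH) (hGCR : Stmt_GCR) (hGUN : Stmt_GUN) : Stmt_GB0 := by
  intro K _ _ _ B _ _ _ φ hφ m
  have hred : IsReduced B := hRSM K B
  have hinf : Infinite K := inferInstance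
  obtain ⟨δ₁, hδ₁, h1⟩ := hGFL K B φ hφ
  obtain ⟨δ₂, hδ₂, h2⟩ := hGET K B φ hφ
  obtain ⟨a, b, ha, hb, hab⟩ := hGCH K (δ₁ * δ₂) (mul_ne_zero hδ₁ hδ₂) m
  have hab1 : ∀ i j, MvPolynomial.eval ![a i, b j] δ₁ ≠ 0 := fun i j h =>
    hab i j (by rw [map_mul, h, zero_mul])
  have hab2 : ∀ i j, MvPolynomial.eval ![a i, b j] δ₂ ≠ 0 := fun i j h =>
    hab i j (by rw [map_mul, h, mul_zero])
  refine ⟨a, b, ?_, ?_⟩
  · obtain ⟨k1, k2⟩ := h1 _ _ (hKPO K m a b)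
    obtain ⟨r, s, t, hrst⟩ := hGUN K δ₁ m a b ha hb hab1
    refine hKLC B (φ δ₁) _ _ k1 k2 ⟨φ r, φ s, φ t, ?_⟩
    rw [← map_mul, ← map_mul, ← map_mul, ← map_add, ← map_add, hrst, map_one]
  · refine hGCR K B φ m a b ha hb fun i j => ?_
    exact h2 ![a i, b j] (hab2 i j)

end Pool.CRD.Sky
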