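import Pool.Agent.CRD.C.GStmts

/-!
# CRD, area C: choice of a grid avoiding the zeros of a polynomial
-/

open CategoryTheory Opposite Limits Pretriangulated Abelian

namespace Pool.CRD.Sky

namespace GCH_

/-- points which are not zeros of a polynomial in one variable -/
theorem exists_pts {K : Type} [Field K] [Infinite K] (p : Polynomial K) (hp : p ≠ 0) (m : ℕ) :
    ∃ a : Fin m → K, Function.Injective a ∧ ∀ i, p.eval (a i) ≠ 0 := by
  classical
  have hfin : {x : K | p.eval x = 0}.Finite := by
    refine (p.roots.toFinset.finite_toSet).subset fun x hx => ?_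
    have hx' : p.eval x = 0 := hx
    simp [hp, Polynomial.IsRoot, hx']
  have hinf : {x : K | p.eval x = 0}ᶜ.Infinite := hfin.infinite_compl
  let e := hinf.natEmbedding
  refine ⟨fun i => (e i : K), ?_, ?_⟩
  · intro i j hij
    have h1 : e i = e j := Subtype.ext hij
    exact Fin.ext (e.injective h1)
  · intro i
    exact (e i).2

end GCH_

theorem gch_proof : Stmt_GCH := by
  classical
  intro K _ _ δ hδ m
  have h0 : ∃ c : Fin 2 → K, MvPolynomial.eval c δ ≠ 0 := by
    by_contra hcon
    push Not at hcon
    apply hδ
    apply MvPolynomial.funext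
    intro c
    rw [hcon c, map_zero]
  obtain ⟨c, hc⟩ := h0
  -- the polynomials in one variable
  let P : K → Polynomial K := fun x =>
    MvPolynomial.aeval (fun k : Fin 2 => if k = 0 then Polynomial.C x else Polynomial.X) δ
  let Q : K → Polynomial K := fun y =>
    MvPolynomial.aeval (fun k : Fin 2 => if k = 0 then Polynomial.X else Polynomial.C y) δ
  have hP : ∀ x y : K, (P x).eval y = MvPolynomial.eval ![x, y] δ := by
    intro x y
    have h1 : (Polynomial.evalRingHom y).comp
        (MvPolynomial.aeval (fun k : Fin 2 => if k = 0 then Polynomial.C x else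
          (Polynomial.X : Polynomial K)) : MvPolynomial (Fin 2) K →ₐ[K] Polynomial K).toRingHom =
        MvPolynomial.eval ![x, y] := by
      apply MvPolynomial.ringHom_ext
      · intro r; simp
      · intro i; fin_cases i <;> simp
    exact congrArg (fun f => f δ) h1
  have hQ : ∀ x y : K, (Q y).eval x = MvPolynomial.eval ![x, y] δ := by
    intro x y
    have h1 : (Polynomial.evalRingHom x).comp
        (MvPolynomial.aeval (fun k : Fin 2 => if k = 0 then (Polynomial.X : Polynomial K) else
          Polynomial.C y) : MvPolynomial (Fin 2) K →ₐ[K] Polynomial K).toRingHom =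
        MvPolynomial.eval ![x, y] := by
      apply MvPolynomial.ringHom_ext
      · intro r; simp
      · intro i; fin_cases i <;> simp
    exact congrArg (fun f => f δ) h1
  have hcc : (![c 0, c 1] : Fin 2 → K) = c := by
    ext i; fin_cases i <;> rfl
  have hQ0 : Q (c 1) ≠ 0 := by
    intro h
    apply hc
    rw [← hcc, ← hQ, h, Polynomial.eval_zero]
  obtain ⟨a, ha, ha'⟩ := GCH_.exists_pts (Q (c 1)) hQ0 m
  have hPa : ∀ i, P (a i) ≠ 0 := by
    intro i h
    apply ha' i
    rw [hQ, ← hP, h, Polynomial.eval_zero]
  obtain ⟨b, hb, hb'⟩ := GCH_.exists_pts (∏ i, P (a i))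
    (Finset.prod_ne_zero_iff.mpr fun i _ => hPa i) m
  refine ⟨a, b, ha, hb, fun i j => ?_⟩
  rw [← hP]
  have h2 := hb' j
  rw [Polynomial.eval_prod] at h2
  exact Finset.prod_ne_zero_iff.mp h2 i (Finset.mem_univ i)

end Pool.CRD.Sky
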