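import Pool.Agent.CRD.C.GStmts

/-!
# The fibre over a grid (Chinese remainder theorem)
-/

open CategoryTheory Opposite Limits Pretriangulated Abelian

namespace Pool.CRD.Sky

namespace GCR_

variable {B : Type} [CommRing B]

theorem prod_le {ι : Type} (s : Finset ι) (p : ι → B) (J : Ideal B) :
    ∏ i ∈ s, (Ideal.span {p i} ⊔ J) ≤ Ideal.span {∏ i ∈ s, p i} ⊔ J := by
  classical
  induction s using Finset.induction_on with
  | empty => simp
  | insert i s hi ih =>
    rw [Finset.prod_insert hi, Finset.prod_insert hi]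
    refine (Ideal.mul_mono_right ih).trans ?_
    rw [Ideal.mul_le]
    intro r hr t ht
    obtain ⟨u, hu, v, hv, rfl⟩ := Submodule.mem_sup.1 hr
    obtain ⟨u', hu', v', hv', rfl⟩ := Submodule.mem_sup.1 ht
    have e1 : (u + v) * (u' + v') = u * u' + (v' * u + (u' + v') * v) := by ring
    rw [e1]
    refine Submodule.add_mem_sup ?_ (J.add_mem (J.mul_mem_right u hv') (J.mul_mem_left _ hv))
    rw [← Ideal.span_singleton_mul_span_singleton]
    exact Ideal.mul_mem_mul hu hu'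

theorem prod_grid {m : ℕ} (f g : Fin m → B) :
    ∏ p : Fin m × Fin m, Ideal.span {f p.1, g p.2} ≤ Ideal.span {∏ i, f i, ∏ j, g j} := by
  rw [Fintype.prod_prod_type]
  have h1 : ∀ i : Fin m, ∏ j, Ideal.span {f i, g j} ≤ Ideal.span {f i} ⊔ Ideal.span {∏ j, g j} := by
    intro i
    have h2 := prod_le Finset.univ g (Ideal.span {f i})
    rw [sup_comm] at h2
    refine le_trans (le_of_eq ?_) h2
    refine Finset.prod_congr rfl fun j _ => ?_
    rw [Ideal.span_insert, sup_comm]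
  refine (Finset.prod_le_prod' fun i _ => h1 i).trans ?_
  rw [Ideal.span_insert]
  exact prod_le Finset.univ f _

theorem inf_grid {m : ℕ} (f g : Fin m → B)
    (hc : ∀ p q : Fin m × Fin m, p ≠ q →
      IsCoprime (Ideal.span {f p.1, g p.2}) (Ideal.span {f q.1, g q.2})) :
    ⨅ p : Fin m × Fin m, Ideal.span {f p.1, g p.2} = Ideal.span {∏ i, f i, ∏ j, g j} := by
  apply le_antisymm
  · refine le_trans (le_of_eq ?_) (prod_grid f g)
    rw [Ideal.prod_eq_iInf_of_pairwise_isCoprime]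
    · simp
    · intro p _ q _ hpq
      exact hc p q hpq
  · refine le_iInf fun p => ?_
    rw [Ideal.span_le]
    rintro z (rfl | rfl)
    · exact Ideal.mem_of_dvd _ (Finset.dvd_prod_of_mem f (Finset.mem_univ p.1))
        (Ideal.subset_span (by simp))
    · exact Ideal.mem_of_dvd _ (Finset.dvd_prod_of_mem g (Finset.mem_univ p.2))
        (Ideal.subset_span (by simp))

/-- the Chinese remainder theorem, linear -/
theorem crt {ι : Type} [Finite ι] (I : ι → Ideal B) (hI : Pairwise fun i j => IsCoprime (I i) (I j)) :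
    Nonempty ((B ⧸ ⨅ i, I i) ≃ₗ[B] ∀ i, B ⧸ I i) := by
  refine ⟨{ Ideal.quotientInfRingEquivPiQuotient I hI with map_smul' := ?_ }⟩
  intro r x
  obtain ⟨x, rfl⟩ := Ideal.Quotient.mk_surjective x
  rfl

end GCR_

open GCR_ in
theorem gcr_proof : Stmt_GCR := by
  intro K _ B _ _ φ m a b ha hb h
  set f : Fin m → B := fun i => φ (MvPolynomial.X 0 - MvPolynomial.C (a i)) with hf
  set g : Fin m → B := fun j => φ (MvPolynomial.X 1 - MvPolynomial.C (b j)) with hg
  have e0 : φ (gridP 0 a) = ∏ i, f i := by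
    rw [gridP, map_prod]
  have e1 : φ (gridP 1 b) = ∏ j, g j := by
    rw [gridP, map_prod]
  rw [e0, e1]
  have hcf : ∀ (l : Fin 2) (c d : K) (I J : Ideal B), c ≠ d →
      φ (MvPolynomial.X l - MvPolynomial.C c) ∈ I → φ (MvPolynomial.X l - MvPolynomial.C d) ∈ J →
      IsCoprime I J := by
    intro l c d I J hcd hI hJ
    rw [Ideal.isCoprime_iff_exists]
    refine ⟨_, I.mul_mem_left (φ (MvPolynomial.C (d - c)⁻¹)) hI,
      _, J.mul_mem_left (φ (MvPolynomial.C (-(d - c)⁻¹))) hJ, ?_⟩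
    rw [← map_mul, ← map_mul, ← map_add]
    have hdc : d - c ≠ 0 := sub_ne_zero.2 (Ne.symm hcd)
    have h3 : MvPolynomial.C (d - c)⁻¹ * (MvPolynomial.X l - MvPolynomial.C c) +
        MvPolynomial.C (-(d - c)⁻¹) * (MvPolynomial.X l - MvPolynomial.C d) =
        (MvPolynomial.C ((d - c)⁻¹ * (d - c)) : P2 K) := by
      rw [map_neg, map_mul, map_sub]
      ring
    rw [h3, inv_mul_cancel₀ hdc, map_one, map_one]
  have hc : ∀ p q : Fin m × Fin m, p ≠ q →
      IsCoprime (Ideal.span {f p.1, g p.2}) (Ideal.span {f q.1, g q.2}) := by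
    intro p q hpq
    by_cases h1 : p.1 = q.1
    · have h2 : p.2 ≠ q.2 := fun h2 => hpq (Prod.ext h1 h2)
      exact hcf 1 (b p.2) (b q.2) _ _ (fun h3 => h2 (hb h3)) (Ideal.subset_span (by simp [hg]))
        (Ideal.subset_span (by simp [hg]))
    · exact hcf 0 (a p.1) (a q.1) _ _ (fun h3 => h1 (ha h3)) (Ideal.subset_span (by simp [hf]))
        (Ideal.subset_span (by simp [hf]))
  choose n mm hmax heq using h
  obtain ⟨e⟩ := crt (fun p : Fin m × Fin m => Ideal.span {f p.1, g p.2}) (fun p q hpq => hc p q hpq)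
  let σ : Type := Σ p : Fin m × Fin m, Fin (n p.1 p.2)
  let eq : σ ≃ Fin (Fintype.card σ) := Fintype.equivFin σ
  refine ⟨Fintype.card σ, fun t => mm (eq.symm t).1.1 (eq.symm t).1.2 (eq.symm t).2,
    fun t => hmax _ _ _, ⟨?_⟩⟩
  let e2 : (∀ p : Fin m × Fin m, B ⧸ Ideal.span {f p.1, g p.2}) ≃ₗ[B]
      (∀ p : Fin m × Fin m, ∀ k : Fin (n p.1 p.2), B ⧸ mm p.1 p.2 k) :=
    LinearEquiv.piCongrRight fun p => (heq p.1 p.2).some
  let e3 : (∀ s : σ, B ⧸ mm s.1.1 s.1.2 s.2) ≃ₗ[B]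
      (∀ p : Fin m × Fin m, ∀ k : Fin (n p.1 p.2), B ⧸ mm p.1 p.2 k) :=
    LinearEquiv.piCurry B (fun (p : Fin m × Fin m) (k : Fin (n p.1 p.2)) => B ⧸ mm p.1 p.2 k)
  let e4 : (B ⧸ Ideal.span {∏ i, f i, ∏ j, g j}) ≃ₗ[B]
      (B ⧸ ⨅ p : Fin m × Fin m, Ideal.span {f p.1, g p.2}) :=
    Submodule.quotEquivOfEq _ _ (inf_grid f g hc).symm
  exact e4.trans (e.trans (e2.trans (e3.symm.trans
    (LinearEquiv.piCongrLeft' B (fun s : σ => B ⧸ mm s.1.1 s.1.2 s.2) eq))))

end Pool.CRD.Sky
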