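import Pool.Agent.CRD.C.GStmts

/-!
# CRD, area C: GET, generic étaleness
-/

open CategoryTheory Opposite Limits Pretriangulated Abelian

namespace Pool.CRD.Sky

namespace GET_

open scoped TensorProduct nonZeroDivisors

/-- a reduced finite algebra over a perfect field is formally unramified -/
theorem unramified_of_reduced (L T : Type) [Field L] [PerfectField L] [CommRing T] [Algebra L T]
    [Module.Finite L T] [IsReduced T] : Algebra.FormallyUnramified L T := by
  haveI : IsArtinianRing T := IsArtinianRing.of_finite L T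
  let e : T ≃ₐ[L] ∀ I : MaximalSpectrum T, T ⧸ I.asIdeal :=
    (IsArtinianRing.equivPi T).restrictScalars L
  rw [Algebra.FormallyUnramified.iff_of_equiv e, Algebra.FormallyUnramified.pi_iff]
  intro I
  letI : Field (T ⧸ I.asIdeal) := Ideal.Quotient.field I.asIdeal
  haveI : Module.Finite L (T ⧸ I.asIdeal) := inferInstance
  haveI : Algebra.IsAlgebraic L (T ⧸ I.asIdeal) := Algebra.IsAlgebraic.of_finite L _
  haveI : Algebra.IsSeparable L (T ⧸ I.asIdeal) := inferInstance
  exact Algebra.FormallyUnramified.of_isSeparable L (T ⧸ I.asIdeal)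

attribute [local instance] Algebra.TensorProduct.rightAlgebra in
/-- the differentials are killed by a nonzero polynomial -/
theorem exists_annihilator (K : Type) [Field K] [CharZero K] (B : Type)
    [CommRing B] [Algebra (P2 K) B] [IsReduced B] [Module.Finite (P2 K) B] :
    ∃ δ : P2 K, δ ≠ 0 ∧ ∀ x : Ω[B⁄P2 K], δ • x = 0 := by
  let L := FractionRing (P2 K)
  let T := L ⊗[P2 K] B
  haveI hloc : IsLocalization (Algebra.algebraMapSubmonoid B (P2 K)⁰) T :=
    IsLocalization.tensorRight L (P2 K)⁰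
  haveI : IsReduced T :=
    isReduced_localizationPreserves (Algebra.algebraMapSubmonoid B (P2 K)⁰) T inferInstance
  haveI : CharZero L := charZero_of_injective_algebraMap (IsFractionRing.injective (P2 K) L)
  haveI : PerfectField L := PerfectField.ofCharZero
  haveI : Module.Finite L T := Module.Finite.base_change _ _ _
  haveI : Algebra.FormallyUnramified L T := unramified_of_reduced L T
  haveI : Algebra.FormallyUnramified (P2 K) L :=
    Algebra.FormallyUnramified.of_isLocalization (P2 K)⁰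
  haveI : Algebra.FormallyUnramified (P2 K) T := Algebra.FormallyUnramified.comp (P2 K) L T
  have htor : ∀ x : Ω[B⁄P2 K], ∃ t : (P2 K)⁰, t • x = 0 := by
    intro x
    have h1 : KaehlerDifferential.map (P2 K) (P2 K) B T x = 0 := Subsingleton.elim _ _
    obtain ⟨⟨s, t, ht, rfl⟩, hs⟩ := (IsLocalizedModule.eq_zero_iff
      (Algebra.algebraMapSubmonoid B (P2 K)⁰) (KaehlerDifferential.map (P2 K) (P2 K) B T)).1 h1
    refine ⟨⟨t, ht⟩, ?_⟩
    have h2 : (algebraMap (P2 K) B t) • x = 0 := hs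
    rw [algebraMap_smul] at h2
    exact h2
  haveI : Module.Finite B (Ω[B⁄P2 K]) := inferInstance
  haveI : Module.Finite (P2 K) (Ω[B⁄P2 K]) := Module.Finite.trans B _
  have h3 := Submodule.annihilator_top_inter_nonZeroDivisors (R := P2 K) (M := Ω[B⁄P2 K])
    (fun {x} => htor x)
  obtain ⟨δ, h4, h5⟩ := h3
  refine ⟨δ, nonZeroDivisors.ne_zero h5, fun x => ?_⟩
  exact Submodule.mem_annihilator.1 h4 x trivial

/-- a finite reduced quotient is a product of residue fields -/
theorem prod_of_reduced (K : Type) [Field K] (B : Type) [CommRing B] [Algebra K B] (J : Ideal B)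
    [Module.Finite K (B ⧸ J)] [IsReduced (B ⧸ J)] :
    ∃ (n : ℕ) (mm : Fin n → Ideal B), (∀ k, (mm k).IsMaximal) ∧
      Nonempty ((B ⧸ J) ≃ₗ[B] (∀ k, B ⧸ mm k)) := by
  haveI : IsArtinianRing (B ⧸ J) := IsArtinianRing.of_finite K _
  let n := Nat.card (MaximalSpectrum (B ⧸ J))
  let e : Fin n ≃ MaximalSpectrum (B ⧸ J) := (Finite.equivFin _).symm
  let mm : Fin n → Ideal B := fun k => (e k).asIdeal.comap (Ideal.Quotient.mk J)
  have hmax : ∀ k, (mm k).IsMaximal := fun k =>
    Ideal.comap_isMaximal_of_surjective _ Ideal.Quotient.mk_surjective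
  refine ⟨n, mm, hmax, ?_⟩
  let f : ∀ k, (B ⧸ J) →ₗ[B] (B ⧸ J) ⧸ (e k).asIdeal := fun k =>
    (Ideal.Quotient.mkₐ B (e k).asIdeal).toLinearMap
  let g : ∀ k, B →ₗ[B] (B ⧸ J) ⧸ (e k).asIdeal := fun k =>
    (f k).comp (Ideal.Quotient.mkₐ B J).toLinearMap
  have hg : ∀ k, Function.Surjective (g k) := fun k =>
    (Ideal.Quotient.mk_surjective).comp Ideal.Quotient.mk_surjective
  have hk : ∀ k, LinearMap.ker (g k) = mm k := by
    intro k
    ext x
    show Ideal.Quotient.mk (e k).asIdeal (Ideal.Quotient.mk J x) = 0 ↔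
      Ideal.Quotient.mk J x ∈ (e k).asIdeal
    exact Ideal.Quotient.eq_zero_iff_mem
  let q : ∀ k, (B ⧸ mm k) ≃ₗ[B] ((B ⧸ J) ⧸ (e k).asIdeal) := fun k =>
    (Submodule.quotEquivOfEq _ _ (hk k).symm).trans ((g k).quotKerEquivOfSurjective (hg k))
  let E1 : (B ⧸ J) ≃ₗ[B] ∀ I : MaximalSpectrum (B ⧸ J), (B ⧸ J) ⧸ I.asIdeal :=
    (IsArtinianRing.equivPi (B ⧸ J)).toLinearEquiv.restrictScalars B
  let E2 : (∀ I : MaximalSpectrum (B ⧸ J), (B ⧸ J) ⧸ I.asIdeal) ≃ₗ[B]
      ∀ k : Fin n, (B ⧸ J) ⧸ (e k).asIdeal :=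
    (LinearEquiv.piCongrLeft B (fun I : MaximalSpectrum (B ⧸ J) => (B ⧸ J) ⧸ I.asIdeal) e).symm
  exact ⟨(E1.trans E2).trans (LinearEquiv.piCongrRight fun k => (q k).symm)⟩

end GET_

open GET_

open scoped TensorProduct nonZeroDivisors in
theorem get_proof : Stmt_GET := by
  intro K _ _ _ B _ _ _ φ hφ
  letI : Algebra (P2 K) B := φ.toRingHom.toAlgebra
  haveI : IsScalarTower K (P2 K) B := IsScalarTower.of_algebraMap_eq' (φ.comp_algebraMap.symm)
  haveI : Module.Finite (P2 K) B := hφ
  obtain ⟨δ, hδ, hann⟩ := exists_annihilator K B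
  refine ⟨δ, hδ, fun c hc => ?_⟩
  set J : Ideal B := Ideal.span {φ (MvPolynomial.X 0 - MvPolynomial.C (c 0)),
        φ (MvPolynomial.X 1 - MvPolynomial.C (c 1))} with hJ
  have hcomp : ∀ p : P2 K, algebraMap (P2 K) (B ⧸ J) p =
      algebraMap K (B ⧸ J) (MvPolynomial.eval c p) := by
    intro p
    have h1 : (Ideal.Quotient.mk J).comp φ.toRingHom =
        (algebraMap K (B ⧸ J)).comp (MvPolynomial.eval c) := by
      refine MvPolynomial.ringHom_ext (fun r => ?_) fun i => ?_
      · rw [RingHom.comp_apply, RingHom.comp_apply, MvPolynomial.eval_C]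
        show Ideal.Quotient.mk J (φ (MvPolynomial.C r)) = _
        rw [← MvPolynomial.algebraMap_eq, φ.commutes]
        rfl
      · rw [RingHom.comp_apply, RingHom.comp_apply, MvPolynomial.eval_X]
        show Ideal.Quotient.mk J (φ (MvPolynomial.X i)) = Ideal.Quotient.mk J (algebraMap K B (c i))
        rw [← φ.commutes, Ideal.Quotient.eq, ← map_sub, MvPolynomial.algebraMap_eq]
        fin_cases i
        · exact Ideal.subset_span (Or.inl rfl)
        · exact Ideal.subset_span (Or.inr rfl)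
    exact congrArg (fun f => f p) h1
  letI : Algebra (P2 K) K := (MvPolynomial.eval c).toAlgebra
  haveI : IsScalarTower (P2 K) K (B ⧸ J) := IsScalarTower.of_algebraMap_eq hcomp
  haveI : Module.Finite (P2 K) (B ⧸ J) := Module.Finite.of_surjective
    ((Ideal.Quotient.mkₐ (P2 K) J).toLinearMap) Ideal.Quotient.mk_surjective
  haveI : Module.Finite K (B ⧸ J) := Module.Finite.of_restrictScalars_finite (P2 K) K (B ⧸ J)
  have hzero : ∀ x : B ⧸ J, KaehlerDifferential.D (P2 K) (B ⧸ J) x = 0 := by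
    intro x
    obtain ⟨b, rfl⟩ := Ideal.Quotient.mk_surjective x
    have h1 : KaehlerDifferential.map (P2 K) (P2 K) B (B ⧸ J)
        (KaehlerDifferential.D (P2 K) B b) =
        KaehlerDifferential.D (P2 K) (B ⧸ J) (Ideal.Quotient.mk J b) :=
      KaehlerDifferential.map_D _ _ _ _ b
    have h2 : δ • KaehlerDifferential.D (P2 K) (B ⧸ J) (Ideal.Quotient.mk J b) = 0 := by
      rw [← h1]
      have h3 := hann (KaehlerDifferential.D (P2 K) B b)
      rw [← algebraMap_smul B δ] at h3 ⊢
      rw [← map_smul, h3, map_zero]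
    rw [← algebraMap_smul (B ⧸ J) δ, hcomp] at h2
    have h4 : IsUnit (algebraMap K (B ⧸ J) (MvPolynomial.eval c δ)) :=
      (isUnit_iff_ne_zero.2 hc).map _
    exact (h4.smul_eq_zero).1 h2
  haveI : Algebra.FormallyUnramified (P2 K) (B ⧸ J) := by
    refine ⟨?_⟩
    refine subsingleton_of_forall_eq 0 fun y => ?_
    have hy : y ∈ (⊤ : Submodule (B ⧸ J) (Ω[(B ⧸ J)⁄P2 K])) := trivial
    rw [← KaehlerDifferential.span_range_derivation] at hy
    refine Submodule.span_induction (p := fun y _ => y = 0) ?_ rfl ?_ ?_ hy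
    · rintro _ ⟨x, rfl⟩
      exact hzero x
    · rintro x y _ _ rfl rfl
      exact add_zero _
    · rintro a x _ rfl
      exact smul_zero _
  haveI : Algebra.FormallyUnramified K (B ⧸ J) :=
    Algebra.FormallyUnramified.of_restrictScalars (P2 K) K (B ⧸ J)
  haveI : IsReduced (B ⧸ J) := Algebra.FormallyUnramified.isReduced_of_field K (B ⧸ J)
  exact prod_of_reduced K B J

end Pool.CRD.Sky
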