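import Pool.Agent.CRD.C.GStmts

/-!
# CRD, area C, module GFL: generic flatness (elementary form)
-/

open CategoryTheory Opposite Limits Pretriangulated Abelian

namespace Pool.CRD.Sky

/-- a finite module over a domain contains a free module with bounded torsion cokernel -/
theorem GFL_free (P M : Type) [CommRing P] [IsDomain P] [AddCommGroup M] [Module P M]
    [Module.Finite P M] : ∃ (δ : P) (F : Submodule P M) (n : ℕ) (_ : Module.Basis (Fin n) P F),
    δ ≠ 0 ∧ ∀ x : M, δ • x ∈ F := by
  classical
  obtain ⟨k, v, hv⟩ := Module.Finite.exists_fin (R := P) (M := M)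
  obtain ⟨s, hs, hm⟩ := exists_maximal_linearIndepOn P v
  have ha : ∀ i, ∃ a : P, a ≠ 0 ∧ a • v i ∈ Submodule.span P (v '' s) := by
    intro i
    by_cases hi : i ∈ s
    · exact ⟨1, one_ne_zero, by rw [one_smul]; exact Submodule.subset_span ⟨i, hi, rfl⟩⟩
    · exact hm i hi
  choose a ha0 ha1 using ha
  have hr : Set.range (fun i : s => v i) = v '' s := by
    ext x; simp
  have hb := Module.Basis.span hs
  have e : Submodule.span P (Set.range (fun i : s => v i)) = Submodule.span P (v '' s) := by
    rw [hr]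
  refine ⟨∏ i, a i, Submodule.span P (Set.range (fun i : s => v i)), Fintype.card s,
    hb.reindex (Fintype.equivFin s), Finset.prod_ne_zero_iff.2 (fun i _ => ha0 i), fun x => ?_⟩
  rw [e]
  have hx : x ∈ Submodule.span P (Set.range v) := by rw [hv]; trivial
  induction hx using Submodule.span_induction with
  | mem x hx =>
    obtain ⟨i, rfl⟩ := hx
    rw [← Finset.mul_prod_erase Finset.univ a (Finset.mem_univ i), mul_comm, mul_smul]
    exact Submodule.smul_mem _ _ (ha1 i)
  | zero => rw [smul_zero]; exact Submodule.zero_mem _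
  | add x y _ _ h1 h2 => rw [smul_add]; exact Submodule.add_mem _ h1 h2
  | smul c x _ h => rw [smul_comm]; exact Submodule.smul_mem _ _ h

theorem gfl_proof : Stmt_GFL := by
  intro K _ B _ _ φ hφ
  letI : Algebra (P2 K) B := φ.toRingHom.toAlgebra
  haveI : Module.Finite (P2 K) B := hφ
  have hsm : ∀ (p : P2 K) (x : B), p • x = φ p * x := fun p x => rfl
  haveI : IsDomain (P2 K) := by unfold P2; infer_instance
  obtain ⟨δ, F, n, b, h0, hF⟩ := GFL_free (P2 K) B
  refine ⟨δ, h0, fun f g hfg => ⟨fun x h1 h2 => ⟨1, ?_⟩, fun x y h => ?_⟩⟩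
  · rw [pow_one, ← hsm]
    have hz : (⟨δ • x, hF x⟩ : F) = 0 := by
      apply b.ext_elem
      intro i
      rw [map_zero, Finsupp.zero_apply]
      apply hfg.1
      · have : f • (⟨δ • x, hF x⟩ : F) = 0 := by
          apply Subtype.ext
          change f • (δ • x) = 0
          rw [smul_comm, hsm f x, h1, smul_zero]
        have h3 : b.repr (f • (⟨δ • x, hF x⟩ : F)) i = b.repr 0 i := by rw [this]
        rwa [map_smul, map_zero, Finsupp.smul_apply, Finsupp.zero_apply, smul_eq_mul] at h3
      · have : g • (⟨δ • x, hF x⟩ : F) = 0 := by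
          apply Subtype.ext
          change g • (δ • x) = 0
          rw [smul_comm, hsm g x, h2, smul_zero]
        have h3 : b.repr (g • (⟨δ • x, hF x⟩ : F)) i = b.repr 0 i := by rw [this]
        rwa [map_smul, map_zero, Finsupp.smul_apply, Finsupp.zero_apply, smul_eq_mul] at h3
    exact congrArg Subtype.val hz
  · have hz : f • (⟨δ • y, hF y⟩ : F) + g • (⟨δ • x, hF x⟩ : F) = 0 := by
      apply Subtype.ext
      change f • (δ • y) + g • (δ • x) = 0
      rw [smul_comm f δ y, smul_comm g δ x, ← smul_add, hsm f y, hsm g x, h, smul_zero]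
    have hc : ∀ i, ∃ z : P2 K, b.repr ⟨δ • x, hF x⟩ i = f * z ∧
        b.repr ⟨δ • y, hF y⟩ i = -(g * z) := by
      intro i
      apply hfg.2
      have h3 : b.repr (f • (⟨δ • y, hF y⟩ : F) + g • (⟨δ • x, hF x⟩ : F)) i = b.repr 0 i := by
        rw [hz]
      rwa [map_add, map_smul, map_smul, map_zero, Finsupp.add_apply, Finsupp.smul_apply,
        Finsupp.smul_apply, Finsupp.zero_apply, smul_eq_mul, smul_eq_mul] at h3
    choose z hz1 hz2 using hc
    refine ⟨1, ((∑ i, z i • b i : F) : B), ?_, ?_⟩
    · rw [pow_one, ← hsm, ← hsm]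
      have h5 : (⟨δ • x, hF x⟩ : F) = f • ∑ i, z i • b i := by
        rw [← b.sum_repr ⟨δ • x, hF x⟩, Finset.smul_sum]
        exact Finset.sum_congr rfl (fun i _ => by rw [hz1, mul_smul])
      exact congrArg Subtype.val h5
    · rw [pow_one, ← hsm, ← hsm]
      have h5 : (⟨δ • y, hF y⟩ : F) = -(g • ∑ i, z i • b i) := by
        rw [← b.sum_repr ⟨δ • y, hF y⟩, Finset.smul_sum, ← Finset.sum_neg_distrib]
        exact Finset.sum_congr rfl (fun i _ => by rw [hz2, neg_smul, mul_smul])
      exact congrArg Subtype.val h5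

end Pool.CRD.Sky
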