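import Pool.Agent.CRD.C.GStmts

/-!
# Exactness of the Koszul complex on all charts
-/

open CategoryTheory Opposite Limits Pretriangulated Abelian

namespace Pool.CRD.Sky

namespace GKS_

open scoped TensorProduct

theorem flatK {S T : Type} [CommRing S] [CommRing T] (ψ : S →+* T) (hψ : ψ.Flat) (f g : S)
    (h : KosEx f g) : KosEx (ψ f) (ψ g) := by
  let : Algebra S T := ψ.toAlgebra
  have : Module.Flat S T := hψ
  have hsm : ∀ (s : S) (t : T), s • t = ψ s * t := fun s t => rfl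
  constructor
  · intro x hf hg
    let α : S →ₗ[S] S × S := LinearMap.prod (LinearMap.lsmul S S f) (LinearMap.lsmul S S g)
    have hα : Function.Injective α := by
      rw [injective_iff_map_eq_zero]
      intro s hs
      have h1 : (f * s, g * s) = ((0, 0) : S × S) := hs
      exact h.1 s (Prod.ext_iff.1 h1).1 (Prod.ext_iff.1 h1).2
    have h2 := Module.Flat.lTensor_preserves_injective_linearMap (M := T) α hα
    have h3 : (LinearMap.lTensor T α) (x ⊗ₜ[S] (1 : S)) = 0 := by
      rw [LinearMap.lTensor_tmul]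
      have h4 : α 1 = f • ((1, 0) : S × S) + g • ((0, 1) : S × S) := by
        apply Prod.ext <;> simp [α]
      rw [h4, TensorProduct.tmul_add, TensorProduct.tmul_smul, TensorProduct.tmul_smul,
        TensorProduct.smul_tmul', TensorProduct.smul_tmul', hsm, hsm, hf, hg,
        TensorProduct.zero_tmul, TensorProduct.zero_tmul, add_zero]
    have h5 : x ⊗ₜ[S] (1 : S) = 0 := h2 (by rw [h3, map_zero])
    have h6 := congrArg (TensorProduct.rid S T) h5
    rw [TensorProduct.rid_tmul, one_smul, map_zero] at h6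
    exact h6
  · intro x y hxy
    have h1 : ∑ i : Fin 2, (![f, g] : Fin 2 → S) i • (![y, x] : Fin 2 → T) i = 0 := by
      rw [Fin.sum_univ_two]
      exact hxy
    have h0 : Module.IsTrivialRelation (R := S) (M := T) ![f, g] ![y, x] :=
      Module.Flat.isTrivialRelation_of_sum_smul_eq_zero (R := S) (M := T) h1
    obtain ⟨κ, a, t, h2, h3⟩ := h0
    have h4 : ∀ j : Fin κ, ∃ z, a 1 j = f * z ∧ a 0 j = -(g * z) := by
      intro j
      refine h.2 _ _ ?_
      have := h3 j
      rw [Fin.sum_univ_two] at this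
      exact this
    choose z hz1 hz2 using h4
    refine ⟨∑ j, z j • t j, ?_, ?_⟩
    · have h5 := h2 1
      rw [show (![y, x] : Fin 2 → T) 1 = x from rfl] at h5
      rw [h5, Finset.mul_sum]
      refine Finset.sum_congr rfl fun j _ => ?_
      rw [hz1, hsm, hsm, map_mul, mul_assoc]
    · have h5 := h2 0
      rw [show (![y, x] : Fin 2 → T) 0 = y from rfl] at h5
      rw [h5, Finset.mul_sum, ← Finset.sum_neg_distrib]
      refine Finset.sum_congr rfl fun j _ => ?_
      rw [hz2, hsm, hsm, map_neg, map_mul]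
      ring

theorem unitK {T : Type} [CommRing T] (u : Tˣ) (f g : T) (h : KosEx f g) :
    KosEx ((u : T) * f) ((u : T) * g) := by
  constructor
  · intro x hf hg
    refine h.1 x ?_ ?_
    · rw [mul_assoc] at hf
      exact (Units.mul_right_eq_zero u).1 hf
    · rw [mul_assoc] at hg
      exact (Units.mul_right_eq_zero u).1 hg
  · intro x y hxy
    have h1 : f * y + g * x = 0 := by
      refine (Units.mul_right_eq_zero u).1 ?_
      rw [← hxy]; ring
    obtain ⟨z, rfl, rfl⟩ := h.2 x y h1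
    refine ⟨(↑u⁻¹ : T) * z, ?_, ?_⟩
    · have : (u : T) * f * ((↑u⁻¹ : T) * z) = ((u : T) * ↑u⁻¹) * (f * z) := by ring
      rw [this, Units.mul_inv, one_mul]
    · have : (u : T) * g * ((↑u⁻¹ : T) * z) = ((u : T) * ↑u⁻¹) * (g * z) := by ring
      rw [this, Units.mul_inv, one_mul]

theorem unitK' {T : Type} [CommRing T] (u : Tˣ) (f g : T) (h : KosEx ((u : T) * f) ((u : T) * g)) :
    KosEx f g := by
  have h1 := unitK u⁻¹ _ _ h
  rwa [← mul_assoc, ← mul_assoc, Units.inv_mul, one_mul, one_mul] at h1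

theorem locK {A T : Type} [CommRing A] [CommRing T] [Algebra A T] (d f g : A)
    [IsLocalization.Away d T] (h : KosEx (algebraMap A T f) (algebraMap A T g)) :
    (∀ x, f * x = 0 → g * x = 0 → ∃ N : ℕ, d ^ N * x = 0) ∧
    (∀ x y, f * y + g * x = 0 → ∃ (N : ℕ) (z : A), d ^ N * x = f * z ∧ d ^ N * y = -(g * z)) := by
  have hz : ∀ x : A, algebraMap A T x = 0 → ∃ N : ℕ, d ^ N * x = 0 := by
    intro x hx
    rw [← map_zero (algebraMap A T), IsLocalization.eq_iff_exists (Submonoid.powers d)] at hx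
    obtain ⟨⟨_, N, rfl⟩, hc⟩ := hx
    exact ⟨N, by rw [mul_zero] at hc; exact hc⟩
  constructor
  · intro x hf hg
    refine hz x (h.1 _ ?_ ?_)
    · rw [← map_mul, hf, map_zero]
    · rw [← map_mul, hg, map_zero]
  · intro x y hxy
    obtain ⟨z', h1, h2⟩ := h.2 (algebraMap A T x) (algebraMap A T y) (by
      rw [← map_mul, ← map_mul, ← map_add, hxy, map_zero])
    obtain ⟨n, z, hz'⟩ := IsLocalization.Away.surj d z'
    have e1 : algebraMap A T (d ^ n * x - f * z) = 0 := by
      rw [map_sub, map_mul, map_mul, map_pow, ← hz', h1]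
      ring
    have e2 : algebraMap A T (d ^ n * y + g * z) = 0 := by
      rw [map_add, map_mul, map_mul, map_pow, ← hz', h2]
      ring
    obtain ⟨N1, hN1⟩ := hz _ e1
    obtain ⟨N2, hN2⟩ := hz _ e2
    refine ⟨N1 + N2 + n, d ^ (N1 + N2) * z, ?_, ?_⟩
    · have : d ^ (N1 + N2 + n) * x - f * (d ^ (N1 + N2) * z) =
          d ^ N2 * (d ^ N1 * (d ^ n * x - f * z)) := by ring
      rw [← sub_eq_zero, this, hN1, mul_zero]
    · have : d ^ (N1 + N2 + n) * y - -(g * (d ^ (N1 + N2) * z)) =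
          d ^ N1 * (d ^ N2 * (d ^ n * y + g * z)) := by ring
      rw [← sub_eq_zero, this, hN2, mul_zero]

end GKS_

open GKS_ in
theorem gks_proof (hKLC : Stmt_KLC) (hGUX : Stmt_GUX) : Stmt_GKS := by
  intro K _ C _ R _ A m a b hm h X
  obtain ⟨V, rfl⟩ : ∃ V, X = op V := ⟨unop X, rfl⟩
  -- the chart `V ⊓ v 0`
  let p : op (A.v 0) ⟶ op (V ⊓ A.v 0) := (homOfLE (inf_le_right : V ⊓ A.v 0 ≤ A.v 0)).op
  let q : op V ⟶ op (V ⊓ A.v 0) := (homOfLE (inf_le_left : V ⊓ A.v 0 ≤ V)).op
  have h1 : KosEx (A.gg 1 a (op (V ⊓ A.v 0))) (A.gg 2 b (op (V ⊓ A.v 0))) := by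
    rw [← A.gg_compat 1 a p, ← A.gg_compat 2 b p]
    exact unitK _ _ _ (flatK (R.map p).hom.toRingHom (PAlg.Good.flat p) _ _ h)
  rw [← A.gg_compat 1 a q, ← A.gg_compat 2 b q] at h1
  have h2 := unitK' _ _ _ h1
  let alg : Algebra (R.ring V) (R.ring (V ⊓ A.v 0)) := (R.map q).hom.toRingHom.toAlgebra
  have hloc : @IsLocalization.Away (R.ring V) _ (A.xx 0 (op V)) (R.ring (V ⊓ A.v 0)) _ alg :=
    A.loc V 0
  have h3 := locK (A := R.ring V) (T := R.ring (V ⊓ A.v 0)) (A.xx 0 (op V)) (A.gg 1 a (op V))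
    (A.gg 2 b (op V)) h2
  exact hKLC (R.ring V) (A.xx 0 (op V)) _ _ h3.1 h3.2 (hGUX K C R A m a b (op V) hm)

end Pool.CRD.Sky
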