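import Pool.Agent.CRD.C.GStmts

set_option autoImplicit false

open CategoryTheory Opposite Limits Pretriangulated Abelian

namespace Pool.CRD.Sky

theorem gpo_proof : Stmt_GPO := by
  intro K _ C _ R A
  have hu : IsUnit (A.xx 0 (op (A.v 0))) := by
    have h1 := A.loc (A.v 0) 0
    have h2 : IsUnit ((R.map (homOfLE (inf_le_left : A.v 0 ⊓ A.v 0 ≤ A.v 0)).op).hom
        (A.xx 0 (op (A.v 0)))) := by
      letI := (R.map (homOfLE (inf_le_left : A.v 0 ⊓ A.v 0 ≤ A.v 0)).op).hom.toRingHom.toAlgebra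
      exact h1.algebraMap_isUnit
    have h3 := h2.map (R.map (homOfLE (le_inf le_rfl le_rfl : A.v 0 ≤ A.v 0 ⊓ A.v 0)).op).hom
    have h4 : (R.map (homOfLE (le_inf le_rfl le_rfl : A.v 0 ≤ A.v 0 ⊓ A.v 0)).op).hom
        ((R.map (homOfLE (inf_le_left : A.v 0 ⊓ A.v 0 ≤ A.v 0)).op).hom
        (A.xx 0 (op (A.v 0)))) = A.xx 0 (op (A.v 0)) := by
      have h5 : R.map (homOfLE (inf_le_left : A.v 0 ⊓ A.v 0 ≤ A.v 0)).op ≫
          R.map (homOfLE (le_inf le_rfl le_rfl : A.v 0 ≤ A.v 0 ⊓ A.v 0)).op = 𝟙 _ := by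
        rw [← R.map_comp, ← R.map_id]
        rfl
      exact congr(($h5).hom (A.xx 0 (op (A.v 0))))
    rwa [h4] at h3
  refine ⟨hu, ?_⟩
  let inv0 : R.ring (A.v 0) := Ring.inverse (A.xx 0 (op (A.v 0)))
  have hinv : A.xx 0 (op (A.v 0)) * inv0 = 1 := Ring.mul_inverse_cancel _ hu
  have hinv' : inv0 * A.xx 0 (op (A.v 0)) = 1 := Ring.inverse_mul_cancel _ hu
  let φ : P2 K →ₐ[K] R.ring (A.v 0) :=
    MvPolynomial.aeval ![A.xx 1 (op (A.v 0)) * inv0, A.xx 2 (op (A.v 0)) * inv0]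
  refine ⟨φ, ?_, ?_, ?_⟩
  · let ψ : MvPolynomial (Fin 3) K →+* P2 K :=
      (MvPolynomial.aeval ![1, MvPolynomial.X 0, MvPolynomial.X 1] :
        MvPolynomial (Fin 3) K →ₐ[K] P2 K).toRingHom
    have h : chartHom A.ρ A.x (A.v 0) 0 = φ.toRingHom.comp ψ := by
      refine MvPolynomial.ringHom_ext ?_ ?_
      · intro c
        have h1 : chartHom A.ρ A.x (A.v 0) 0 (MvPolynomial.C c) =
            (A.ρ.app (op (A.v 0))).hom c := by
          unfold chartHom
          rw [MvPolynomial.coe_eval₂Hom, MvPolynomial.eval₂_C]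
          rfl
        have h2 : (A.ρ.app (op (A.v 0))).hom c = algebraMap K (R.ring (A.v 0)) c :=
          (A.ρ.app (op (A.v 0))).hom.commutes c
        rw [h1, h2]
        simp [ψ]
      · intro j
        have h1 : chartHom A.ρ A.x (A.v 0) 0 (MvPolynomial.X j) =
            (A.xx j (op (A.v 0)) : R.ring (A.v 0)) * inv0 := by
          unfold chartHom
          rw [MvPolynomial.coe_eval₂Hom, MvPolynomial.eval₂_X]
          rfl
        rw [h1]
        fin_cases j
        · simp [ψ, hinv]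
        · simp [ψ, φ]
        · simp [ψ, φ]
    have h2 := A.fin 0
    rw [h] at h2
    exact RingHom.Finite.of_comp_finite h2
  · have h1 : φ (MvPolynomial.X 0) = A.xx 1 (op (A.v 0)) * inv0 := by simp [φ]
    rw [h1, mul_assoc, hinv', mul_one]
  · have h1 : φ (MvPolynomial.X 1) = A.xx 2 (op (A.v 0)) * inv0 := by simp [φ]
    rw [h1, mul_assoc, hinv', mul_one]

end Pool.CRD.Sky
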