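import Pool.Agent.CRD.C.GStmts

set_option autoImplicit false

open CategoryTheory Opposite Limits Pretriangulated Abelian

namespace Pool.CRD.Sky

namespace GRD_

theorem kosEx_unit {A : Type} [CommRing A] {f g : A} (h : KosEx f g) (u : Aˣ) :
    KosEx ((u : A) * f) ((u : A) * g) := by
  obtain ⟨h1, h2⟩ := h
  refine ⟨fun x hx hy => h1 x ?_ ?_, fun x y hxy => ?_⟩
  · rw [mul_assoc] at hx
    exact (Units.mul_right_eq_zero u).1 hx
  · rw [mul_assoc] at hy
    exact (Units.mul_right_eq_zero u).1 hy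
  · have h3 : f * y + g * x = 0 := by
      apply (Units.mul_right_eq_zero u).1
      rw [mul_add, ← mul_assoc, ← mul_assoc]
      exact hxy
    obtain ⟨z, hz1, hz2⟩ := h2 x y h3
    refine ⟨((u⁻¹ : Aˣ) : A) * z, ?_, ?_⟩
    · calc x = f * z := hz1
        _ = ((u : A) * ((u⁻¹ : Aˣ) : A)) * (f * z) := by rw [Units.mul_inv, one_mul]
        _ = _ := by ring
    · calc y = -(g * z) := hz2
        _ = -(((u : A) * ((u⁻¹ : Aˣ) : A)) * (g * z)) := by rw [Units.mul_inv, one_mul]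
        _ = _ := by ring

theorem span_unit {A : Type} [CommRing A] (f g : A) (u : Aˣ) :
    Ideal.span {(u : A) * f, (u : A) * g} = Ideal.span {f, g} := by
  apply le_antisymm
  · rw [Ideal.span_le]
    rintro x (rfl | rfl)
    · exact Ideal.mul_mem_left _ _ (Ideal.subset_span (by simp))
    · exact Ideal.mul_mem_left _ _ (Ideal.subset_span (by simp))
  · rw [Ideal.span_le]
    have key : ∀ x ∈ ({f, g} : Set A), (u : A) * x ∈ ({(u : A) * f, (u : A) * g} : Set A) := by
      rintro x (rfl | rfl) <;> simp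
    intro x hx
    have h1 := Ideal.mul_mem_left (Ideal.span {(u : A) * f, (u : A) * g}) ((u⁻¹ : Aˣ) : A)
      (Ideal.subset_span (key x hx))
    rw [← mul_assoc, Units.inv_mul, one_mul] at h1
    exact h1

end GRD_

open GRD_ in
theorem grd_proof (hGB0 : Stmt_GB0) (hGPO : Stmt_GPO) (hGKS : Stmt_GKS) : Stmt_GRD := by
  intro K _ _ _ C _ R _ A _ m hm
  obtain ⟨hu, φ, hfin, hφ0, hφ1⟩ := hGPO K C R A
  obtain ⟨a, b, hK, n, mm, hmax, hiso⟩ := hGB0 K (R.ring (A.v 0)) φ hfin m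
  obtain ⟨w, hw⟩ := hu
  let u : (R.ring (A.v 0))ˣ := w ^ m
  have e1 : (A.gg 1 a (op (A.v 0)) : R.ring (A.v 0)) = (u : R.ring (A.v 0)) * φ (gridP 0 a) := by
    have hpow : (u : R.ring (A.v 0)) = ∏ _k : Fin m, A.xx 0 (op (A.v 0)) := by
      rw [Finset.prod_const, Finset.card_univ, Fintype.card_fin, ← hw]
      rfl
    rw [hpow, gridP, map_prod, ← Finset.prod_mul_distrib, Amp.gg]
    refine Finset.prod_congr rfl fun k _ => ?_
    rw [map_sub, ← hφ0]
    have : φ (MvPolynomial.C (a k)) = algebraMap K (R.ring (A.v 0)) (a k) := φ.commutes (a k)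
    rw [this]
    ring
  have e2 : (A.gg 2 b (op (A.v 0)) : R.ring (A.v 0)) = (u : R.ring (A.v 0)) * φ (gridP 1 b) := by
    have hpow : (u : R.ring (A.v 0)) = ∏ _k : Fin m, A.xx 0 (op (A.v 0)) := by
      rw [Finset.prod_const, Finset.card_univ, Fintype.card_fin, ← hw]
      rfl
    rw [hpow, gridP, map_prod, ← Finset.prod_mul_distrib, Amp.gg]
    refine Finset.prod_congr rfl fun k _ => ?_
    rw [map_sub, ← hφ1]
    have : φ (MvPolynomial.C (b k)) = algebraMap K (R.ring (A.v 0)) (b k) := φ.commutes (b k)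
    rw [this]
    ring
  have hKos : KosEx (A.gg 1 a (op (A.v 0))) (A.gg 2 b (op (A.v 0))) := by
    have h := kosEx_unit hK u
    rw [← e1, ← e2] at h
    exact h
  have hspan : (Ideal.span {A.gg 1 a (op (A.v 0)), A.gg 2 b (op (A.v 0))} :
      Ideal (R.ring (A.v 0))) = Ideal.span {φ (gridP 0 a), φ (gridP 1 b)} := by
    rw [← span_unit (φ (gridP 0 a)) (φ (gridP 1 b)) u, ← e1, ← e2]
  refine ⟨a, b, hGKS K C R A m a b hm hKos, n, mm, hmax, ?_⟩
  rw [hspan]
  exact hiso

end Pool.CRD.Sky
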