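import Pool.Agent.CRD.C.GStmts

/-!
# CRD, area C: the grid does not meet the line at infinity
-/

open CategoryTheory Opposite Limits Pretriangulated Abelian

namespace Pool.CRD.Sky

namespace GUX_

theorem prod_mod {A : Type} [CommRing A] (x y : A) {ι : Type} (c : ι → A) (s : Finset ι) :
    y ∣ (∏ k ∈ s, (x - c k * y)) - x ^ s.card := by
  classical
  induction s using Finset.induction_on with
  | empty => simp
  | insert k s hk ih =>
    rw [Finset.prod_insert hk, Finset.card_insert_of_notMem hk]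
    obtain ⟨z, hz⟩ := ih
    refine ⟨(x - c k * y) * z - c k * x ^ s.card, ?_⟩
    have h1 : ∏ k ∈ s, (x - c k * y) = x ^ s.card + y * z := by linear_combination hz
    rw [h1]
    ring

theorem unit_x {K : Type} [Field K] {C : Type} [SemilatticeInf C] {R : PAlg K C}
    (A : Amp K K (Fin 3) R) (X : Cᵒᵖ) (i : Fin 3) (hi : X.unop ≤ A.v i) :
    IsUnit (A.xx i X) := by
  have h1 := A.loc X.unop i
  let f : X ⟶ op (X.unop ⊓ A.v i) := (homOfLE (inf_le_left : X.unop ⊓ A.v i ≤ X.unop)).op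
  let g : op (X.unop ⊓ A.v i) ⟶ X := (homOfLE (le_inf le_rfl hi : X.unop ≤ X.unop ⊓ A.v i)).op
  let _ := (R.map f).hom.toRingHom.toAlgebra
  have h2 : IsUnit ((R.map f).hom (A.xx i X)) :=
    @IsLocalization.Away.algebraMap_isUnit (R.ring X.unop) _ (R.ring (X.unop ⊓ A.v i)) _ _
      (A.xx i X) h1
  have h3 := h2.map (R.map g).hom
  have h4 : (R.map g).hom ((R.map f).hom (A.xx i X)) = A.xx i X := by
    have h5 : R.map f ≫ R.map g = 𝟙 (R.obj X) := by
      rw [← R.map_comp]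
      have : f ≫ g = 𝟙 X := Subsingleton.elim _ _
      rw [this, R.map_id]
    exact congr(($h5).hom (A.xx i X))
  rwa [h4] at h3

theorem comb {A : Type} [CommRing A] (x y : A) (m : ℕ) (c : Fin m → A) (hx : IsUnit x) :
    ∃ r s : A, r * y + s * (∏ k, (x - c k * y)) = 1 := by
  obtain ⟨z, hz⟩ := prod_mod x y c Finset.univ
  rw [Finset.card_univ, Fintype.card_fin] at hz
  obtain ⟨v, hv⟩ := (hx.pow m).exists_left_inv
  refine ⟨-(v * z), v, ?_⟩
  linear_combination v * hz + hv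

end GUX_

theorem gux_proof : Stmt_GUX := by
  intro K _ C _ R A m a b X _
  obtain ⟨i, hi⟩ := A.cov X.unop
  have hu := GUX_.unit_x A X i hi
  have hc : i = 0 ∨ i = 1 ∨ i = 2 := by fin_cases i <;> simp
  rcases hc with rfl | rfl | rfl
  · obtain ⟨r, hr⟩ := hu.exists_left_inv
    exact ⟨r, 0, 0, by rw [hr]; ring⟩
  · obtain ⟨r, s, h⟩ := GUX_.comb (A.xx 1 X) (A.xx 0 X) m (fun k => algebraMap K (R.obj X) (a k)) hu
    exact ⟨r, s, 0, by rw [zero_mul, add_zero]; exact h⟩
  · obtain ⟨r, s, h⟩ := GUX_.comb (A.xx 2 X) (A.xx 0 X) m (fun k => algebraMap K (R.obj X) (b k)) hu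
    exact ⟨r, 0, s, by rw [zero_mul, add_zero]; exact h⟩

end Pool.CRD.Sky
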