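import Pool.Agent.CRD.C.DTR
import Pool.Agent.CRD.Top.T1a

open CategoryTheory Opposite Limits Pretriangulated Abelian

namespace Pool.CRD.Sky

namespace IYA_

variable {K : Type} [Field K] {T : Type 1} [Category.{1} T] [HasZeroObject T]
  [HasShift T ℤ] [Preadditive T] [∀ n : ℤ, (shiftFunctor T n).Additive] [Pretriangulated T]
  [Linear K T] [∀ n : ℤ, (shiftFunctor T n).Linear K] {P : T}

lemma exists_functional {V W : Type*} [AddCommGroup V] [AddCommGroup W] [Module K V] [Module K W]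
    (v : V) (hv : v ≠ 0) (w : W) (hw : w ≠ 0) : ∃ μ : V →ₗ[K] W, μ v ≠ 0 := by
  have h : ¬ ∀ φ : Module.Dual K V, φ v = 0 := by
    rw [Module.forall_dual_apply_eq_zero_iff]
    exact hv
  push Not at h
  obtain ⟨φ, hφ⟩ := h
  exact ⟨φ.smulRight w, smul_ne_zero hφ hw⟩

omit [HasZeroObject T] [Pretriangulated T] in
lemma chi_eq (hD : ∀ (M : T) (n : ℤ), DU K P (M⟦n⟧)) (hF : ∀ M N : T, HomFin K M N)
    (hW : Module.finrank K (P ⟶ P⟦(2 : ℤ)⟧) = 1) (M : T) : chi K P M = chi K M P := by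
  have hWf : Module.Finite K (P ⟶ P⟦(2 : ℤ)⟧) := Module.finite_of_finrank_pos (by omega)
  have key : ∀ n : ℤ, Module.finrank K (P ⟶ M⟦n⟧) = Module.finrank K (M ⟶ P⟦2 - n⟧) := by
    intro n
    let e1 : (P ⟶ (M⟦n - 2⟧)⟦(2 : ℤ)⟧) ≃ₗ[K] (P ⟶ M⟦n⟧) := shEquiv' P M (n - 2) 2 n (by omega)
    let e2 : (P ⟶ (M⟦n - 2⟧)⟦(2 : ℤ)⟧) ≃ₗ[K] ((M⟦n - 2⟧ ⟶ P) →ₗ[K] (P ⟶ P⟦(2 : ℤ)⟧)) :=
      LinearEquiv.ofBijective (duP K P (M⟦n - 2⟧)) (hD M (n - 2))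
    let e3 : (M ⟶ P⟦2 - n⟧) ≃ₗ[K] (M⟦n - 2⟧ ⟶ P⟦(0 : ℤ)⟧) :=
      shEquiv M P (n - 2) (2 - n) 0 (by omega)
    let e4 : (M⟦n - 2⟧ ⟶ P) ≃ₗ[K] (M⟦n - 2⟧ ⟶ P⟦(0 : ℤ)⟧) :=
      { toFun := fun f => f ≫ (shiftFunctorZero T ℤ).inv.app P
        invFun := fun f => f ≫ (shiftFunctorZero T ℤ).hom.app P
        map_add' := fun f g => Preadditive.add_comp _ _ _ _ _ _
        map_smul' := fun c f => Linear.smul_comp _ _ _ _ _ _
        left_inv := fun f => by simp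
        right_inv := fun f => by simp }
    have hfin : Module.Finite K (M ⟶ P⟦2 - n⟧) := (hF M P).1 (2 - n)
    have hfin' : Module.Finite K (M⟦n - 2⟧ ⟶ P) := Module.Finite.equiv (e3.trans e4.symm)
    rw [← e1.finrank_eq, e2.finrank_eq, Module.finrank_linearMap, hW, mul_one, e4.finrank_eq,
      e3.finrank_eq]
  unfold chi
  rw [← finsum_comp_equiv (Equiv.subLeft (2 : ℤ)) (f := fun n : ℤ => (n.negOnePow : ℤ) *
    (Module.finrank K (M ⟶ P⟦n⟧) : ℤ))]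
  apply finsum_congr
  intro n
  rw [key n]
  congr 2
  change n.negOnePow = (2 - n).negOnePow
  rw [Int.negOnePow_sub, Int.negOnePow_even 2 (by decide), one_mul]

end IYA_

open IYA_ in
theorem iya_proof : Stmt_IYA := by
  intro K _ C _ R _ hF hEM h1 h2
  refine ⟨(sgB R).obj (OCoh R), ptS R, hF, hEM, ?_⟩
  rintro P ⟨S, hS, ⟨α⟩⟩ ⟨e, he⟩
  have he' : isoEquiv (K := K) α α 2 e ≠ 0 := by
    intro h
    exact he ((isoEquiv (K := K) α α 2).map_eq_zero_iff.1 h)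
  obtain ⟨hp, hc⟩ := h1 S hS ⟨_, he'⟩
  have hD := h2 S hS ⟨_, he'⟩
  refine ⟨pointLike_congr (fun n => ⟨isoEquiv α α n⟩) hp, ?_, fun M => ?_, fun M f hf => ?_⟩
  · rw [← hc]
    exact chi_congr (fun n => ⟨isoEquiv (Iso.refl _) α n⟩)
  · rw [chi_congr (K := K) (M := P) (N := M) (fun n => ⟨isoEquiv α (Iso.refl M) n⟩),
      chi_congr (K := K) (M := M) (N := P) (fun n => ⟨isoEquiv (Iso.refl M) α n⟩)]
    exact chi_eq hD hF hp.2.2.2.1 M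
  · have hD0 : DU K ((sgB R).obj S) M :=
      DTR_.iso ((shiftFunctorZero (Db R) ℤ).app M) (hD M 0)
    have hf' : f ≫ α.hom ≠ 0 := by
      intro h
      apply hf
      have h3 : f = (f ≫ α.hom) ≫ α.inv := by simp
      rw [h3, h, zero_comp]
    obtain ⟨μ, hμ⟩ := exists_functional (K := K) (f ≫ α.hom) hf' _ he'
    obtain ⟨h', hh'⟩ := hD0.2 μ
    refine ⟨α.hom ≫ h', fun h => hμ ?_⟩
    rw [← hh', DTR_.duP_apply, Functor.map_comp, ← Category.assoc]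
    have h4 : h' ≫ f⟦(2 : ℤ)⟧' = α.inv ≫ (α.hom ≫ h') ≫ f⟦(2 : ℤ)⟧' := by simp
    rw [h4, h, comp_zero, zero_comp]

end Pool.CRD.Sky
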