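import Pool.Agent.CRD.C.FStmts

/-!
# CRD, area C, IYT: the interface `IY` for smooth projective surfaces
-/

open CategoryTheory Opposite Limits Pretriangulated Abelian

namespace Pool.CRD.Sky

namespace IYT_

section
variable {K : Type} [Field K] {C : Type} [SmallCategory C] {R : PAlg K C} [R.Good]

lemma van_zero (φ : CycFun K (Db R)) (M : Db R) (h : Van φ M) : φ.φ M = 0 := by
  let e : M⟦(0 : ℤ)⟧ ≅ M := (shiftFunctorZero (Db R) ℤ).app M
  apply LinearMap.ext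
  intro f
  have h1 : e.inv ≫ e.hom ≫ f = f := by
    rw [Iso.inv_hom_id_assoc]
  have h2 := φ.cyc e.inv (e.hom ≫ f)
  rw [h1, h 0] at h2
  exact h2

end

end IYT_

theorem iyt_proof (hPAM : Pool.CRD.Stmt_PAM) (hSEF : Pool.CRD.Stmt_SEF)
    (hYPD : Pool.CRD.Stmt_YPD) (hHFN : Pool.CRD.Stmt_HFN) (hIYA : Stmt_IYA) (hPT1 : Stmt_PT1)
    (hPT2 : Stmt_PT2) (hEMA : Stmt_EMA) (hAXK : Stmt_AXK) (hFSA : Stmt_FSA) (hFSB : Stmt_FSB)
    (hFV3 : Stmt_FV3) : Stmt_IYT := by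
  intro K _ _ _ R _ hR
  obtain ⟨⟨P⟩, hsm⟩ := hR
  obtain ⟨A, -⟩ := hPAM K K (Fin 3) R P
  have hgd := hYPD K R ⟨⟨P⟩, hsm⟩
  have heff : Effac R := hSEF K K (Fin 3) (Cov (Fin 3)) R A
  have hpd : ∀ (s : Cov (Fin 3)) (M : ModuleCat.{0} (R.ring s)), Module.Finite (R.ring s) M →
      HasProjectiveDimensionLT M 3 := fun s M hM => hgd (op s) M hM
  have hB := hFSB K (Cov (Fin 3)) R A
  have hfin : Finite (Cov (Fin 3)) :=
    Finite.of_injective (fun s : Cov (Fin 3) => s.s) (fun a b h => by cases a; cases b; congr)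
  have hS0 : Algebra.Smooth K (R.ring (A.v 0)) := hsm (A.v 0)
  refine hIYA K (Cov (Fin 3)) R (hHFN K (Fin 3) (Cov (Fin 3)) R A 2 hgd) ?_
    (hPT1 K (Cov (Fin 3)) R heff (Fin 3) A (fun i M hM => hpd (A.v i) M hM))
    (hPT2 K (Cov (Fin 3)) R heff (Fin 3) A (fun i M hM => hpd (A.v i) M hM))
  intro φ hφ M
  apply IYT_.van_zero
  refine hEMA K (Cov (Fin 3)) R φ A.LO (hFSA K (Cov (Fin 3)) R A) hB ?_
    (hAXK K (Cov (Fin 3)) R A hB) (hFV3 K R heff) hpd ?_ M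
  · intro d s
    exact (inferInstance : Module.Projective (R.ring s) (R.ring s))
  · intro S hS n
    exact hφ _ ⟨S, hS, ⟨Iso.refl _⟩⟩ n

end Pool.CRD.Sky
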