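import Pool.Agent.CRD.C.GStmts

/-!
# CRD, area C, JST: simple coherent modules are skyscrapers
-/

open CategoryTheory Opposite Limits Pretriangulated Abelian

namespace Pool.CRD.Sky

namespace JST_

/-- a finite nonzero module has a quotient `A ⧸ m` -/
lemma quot_max {A N : Type} [CommRing A] [AddCommGroup N] [Module A N] [Module.Finite A N]
    [Nontrivial N] : ∃ m : Ideal A, m.IsMaximal ∧ ∃ u : N →ₗ[A] (A ⧸ m), u ≠ 0 := by
  obtain ⟨N', hN', -⟩ := (eq_top_or_exists_le_coatom (⊥ : Submodule A N)).resolve_left bot_ne_top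
  have hs : IsSimpleModule A (N ⧸ N') := isSimpleModule_iff_isCoatom.2 hN'
  obtain ⟨m, hm, ⟨e⟩⟩ := isSimpleModule_iff_quot_maximal.1 hs
  refine ⟨m, hm, e.toLinearMap ∘ₗ N'.mkQ, fun h => ?_⟩
  apply hN'.1
  rw [eq_top_iff]
  intro x _
  have h1 : e (N'.mkQ x) = 0 := LinearMap.congr_fun h x
  have h2 : N'.mkQ x = 0 := by
    apply e.injective
    rw [h1, map_zero]
  exact (Submodule.Quotient.mk_eq_zero N').1 h2

/-- the Nullstellensatz -/
lemma finrank_one {K A : Type} [Field K] [IsAlgClosed K] [CommRing A] [Algebra K A]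
    [Algebra.FiniteType K A] (m : Ideal A) (hm : m.IsMaximal) :
    Module.finrank K (A ⧸ m) = 1 := by
  letI := Ideal.Quotient.field m
  haveI : Algebra.FiniteType K (A ⧸ m) :=
    Algebra.FiniteType.of_surjective (Ideal.Quotient.mkₐ K m) (Ideal.Quotient.mkₐ_surjective K m)
  haveI : Module.Finite K (A ⧸ m) := finite_of_finite_type_of_isJacobsonRing K (A ⧸ m)
  haveI : Algebra.IsIntegral K (A ⧸ m) := inferInstance
  have hb := IsAlgClosed.algebraMap_bijective_of_isIntegral (k := K) (K := A ⧸ m)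
  have e : K ≃ₗ[K] (A ⧸ m) := LinearEquiv.ofBijective (Algebra.linearMap K (A ⧸ m)) hb
  rw [← e.finrank_eq, Module.finrank_self]

lemma nontriv_bc {A B M N : Type} [CommRing A] [CommRing B] [Algebra A B]
    [AddCommGroup M] [AddCommGroup N] [Module A M] [Module B N] [Module A N]
    [IsScalarTower A B N] (m : M →ₗ[A] N) (hm : IsBaseChange B m) [Nontrivial N] :
    Nontrivial M := by
  by_contra h
  rw [not_nontrivial_iff_subsingleton] at h
  have hz : ∀ y : N, y = 0 := by
    intro y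
    induction y using hm.inductionOn with
    | zero => rfl
    | tmul x => rw [Subsingleton.elim x 0, map_zero]
    | smul s n hn => rw [hn, smul_zero]
    | add a b ha hb => rw [ha, hb, add_zero]
  obtain ⟨a, b, hab⟩ := exists_pair_ne N
  exact hab ((hz a).trans (hz b).symm)

section
variable {K : Type} [Field K] {C : Type} [SemilatticeInf C] {R : PAlg K C}

lemma nontriv_cart (M : PMod R) {X Y : Cᵒᵖ} (f : X ⟶ Y) (h : IsCart M f)
    (hY : Nontrivial (M.obj Y)) : Nontrivial (M.obj X) := by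
  letI : Algebra (R.obj X) (R.obj Y) := (R.map f).hom.toRingHom.toAlgebra
  letI : Module (R.obj X) (M.obj X) := inferInstanceAs (Module (R.toRing.obj X) (M.obj X))
  letI : Module (R.obj Y) (M.obj Y) := inferInstanceAs (Module (R.toRing.obj Y) (M.obj Y))
  letI : Module (R.obj X) (M.obj Y) := Module.compHom (M.obj Y) (R.map f).hom.toRingHom
  haveI : IsScalarTower (R.obj X) (R.obj Y) (M.obj Y) :=
    ⟨fun a b c => by rw [Algebra.smul_def, mul_smul]; rfl⟩
  exact nontriv_bc (A := R.obj X) (B := R.obj Y) (M := M.obj X) (N := M.obj Y) _ h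

lemma exists_chart [R.Good] (S : Coh R) (hS : Simple S) :
    ∃ X : Cᵒᵖ, Nontrivial (S.obj.obj X) := by
  by_contra h
  have h1 : IsZero S.obj := isZero_of_subsingleton
    (fun X => not_nontrivial_iff_subsingleton.1 (fun hX => h ⟨X, hX⟩))
  have h2 : IsZero S := by
    rw [IsZero.iff_id_eq_zero]
    apply ObjectProperty.hom_ext
    exact h1.eq_of_src _ _
  exact Simple.not_isZero S h2

lemma supp_iso {S Q : Coh R} (e : S ≅ Q) (V : C) (h : SuppIn V Q.obj) : SuppIn V S.obj := by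
  intro X
  set f := (homOfLE (inf_le_left : X ⊓ V ≤ X)).op with hf
  have hQ := h X
  have b1 : ∀ Y : Cᵒᵖ, Function.Bijective (e.hom.hom.app Y).hom := by
    intro Y
    refine Function.bijective_iff_has_inverse.2 ⟨(e.inv.hom.app Y).hom, fun x => ?_, fun x => ?_⟩
    · exact congrArg (fun a : S ⟶ S => (a.hom.app Y).hom x) e.hom_inv_id
    · exact congrArg (fun a : Q ⟶ Q => (a.hom.app Y).hom x) e.inv_hom_id
  have hc : (fun x => (e.hom.hom.app (op (X ⊓ V))).hom (rs S.obj f x)) =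
      fun x => rs Q.obj f ((e.hom.hom.app (op X)).hom x) := by
    funext x
    exact rs_nat e.hom.hom f x
  have h2 : Function.Bijective ((e.hom.hom.app (op (X ⊓ V))).hom ∘ rs S.obj f) := by
    have h3 : ((e.hom.hom.app (op (X ⊓ V))).hom ∘ rs S.obj f) =
      (rs Q.obj f ∘ (e.hom.hom.app (op X)).hom) := hc
    rw [h3]
    exact hQ.comp (b1 _)
  exact (Function.Bijective.of_comp_iff' (b1 _) _).1 h2

end

end JST_

theorem jst_proof (hLAT : Stmt_LAT) (hFTR : Stmt_FTR) (hSKF : Stmt_SKF) (hSKS : Stmt_SKS)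
    (hSKE : Stmt_SKE) : Stmt_JST := by
  intro K _ _ C _ R _ ι _ A S hS
  obtain ⟨X, hX⟩ := JST_.exists_chart S hS
  obtain ⟨i, hi⟩ := A.cov X.unop
  have hV : Nontrivial (S.obj.obj (op (A.v i))) :=
    JST_.nontriv_cart S.obj (X := op (A.v i)) (Y := X) (homOfLE hi).op
      (S.property.2 _) hX
  haveI : Nontrivial (sec S.obj (A.v i)) := hV
  haveI : Module.Finite (R.ring (A.v i)) (sec S.obj (A.v i)) := S.property.1 (op (A.v i))
  obtain ⟨m, hm, u, hu⟩ := JST_.quot_max (A := R.ring (A.v i)) (N := sec S.obj (A.v i))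
  haveI : Algebra.FiniteType K (R.ring (A.v i)) := hFTR K C R ι A i
  have hfr := JST_.finrank_one (K := K) m hm
  have hloc : LocAt R (A.v i) := hLAT K C R K ι A i
  obtain ⟨Q, hQ, ⟨e⟩⟩ := hSKE K C R (A.v i) hloc
    (fun s => (A.cov s).imp (fun j hj => ⟨hj, hLAT K C R K ι A j⟩) |>.elim
      (fun j hj => ⟨A.v j, hj⟩)) m hm hfr
  have hQs : Simple Q := hSKS K C R (A.v i) hloc Q hQ
    (isSimpleModule_iff_quot_maximal.2 ⟨m, hm, ⟨e⟩⟩)
  obtain ⟨f, hf⟩ := (hSKF K C R (A.v i) S Q hQ).2 (e.symm.toLinearMap ∘ₗ u)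
  have hf0 : f ≠ 0 := by
    rintro rfl
    apply hu
    apply LinearMap.ext
    intro x
    have h1 : e.symm (u x) = 0 := (LinearMap.congr_fun hf x).symm
    have h2 := congrArg e h1
    rwa [LinearEquiv.apply_symm_apply, map_zero] at h2
  haveI := hS
  haveI := hQs
  haveI : IsIso f := isIso_of_hom_simple hf0
  let ee : S ≅ Q := asIso f
  refine ⟨i, m, hm, hfr, ⟨?_⟩, JST_.supp_iso ee _ hQ⟩
  have b1 : Function.Bijective (f.hom.app (op (A.v i))).hom := by
    refine Function.bijective_iff_has_inverse.2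
      ⟨(ee.inv.hom.app (op (A.v i))).hom, fun x => ?_, fun x => ?_⟩
    · exact congrArg (fun a : S ⟶ S => (a.hom.app (op (A.v i))).hom x) ee.hom_inv_id
    · exact congrArg (fun a : Q ⟶ Q => (a.hom.app (op (A.v i))).hom x) ee.inv_hom_id
  let g : sec S.obj (A.v i) →ₗ[R.ring (A.v i)] sec Q.obj (A.v i) :=
    (f.hom.app (op (A.v i))).hom
  exact (LinearEquiv.ofBijective g b1).trans e

end Pool.CRD.Sky
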