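import Pool.Agent.CRD.C.GStmts

/-!
# CRD, area C: exactness of the Koszul complex from exactness after localisation
-/

open CategoryTheory Opposite Limits Pretriangulated Abelian

namespace Pool.CRD.Sky

namespace KLC_

theorem unit_pow {A : Type} [CommRing A] (d f g r s t : A) (h : r * d + s * f + t * g = 1) :
    ∀ N : ℕ, ∃ r' s' t' : A, r' * d ^ N + s' * f + t' * g = 1 := by
  intro N
  induction N with
  | zero => exact ⟨1, 0, 0, by ring⟩
  | succ N ih =>
    obtain ⟨r', s', t', h'⟩ := ih
    refine ⟨r' * r, s' + r' * d ^ N * s, t' + r' * d ^ N * t, ?_⟩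
    linear_combination h' + r' * d ^ N * h

end KLC_

theorem klc_proof : Stmt_KLC := by
  intro A _ d f g h1 h2 h3
  obtain ⟨r, s, t, h⟩ := h3
  refine ⟨?_, ?_⟩
  · intro x hf hg
    obtain ⟨N, hN⟩ := h1 x hf hg
    obtain ⟨r', s', t', h'⟩ := KLC_.unit_pow d f g r s t h N
    linear_combination (-x) * h' + r' * hN + s' * hf + t' * hg
  · intro x y hxy
    obtain ⟨N, z, hx, hy⟩ := h2 x y hxy
    obtain ⟨r', s', t', h'⟩ := KLC_.unit_pow d f g r s t h N
    refine ⟨r' * z + s' * x - t' * y, ?_, ?_⟩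
    · linear_combination (-x) * h' + r' * hx + t' * hxy
    · linear_combination (-y) * h' + r' * hy + s' * hxy

end Pool.CRD.Sky
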