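import Pool.Agent.CRD.C.GStmts

/-!
# CRD, area C, KOS: factorisation through the cokernel of the Koszul complex
-/

open CategoryTheory Opposite Limits Pretriangulated Abelian

namespace Pool.CRD.Sky

namespace KOS_

section
variable {K : Type} [Field K] {C : Type} [SmallCategory C] {R : PAlg K C} [R.Good]

/-- the inclusion of the bounded derived category -/
noncomputable abbrev iB (R : PAlg K C) [R.Good] : Db R ⥤ DerivedCategory (Coh R) :=
  DerivedCategory.Bounded.ι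

/-- the functor of modules in degree zero -/
noncomputable abbrev sF (R : PAlg K C) [R.Good] : Coh R ⥤ DerivedCategory (Coh R) :=
  DerivedCategory.singleFunctor (Coh R) 0

lemma zero_of {X : Coh R} {M : Db R} (n : ℤ)
    (h : ∀ f : (sgB R).obj X ⟶ M⟦n⟧, f = 0) (f : (sF R).obj X ⟶ ((iB R).obj M)⟦n⟧) : f = 0 := by
  let c := ((iB R).commShiftIso n).app M
  let g : (iB R).obj ((sgB R).obj X) ⟶ (iB R).obj (M⟦n⟧) := f ≫ c.inv
  have h1 : (iB R).preimage g = 0 := h _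
  have h2 : g = 0 := by
    rw [← (iB R).map_preimage g, h1, Functor.map_zero]
  have h3 : f ≫ c.inv = 0 := h2
  rw [← cancel_mono c.inv, h3, zero_comp]

lemma zero3 (S : ShortComplex (Coh R)) (hS : S.ShortExact) (N : DerivedCategory (Coh R))
    (h1 : ∀ f : (sF R).obj S.X₁ ⟶ N⟦(1 : ℤ)⟧, f = 0)
    (h2 : ∀ f : (sF R).obj S.X₂ ⟶ N⟦(2 : ℤ)⟧, f = 0)
    (f : (sF R).obj S.X₃ ⟶ N⟦(2 : ℤ)⟧) : f = 0 := by
  obtain ⟨g, hg⟩ := Triangle.yoneda_exact₃ hS.singleTriangle hS.singleTriangle_distinguished f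
    (h2 _)
  let a := (shiftFunctorAdd' (DerivedCategory (Coh R)) (1 : ℤ) 1 2 (by norm_num)).app N
  have h4 : (shiftFunctor (DerivedCategory (Coh R)) (1 : ℤ)).preimage
      (X := (sF R).obj S.X₁) (Y := N⟦(1 : ℤ)⟧) (g ≫ a.hom) = 0 := h1 _
  have h5 : g ≫ a.hom = 0 := by
    have h7 := (shiftFunctor (DerivedCategory (Coh R)) (1 : ℤ)).map_preimage
      (X := (sF R).obj S.X₁) (Y := N⟦(1 : ℤ)⟧) (g ≫ a.hom)
    rw [h4, Functor.map_zero] at h7
    exact h7.symm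
  have h6 : g = 0 := by
    rw [← cancel_mono a.hom, h5, zero_comp]
  rw [hg, h6]
  exact comp_zero

end

end KOS_

theorem kos_proof : Stmt_KOS := by
  intro K _ C _ R _ S₁ S₂ h1 h2 ⟨i⟩ M hM1 hM2 e
  have k1 := KOS_.zero_of (X := S₁.X₁) (M := M) 1 hM1
  have k2 := KOS_.zero_of (X := S₁.X₂) (M := M) 2 hM2
  have k3 := KOS_.zero3 S₁ h1 _ k1 k2
  let c := ((KOS_.iB R).commShiftIso (2 : ℤ)).app M
  let e1 : (KOS_.sF R).obj S₂.X₂ ⟶ ((KOS_.iB R).obj M)⟦(2 : ℤ)⟧ := (KOS_.iB R).map e ≫ c.hom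
  have k4 : (KOS_.sF R).map S₂.f ≫ e1 = 0 := by
    have k5 := k3 ((KOS_.sF R).map i.hom ≫ (KOS_.sF R).map S₂.f ≫ e1)
    rw [← cancel_epi ((KOS_.sF R).map i.hom), k5, comp_zero]
  obtain ⟨e2, he2⟩ := Triangle.yoneda_exact₂ h2.singleTriangle h2.singleTriangle_distinguished e1 k4
  let e3 : (KOS_.iB R).obj ((sgB R).obj S₂.X₃) ⟶ (KOS_.iB R).obj (M⟦(2 : ℤ)⟧) := e2 ≫ c.inv
  refine ⟨(KOS_.iB R).preimage e3, ?_⟩
  apply (KOS_.iB R).map_injective
  rw [Functor.map_comp, (KOS_.iB R).map_preimage e3]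
  have h7 : e1 ≫ c.inv = (KOS_.iB R).map e := by
    change ((KOS_.iB R).map e ≫ c.hom) ≫ c.inv = (KOS_.iB R).map e
    rw [Category.assoc, c.hom_inv_id]
    exact Category.comp_id _
  rw [← h7, he2]
  exact Category.assoc _ _ _

end Pool.CRD.Sky
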