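import Pool.Agent.CRD.C.GStmts

/-!
# CRD, area C: the Koszul complex of a grid in the plane
-/

open CategoryTheory Opposite Limits Pretriangulated Abelian

namespace Pool.CRD.Sky

namespace KPO_

variable {K : Type} [Field K]

/-- the substitution `X_0 = a` -/
noncomputable def sb (a : K) : P2 K →ₐ[K] P2 K :=
  MvPolynomial.aeval (fun i : Fin 2 => if i = 0 then MvPolynomial.C a else MvPolynomial.X i)

theorem sb_C (a c : K) : sb a (MvPolynomial.C c) = MvPolynomial.C c := by
  simp [sb]

theorem sb_X0 (a : K) : sb a (MvPolynomial.X 0) = MvPolynomial.C a := by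
  simp [sb]

theorem sb_X1 (a : K) : sb a (MvPolynomial.X 1) = MvPolynomial.X 1 := by
  simp [sb]

theorem dvd_sub (a : K) (h : P2 K) : (MvPolynomial.X 0 - MvPolynomial.C a : P2 K) ∣ h - sb a h := by
  induction h using MvPolynomial.induction_on with
  | C c => rw [sb_C, sub_self]; exact dvd_zero _
  | add p q hp hq =>
    rw [map_add]
    have h1 : p + q - (sb a p + sb a q) = (p - sb a p) + (q - sb a q) := by ring
    rw [h1]
    exact dvd_add hp hq
  | mul_X p i hp =>
    rw [map_mul]
    have h1 : p * MvPolynomial.X i - sb a p * sb a (MvPolynomial.X i) =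
        (p - sb a p) * MvPolynomial.X i + sb a p * (MvPolynomial.X i - sb a (MvPolynomial.X i)) := by
      ring
    rw [h1]
    refine dvd_add (hp.mul_right _) (Dvd.dvd.mul_left ?_ _)
    have hi : i = 0 ∨ i = 1 := by fin_cases i <;> simp
    rcases hi with rfl | rfl
    · rw [sb_X0]
    · rw [sb_X1, sub_self]; exact dvd_zero _

theorem ne (j : Fin 2) (b : K) : (MvPolynomial.X j - MvPolynomial.C b : P2 K) ≠ 0 := by
  intro h
  have h1 := congrArg (MvPolynomial.eval (fun _ => b + 1)) h
  simp at h1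

theorem dvd_of_dvd {g : P2 K} (hg : g ≠ 0) (a : K) (hga : sb a g = g) (x : P2 K)
    (h : (MvPolynomial.X 0 - MvPolynomial.C a : P2 K) ∣ g * x) :
    (MvPolynomial.X 0 - MvPolynomial.C a : P2 K) ∣ x := by
  obtain ⟨c, hc⟩ := h
  have h1 := congrArg (sb a) hc
  rw [map_mul, map_mul, map_sub, sb_X0, sb_C, sub_self, zero_mul, hga] at h1
  have h2 : sb a x = 0 := by
    rcases mul_eq_zero.mp h1 with h | h
    · exact absurd h hg
    · exact h
  have h3 := dvd_sub a x
  rwa [h2, sub_zero] at h3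

theorem prod_dvd {g : P2 K} (hg : g ≠ 0) (hga : ∀ a, sb a g = g) {m : ℕ} (a : Fin m → K)
    (s : Finset (Fin m)) : ∀ x : P2 K,
    (∏ k ∈ s, (MvPolynomial.X 0 - MvPolynomial.C (a k) : P2 K)) ∣ g * x →
    (∏ k ∈ s, (MvPolynomial.X 0 - MvPolynomial.C (a k) : P2 K)) ∣ x := by
  classical
  induction s using Finset.induction_on with
  | empty => intro x _; simp
  | insert k s hk ih =>
    intro x hx
    rw [Finset.prod_insert hk] at hx ⊢
    obtain ⟨y, rfl⟩ := dvd_of_dvd hg (a k) (hga (a k)) x (dvd_of_mul_right_dvd hx)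
    have h1 : g * ((MvPolynomial.X 0 - MvPolynomial.C (a k)) * y) =
        (MvPolynomial.X 0 - MvPolynomial.C (a k)) * (g * y) := by ring
    rw [h1] at hx
    exact mul_dvd_mul_left _ (ih y ((mul_dvd_mul_iff_left (ne 0 (a k))).mp hx))

end KPO_

theorem kpo_proof : Stmt_KPO := by
  intro K _ m a b
  have hf : (gridP 0 a : P2 K) ≠ 0 := Finset.prod_ne_zero_iff.mpr fun k _ => KPO_.ne 0 (a k)
  have hg : (gridP 1 b : P2 K) ≠ 0 := Finset.prod_ne_zero_iff.mpr fun k _ => KPO_.ne 1 (b k)
  refine ⟨?_, ?_⟩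
  · intro x hx _
    rcases mul_eq_zero.mp hx with h | h
    · exact absurd h hf
    · exact h
  · intro x y hxy
    have h1 : (gridP 0 a : P2 K) ∣ gridP 1 b * x := ⟨-y, by linear_combination hxy⟩
    have h2 : (gridP 0 a : P2 K) ∣ x := by
      refine KPO_.prod_dvd hg ?_ a Finset.univ x h1
      intro c
      rw [gridP, map_prod]
      refine Finset.prod_congr rfl fun k _ => ?_
      rw [map_sub, KPO_.sb_X1, KPO_.sb_C]
    obtain ⟨z, rfl⟩ := h2
    refine ⟨z, rfl, ?_⟩
    have h3 : gridP 0 a * (y + gridP 1 b * z) = 0 := by linear_combination hxy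
    rcases mul_eq_zero.mp h3 with h | h
    · exact absurd h hf
    · linear_combination h

end Pool.CRD.Sky
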