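import Pool.Agent.CRD.C.GStmts

/-!
# CRD, area C, KSA: the Koszul complex of two sections of `O(m)`
-/

open CategoryTheory Opposite Limits Pretriangulated Abelian

namespace Pool.CRD.Sky

namespace KSA_

section
variable {K : Type} [Field K] {C : Type} [SemilatticeInf C] {R : PAlg K C}
  (A : Amp K K (Fin 3) R)

lemma coc_eq {m n n' : ℕ} (h : n' = n + m) :
    (A.L ^ (-(n : ℤ))) = (A.L ^ (m : ℤ)) * (A.L ^ (-(n' : ℤ))) := by
  rw [← zpow_add]
  congr 1
  subst h
  push_cast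
  ring

/-- product in the ring of a chart -/
def ml {X : Cᵒᵖ} (a b : R.obj X) : R.obj X := a * b

/-- multiplication by a section -/
noncomputable def mu {m : ℕ} (f : LSec (A.L ^ (m : ℤ))) (n n' : ℕ) (h : n' = n + m) :
    (A.LO n').obj ⟶ (A.LO n).obj :=
  mkHom (M := (A.L ^ (-(n' : ℤ))).twObj (OR R)) (N := (A.L ^ (-(n : ℤ))).twObj (OR R))
    (fun X =>
      { toFun := fun x => ml (f.a X) x
        map_add' := fun x y => mul_add (R := R.obj X) (f.a X) x y
        map_smul' := fun r x => mul_left_comm (G := R.obj X) (f.a X) r x })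
    (fun {X Y} φ x => by
      change ml (f.a Y) (ml ((A.L ^ (-(n' : ℤ))).v φ) ((R.map φ).hom x)) =
        ml ((A.L ^ (-(n : ℤ))).v φ) ((R.map φ).hom (ml (f.a X) x))
      have h1 : (A.L ^ (-(n : ℤ))).v φ =
          ml ((A.L ^ (m : ℤ)).v φ) ((A.L ^ (-(n' : ℤ))).v φ) := by
        rw [coc_eq A h]; rfl
      have h2 : f.a Y = ml ((A.L ^ (m : ℤ)).v φ) ((R.map φ).hom (f.a X)) := (f.compat φ).symm
      rw [h1, h2]
      have h3 : (R.map φ).hom (ml (f.a X) x) = ml ((R.map φ).hom (f.a X)) ((R.map φ).hom x) :=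
        map_mul (R.map φ).hom _ _
      rw [h3]
      unfold ml
      ring)

lemma mu_app {m : ℕ} (f : LSec (A.L ^ (m : ℤ))) (n n' : ℕ) (h : n' = n + m) (X : Cᵒᵖ)
    (x : (A.LO n').obj.obj X) :
    (mu A f n n' h).app X x = ml (R := R) (X := X) (f.a X) x := rfl

/-- multiplication by a section, on coherent modules -/
noncomputable def muC {m : ℕ} (f : LSec (A.L ^ (m : ℤ))) (n n' : ℕ) (h : n' = n + m) :
    A.LO n' ⟶ A.LO n := ObjectProperty.homMk (mu A f n n' h)

lemma muC_app {m : ℕ} (f : LSec (A.L ^ (m : ℤ))) (n n' : ℕ) (h : n' = n + m) (X : Cᵒᵖ)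
    (x : (A.LO n').obj.obj X) :
    ((muC A f n n' h).hom.app X).hom x = ml (R := R) (X := X) (f.a X) x := rfl

lemma comp_app {M N P : Coh R} (a : M ⟶ N) (b : N ⟶ P) (X : Cᵒᵖ) (x : M.obj.obj X) :
    ((a ≫ b).hom.app X).hom x = (b.hom.app X).hom ((a.hom.app X).hom x) := rfl

lemma add_app {M N : Coh R} (a b : M ⟶ N) (X : Cᵒᵖ) (x : M.obj.obj X) :
    ((a + b).hom.app X).hom x = (a.hom.app X).hom x + (b.hom.app X).hom x := rfl

lemma neg_app {M N : Coh R} (a : M ⟶ N) (X : Cᵒᵖ) (x : M.obj.obj X) :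
    ((-a).hom.app X).hom x = -(a.hom.app X).hom x := rfl

lemma id_app (M : Coh R) (X : Cᵒᵖ) (x : M.obj.obj X) :
    ((𝟙 M : M ⟶ M).hom.app X).hom x = x := rfl

end

section
variable {K : Type} [Field K] {C : Type} [SemilatticeInf C] {R : PAlg K C} [R.Good]
  (A : Amp K K (Fin 3) R)

/-- the second differential -/
noncomputable def d2 {m : ℕ} (f g : LSec (A.L ^ (m : ℤ))) (d : ℕ) :
    (⨁ fun _ : Fin 2 => A.LO (d + m)) ⟶ A.LO d :=
  biproduct.desc (fun j => if j = 0 then muC A f d (d + m) rfl else muC A g d (d + m) rfl)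

/-- the first differential -/
noncomputable def d1 {m : ℕ} (f g : LSec (A.L ^ (m : ℤ))) (d : ℕ) :
    A.LO (d + 2 * m) ⟶ (⨁ fun _ : Fin 2 => A.LO (d + m)) :=
  biproduct.lift (fun j => if j = 0 then -muC A g (d + m) (d + 2 * m) (by ring)
    else muC A f (d + m) (d + 2 * m) (by ring))

lemma dec {M : Coh R} (X : Cᵒᵖ) (z : (⨁ fun _ : Fin 2 => M).obj.obj X) :
    z = ((biproduct.ι (fun _ : Fin 2 => M) 0).hom.app X).hom
          (((biproduct.π (fun _ : Fin 2 => M) 0).hom.app X).hom z) +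
        ((biproduct.ι (fun _ : Fin 2 => M) 1).hom.app X).hom
          (((biproduct.π (fun _ : Fin 2 => M) 1).hom.app X).hom z) := by
  have h := biproduct.total (f := fun _ : Fin 2 => M)
  rw [Fin.sum_univ_two] at h
  have h2 := congrArg (fun a : (⨁ fun _ : Fin 2 => M) ⟶ (⨁ fun _ : Fin 2 => M) =>
    (a.hom.app X).hom z) h
  exact h2.symm

lemma d2_ι0 {m : ℕ} (f g : LSec (A.L ^ (m : ℤ))) (d : ℕ) :
    biproduct.ι (fun _ : Fin 2 => A.LO (d + m)) 0 ≫ d2 A f g d = muC A f d (d + m) rfl := by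
  rw [d2, biproduct.ι_desc, if_pos rfl]

lemma d2_ι1 {m : ℕ} (f g : LSec (A.L ^ (m : ℤ))) (d : ℕ) :
    biproduct.ι (fun _ : Fin 2 => A.LO (d + m)) 1 ≫ d2 A f g d = muC A g d (d + m) rfl := by
  rw [d2, biproduct.ι_desc, if_neg (by decide)]

lemma d1_π0 {m : ℕ} (f g : LSec (A.L ^ (m : ℤ))) (d : ℕ) :
    d1 A f g d ≫ biproduct.π (fun _ : Fin 2 => A.LO (d + m)) 0 =
      -muC A g (d + m) (d + 2 * m) (by ring) := by
  rw [d1, biproduct.lift_π, if_pos rfl]

lemma d1_π1 {m : ℕ} (f g : LSec (A.L ^ (m : ℤ))) (d : ℕ) :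
    d1 A f g d ≫ biproduct.π (fun _ : Fin 2 => A.LO (d + m)) 1 =
      muC A f (d + m) (d + 2 * m) (by ring) := by
  rw [d1, biproduct.lift_π, if_neg (by decide)]

lemma d2_in0 {m : ℕ} (f g : LSec (A.L ^ (m : ℤ))) (d : ℕ) (X : Cᵒᵖ)
    (x : (A.LO (d + m)).obj.obj X) :
    ((d2 A f g d).hom.app X).hom
      (((biproduct.ι (fun _ : Fin 2 => A.LO (d + m)) 0).hom.app X).hom x) =
      ml (R := R) (X := X) (f.a X) x := by
  rw [← comp_app, d2_ι0]; rfl

lemma d2_in1 {m : ℕ} (f g : LSec (A.L ^ (m : ℤ))) (d : ℕ) (X : Cᵒᵖ)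
    (x : (A.LO (d + m)).obj.obj X) :
    ((d2 A f g d).hom.app X).hom
      (((biproduct.ι (fun _ : Fin 2 => A.LO (d + m)) 1).hom.app X).hom x) =
      ml (R := R) (X := X) (g.a X) x := by
  rw [← comp_app, d2_ι1]; rfl

lemma d2_app {m : ℕ} (f g : LSec (A.L ^ (m : ℤ))) (d : ℕ) (X : Cᵒᵖ)
    (z : (⨁ fun _ : Fin 2 => A.LO (d + m)).obj.obj X) :
    ((d2 A f g d).hom.app X).hom z =
      (ml (R := R) (X := X) (f.a X)
          (((biproduct.π (fun _ : Fin 2 => A.LO (d + m)) 0).hom.app X).hom z) +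
        ml (R := R) (X := X) (g.a X)
          (((biproduct.π (fun _ : Fin 2 => A.LO (d + m)) 1).hom.app X).hom z) : R.obj X) := by
  conv_lhs => rw [dec X z]
  rw [map_add, d2_in0, d2_in1]
  rfl

lemma d1_mono {m : ℕ} (f g : LSec (A.L ^ (m : ℤ))) (d : ℕ)
    (H : ∀ X : Cᵒᵖ, KosEx (A := R.obj X) (f.a X) (g.a X)) : Mono (d1 A f g d) := by
  rw [coh_mono_iff]
  intro X
  rw [injective_iff_map_eq_zero]
  intro x hx
  have h0 : ((d1 A f g d ≫ biproduct.π (fun _ : Fin 2 => A.LO (d + m)) 0).hom.app X).hom x = 0 := by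
    rw [comp_app, hx, map_zero]
  have h1 : ((d1 A f g d ≫ biproduct.π (fun _ : Fin 2 => A.LO (d + m)) 1).hom.app X).hom x = 0 := by
    rw [comp_app, hx, map_zero]
  rw [d1_π0, neg_app, neg_eq_zero, muC_app] at h0
  rw [d1_π1, muC_app] at h1
  exact (H X).1 x h1 h0

omit [R.Good] in
lemma ring_id {X : Cᵒᵖ} (a b x : R.obj X) :
    (ml (R := R) (X := X) a (-(ml b x)) + ml b (ml a x) : R.obj X) = 0 := by
  unfold ml
  ring

lemma d1_p0 {m : ℕ} (f g : LSec (A.L ^ (m : ℤ))) (d : ℕ) (X : Cᵒᵖ)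
    (w : (A.LO (d + 2 * m)).obj.obj X) :
    ((biproduct.π (fun _ : Fin 2 => A.LO (d + m)) 0).hom.app X).hom
      (((d1 A f g d).hom.app X).hom w) = (-(ml (R := R) (X := X) (g.a X) w) : R.obj X) := by
  rw [← comp_app, d1_π0]
  rfl

lemma d1_p1 {m : ℕ} (f g : LSec (A.L ^ (m : ℤ))) (d : ℕ) (X : Cᵒᵖ)
    (w : (A.LO (d + 2 * m)).obj.obj X) :
    ((biproduct.π (fun _ : Fin 2 => A.LO (d + m)) 1).hom.app X).hom
      (((d1 A f g d).hom.app X).hom w) = ml (R := R) (X := X) (f.a X) w := by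
  rw [← comp_app, d1_π1]
  rfl

lemma d12_zero {m : ℕ} (f g : LSec (A.L ^ (m : ℤ))) (d : ℕ) : d1 A f g d ≫ d2 A f g d = 0 := by
  apply ObjectProperty.hom_ext
  apply pmod_ext
  intro X x
  change ((d2 A f g d).hom.app X).hom (((d1 A f g d).hom.app X).hom x) = 0
  rw [d2_app, ← comp_app, ← comp_app, d1_π0, d1_π1, neg_app, muC_app, muC_app]
  exact ring_id (f.a X) (g.a X) x

lemma d12_exact {m : ℕ} (f g : LSec (A.L ^ (m : ℤ))) (d : ℕ)
    (H : ∀ X : Cᵒᵖ, KosEx (A := R.obj X) (f.a X) (g.a X)) :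
    (ShortComplex.mk (d1 A f g d) (d2 A f g d) (d12_zero A f g d)).Exact := by
  rw [coh_exact_iff]
  intro X z
  constructor
  · intro hz
    change ((d2 A f g d).hom.app X).hom z = 0 at hz
    rw [d2_app] at hz
    obtain ⟨w, hw1, hw2⟩ := (H X).2 (((biproduct.π (fun _ : Fin 2 => A.LO (d + m)) 1).hom.app X).hom z)
      (((biproduct.π (fun _ : Fin 2 => A.LO (d + m)) 0).hom.app X).hom z) hz
    refine ⟨w, ?_⟩
    change ((d1 A f g d).hom.app X).hom w = z
    have e0 := d1_p0 A f g d X w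
    have e1 := d1_p1 A f g d X w
    rw [dec X z, dec X (((d1 A f g d).hom.app X).hom w)]
    exact congrArg₂ (· + ·) (congrArg _ (e0.trans hw2.symm)) (congrArg _ (e1.trans hw1.symm))
  · rintro ⟨w, rfl⟩
    change ((d2 A f g d).hom.app X).hom (((d1 A f g d).hom.app X).hom w) = 0
    rw [← comp_app, d12_zero]
    rfl

/-- the cokernel on a chart -/
lemma quo {m : ℕ} (f g : LSec (A.L ^ (m : ℤ))) (d : ℕ) (X : C) :
    Nonempty (sec (cokernel (d2 A f g d)).obj X ≃ₗ[R.ring X]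
      (R.ring X ⧸ Ideal.span {(f.a (op X) : R.ring X), (g.a (op X) : R.ring X)})) := by
  have hex : (ShortComplex.mk (d2 A f g d) (cokernel.π (d2 A f g d))
      (cokernel.condition _)).Exact :=
    ShortComplex.exact_of_g_is_cokernel _ (cokernelIsCokernel _)
  have hex' := (coh_exact_iff _).1 hex (op X)
  have hsur := (coh_epi_iff (cokernel.π (d2 A f g d))).1 inferInstance (op X)
  let p : R.ring X →ₗ[R.ring X] sec (cokernel (d2 A f g d)).obj X :=
    { toFun := fun x => ((cokernel.π (d2 A f g d)).hom.app (op X)).hom x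
      map_add' := fun x y => map_add ((cokernel.π (d2 A f g d)).hom.app (op X)).hom x y
      map_smul' := fun r x => map_smul ((cokernel.π (d2 A f g d)).hom.app (op X)).hom r x }
  have hp : Function.Surjective p := hsur
  have hk : LinearMap.ker p =
      Ideal.span {(f.a (op X) : R.ring X), (g.a (op X) : R.ring X)} := by
    ext x
    rw [LinearMap.mem_ker, Ideal.mem_span_pair]
    constructor
    · intro hx
      obtain ⟨z, hz⟩ := (hex' x).1 hx
      have hz' : ((d2 A f g d).hom.app (op X)).hom z = x := hz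
      rw [d2_app] at hz'
      refine ⟨((biproduct.π (fun _ : Fin 2 => A.LO (d + m)) 0).hom.app (op X)).hom z,
        ((biproduct.π (fun _ : Fin 2 => A.LO (d + m)) 1).hom.app (op X)).hom z, ?_⟩
      rw [← hz']
      exact congrArg₂ (· + ·) (mul_comm (G := R.obj (op X)) _ _)
        (mul_comm (G := R.obj (op X)) _ _)
    · rintro ⟨a, b, rfl⟩
      apply (hex' _).2
      refine ⟨((biproduct.ι (fun _ : Fin 2 => A.LO (d + m)) 0).hom.app (op X)).hom a +
        ((biproduct.ι (fun _ : Fin 2 => A.LO (d + m)) 1).hom.app (op X)).hom b, ?_⟩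
      change ((d2 A f g d).hom.app (op X)).hom _ = _
      rw [map_add]
      have e0 := d2_in0 A f g d (op X) a
      have e1 := d2_in1 A f g d (op X) b
      exact (congrArg₂ (· + ·) e0 e1).trans
        (congrArg₂ (· + ·) (mul_comm (G := R.obj (op X)) _ _)
          (mul_comm (G := R.obj (op X)) _ _))
  exact ⟨(LinearMap.quotKerEquivOfSurjective p hp).symm.trans
    (Submodule.quotEquivOfEq _ _ hk)⟩

end

end KSA_

theorem ksa_proof : Stmt_KSA := by
  intro K _ C _ R _ A m d f g H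
  let φ := KSA_.d2 A f g d
  have hw : KSA_.d1 A f g d ≫ Abelian.factorThruImage φ = 0 := by
    rw [← cancel_mono (Abelian.image.ι φ), Category.assoc, Abelian.image.fac, zero_comp]
    exact KSA_.d12_zero A f g d
  let S₁ : ShortComplex (Coh R) := ShortComplex.mk (KSA_.d1 A f g d)
    (Abelian.factorThruImage φ) hw
  let S₂ : ShortComplex (Coh R) := ShortComplex.mk (Abelian.image.ι φ) (cokernel.π φ)
    (kernel.condition _)
  have h2 : S₂.ShortExact :=
    { exact := ShortComplex.exact_of_f_is_kernel _ (kernelIsKernel (cokernel.π φ))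
      mono_f := by dsimp [S₂]; infer_instance
      epi_g := by dsimp [S₂]; infer_instance }
  have h1 : S₁.ShortExact :=
    { exact := by
        let q : S₁ ⟶ ShortComplex.mk (KSA_.d1 A f g d) (KSA_.d2 A f g d)
            (KSA_.d12_zero A f g d) :=
          { τ₁ := 𝟙 _
            τ₂ := 𝟙 _
            τ₃ := Abelian.image.ι φ
            comm₁₂ := by simp [S₁]
            comm₂₃ := by
              change 𝟙 _ ≫ KSA_.d2 A f g d = Abelian.factorThruImage φ ≫ Abelian.image.ι φ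
              rw [Abelian.image.fac, Category.id_comp] }
        have : Epi q.τ₁ := by dsimp [q]; infer_instance
        have : IsIso q.τ₂ := by dsimp [q]; infer_instance
        have : Mono q.τ₃ := by dsimp [q]; infer_instance
        exact (ShortComplex.exact_iff_of_epi_of_isIso_of_mono q).2
          (KSA_.d12_exact A f g d H)
      mono_f := KSA_.d1_mono A f g d H
      epi_g := by dsimp [S₁]; infer_instance }
  exact ⟨S₁, S₂, h1, h2, ⟨Iso.refl _⟩, ⟨Iso.refl _⟩, ⟨Iso.refl _⟩, ⟨Iso.refl _⟩,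
    fun X => KSA_.quo A f g d X⟩

end Pool.CRD.Sky
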