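import Pool.Agent.CRD.C.GStmts

/-!
# CRD, area C, KSB: the cokernel of the Koszul complex is supported in the chart `v 0`
-/

open CategoryTheory Opposite Limits Pretriangulated Abelian

namespace Pool.CRD.Sky

namespace KSB_

lemma bij_of_bc {A B M N : Type} [CommRing A] [CommRing B] [Algebra A B]
    [AddCommGroup M] [AddCommGroup N] [Module A M] [Module B N] [Module A N]
    [IsScalarTower A B N] (m : M →ₗ[A] N) (hm : IsBaseChange B m) (x : A)
    (hx : IsLocalization.Away x B) (I : Ideal A) (e : M ≃ₗ[A] (A ⧸ I)) (r : A)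
    (hr : r * x - 1 ∈ I) : Function.Bijective m := by
  have := hx
  have hl : IsLocalizedModule (Submonoid.powers x) m :=
    (isLocalizedModule_iff_isBaseChange (Submonoid.powers x) B m).2 hm
  have h1 : ∀ y : M, (r * x) • y = y := by
    intro y
    apply e.injective
    rw [map_smul]
    obtain ⟨z, hz⟩ := Ideal.Quotient.mk_surjective (e y)
    rw [← hz, Algebra.smul_def]
    change Ideal.Quotient.mk I (r * x) * Ideal.Quotient.mk I z = Ideal.Quotient.mk I z
    rw [← map_mul, Ideal.Quotient.eq]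
    have : r * x * z - z = z * (r * x - 1) := by ring
    rw [this]
    exact I.mul_mem_left _ hr
  have h2 : ∀ (n : ℕ) (y : M), (r ^ n * x ^ n) • y = y := by
    intro n
    induction n with
    | zero => intro y; rw [pow_zero, pow_zero, mul_one, one_smul]
    | succ n ih =>
      intro y
      have : r ^ (n + 1) * x ^ (n + 1) = (r * x) * (r ^ n * x ^ n) := by ring
      rw [this, mul_smul, ih, h1]
  constructor
  · rw [injective_iff_map_eq_zero]
    intro y hy
    obtain ⟨⟨_, n, rfl⟩, hs⟩ := (IsLocalizedModule.eq_zero_iff (Submonoid.powers x) m).1 hy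
    have hs' : x ^ n • y = 0 := hs
    rw [← h2 n y, mul_smul, hs', smul_zero]
  · intro y
    obtain ⟨⟨z, ⟨_, n, rfl⟩⟩, hz⟩ := IsLocalizedModule.surj (Submonoid.powers x) m y
    have hz' : x ^ n • y = m z := hz
    refine ⟨r ^ n • z, ?_⟩
    have hu : IsUnit (algebraMap A B (x ^ n)) := by
      rw [map_pow]
      exact (IsLocalization.Away.algebraMap_isUnit (S := B) x).pow n
    have h3 : x ^ n • m (r ^ n • z) = x ^ n • y := by
      rw [hz', ← map_smul, smul_smul, mul_comm, h2]
    have h4 : algebraMap A B (x ^ n) • m (r ^ n • z) = algebraMap A B (x ^ n) • y := by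
      rw [algebraMap_smul, algebraMap_smul]
      exact h3
    exact hu.smul_left_cancel.1 h4

end KSB_

theorem ksb_proof : Stmt_KSB := by
  intro K _ C _ R _ A Z hZ X
  obtain ⟨I, ⟨e⟩, r, hr⟩ := hZ X
  have hc := Z.property.2 (homOfLE (inf_le_left : X ⊓ A.v 0 ≤ X)).op
  have hl := A.loc X 0
  set f := (homOfLE (inf_le_left : X ⊓ A.v 0 ≤ X)).op with hf
  set Y : Cᵒᵖ := op (X ⊓ A.v 0) with hY
  set M : PMod R := Z.obj with hM
  letI : Algebra (R.obj (op X)) (R.obj Y) := (R.map f).hom.toRingHom.toAlgebra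
  letI : Module (R.obj (op X)) (M.obj (op X)) :=
    inferInstanceAs (Module (R.toRing.obj (op X)) (M.obj (op X)))
  letI : Module (R.obj Y) (M.obj Y) := inferInstanceAs (Module (R.toRing.obj Y) (M.obj Y))
  letI : Module (R.obj (op X)) (M.obj Y) := Module.compHom (M.obj Y) (R.map f).hom.toRingHom
  haveI : IsScalarTower (R.obj (op X)) (R.obj Y) (M.obj Y) :=
    ⟨fun a b c => by rw [Algebra.smul_def, mul_smul]; rfl⟩
  exact KSB_.bij_of_bc (A := R.obj (op X)) (B := R.obj Y) (M := M.obj (op X)) (N := M.obj Y)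
    _ hc (A.xx 0 (op X)) hl I e r hr

end Pool.CRD.Sky
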