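import Pool.Agent.CRD.C.GStmts

/-!
# CRD, area C, KSC: the Koszul resolution of a grid
-/

open CategoryTheory Opposite Limits Pretriangulated Abelian

namespace Pool.CRD.Sky

theorem ksc_proof (hGRD : Stmt_GRD) (hKSA : Stmt_KSA) (hKSB : Stmt_KSB) (hGUX : Stmt_GUX)
    (hSSF : Stmt_SSF) (hLAT : Stmt_LAT) : Stmt_KSC := by
  intro K _ _ _ C _ R _ A _ m d hm
  obtain ⟨a, b, hK, n, mm, hmm, ⟨e⟩⟩ := hGRD K C R A m hm
  obtain ⟨S₁, S₂, h1, h2, i1, i2, i3, i4, hq⟩ := hKSA K C R A m d (A.gS 1 a) (A.gS 2 b)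
    (fun X => hK X)
  refine ⟨S₁, S₂, h1, h2, i1, i2, i3, i4, n, ?_⟩
  have hsup : SuppIn (A.v 0) S₂.X₃.obj := by
    refine hKSB K C R A S₂.X₃ (fun X => ?_)
    refine ⟨_, hq X, ?_⟩
    obtain ⟨r, s, t, hr⟩ := hGUX K C R A m a b (op X) hm
    refine ⟨r, ?_⟩
    rw [Ideal.mem_span_pair]
    refine ⟨-s, -t, ?_⟩
    have h : (r : R.ring X) * A.xx 0 (op X) - 1 =
        -(s : R.ring X) * A.gg 1 a (op X) + -(t : R.ring X) * A.gg 2 b (op X) := by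
      rw [← hr]
      ring
    exact h.symm
  obtain ⟨e'⟩ := hq (A.v 0)
  exact hSSF K C R (A.v 0) (hLAT K C R K (Fin 3) A 0) S₂.X₃ hsup n mm hmm ⟨e'.trans e⟩

end Pool.CRD.Sky
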