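import Pool.Agent.CRD.C.GStmts

/-!
# CRD, area C: the charts of a projective cover are principal open subsets of each other
-/

open CategoryTheory Opposite Limits Pretriangulated Abelian

namespace Pool.CRD.Sky

theorem lat_proof : Stmt_LAT := by
  intro K _ C _ R B ι _ _ A i s
  refine ⟨(A.x i).a (op s), ?_⟩
  intro t h
  have h1 := A.loc t i
  have h2 := (A.x i).compat (homOfLE h).op
  let _ := (R.map (homOfLE (inf_le_left : t ⊓ A.v i ≤ t)).op).hom.toRingHom.toAlgebra
  have h3 : Associated ((A.x i).a (op t) : R.ring t)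
      ((R.map (homOfLE h).op).hom ((A.x i).a (op s) : R.ring s) : R.ring t) := by
    refine Associated.symm ⟨(A.L.u (homOfLE h).op : (R.ring t)ˣ), ?_⟩
    exact (@mul_comm (R.obj (op t)) _ _ _).trans h2
  exact (IsLocalization.Away.iff_of_associated h3).mp h1

end Pool.CRD.Sky
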