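import Pool.Agent.CRD.C.LStmts

/-!
# CRD, area C, local part: module LDR (the dual resolution)
-/

open CategoryTheory Abelian

namespace Pool.CRD.Loc

namespace LDR_

/-- a linear form with values in `m` on a finite projective module is killed by every
linear map into `A/m` -/
theorem kill {A : Type} [CommRing A] (m : Ideal A) (P : Type) [AddCommGroup P] [Module A P]
    [Module.Finite A P] [Module.Projective A P] (ψ : (P →ₗ[A] A) →ₗ[A] A ⧸ m)
    (g : P →ₗ[A] A) (hg : ∀ p, g p ∈ m) : ψ g = 0 := by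
  classical
  obtain ⟨n, f, h, -, -, hfh⟩ := Module.Finite.exists_comp_eq_id_of_projective A P
  have hsum : g = ∑ i : Fin n, g (f (Pi.single i 1)) • (LinearMap.proj i ∘ₗ h) := by
    ext p
    have h1 : p = ∑ i : Fin n, h p i • f (Pi.single i 1) := by
      conv_lhs => rw [← LinearMap.id_apply (R := A) (x := p), ← hfh, LinearMap.comp_apply]
      conv_lhs => rw [pi_eq_sum_univ' (h p)]
      rw [map_sum]
      refine Finset.sum_congr rfl fun i _ => ?_
      rw [map_smul]
    conv_lhs => rw [h1]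
    rw [map_sum, LinearMap.sum_apply]
    refine Finset.sum_congr rfl fun i _ => ?_
    simp [mul_comm]
  rw [hsum, map_sum]
  refine Finset.sum_eq_zero fun i _ => ?_
  rw [map_smul]
  generalize ψ (LinearMap.proj i ∘ₗ h) = z
  obtain ⟨y, rfl⟩ := Ideal.Quotient.mk_surjective z
  rw [Algebra.smul_def, Ideal.Quotient.algebraMap_eq, ← map_mul, Ideal.Quotient.eq_zero_iff_mem]
  exact m.mul_mem_right _ (hg _)

/-- elements of `m` kill `Ext` groups of `A/m` -/
theorem smul_ext {A : Type} [CommRing A] (m : Ideal A) (M : ModuleCat.{0} A) (n : ℕ)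
    (a : A) (ha : a ∈ m) (x : Ext (kk m) M n) : a • x = 0 := by
  have h0 : (a • 𝟙 (kk m) : kk m ⟶ kk m) = 0 := by
    refine ModuleCat.hom_ext (LinearMap.ext fun z => ?_)
    obtain ⟨y, rfl⟩ := Ideal.Quotient.mk_surjective z
    change a • (Ideal.Quotient.mk m y) = 0
    rw [Algebra.smul_def, Ideal.Quotient.algebraMap_eq, ← map_mul, Ideal.Quotient.eq_zero_iff_mem]
    exact m.mul_mem_right _ ha
  have h1 : x = (Ext.mk₀ (𝟙 (kk m))).comp x (zero_add n) := by simp
  rw [h1, ← Ext.smul_comp, ← Ext.mk₀_smul, h0]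
  simp

/-- comparison of `Ext²` and of `Hom(A,E)` -/
theorem lin_iso (K : Type) [Field K] {A : Type} [CommRing A] [Algebra K A]
    (N P M E : ModuleCat.{0} A) (w : Ext N P 2)
    (hs : ∀ x : Ext N M 2, ∃ φ : P ⟶ M, x = w.comp (Ext.mk₀ φ) (add_zero 2))
    (π : (P →ₗ[A] M) →ₗ[A] E) (hπ : Function.Surjective π)
    (hk : ∀ φ : P ⟶ M, w.comp (Ext.mk₀ φ) (add_zero 2) = 0 ↔ π φ.hom = 0) :
    Nonempty (Ext N M 2 ≃ₗ[K] (ModuleCat.of A A ⟶ E)) := by
  let f1 : (P ⟶ M) →ₗ[K] Ext N M 2 :=
    { toFun := fun φ => w.comp (Ext.mk₀ φ) (add_zero 2)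
      map_add' := fun x y => by rw [Ext.mk₀_add, Ext.comp_add]
      map_smul' := fun c x => by rw [Ext.mk₀_smul, Ext.comp_smul]; rfl }
  let f2 : (P ⟶ M) →ₗ[K] (ModuleCat.of A A ⟶ E) :=
    { toFun := fun φ => ModuleCat.ofHom (LinearMap.toSpanSingleton A _ (π φ.hom))
      map_add' := fun x y => by
        refine ModuleCat.hom_ext (LinearMap.ext fun p => ?_)
        change p • π (x.hom + y.hom) = p • π x.hom + p • π y.hom
        rw [map_add, smul_add]
      map_smul' := fun c x => by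
        refine ModuleCat.hom_ext (LinearMap.ext fun p => ?_)
        change p • π ((algebraMap K A c) • x.hom) = (algebraMap K A c) • (p • π x.hom)
        rw [map_smul, smul_comm] }
  have h1 : Function.Surjective f1 := fun x => by
    obtain ⟨φ, hφ⟩ := hs x
    exact ⟨φ, hφ.symm⟩
  have h2 : Function.Surjective f2 := fun x => by
    obtain ⟨φ, hφ⟩ := hπ (x.hom (1 : A))
    refine ⟨ModuleCat.ofHom φ, ?_⟩
    refine ModuleCat.hom_ext (LinearMap.ext fun p => ?_)
    change (p : A) • π φ = x.hom p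
    rw [hφ, ← map_smul]
    simp
  have h3 : LinearMap.ker f1 = LinearMap.ker f2 := by
    ext φ
    rw [LinearMap.mem_ker, LinearMap.mem_ker]
    change w.comp (Ext.mk₀ φ) (add_zero 2) = 0 ↔ _
    rw [hk]
    constructor
    · intro h
      refine ModuleCat.hom_ext (LinearMap.ext fun p => ?_)
      change (p : A) • π φ.hom = 0
      rw [h, smul_zero]
    · intro h
      have h4 : (f2 φ).hom (1 : A) = 0 := by rw [h]; rfl
      have h5 : (1 : A) • π φ.hom = 0 := h4
      rwa [one_smul] at h5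
  exact ⟨(f1.quotKerEquivOfSurjective h1).symm.trans
    ((Submodule.quotEquivOfEq _ _ h3).trans (f2.quotKerEquivOfSurjective h2))⟩

end LDR_

open LDR_ in
theorem ldr_proof (hLEX : Stmt_LEX) (hLHOM : Stmt_LHOM) (hLE1 : Stmt_LE1) : Stmt_LDR := by
  intro K _ A _ _ m hLS r hr
  obtain ⟨e, he⟩ := hr
  have := r.fin0
  have := r.fin1
  have := r.fin2
  have := r.pr0
  have := r.pr1
  have := r.pr2
  have hann := (hLHOM K A m hLS).1
  have hsub := hLE1 K A m hLS
  obtain ⟨⟨w, hw⟩, hext1⟩ := hLEX A (kk m) r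
  have hext := (hext1 (ModuleCat.of A A)).1 hsub
  obtain ⟨hsurj, hker⟩ := hw (ModuleCat.of A A)
  let D2 : (r.P1 →ₗ[A] A) →ₗ[A] (r.P2 →ₗ[A] A) := Module.Dual.transpose (R := A) r.d2.hom
  let D1 : (r.P0 →ₗ[A] A) →ₗ[A] (r.P1 →ₗ[A] A) := Module.Dual.transpose (R := A) r.d1.hom
  have hD2 : ∀ (φ : r.P1 →ₗ[A] A) (p : r.P2), D2 φ p = φ (r.d2.hom p) := fun _ _ => rfl
  have hD1 : ∀ (φ : r.P0 →ₗ[A] A) (p : r.P1), D1 φ p = φ (r.d1.hom p) := fun _ _ => rfl
  let L : Submodule A (r.P2 →ₗ[A] A) := LinearMap.range D2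
  -- the element `1` of `P0 ≅ A`
  let u : r.P0 := e.inv.hom (1 : A)
  have hu : ∀ a : A, e.inv.hom a = a • u := by
    intro a
    change e.inv.hom a = a • e.inv.hom (1 : A)
    rw [← map_smul]
    simp
  have heu : ∀ p : r.P0, p = (e.hom.hom p : A) • u := by
    intro p
    rw [← hu]
    change p = (e.hom ≫ e.inv).hom p
    rw [e.hom_inv_id]
    rfl
  -- image of `d1`
  have hrange : ∀ a ∈ m, ∃ p : r.P1, r.d1.hom p = a • u := by
    intro a ha
    have h1 : r.d0.hom (a • u) = 0 := by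
      rw [he, ← hu]
      change (e.inv ≫ e.hom ≫ qk m).hom a = 0
      rw [e.inv_hom_id_assoc]
      exact (Submodule.Quotient.mk_eq_zero m).2 ha
    exact (r.ex0 _).1 h1
  have hrange' : ∀ p : r.P1, (e.hom.hom (r.d1.hom p) : A) ∈ m := by
    intro p
    have h1 : r.d0.hom (r.d1.hom p) = 0 := (r.ex0 _).2 ⟨p, rfl⟩
    rw [he] at h1
    exact (Submodule.Quotient.mk_eq_zero m).1 h1
  -- kernel of the connecting map
  have hL : ∀ φ : r.P2 →ₗ[A] A, φ ∈ L ↔
      w.comp (Ext.mk₀ (ModuleCat.ofHom φ)) (add_zero 2) = 0 := by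
    intro φ
    constructor
    · rintro ⟨ψ, hψ⟩
      refine (hker _).2 ⟨ModuleCat.ofHom ψ, ?_⟩
      rw [← hψ]
      rfl
    · intro h
      obtain ⟨ψ, hψ⟩ := (hker _).1 h
      refine ⟨ψ.hom, ?_⟩
      have h2 := congrArg ModuleCat.Hom.hom hψ
      exact h2.symm
  have hmL : ∀ a ∈ m, ∀ φ : r.P2 →ₗ[A] A, a • φ ∈ L := by
    intro a ha φ
    rw [hL]
    have h1 : ModuleCat.ofHom (a • φ) = a • ModuleCat.ofHom φ := rfl
    have h2 : w.comp (Ext.mk₀ (ModuleCat.ofHom (a • φ))) (add_zero 2) =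
        a • w.comp (Ext.mk₀ (ModuleCat.ofHom φ)) (add_zero 2) := by
      rw [← Ext.comp_smul, ← Ext.mk₀_smul]
      rfl
    rw [h2]
    exact smul_ext m _ 2 a ha _
  let s : Res (ModuleCat.of A ((r.P2 →ₗ[A] A) ⧸ L)) :=
    { P0 := ModuleCat.of A (r.P2 →ₗ[A] A)
      P1 := ModuleCat.of A (r.P1 →ₗ[A] A)
      P2 := ModuleCat.of A (r.P0 →ₗ[A] A)
      d2 := ModuleCat.ofHom D1
      d1 := ModuleCat.ofHom D2
      d0 := ModuleCat.ofHom (Submodule.mkQ L)
      fin0 := inferInstanceAs (Module.Finite A (Module.Dual A r.P2))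
      fin1 := inferInstanceAs (Module.Finite A (Module.Dual A r.P1))
      fin2 := inferInstanceAs (Module.Finite A (Module.Dual A r.P0))
      pr0 := inferInstanceAs (Module.Projective A (Module.Dual A r.P2))
      pr1 := inferInstanceAs (Module.Projective A (Module.Dual A r.P1))
      pr2 := inferInstanceAs (Module.Projective A (Module.Dual A r.P0))
      inj2 := by
        rw [injective_iff_map_eq_zero]
        intro φ hφ
        have h1 : φ u = 0 := by
          apply hann
          intro a ha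
          obtain ⟨p, hp⟩ := hrange a ha
          have h2 : D1 φ p = 0 := by
            have : D1 φ = 0 := hφ
            rw [this]; rfl
          rw [hD1, hp, map_smul] at h2
          exact h2
        refine LinearMap.ext fun p => ?_
        rw [heu p, map_smul, h1, smul_zero]
        rfl
      ex1 := by
        intro φ
        constructor
        · intro h
          have h0 : D2 φ = 0 := h
          obtain ⟨ψ, hψ⟩ := hext (ModuleCat.ofHom φ) (by
            refine ModuleCat.hom_ext (LinearMap.ext fun p => ?_)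
            exact LinearMap.congr_fun h0 p)
          exact ⟨ψ.hom, (congrArg ModuleCat.Hom.hom hψ).symm⟩
        · rintro ⟨ψ, rfl⟩
          change D2 (D1 ψ) = 0
          refine LinearMap.ext fun p => ?_
          rw [hD2, hD1]
          have h1 : r.d1.hom (r.d2.hom p) = 0 := (r.ex1 _).2 ⟨p, rfl⟩
          rw [h1, map_zero]
          rfl
      ex0 := by
        intro φ
        constructor
        · intro h
          have h0 : φ ∈ L := (Submodule.Quotient.mk_eq_zero L).1 h
          exact h0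
        · rintro ⟨ψ, rfl⟩
          exact (Submodule.Quotient.mk_eq_zero L).2 ⟨ψ, rfl⟩
      sur0 := Submodule.mkQ_surjective L }
  refine ⟨ModuleCat.of A ((r.P2 →ₗ[A] A) ⧸ L), s, ?_, ?_, ?_, ?_, ?_⟩
  · have : Module.Finite A (r.P2 →ₗ[A] A) := s.fin0
    exact inferInstanceAs (Module.Finite A ((r.P2 →ₗ[A] A) ⧸ L))
  · intro a ha x
    obtain ⟨φ, rfl⟩ := Submodule.mkQ_surjective L x
    have h1 : a • (Submodule.mkQ L φ) = Submodule.mkQ L (a • φ) := (map_smul _ _ _).symm
    change a • (Submodule.mkQ L φ) = 0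
    rw [h1]
    exact (Submodule.Quotient.mk_eq_zero L).2 (hmL a ha φ)
  · refine lin_iso K (kk m) r.P2 (ModuleCat.of A A) (ModuleCat.of A ((r.P2 →ₗ[A] A) ⧸ L)) w hsurj
      (Submodule.mkQ L) (Submodule.mkQ_surjective L) fun φ => ?_
    rw [← LinearMap.mem_ker, Submodule.ker_mkQ, hL]
    rfl
  · -- the dual of `P0 ≅ A`
    refine ⟨LinearEquiv.toModuleIso ?_⟩
    exact LinearEquiv.ofBijective (LinearMap.applyₗ (R := A) (M := r.P0) (M₂ := A) u) (by
      constructor
      · rw [injective_iff_map_eq_zero]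
        intro φ hφ
        have h1 : φ u = 0 := hφ
        refine LinearMap.ext fun p => ?_
        rw [heu p, map_smul, h1, smul_zero]
        rfl
      · intro a
        refine ⟨a • e.hom.hom, ?_⟩
        change a • e.hom.hom (e.inv.hom (1 : A)) = a
        have h1 : e.hom.hom (e.inv.hom (1 : A)) = (1 : A) := by
          change (e.inv ≫ e.hom).hom (1 : A) = (1 : A)
          rw [e.inv_hom_id]
          rfl
        rw [h1]
        simp)
  · intro ψ
    refine ModuleCat.hom_ext (LinearMap.ext fun φ => ?_)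
    change ψ.hom (D1 φ) = 0
    refine kill m r.P1 ψ.hom (D1 φ) fun p => ?_
    rw [hD1, heu (r.d1.hom p), map_smul]
    exact m.mul_mem_right _ (hrange' p)

end Pool.CRD.Loc
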