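import Pool.Agent.CRD.C.LStmts

set_option autoImplicit false

open CategoryTheory Abelian

namespace Pool.CRD.Loc

namespace LDU_

/-- factorisation of linear maps of vector spaces -/
theorem factor {K X Y E : Type*} [Field K] [AddCommGroup X] [Module K X] [AddCommGroup Y]
    [Module K Y] [AddCommGroup E] [Module K E] (g : X →ₗ[K] Y) (φ : X →ₗ[K] E)
    (h : ∀ x, g x = 0 → φ x = 0) : ∃ ψ : Y →ₗ[K] E, ∀ x, ψ (g x) = φ x := by
  have hle : LinearMap.ker g ≤ LinearMap.ker φ := fun x hx => by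
    rw [LinearMap.mem_ker] at hx ⊢
    exact h x hx
  let ψ0 : LinearMap.range g →ₗ[K] E :=
    ((LinearMap.ker g).liftQ φ hle).comp (g.quotKerEquivRange.symm : _ →ₗ[K] _)
  obtain ⟨ψ, hψ⟩ := LinearMap.exists_extend ψ0
  refine ⟨ψ, fun x => ?_⟩
  have h1 : ψ (g x) = ψ0 ⟨g x, LinearMap.mem_range_self g x⟩ := by
    rw [← hψ]; rfl
  rw [h1]
  have h2 : g.quotKerEquivRange (Submodule.Quotient.mk x) = ⟨g x, LinearMap.mem_range_self g x⟩ := rfl
  have h3 : g.quotKerEquivRange.symm ⟨g x, LinearMap.mem_range_self g x⟩ =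
      Submodule.Quotient.mk x := by
    rw [← h2, LinearEquiv.symm_apply_apply]
  change (LinearMap.ker g).liftQ φ hle (g.quotKerEquivRange.symm ⟨g x, LinearMap.mem_range_self g x⟩) = φ x
  rw [h3]
  rfl

section
variable {K : Type} [Field K] {A : Type} [CommRing A] [Algebra K A]

theorem vanish (m : Ideal A) (h : LS K A m) (M : ModuleCat.{0} A) (hM : Module.Finite A M)
    (n : ℕ) (hn : 3 ≤ n) : Subsingleton (Ext (kk m) M n) ∧ Subsingleton (Ext M (kk m) n) := by
  have h1 : HasProjectiveDimensionLT M 3 := h.pd M hM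
  have h2 : HasProjectiveDimensionLT (kk m) 3 := h.pd (kk m)
    (inferInstanceAs (Module.Finite A (A ⧸ m)))
  exact ⟨HasProjectiveDimensionLT.subsingleton (kk m) 3 n hn M,
    HasProjectiveDimensionLT.subsingleton M 3 n hn (kk m)⟩

variable (K) in
noncomputable abbrev β (m : Ideal A) (M : ModuleCat.{0} A) (i j : ℕ) (h : i + j = 2) :
    Ext (kk m) M i →ₗ[K] (Ext M (kk m) j →ₗ[K] Ext (kk m) (kk m) 2) :=
  Ext.bilinearCompOfLinear K (kk m) M (kk m) i j 2 h

theorem β_apply (m : Ideal A) (M : ModuleCat.{0} A) (i j : ℕ) (h : i + j = 2)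
    (x : Ext (kk m) M i) (y : Ext M (kk m) j) : β K m M i j h x y = x.comp y h := rfl

theorem inj (m : Ideal A) {S : ShortComplex (ModuleCat.{0} A)} (hS : S.ShortExact)
    (h1 : Perf K A m S.X₁) (h2 : Perf K A m S.X₂) (i j : ℕ) (h : i + j = 2) :
    Function.Injective (β K m S.X₃ i j h) := by
  rw [injective_iff_map_eq_zero]
  intro x hx
  have hx' : ∀ y : Ext S.X₃ (kk m) j, x.comp y h = 0 := fun y => by
    rw [← β_apply (K := K), hx]; rfl
  -- the connecting element vanishes
  have hxe : x.comp hS.extClass (rfl : i + 1 = i + 1) = 0 := by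
    rcases j with _ | j
    · have : i = 2 := by omega
      subst this
      exact (h1.2 3 le_rfl).1.elim _ _
    · have hb := h1.1 (i + 1) j (by omega)
      apply hb.1
      rw [map_zero]
      refine LinearMap.ext fun y => ?_
      rw [LinearMap.zero_apply]
      change (x.comp hS.extClass rfl).comp y (by omega) = 0
      rw [Ext.comp_assoc x hS.extClass y rfl (show 1 + j = j + 1 by omega) (by omega)]
      exact hx' _
  obtain ⟨x2, rfl⟩ := Ext.covariant_sequence_exact₃ (kk m) hS x rfl hxe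
  -- the functional of x2 factors
  have hk : ∀ y : Ext S.X₂ (kk m) j, (Ext.mk₀ S.f).comp y (zero_add j) = 0 →
      x2.comp y h = 0 := by
    intro y hy
    obtain ⟨y', rfl⟩ := Ext.contravariant_sequence_exact₂ hS (kk m) y hy
    rw [← Ext.comp_assoc_of_second_deg_zero]
    exact hx' y'
  obtain ⟨ψ, hψ⟩ := factor ((Ext.mk₀ S.f).precompOfLinear K (kk m) (zero_add j))
    (β K m S.X₂ i j h x2) hk
  obtain ⟨x1, hx1⟩ := (h1.1 i j h).2 ψ
  have hx2 : x2 = x1.comp (Ext.mk₀ S.f) (add_zero i) := by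
    apply (h2.1 i j h).1
    refine LinearMap.ext fun y => ?_
    change β K m S.X₂ i j h x2 y = (x1.comp (Ext.mk₀ S.f) (add_zero i)).comp y h
    rw [← hψ y, Ext.comp_assoc_of_second_deg_zero, ← hx1]
    rfl
  rw [hx2, Ext.comp_assoc_of_third_deg_zero, Ext.mk₀_comp_mk₀, S.zero, Ext.mk₀_zero, Ext.comp_zero]

theorem surj (m : Ideal A) {S : ShortComplex (ModuleCat.{0} A)} (hS : S.ShortExact)
    (h1 : Perf K A m S.X₁) (h2 : Perf K A m S.X₂) (i j : ℕ) (h : i + j = 2) :
    Function.Surjective (β K m S.X₃ i j h) := by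
  intro φ
  -- it is enough to treat functionals killing the kernel of `g^*`
  have key : ∀ φ1 : Ext S.X₃ (kk m) j →ₗ[K] Ext (kk m) (kk m) 2,
      (∀ y : Ext S.X₃ (kk m) j, (Ext.mk₀ S.g).comp y (zero_add j) = 0 → φ1 y = 0) →
      ∃ x, β K m S.X₃ i j h x = φ1 := by
    intro φ1 hφ1
    obtain ⟨ψ, hψ⟩ := factor ((Ext.mk₀ S.g).precompOfLinear K (kk m) (zero_add j)) φ1 hφ1
    obtain ⟨x2, hx2⟩ := (h2.1 i j h).2 ψ
    refine ⟨x2.comp (Ext.mk₀ S.g) (add_zero i), LinearMap.ext fun y => ?_⟩
    change (x2.comp (Ext.mk₀ S.g) (add_zero i)).comp y h = φ1 y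
    rw [Ext.comp_assoc_of_second_deg_zero, ← hψ y, ← hx2]
    rfl
  rcases j with _ | j
  · apply key
    intro y hy
    have hepi : Epi S.g := hS.epi_g
    have := Ext.precomp_mk₀_injective_of_epi (kk m) S.g
    have hy0 : y = 0 := this (by
      change (Ext.mk₀ S.g).comp y (zero_add 0) = (Ext.mk₀ S.g).comp 0 (zero_add 0)
      rw [hy, Ext.comp_zero])
    rw [hy0, map_zero]
  · have hj : 1 + j = j + 1 := by omega
    let φ' : Ext S.X₁ (kk m) j →ₗ[K] Ext (kk m) (kk m) 2 :=
      φ.comp (hS.extClass.precompOfLinear K (kk m) hj)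
    obtain ⟨w, hw⟩ := (h1.1 (i + 1) j (by omega)).2 φ'
    have hw' : ∀ y : Ext S.X₁ (kk m) j, w.comp y (by omega) = φ (hS.extClass.comp y hj) := by
      intro y
      change β K m S.X₁ (i + 1) j (by omega) w y = φ' y
      rw [← hw]
    have hwf : w.comp (Ext.mk₀ S.f) (add_zero (i + 1)) = 0 := by
      apply (h2.1 (i + 1) j (by omega)).1
      rw [map_zero]
      refine LinearMap.ext fun y => ?_
      rw [LinearMap.zero_apply]
      change (w.comp (Ext.mk₀ S.f) (add_zero (i + 1))).comp y (by omega) = 0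
      rw [Ext.comp_assoc_of_second_deg_zero, hw', ShortComplex.ShortExact.extClass_comp_assoc,
        map_zero]
    obtain ⟨x, hx⟩ := Ext.covariant_sequence_exact₁ (kk m) hS w hwf (rfl : i + 1 = i + 1)
    obtain ⟨x', hx'⟩ := key (φ - β K m S.X₃ i (j + 1) h x) (by
      intro y hy
      obtain ⟨y', rfl⟩ := Ext.contravariant_sequence_exact₃ hS (kk m) y hy hj
      rw [LinearMap.sub_apply, ← hw', ← hx, β_apply,
        Ext.comp_assoc x hS.extClass y' rfl hj (by omega), sub_self])
    refine ⟨x + x', ?_⟩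
    rw [map_add, hx']
    abel

theorem step (m : Ideal A) (hLS : LS K A m) {S : ShortComplex (ModuleCat.{0} A)}
    (hS : S.ShortExact) (hf : Module.Finite A S.X₃)
    (h1 : Perf K A m S.X₁) (h2 : Perf K A m S.X₂) : Perf K A m S.X₃ :=
  ⟨fun i j h => ⟨inj m hS h1 h2 i j h, surj m hS h1 h2 i j h⟩, vanish m hLS _ hf⟩

theorem main (hLPR : Stmt_LPR) (m : Ideal A) (hLS : LS K A m) (n : ℕ) :
    ∀ M : ModuleCat.{0} A, Module.Finite A M → HasProjectiveDimensionLT M (n + 1) →
      Perf K A m M := by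
  induction n with
  | zero =>
    intro M hM hpd
    have hP : Projective M := projective_iff_hasProjectiveDimensionLT_one.2 hpd
    exact hLPR K A m hLS M hM ((IsProjective.iff_projective M).2 hP)
  | succ n ih =>
    intro M hM hpd
    haveI := hLS.noeth
    obtain ⟨r, f, hf⟩ := Module.Finite.exists_fin' A M
    have hS : f.shortComplexKer.ShortExact := LinearMap.shortExact_shortComplexKer hf
    have hproj : Projective (ModuleCat.of A (Fin r → A)) :=
      (IsProjective.iff_projective _).1 (inferInstanceAs (Module.Projective A (Fin r → A)))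
    have hk : HasProjectiveDimensionLT f.shortComplexKer.X₁ (n + 1) :=
      (hS.hasProjectiveDimensionLT_X₃_iff n hproj).1 hpd
    have hfk : Module.Finite A f.shortComplexKer.X₁ :=
      inferInstanceAs (Module.Finite A (LinearMap.ker f))
    have h1 : Perf K A m f.shortComplexKer.X₁ := ih _ hfk hk
    have h2 : Perf K A m f.shortComplexKer.X₂ := hLPR K A m hLS _
      (inferInstanceAs (Module.Finite A (Fin r → A)))
      (inferInstanceAs (Module.Projective A (Fin r → A)))
    exact step m hLS hS hM h1 h2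

end

end LDU_

theorem ldu_proof (hLPR : Stmt_LPR) : Stmt_LDU := by
  intro K _ A _ _ m hLS M hM
  exact LDU_.main hLPR m hLS 2 M hM (hLS.pd M hM)

end Pool.CRD.Loc
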