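import Pool.Agent.CRD.C.LStmts

/-!
Module LE1: `Ext¹(A/m,A) = 0`.
-/

open CategoryTheory Abelian

namespace Pool.CRD.Loc

namespace LE1_

theorem key {K : Type} [Field K] {A : Type} [CommRing A] [Algebra K A] {m : Ideal A}
    (hm : LS K A m) (r : Res (kk m)) (e : r.P0 ≅ ModuleCat.of A A) (p : r.P2)
    (hp : p ∉ (m • ⊤ : Submodule A r.P2)) (hdp : r.d2.hom p ∈ (m • ⊤ : Submodule A r.P1))
    (hLPM : Stmt_LPM) (u : A) (hu : IsSMulRegular A u) (s : A) (hs : ∀ a ∈ m, u ∣ s * a) :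
    u ∣ s := by
  by_contra hn
  have h1 : ∃ q : r.P1, s • r.d2.hom p = u • q := by
    refine Submodule.smul_induction_on hdp ?_ ?_
    · intro a ha x _
      obtain ⟨b, hb⟩ := hs a ha
      exact ⟨b • x, by rw [smul_smul, smul_smul, hb]⟩
    · rintro x y ⟨a, ha⟩ ⟨b, hb⟩
      exact ⟨a + b, by rw [smul_add, smul_add, ha, hb]⟩
  obtain ⟨q, hq⟩ := h1
  have h2 : r.d1.hom q = 0 := by
    have h3 : u • r.d1.hom q = 0 := by
      rw [← map_smul, ← hq, map_smul, r.ex1.apply_apply_eq_zero, smul_zero]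
    have h4 : u • e.hom.hom (r.d1.hom q) = 0 := by
      rw [← map_smul, h3, map_zero]
    have h5 : e.hom.hom (r.d1.hom q) = 0 := hu (by
      show u • _ = u • (0 : A)
      rw [smul_zero]
      exact h4)
    have h6 : e.inv.hom (e.hom.hom (r.d1.hom q)) = r.d1.hom q := by
      have := congrArg (fun f => f.hom (r.d1.hom q)) e.hom_inv_id
      exact this
    rw [← h6, h5, map_zero]
  obtain ⟨p', hp'⟩ := (r.ex1 q).1 h2
  have h7 : s • p = u • p' := by
    apply r.inj2
    rw [map_smul, map_smul, hq, hp']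
  apply hp
  apply hLPM A m r.P2 r.pr2 p
  intro f
  let J : Ideal A := Submodule.comap (LinearMap.lsmul A A s) (Ideal.span {u})
  have hJ : ∀ a, a ∈ J ↔ u ∣ s * a := by
    intro a
    show s • a ∈ Ideal.span {u} ↔ _
    rw [Ideal.mem_span_singleton, smul_eq_mul]
  have h8 : m ≤ J := fun a ha => (hJ a).2 (hs a ha)
  have h9 : J ≠ ⊤ := by
    intro h
    apply hn
    have := (hJ 1).1 (by rw [h]; exact Submodule.mem_top)
    rwa [mul_one] at this
  have h10 : m = J := hm.max.eq_of_le h9 h8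
  apply h10.ge
  rw [hJ]
  refine ⟨f p', ?_⟩
  have := congrArg f h7
  rw [map_smul, map_smul, smul_eq_mul, smul_eq_mul] at this
  exact this

end LE1_

open LE1_ in
theorem le1_proof (hLRES : Stmt_LRES) (hLINJ : Stmt_LINJ) (hLPM : Stmt_LPM)
    (hLHOM : Stmt_LHOM) : Stmt_LE1 := by
  intro K _ A _ _ m hm
  obtain ⟨_, u, hum, hu⟩ := hLHOM K A m hm
  obtain ⟨r, e, _⟩ := hLRES K A m hm
  obtain ⟨p, hp, hdp⟩ := hLINJ K A m hm r
  have hkey := key hm r e p hp hdp hLPM u hu
  have hw : (ModuleCat.ofHom (LinearMap.lsmul A A u) : ModuleCat.of A A ⟶ ModuleCat.of A A) ≫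
      ModuleCat.ofHom (Submodule.mkQ (Ideal.span {u})) = 0 := by
    refine ModuleCat.hom_ext (LinearMap.ext fun a => ?_)
    show Submodule.mkQ (Ideal.span {u}) (u • a) = 0
    rw [Submodule.mkQ_apply, Submodule.Quotient.mk_eq_zero, Ideal.mem_span_singleton]
    exact Dvd.intro _ rfl
  let S : ShortComplex (ModuleCat.{0} A) := ShortComplex.mk
    (ModuleCat.ofHom (LinearMap.lsmul A A u) : ModuleCat.of A A ⟶ ModuleCat.of A A)
    (ModuleCat.ofHom (Submodule.mkQ (Ideal.span {u}))) hw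
  have hS : S.ShortExact := by
    have h1 : Mono S.f := by
      rw [ModuleCat.mono_iff_injective]
      exact hu
    have h2 : Epi S.g := by
      rw [ModuleCat.epi_iff_surjective]
      exact Submodule.mkQ_surjective _
    refine { exact := ?_, mono_f := h1, epi_g := h2 }
    rw [ShortComplex.moduleCat_exact_iff]
    intro x hx
    have h3 : x ∈ Ideal.span {u} := (Submodule.Quotient.mk_eq_zero _).1 hx
    obtain ⟨b, hb⟩ := Ideal.mem_span_singleton.1 h3
    exact ⟨b, hb.symm⟩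
  refine subsingleton_of_forall_eq 0 ?_
  intro x
  have hf : S.f = u • 𝟙 (ModuleCat.of A A) := by
    ext
    rfl
  have hx0 : u • x = 0 := by
    have h1 : (u • 𝟙 (kk m)) = 0 := by
      refine ModuleCat.hom_ext (LinearMap.ext fun a => ?_)
      obtain ⟨a, rfl⟩ := Submodule.mkQ_surjective _ a
      show u • Submodule.mkQ m a = 0
      rw [← map_smul, Submodule.mkQ_apply, Submodule.Quotient.mk_eq_zero]
      exact m.mul_mem_right a hum
    have h2 : u • x = (u • Ext.mk₀ (𝟙 (kk m))).comp x (zero_add 1) := by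
      rw [Ext.smul_comp, Ext.mk₀_id_comp]
    rw [h2, ← Ext.mk₀_smul, h1, Ext.mk₀_zero, Ext.zero_comp]
  have hx : x.comp (Ext.mk₀ S.f) (add_zero 1) = 0 := by
    rw [hf, ← Ext.smul_eq_comp_mk₀, hx0]
  obtain ⟨x₃, hx₃⟩ := Ext.covariant_sequence_exact₁ (kk m) hS x hx (n₀ := 0) rfl
  obtain ⟨φ, rfl⟩ := Ext.mk₀_bijective _ _ |>.2 x₃
  have hφ : φ = 0 := by
    obtain ⟨s, hs⟩ := Submodule.mkQ_surjective _ (φ.hom (Submodule.mkQ m (1 : A)))
    have h1 : u ∣ s := by
      apply hkey
      intro a ha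
      have h2 : Submodule.mkQ (Ideal.span {u}) (s * a) = 0 := by
        have h3 : s * a = a • s := by rw [smul_eq_mul, mul_comm]
        rw [h3, map_smul, hs, ← map_smul, ← map_smul]
        have h4 : Submodule.mkQ m (a • (1 : A)) = 0 := by
          rw [Submodule.mkQ_apply, Submodule.Quotient.mk_eq_zero, smul_eq_mul, mul_one]
          exact ha
        rw [h4, map_zero]
      rw [Submodule.mkQ_apply, Submodule.Quotient.mk_eq_zero, Ideal.mem_span_singleton] at h2
      exact h2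
    have h5 : φ.hom (Submodule.mkQ m (1 : A)) = 0 := by
      rw [← hs, Submodule.mkQ_apply, Submodule.Quotient.mk_eq_zero, Ideal.mem_span_singleton]
      exact h1
    refine ModuleCat.hom_ext (LinearMap.ext fun a => ?_)
    obtain ⟨a, rfl⟩ := Submodule.mkQ_surjective _ a
    have h6 : Submodule.mkQ m a = a • Submodule.mkQ m (1 : A) := by
      rw [← map_smul, smul_eq_mul, mul_one]
    rw [h6, map_smul, h5, smul_zero]
    rfl
  rw [← hx₃, hφ, Ext.mk₀_zero, Ext.zero_comp]

end Pool.CRD.Loc
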