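import Pool.Agent.CRD.C.LStmts

/-!
# CRD C, module LE12: `dim Ext^i(A/m,A/m) = 1, 2, 1`
-/

open CategoryTheory Abelian

namespace Pool.CRD.Loc

namespace LE12_

/-- the two `K`-module structures on `P ⟶ A/m` agree -/
theorem inst_eq (K : Type) [Field K] (A : Type) [CommRing A] [Algebra K A] (m : Ideal A)
    (P : ModuleCat.{0} A) :
    (ModuleCat.Hom.instModule : Module K (P ⟶ kk m)) = Linear.homModule P (kk m) := by
  apply Module.ext'
  intro c f
  apply ModuleCat.hom_ext
  apply LinearMap.ext
  intro x
  change c • f.hom x = algebraMap K A c • f.hom x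
  rw [algebraMap_smul]

theorem finrank_hom (K : Type) [Field K] (A : Type) [CommRing A] [Algebra K A] (m : Ideal A) :
    Module.finrank K (kk m ⟶ kk m) = Module.finrank K (A ⧸ m) := by
  let q : A → A ⧸ m := Submodule.Quotient.mk
  let e : (kk m ⟶ kk m) ≃ₗ[K] (A ⧸ m) :=
    { toFun := fun f => f.hom (q 1)
      invFun := fun x => ModuleCat.ofHom (Submodule.liftQ m (LinearMap.toSpanSingleton A _ x) (by
        intro a ha
        rw [LinearMap.mem_ker, LinearMap.toSpanSingleton_apply]
        obtain ⟨b, rfl⟩ := Submodule.mkQ_surjective m x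
        rw [Submodule.mkQ_apply, ← Submodule.Quotient.mk_smul, Submodule.Quotient.mk_eq_zero,
          smul_eq_mul]
        exact m.mul_mem_right _ ha))
      left_inv := by
        intro f
        apply ModuleCat.hom_ext
        apply LinearMap.ext
        intro y
        obtain ⟨b, rfl⟩ := Submodule.mkQ_surjective m y
        change b • f.hom (q 1) = f.hom (Submodule.Quotient.mk b)
        rw [← map_smul]
        congr 1
        change Submodule.Quotient.mk (b • (1 : A)) = _
        rw [smul_eq_mul, mul_one]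
      right_inv := by
        intro x
        change (1 : A) • x = x
        exact one_smul _ _
      map_add' := by
        intro f g
        rfl
      map_smul' := by
        intro c f
        rfl }
  exact e.finrank_eq

end LE12_

theorem le12_proof (hLRES : Stmt_LRES) (hLEUL : Stmt_LEUL) (hLRK : Stmt_LRK) (hLE2 : Stmt_LE2) :
    Stmt_LE12 := by
  intro K _ A _ _ m h
  obtain ⟨r, -⟩ := hLRES K A m h
  obtain ⟨-, h2, -⟩ := hLE2 K A m h
  obtain ⟨hf, hr⟩ := hLRK K A m h
  have hf' : ∀ P : ModuleCat.{0} A, Module.Finite A P → Module.Projective A P →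
      @Module.Finite K (P ⟶ kk m) _ _ (Linear.homModule P (kk m)) := by
    intro P h5 h6
    rw [← LE12_.inst_eq]
    exact hf P h5 h6
  have h3 := hLEUL K A (kk m) r (kk m) (hf' _ r.fin0 r.pr0) (hf' _ r.fin1 r.pr1)
    (hf' _ r.fin2 r.pr2)
  obtain ⟨-, -, -, h4⟩ := h3
  have h0 : Module.finrank K (Ext (kk m) (kk m) 0) = 1 := by
    have h6 := LE12_.finrank_hom K A m
    rw [h.one, LE12_.inst_eq K A m (kk m)] at h6
    refine Eq.trans ?_ h6
    exact @LinearEquiv.finrank_eq K _ _ _ _ _ _ (Linear.homModule (kk m) (kk m))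
      (Ext.linearEquiv₀ (R := K) (X := kk m) (Y := kk m))
  refine ⟨h0, ?_, h2⟩
  have h5 := hr r
  rw [LE12_.inst_eq K A m r.P0, LE12_.inst_eq K A m r.P1, LE12_.inst_eq K A m r.P2] at h5
  rw [h0, h2] at h4
  push_cast at h4
  linarith

end Pool.CRD.Loc
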