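import Pool.Agent.CRD.C.LStmts

/-!
# CRD, area C, module LE2: `Ext²(A/m,A)` is one dimensional
-/

open CategoryTheory Abelian Limits

namespace Pool.CRD.Loc

namespace LE2_

lemma surj (K : Type) [Field K] (A : Type) [CommRing A] [Algebra K A] (m : Ideal A)
    (h : LS K A m) : Function.Surjective (fun x : Ext (kk m) (ModuleCat.of A A) 2 =>
      x.comp (Ext.mk₀ (qk m)) (add_zero 2)) := by
  intro y
  have hepi : Epi (qk m) := by
    rw [ModuleCat.epi_iff_surjective]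
    exact Submodule.mkQ_surjective m
  let S : ShortComplex (ModuleCat.{0} A) :=
    ShortComplex.mk (kernel.ι (qk m)) (qk m) (kernel.condition _)
  have hS : S.ShortExact :=
    { exact := ShortComplex.exact_of_f_is_kernel _ (kernelIsKernel (qk m))
      mono_f := (inferInstance : Mono (kernel.ι (qk m)))
      epi_g := hepi }
  have hpd : HasProjectiveDimensionLT (kk m) 3 := h.pd (kk m) (inferInstanceAs
    (Module.Finite A (A ⧸ m)))
  have hsub : Subsingleton (Ext (kk m) S.X₁ 3) :=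
    HasProjectiveDimensionLT.subsingleton (kk m) 3 3 le_rfl S.X₁
  exact Ext.covariant_sequence_exact₃ (kk m) hS y (show 2 + 1 = 3 from rfl)
    (Subsingleton.elim _ _)

lemma fr (K : Type) [Field K] (A : Type) [CommRing A] [Algebra K A] (M E : ModuleCat.{0} A)
    (s : Res E) (φ2 : s.P2 ≅ ModuleCat.of A A) (hψ : ∀ ψ : s.P1 ⟶ M, s.d2 ≫ ψ = 0)
    (w : Ext E s.P2 2)
    (hw1 : ∀ x : Ext E M 2, ∃ φ : s.P2 ⟶ M, x = w.comp (Ext.mk₀ φ) (add_zero 2))
    (hw2 : ∀ φ : s.P2 ⟶ M, w.comp (Ext.mk₀ φ) (add_zero 2) = 0 ↔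
      ∃ ψ : s.P1 ⟶ M, φ = s.d2 ≫ ψ) :
    Module.finrank K (Ext E M 2) = Module.finrank K (ModuleCat.of A A ⟶ M) := by
  let L : (s.P2 ⟶ M) →ₗ[K] Ext E M 2 :=
    (Ext.precompOfLinear w K M (add_zero 2)) ∘ₗ
      (Ext.linearEquiv₀ (R := K) (X := s.P2) (Y := M)).symm.toLinearMap
  have hL : ∀ φ, L φ = w.comp (Ext.mk₀ φ) (add_zero 2) := fun φ => rfl
  have hLb : Function.Bijective L := by
    constructor
    · rw [injective_iff_map_eq_zero]
      intro φ hφ
      rw [hL, hw2] at hφ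
      obtain ⟨ψ, rfl⟩ := hφ
      exact hψ ψ
    · intro x
      obtain ⟨φ, rfl⟩ := hw1 x
      exact ⟨φ, rfl⟩
  have h2 : Module.finrank K (s.P2 ⟶ M) = Module.finrank K (Ext E M 2) :=
    (LinearEquiv.ofBijective L hLb).finrank_eq
  have h3 : Module.finrank K (s.P2 ⟶ M) = Module.finrank K (ModuleCat.of A A ⟶ M) :=
    (Linear.homCongr K φ2 (Iso.refl M)).finrank_eq
  rw [← h2, h3]

end LE2_

theorem le2_proof (hLRES : Stmt_LRES) (hLEX : Stmt_LEX) (hLKB : Stmt_LKB) (hLDR : Stmt_LDR) :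
    Stmt_LE2 := by
  intro K _ A _ _ m h
  obtain ⟨r, e, he⟩ := hLRES K A m h
  obtain ⟨E, s, hEf, hEm, ⟨φ1⟩, ⟨φ2⟩, hψ⟩ := hLDR K A m h r ⟨e, he⟩
  obtain ⟨b, -, hb1, hb2⟩ := hLKB K A m h E hEf hEm
  have hkf : Module.Finite A (kk m) := inferInstanceAs (Module.Finite A (A ⧸ m))
  have hkm : ∀ a ∈ m, ∀ x : (kk m), a • x = 0 := by
    intro a ha x
    obtain ⟨y, rfl⟩ := Submodule.mkQ_surjective m x
    rw [← map_smul]
    exact (Submodule.Quotient.mk_eq_zero m).mpr (m.mul_mem_right y ha)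
  obtain ⟨b', ⟨ψ'⟩, hb1', -⟩ := hLKB K A m h (kk m) hkf hkm
  have hone := h.one
  have hfin : Module.Finite K (A ⧸ m) := Module.finite_of_finrank_pos (by omega)
  have hb' : b' = 1 := by
    have ψK : (A ⧸ m) ≃ₗ[K] (Fin b' → A ⧸ m) := LinearEquiv.restrictScalars K ψ'
    have h1 := ψK.finrank_eq
    rw [Module.finrank_pi_fintype] at h1
    simp only [hone, Finset.sum_const, Finset.card_univ, Fintype.card_fin, smul_eq_mul,
      mul_one] at h1
    exact h1.symm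
  rw [hb'] at hb1'
  obtain ⟨⟨w, hw⟩, -⟩ := hLEX A E s
  obtain ⟨hw1, hw2⟩ := hw (kk m)
  have h2 := LE2_.fr K A (kk m) E s φ2 hψ w hw1 hw2
  rw [hb1', hb2] at h2
  have h4 : b = 1 ∧ Module.finrank K (Ext (kk m) (kk m) 2) = 1 :=
    by
    have h6 : b ∣ 1 := ⟨_, h2.symm⟩
    have h7 : b = 1 := Nat.dvd_one.mp h6
    rw [h7, one_mul] at h2
    exact ⟨h7, h2⟩
  have h5 : Module.finrank K (Ext (kk m) (ModuleCat.of A A) 2) = 1 := by
    rw [φ1.finrank_eq, hb1, h4.1]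
  refine ⟨h5, h4.2, ?_⟩
  have hf1 : Module.Finite K (Ext (kk m) (ModuleCat.of A A) 2) :=
    Module.finite_of_finrank_pos (by omega)
  have hf2 : Module.Finite K (Ext (kk m) (kk m) 2) :=
    Module.finite_of_finrank_pos (by omega)
  have hs := LE2_.surj K A m h
  let T : Ext (kk m) (ModuleCat.of A A) 2 →ₗ[K] Ext (kk m) (kk m) 2 :=
    Ext.postcompOfLinear (Ext.mk₀ (qk m)) K (kk m) (add_zero 2)
  have hT : ∀ x, T x = x.comp (Ext.mk₀ (qk m)) (add_zero 2) := fun x => rfl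
  have hTs : Function.Surjective T := hs
  have hTi : Function.Injective T :=
    (LinearMap.injective_iff_surjective_of_finrank_eq_finrank (by rw [h5, h4.2])).mpr hTs
  exact ⟨hTi, hTs⟩

end Pool.CRD.Loc
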