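import Pool.Agent.CRD.C.LStmts

/-!
# CRD, area C, local part: module LEUL (Euler characteristic from a resolution)
-/

open CategoryTheory Abelian

namespace Pool.CRD.Loc

namespace LEUL_

/-- dimensions in a four term exact sequence -/
theorem four {K A B C D : Type} [Field K] [AddCommGroup A] [Module K A] [AddCommGroup B]
    [Module K B] [AddCommGroup C] [Module K C] [AddCommGroup D] [Module K D]
    (f : A →ₗ[K] B) (g : B →ₗ[K] C) (h : C →ₗ[K] D) (hf : Function.Injective f)
    (hfg : Function.Exact f g) (hgh : Function.Exact g h) (hh : Function.Surjective h)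
    [Module.Finite K B] [Module.Finite K C] :
    Module.Finite K A ∧ Module.Finite K D ∧
      (Module.finrank K A : ℤ) - Module.finrank K B + Module.finrank K C - Module.finrank K D
        = 0 := by
  have hA : Module.Finite K A := Module.Finite.of_injective f hf
  have hD : Module.Finite K D := Module.Finite.of_surjective h hh
  refine ⟨hA, hD, ?_⟩
  have e1 : Module.finrank K (LinearMap.range f) = Module.finrank K A :=
    LinearMap.finrank_range_of_inj hf
  have e2 : LinearMap.range f = LinearMap.ker g := (LinearMap.exact_iff.1 hfg).symm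
  have e3 : LinearMap.range g = LinearMap.ker h := (LinearMap.exact_iff.1 hgh).symm
  have e4 := LinearMap.finrank_range_add_finrank_ker g
  have e5 := LinearMap.finrank_range_add_finrank_ker h
  have e6 : Module.finrank K (LinearMap.range h) = Module.finrank K D := by
    rw [LinearMap.range_eq_top.2 hh, finrank_top]
  rw [e2] at e1
  rw [e3] at e4
  rw [e6] at e5
  omega

section
variable {K : Type} [Field K] {A : Type} [CommRing A] [Algebra K A]

theorem step {S : ShortComplex (ModuleCat.{0} A)} (hS : S.ShortExact) [Projective S.X₂]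
    (M : ModuleCat.{0} A) [Module.Finite K (Ext S.X₂ M 0)] [Module.Finite K (Ext S.X₁ M 0)] :
    Module.Finite K (Ext S.X₃ M 0) ∧ Module.Finite K (Ext S.X₃ M 1) ∧
      (Module.finrank K (Ext S.X₃ M 0) : ℤ) - Module.finrank K (Ext S.X₂ M 0)
        + Module.finrank K (Ext S.X₁ M 0) - Module.finrank K (Ext S.X₃ M 1) = 0 := by
  have hepi : Epi S.g := hS.epi_g
  refine four (K := K) (Ext.precompOfLinear (Ext.mk₀ S.g) K M (zero_add 0))
    (Ext.precompOfLinear (Ext.mk₀ S.f) K M (zero_add 0))
    (Ext.precompOfLinear hS.extClass K M (add_comm 1 0)) ?_ ?_ ?_ ?_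
  · exact Ext.precomp_mk₀_injective_of_epi M S.g
  · intro x
    constructor
    · intro hx
      exact Ext.contravariant_sequence_exact₂ hS M x hx
    · rintro ⟨y, rfl⟩
      change (Ext.mk₀ S.f).comp ((Ext.mk₀ S.g).comp y (zero_add 0)) (zero_add 0) = 0
      rw [Ext.mk₀_comp_mk₀_assoc, S.zero, Ext.mk₀_zero, Ext.zero_comp]
  · intro x
    constructor
    · intro hx
      exact Ext.contravariant_sequence_exact₁ hS M x (add_comm 1 0) hx
    · rintro ⟨y, rfl⟩
      change hS.extClass.comp ((Ext.mk₀ S.f).comp y (zero_add 0)) (add_comm 1 0) = 0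
      rw [← Ext.comp_assoc_of_second_deg_zero, hS.extClass_comp, Ext.zero_comp]
  · intro x
    exact Ext.contravariant_sequence_exact₃ hS M x (Ext.eq_zero_of_projective _) (add_comm 1 0)

/-- dimension shift -/
theorem shift {S : ShortComplex (ModuleCat.{0} A)} (hS : S.ShortExact) [Projective S.X₂]
    (M : ModuleCat.{0} A) : Nonempty (Ext S.X₁ M 1 ≃ₗ[K] Ext S.X₃ M 2) := by
  refine ⟨LinearEquiv.ofBijective (Ext.precompOfLinear hS.extClass K M (show 1 + 1 = 2 from rfl))
    ⟨?_, ?_⟩⟩
  · rw [injective_iff_map_eq_zero]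
    intro x hx
    obtain ⟨y, rfl⟩ := Ext.contravariant_sequence_exact₁ hS M x (show 1 + 1 = 2 from rfl) hx
    rw [Ext.eq_zero_of_projective y, Ext.comp_zero]
  · intro x
    exact Ext.contravariant_sequence_exact₃ hS M x (Ext.eq_zero_of_projective _)
      (show 1 + 1 = 2 from rfl)

end

end LEUL_

theorem leul_proof : Stmt_LEUL := by
  intro K _ A _ _ N r M h0 h1 h2
  have p0 : Projective r.P0 := (IsProjective.iff_projective r.P0).1 r.pr0
  have p1 : Projective r.P1 := (IsProjective.iff_projective r.P1).1 r.pr1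
  -- the two short exact sequences
  have hker : ∀ x, r.d1.hom x ∈ LinearMap.ker r.d0.hom := fun x => by
    rw [LinearMap.mem_ker]
    exact (r.ex0 _).2 ⟨x, rfl⟩
  let S1 : ShortComplex (ModuleCat.{0} A) :=
    { X₁ := ModuleCat.of A (LinearMap.ker r.d0.hom), X₂ := r.P0, X₃ := N
      f := ModuleCat.ofHom (LinearMap.ker r.d0.hom).subtype
      g := r.d0
      zero := by ext x; exact x.2 }
  let S2 : ShortComplex (ModuleCat.{0} A) :=
    { X₁ := r.P2, X₂ := r.P1, X₃ := ModuleCat.of A (LinearMap.ker r.d0.hom)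
      f := r.d2
      g := ModuleCat.ofHom (r.d1.hom.codRestrict _ hker)
      zero := by
        ext x
        exact (r.ex1 _).2 ⟨x, rfl⟩ }
  have hS1 : S1.ShortExact := by
    apply ModuleCat.shortComplex_shortExact
    · intro x
      constructor
      · intro hx
        exact ⟨⟨x, hx⟩, rfl⟩
      · rintro ⟨y, rfl⟩
        exact y.2
    · exact Subtype.val_injective
    · exact r.sur0
  have hS2 : S2.ShortExact := by
    apply ModuleCat.shortComplex_shortExact
    · intro x
      constructor
      · intro hx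
        exact (r.ex1 x).1 (congrArg Subtype.val hx)
      · rintro ⟨y, rfl⟩
        apply Subtype.ext
        exact (r.ex1 _).2 ⟨y, rfl⟩
    · exact r.inj2
    · rintro ⟨x, hx⟩
      obtain ⟨y, hy⟩ := (r.ex0 x).1 hx
      exact ⟨y, Subtype.ext hy⟩
  have f0 : Module.Finite K (Ext r.P0 M 0) :=
    Module.Finite.equiv (Ext.linearEquiv₀ (R := K) (X := r.P0) (Y := M)).symm
  have f1 : Module.Finite K (Ext r.P1 M 0) :=
    Module.Finite.equiv (Ext.linearEquiv₀ (R := K) (X := r.P1) (Y := M)).symm
  have f2 : Module.Finite K (Ext r.P2 M 0) :=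
    Module.Finite.equiv (Ext.linearEquiv₀ (R := K) (X := r.P2) (Y := M)).symm
  have e0 : Module.finrank K (Ext r.P0 M 0) = Module.finrank K (r.P0 ⟶ M) :=
    (Ext.linearEquiv₀ (R := K) (X := r.P0) (Y := M)).finrank_eq
  have e1 : Module.finrank K (Ext r.P1 M 0) = Module.finrank K (r.P1 ⟶ M) :=
    (Ext.linearEquiv₀ (R := K) (X := r.P1) (Y := M)).finrank_eq
  have e2 : Module.finrank K (Ext r.P2 M 0) = Module.finrank K (r.P2 ⟶ M) :=
    (Ext.linearEquiv₀ (R := K) (X := r.P2) (Y := M)).finrank_eq
  have i1 : Projective S1.X₂ := p0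
  have i2 : Projective S2.X₂ := p1
  have j1 : Module.Finite K (Ext S2.X₂ M 0) := f1
  have j2 : Module.Finite K (Ext S2.X₁ M 0) := f2
  obtain ⟨g0, g1, g2⟩ := LEUL_.step (K := K) hS2 M
  have j3 : Module.Finite K (Ext S1.X₂ M 0) := f0
  have j4 : Module.Finite K (Ext S1.X₁ M 0) := g0
  obtain ⟨k0, k1, k2⟩ := LEUL_.step (K := K) hS1 M
  obtain ⟨ε⟩ := LEUL_.shift (K := K) hS1 M
  have g1' : Module.Finite K (Ext S1.X₁ M 1) := g1
  have k3 : Module.Finite K (Ext N M 2) := Module.Finite.equiv ε
  have k4 : Module.finrank K (Ext S1.X₁ M 1) = Module.finrank K (Ext N M 2) := ε.finrank_eq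
  refine ⟨k0, k1, k3, ?_⟩
  change (Module.finrank K (Ext S1.X₁ M 0) : ℤ) - Module.finrank K (Ext r.P1 M 0)
    + Module.finrank K (Ext r.P2 M 0) - Module.finrank K (Ext S1.X₁ M 1) = 0 at g2
  change (Module.finrank K (Ext N M 0) : ℤ) - Module.finrank K (Ext r.P0 M 0)
    + Module.finrank K (Ext S1.X₁ M 0) - Module.finrank K (Ext N M 1) = 0 at k2
  rw [e1, e2, k4] at g2
  rw [e0] at k2
  omega

end Pool.CRD.Loc
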