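import Pool.Agent.CRD.C.LStmts

/-!
# CRD, area C, local part: module LEX (`Ext²` and vanishing of `Ext¹` from a resolution)
-/

open CategoryTheory Abelian

namespace Pool.CRD.Loc

namespace LEX_

variable {A : Type} [CommRing A]

theorem mk_surj {X Y : ModuleCat.{0} A} (x : Ext X Y 0) : ∃ f : X ⟶ Y, Ext.mk₀ f = x :=
  (Ext.mk₀_bijective X Y).2 x

theorem mk_inj {X Y : ModuleCat.{0} A} {f g : X ⟶ Y} (h : Ext.mk₀ f = Ext.mk₀ g) : f = g :=
  (Ext.mk₀_bijective X Y).1 h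

/-- a class killed by the connecting map in degree `0` extends -/
theorem ext0 {S : ShortComplex (ModuleCat.{0} A)} (hS : S.ShortExact) {M : ModuleCat.{0} A}
    (φ : S.X₁ ⟶ M) : hS.extClass.comp (Ext.mk₀ φ) (add_zero 1) = 0 ↔
      ∃ ψ : S.X₂ ⟶ M, φ = S.f ≫ ψ := by
  constructor
  · intro h
    obtain ⟨y, hy⟩ := Ext.contravariant_sequence_exact₁ hS M (Ext.mk₀ φ) (add_zero 1) h
    obtain ⟨ψ, rfl⟩ := mk_surj y
    refine ⟨ψ, ?_⟩
    rw [Ext.mk₀_comp_mk₀] at hy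
    exact (mk_inj hy).symm
  · rintro ⟨ψ, rfl⟩
    rw [← Ext.mk₀_comp_mk₀, ← Ext.comp_assoc_of_second_deg_zero, hS.extClass_comp, Ext.zero_comp]

theorem surj0 {S : ShortComplex (ModuleCat.{0} A)} (hS : S.ShortExact) [Projective S.X₂]
    {M : ModuleCat.{0} A} (x : Ext S.X₃ M 1) :
    ∃ φ : S.X₁ ⟶ M, x = hS.extClass.comp (Ext.mk₀ φ) (add_zero 1) := by
  obtain ⟨y, hy⟩ := Ext.contravariant_sequence_exact₃ hS M x (Ext.eq_zero_of_projective _)
    (add_zero 1)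
  obtain ⟨φ, rfl⟩ := mk_surj y
  exact ⟨φ, hy.symm⟩

end LEX_

open LEX_

theorem lex_proof : Stmt_LEX := by
  intro A _ N r
  have p0 : Projective r.P0 := (IsProjective.iff_projective r.P0).1 r.pr0
  have p1 : Projective r.P1 := (IsProjective.iff_projective r.P1).1 r.pr1
  have hker : ∀ x, r.d1.hom x ∈ LinearMap.ker r.d0.hom := fun x => by
    rw [LinearMap.mem_ker]
    exact (r.ex0 _).2 ⟨x, rfl⟩
  let S1 : ShortComplex (ModuleCat.{0} A) :=
    { X₁ := ModuleCat.of A (LinearMap.ker r.d0.hom), X₂ := r.P0, X₃ := N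
      f := ModuleCat.ofHom (LinearMap.ker r.d0.hom).subtype
      g := r.d0
      zero := by ext x; exact x.2 }
  let S2 : ShortComplex (ModuleCat.{0} A) :=
    { X₁ := r.P2, X₂ := r.P1, X₃ := ModuleCat.of A (LinearMap.ker r.d0.hom)
      f := r.d2
      g := ModuleCat.ofHom (r.d1.hom.codRestrict _ hker)
      zero := by
        ext x
        exact (r.ex1 _).2 ⟨x, rfl⟩ }
  have hS1 : S1.ShortExact := by
    apply ModuleCat.shortComplex_shortExact
    · intro x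
      constructor
      · intro hx
        exact ⟨⟨x, hx⟩, rfl⟩
      · rintro ⟨y, rfl⟩
        exact y.2
    · exact Subtype.val_injective
    · exact r.sur0
  have hS2 : S2.ShortExact := by
    apply ModuleCat.shortComplex_shortExact
    · intro x
      constructor
      · intro hx
        exact (r.ex1 x).1 (congrArg Subtype.val hx)
      · rintro ⟨y, rfl⟩
        apply Subtype.ext
        exact (r.ex1 _).2 ⟨y, rfl⟩
    · exact r.inj2
    · rintro ⟨x, hx⟩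
      obtain ⟨y, hy⟩ := (r.ex0 x).1 hx
      exact ⟨y, Subtype.ext hy⟩
  have hd1 : r.d1 = S2.g ≫ S1.f := rfl
  have q1 : Projective S1.X₂ := p0
  have q2 : Projective S2.X₂ := p1
  have hepi : Epi S2.g := hS2.epi_g
  refine ⟨⟨hS1.extClass.comp hS2.extClass (show 1 + 1 = 2 from rfl), fun M => ⟨fun x => ?_,
    fun φ => ⟨fun h => ?_, ?_⟩⟩⟩, fun M => ⟨fun h φ hφ => ?_, fun h => ⟨?_⟩⟩⟩
  · obtain ⟨y, hy⟩ := Ext.contravariant_sequence_exact₃ hS1 M x (Ext.eq_zero_of_projective _)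
      (show 1 + 1 = 2 from rfl)
    obtain ⟨φ, rfl⟩ := surj0 hS2 y
    refine ⟨φ, ?_⟩
    rw [← hy]
    exact (Ext.comp_assoc _ _ _ _ _ (show 1 + 1 + 0 = 2 from rfl)).symm
  · have h1 : hS1.extClass.comp (hS2.extClass.comp (Ext.mk₀ φ) (add_zero 1))
        (show 1 + 1 = 2 from rfl) = 0 := by
      rw [← h]
      exact (Ext.comp_assoc _ _ _ _ _ (show 1 + 1 + 0 = 2 from rfl)).symm
    obtain ⟨y, hy⟩ := Ext.contravariant_sequence_exact₁ hS1 M _ (show 1 + 1 = 2 from rfl) h1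
    rw [Ext.eq_zero_of_projective y, Ext.comp_zero] at hy
    exact (ext0 hS2 φ).1 hy.symm
  · rintro ⟨ψ, rfl⟩
    have h1 := (ext0 hS2 (r.d2 ≫ ψ)).2 ⟨ψ, rfl⟩
    have h2 : hS1.extClass.comp (hS2.extClass.comp (Ext.mk₀ (r.d2 ≫ ψ)) (add_zero 1))
        (show 1 + 1 = 2 from rfl) = 0 := by
      rw [h1, Ext.comp_zero]
    rw [← h2]
    exact Ext.comp_assoc _ _ _ _ _ (show 1 + 1 + 0 = 2 from rfl)
  · let φ' : S2.X₃ ⟶ M := hS2.exact.desc φ hφ
    have h1 : S2.g ≫ φ' = φ := hS2.exact.g_desc φ hφ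
    obtain ⟨ψ, hψ⟩ := (ext0 hS1 φ').1 (Subsingleton.elim _ _)
    refine ⟨ψ, ?_⟩
    rw [← h1, hψ, hd1, Category.assoc]
  · have key : ∀ x : Ext N M 1, x = 0 := by
      intro x
      obtain ⟨φ', rfl⟩ := surj0 hS1 x
      obtain ⟨ψ, hψ⟩ := h (S2.g ≫ φ') (by
        have := S2.zero
        change S2.f ≫ S2.g ≫ φ' = 0
        rw [← Category.assoc, this, Limits.zero_comp])
      rw [hd1, Category.assoc] at hψ
      exact (ext0 hS1 φ').2 ⟨ψ, (cancel_epi S2.g).1 hψ⟩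
    intro x y
    rw [key x, key y]

end Pool.CRD.Loc
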