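import Pool.Agent.CRD.C.LStmts

/-!
# CRD C, module LHOM: `m` contains a nonzerodivisor
-/

open CategoryTheory Abelian

namespace Pool.CRD.Loc

theorem lhom_proof (hLRES : Stmt_LRES) (hLINJ : Stmt_LINJ) (hLPM : Stmt_LPM) : Stmt_LHOM := by
  intro K _ A _ _ m h
  have := h.max
  have := h.noeth
  have first : ∀ x : A, (∀ a ∈ m, a * x = 0) → x = 0 := by
    intro x hx
    by_contra hx0
    obtain ⟨r, -⟩ := hLRES K A m h
    obtain ⟨p, hp1, hp2⟩ := hLINJ K A m h r
    apply hp1
    have := r.pr2
    apply hLPM A m r.P2 r.pr2 p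
    have h1 : ∀ q ∈ (m • ⊤ : Submodule A r.P1), x • q = 0 := by
      intro q hq
      have hle : (m • ⊤ : Submodule A r.P1) ≤
          LinearMap.ker (LinearMap.lsmul A r.P1 x) := by
        rw [Submodule.smul_le]
        intro a ha y _
        rw [LinearMap.mem_ker, LinearMap.lsmul_apply, smul_smul, mul_comm, hx a ha, zero_smul]
      exact hle hq
    have h2 : x • p = 0 := by
      apply r.inj2
      rw [map_smul, map_zero]
      exact h1 _ hp2
    intro f
    have h3 : x * f p = 0 := by
      rw [← smul_eq_mul, ← map_smul, h2, map_zero]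
    by_contra h4
    have h5 : m ⊔ Ideal.span {f p} = ⊤ := by
      apply h.max.out.2
      refine lt_of_le_of_ne le_sup_left ?_
      intro h6
      apply h4
      exact (le_of_eq h6.symm) (Ideal.mem_sup_right (Ideal.mem_span_singleton_self _))
    have h7 : (1 : A) ∈ m ⊔ Ideal.span {f p} := by
      rw [h5]
      exact Submodule.mem_top
    rw [Submodule.mem_sup] at h7
    obtain ⟨a, ha, b, hb, hab⟩ := h7
    obtain ⟨c, rfl⟩ := Ideal.mem_span_singleton'.1 hb
    apply hx0
    have h8 : x = a * x + c * (x * f p) := by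
      linear_combination (-x) * hab
    rw [h8, hx a ha, h3, mul_zero, add_zero]
  refine ⟨first, ?_⟩
  have h9 : Subsingleton ((A ⧸ m) →ₗ[A] A) := by
    refine ⟨fun f g => ?_⟩
    have key : ∀ f : (A ⧸ m) →ₗ[A] A, f = 0 := by
      intro f
      have h10 : f (Submodule.Quotient.mk 1) = 0 := by
        apply first
        intro a ha
        rw [← smul_eq_mul, ← map_smul, ← Submodule.Quotient.mk_smul, smul_eq_mul, mul_one,
          (Submodule.Quotient.mk_eq_zero m).2 ha, map_zero]
      apply LinearMap.ext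
      intro y
      obtain ⟨a, rfl⟩ := Submodule.mkQ_surjective m y
      have h11 : Submodule.mkQ m a = a • (Submodule.Quotient.mk 1 : A ⧸ m) := by
        rw [← Submodule.Quotient.mk_smul, smul_eq_mul, mul_one]
        rfl
      rw [h11, map_smul, h10, smul_zero]
      rfl
    rw [key f, key g]
  obtain ⟨u, hu, hu2⟩ := IsSMulRegular.subsingleton_linearMap_iff.1 h9
  refine ⟨u, ?_, hu2⟩
  have h12 := Module.mem_annihilator.1 hu (Submodule.Quotient.mk 1)
  rw [← Submodule.Quotient.mk_smul, smul_eq_mul, mul_one] at h12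
  exact (Submodule.Quotient.mk_eq_zero m).1 h12

end Pool.CRD.Loc
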