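import Pool.Agent.CRD.C.LStmts

/-!
# CRD C, module LINJ: `P2/mP2 → P1/mP1` is not injective
-/

open CategoryTheory Abelian

namespace Pool.CRD.Loc

namespace LINJ_

/-- extension of maps to `A/m` along a map which is injective modulo `m` -/
theorem extend {A : Type} [CommRing A] (m : Ideal A) [m.IsMaximal] {P Q : Type}
    [AddCommGroup P] [Module A P] [AddCommGroup Q] [Module A Q] (d : P →ₗ[A] Q)
    (hd : ∀ p : P, d p ∈ (m • ⊤ : Submodule A Q) → p ∈ (m • ⊤ : Submodule A P))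
    (φ : P →ₗ[A] A ⧸ m) : ∃ ψ : Q →ₗ[A] A ⧸ m, φ = ψ ∘ₗ d := by
  let _ : Field (A ⧸ m) := Ideal.Quotient.field m
  have hle : (m • ⊤ : Submodule A P) ≤ (m • ⊤ : Submodule A Q).comap d := by
    rw [Submodule.smul_le]
    intro r hr x _
    rw [Submodule.mem_comap, map_smul]
    exact Submodule.smul_mem_smul hr Submodule.mem_top
  have hker : (m • ⊤ : Submodule A P) ≤ LinearMap.ker φ := by
    rw [Submodule.smul_le]
    intro r hr x _
    rw [LinearMap.mem_ker, map_smul]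
    obtain ⟨a, ha⟩ := Ideal.Quotient.mk_surjective (φ x)
    rw [← ha, ← Ideal.Quotient.mk_eq_mk, ← Submodule.Quotient.mk_smul,
      Submodule.Quotient.mk_eq_zero, smul_eq_mul]
    exact m.mul_mem_right _ hr
  have hsurj : Function.Surjective (algebraMap A (A ⧸ m)) := Ideal.Quotient.mk_surjective
  let dbar : (P ⧸ (m • ⊤ : Submodule A P)) →ₗ[A] (Q ⧸ (m • ⊤ : Submodule A Q)) :=
    Submodule.mapQ _ _ d hle
  let phibar : (P ⧸ (m • ⊤ : Submodule A P)) →ₗ[A] (A ⧸ m) := Submodule.liftQ _ φ hker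
  have hinj : Function.Injective dbar := by
    rw [← LinearMap.ker_eq_bot, LinearMap.ker_eq_bot']
    intro x hx
    obtain ⟨p, rfl⟩ := Submodule.mkQ_surjective _ x
    have h1 : dbar (Submodule.mkQ _ p) = Submodule.mkQ _ (d p) := rfl
    rw [h1, Submodule.mkQ_apply, Submodule.Quotient.mk_eq_zero] at hx
    rw [Submodule.mkQ_apply, Submodule.Quotient.mk_eq_zero]
    exact hd p hx
  let d' := LinearMap.extendScalarsOfSurjective hsurj dbar
  let phi' := LinearMap.extendScalarsOfSurjective hsurj phibar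
  have hinj' : LinearMap.ker d' = ⊥ := by
    rw [LinearMap.ker_eq_bot]
    exact hinj
  obtain ⟨g, hg⟩ := LinearMap.exists_leftInverse_of_injective d' hinj'
  refine ⟨((phi' ∘ₗ g).restrictScalars A) ∘ₗ Submodule.mkQ _, ?_⟩
  ext p
  have h2 : g (d' (Submodule.mkQ _ p)) = Submodule.mkQ _ p := LinearMap.congr_fun hg _
  have h3 : d' (Submodule.mkQ _ p) = Submodule.mkQ _ (d p) := rfl
  rw [h3] at h2
  change φ p = phi' (g (Submodule.mkQ _ (d p)))
  rw [h2]
  rfl

end LINJ_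

theorem linj_proof (hLEX : Stmt_LEX) : Stmt_LINJ := by
  intro K _ A _ _ m h r
  have := h.max
  by_contra hc
  push Not at hc
  obtain ⟨e, he⟩ := h.ne
  obtain ⟨⟨w, hw⟩, -⟩ := hLEX A (kk m) r
  obtain ⟨h1, h2⟩ := hw (kk m)
  obtain ⟨φ, hφ⟩ := h1 e
  apply he
  rw [hφ, h2 φ]
  obtain ⟨ψ, hψ⟩ := LINJ_.extend m r.d2.hom (fun p hp => by
    by_contra hp2
    exact hc p hp2 hp) φ.hom
  refine ⟨ModuleCat.ofHom ψ, ?_⟩
  apply ModuleCat.hom_ext
  exact hψ

end Pool.CRD.Loc
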