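import Pool.Agent.CRD.C.LStmts

/-!
# CRD, area C, local part: module LKB (modules killed by `m`)
-/

open CategoryTheory Abelian

namespace Pool.CRD.Loc

namespace LKB_

section
variable {K : Type} [Field K] {A : Type} [CommRing A] [Algebra K A]

/-- additivity of `Ext²` in the first variable -/
noncomputable def extEquiv {m : Ideal A} {E : ModuleCat.{0} A} {b : ℕ}
    (ι : Fin b → (kk m ⟶ E)) (π : Fin b → (E ⟶ kk m))
    (h1 : ∀ i, ι i ≫ π i = 𝟙 _) (h1' : ∀ i j, i ≠ j → ι i ≫ π j = 0)
    (h2 : ∑ i, π i ≫ ι i = 𝟙 E) :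
    Ext E (kk m) 2 ≃ₗ[K] (Fin b → Ext (kk m) (kk m) 2) where
  toFun x i := (Ext.mk₀ (ι i)).comp x (zero_add 2)
  invFun y := ∑ i, (Ext.mk₀ (π i)).comp (y i) (zero_add 2)
  map_add' x y := by
    funext i
    exact Ext.comp_add _ _ _ _
  map_smul' c x := by
    funext i
    exact Ext.comp_smul _ _ _ _
  left_inv x := by
    simp only [Ext.mk₀_comp_mk₀_assoc]
    rw [← Ext.sum_comp, ← Ext.mk₀_sum, h2, Ext.mk₀_id_comp]
  right_inv y := by
    funext i
    simp only [Ext.comp_sum, Ext.mk₀_comp_mk₀_assoc]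
    rw [Finset.sum_eq_single i, h1, Ext.mk₀_id_comp]
    · intro j _ hji
      rw [h1' i j (Ne.symm hji), Ext.mk₀_zero, Ext.zero_comp]
    · intro h
      exact absurd (Finset.mem_univ i) h

lemma finrank_fun (V : Type) [AddCommGroup V] [Module K V] (b : ℕ) :
    Module.finrank K (Fin b → V) = b * Module.finrank K V := by
  unfold Module.finrank
  rw [rank_fun_eq_lift_mul, Cardinal.toNat_mul, Fintype.card_fin, Cardinal.toNat_natCast,
    Cardinal.toNat_lift]

/-- a finite module killed by `m` is a power of `A/m` -/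
lemma exists_equiv (m : Ideal A) [m.IsMaximal] (E : Type) [AddCommGroup E] [Module A E]
    (hfin : Module.Finite A E) (hE : ∀ a ∈ m, ∀ x : E, a • x = 0) :
    ∃ b : ℕ, Nonempty (E ≃ₗ[A] (Fin b → A ⧸ m)) := by
  have hT : Module.IsTorsionBySet A E m := by
    intro x a
    exact hE a a.2 x
  let : Module (A ⧸ m) E := hT.module
  have : IsScalarTower A (A ⧸ m) E := hT.isScalarTower
  let : Field (A ⧸ m) := Ideal.Quotient.field m
  have : Module.Finite (A ⧸ m) E := Module.Finite.of_restrictScalars_finite A (A ⧸ m) E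
  let e : E ≃ₗ[A ⧸ m] (Fin (Module.finrank (A ⧸ m) E) → A ⧸ m) :=
    (Module.finBasis (A ⧸ m) E).equivFun
  exact ⟨_, ⟨e.restrictScalars A⟩⟩

end

end LKB_

open LKB_ in
theorem lkb_proof (_hLRES : Stmt_LRES) (_hLEX : Stmt_LEX) : Stmt_LKB := by
  intro K _ A _ _ m hLS E hfin hE
  have : m.IsMaximal := hLS.max
  obtain ⟨b, ⟨e⟩⟩ := exists_equiv m E hfin hE
  refine ⟨b, ⟨e⟩, ?_, ?_⟩
  · let Φ : (ModuleCat.of A A ⟶ E) ≃ₗ[K] (Fin b → A ⧸ m) :=
      { toFun := fun f => e (f.hom 1)
        invFun := fun y => ModuleCat.ofHom (LinearMap.toSpanSingleton A E (e.symm y))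
        map_add' := fun f g => by
          change e ((f + g).hom 1) = _
          rw [ModuleCat.hom_add, LinearMap.add_apply, map_add]
        map_smul' := fun c f => by
          have h : ((c • f).hom 1 : E) = (algebraMap K A c) • f.hom 1 := rfl
          rw [h, map_smul]
          funext i
          rw [Pi.smul_apply, RingHom.id_apply, Pi.smul_apply, algebraMap_smul]
        left_inv := fun f => by
          ext
          simp
        right_inv := fun y => by
          simp }
    rw [Φ.finrank_eq, finrank_fun, hLS.one, mul_one]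
  · let ι : Fin b → (kk m ⟶ E) := fun i =>
      ModuleCat.ofHom (e.symm.toLinearMap ∘ₗ LinearMap.single A (fun _ => A ⧸ m) i)
    let π : Fin b → (E ⟶ kk m) := fun i =>
      ModuleCat.ofHom (LinearMap.proj i ∘ₗ e.toLinearMap)
    have h1 : ∀ i, ι i ≫ π i = 𝟙 _ := by
      intro i
      ext
      simp [ι, π]
    have h1' : ∀ i j, i ≠ j → ι i ≫ π j = 0 := by
      intro i j hij
      ext
      simp [ι, π, Pi.single_eq_of_ne (Ne.symm hij)]
    have h2 : ∑ i, π i ≫ ι i = 𝟙 E := by
      ext x
      have h3 : (∑ i, π i ≫ ι i).hom x = ∑ i, (π i ≫ ι i).hom x := by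
        rw [ModuleCat.hom_sum, LinearMap.sum_apply]
      rw [h3]
      apply e.injective
      rw [map_sum]
      funext j
      rw [Finset.sum_apply, Finset.sum_eq_single j]
      · simp [ι, π]
      · intro i _ hij
        simp [ι, π, Pi.single_eq_of_ne (Ne.symm hij)]
      · intro h
        exact absurd (Finset.mem_univ j) h
    rw [(extEquiv (K := K) ι π h1 h1' h2).finrank_eq, finrank_fun]

end Pool.CRD.Loc
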