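import Pool.Agent.CRD.C.LStmts

/-!
# CRD C, module LPM: elements of `mP` for a projective module `P`
-/

open CategoryTheory Abelian

namespace Pool.CRD.Loc

theorem lpm_proof : Stmt_LPM := by
  intro A _ m P hP p hp
  obtain ⟨s, hs⟩ := Module.projective_def.1 hP
  have h1 := hs p
  rw [← h1, Finsupp.linearCombination_apply, Finsupp.sum]
  refine Submodule.sum_mem _ fun i _ => ?_
  have h2 : (s p) i ∈ m := hp (Finsupp.lapply i ∘ₗ s)
  exact Submodule.smul_mem_smul h2 Submodule.mem_top

end Pool.CRD.Loc
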