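import Pool.Agent.CRD.C.LStmts

/-!
# CRD, area C, local part: module LPR (duality for projective modules)
-/

open CategoryTheory Abelian

namespace Pool.CRD.Loc

namespace LPR_

section
variable {K : Type} [Field K] {A : Type} [CommRing A] [Algebra K A]

/-- a finite dual basis -/
theorem dual_basis (P : ModuleCat.{0} A) (hf : Module.Finite A P) (hp : Module.Projective A P) :
    ∃ (n : ℕ) (f : Fin n → (P ⟶ ModuleCat.of A A)) (p : Fin n → (ModuleCat.of A A ⟶ P)),
      ∑ i, f i ≫ p i = 𝟙 P := by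
  obtain ⟨n, g, hg⟩ := Module.Finite.exists_fin' A P
  obtain ⟨s, hs⟩ := Module.projective_lifting_property g LinearMap.id hg
  refine ⟨n, fun i => ModuleCat.ofHom (LinearMap.proj i ∘ₗ s),
    fun i => ModuleCat.ofHom (g ∘ₗ LinearMap.single A (fun _ => A) i), ?_⟩
  ext x
  have h1 : (∑ i, ModuleCat.ofHom (LinearMap.proj i ∘ₗ s) ≫
      ModuleCat.ofHom (g ∘ₗ LinearMap.single A (fun _ => A) i)).hom x =
      ∑ i, g (Pi.single i (s x i)) := by
    rw [ModuleCat.hom_sum, LinearMap.sum_apply]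
    rfl
  rw [h1, ← map_sum, Finset.univ_sum_single]
  exact LinearMap.congr_fun hs x

theorem expand {P Q : ModuleCat.{0} A} {n a : ℕ} (f : Fin n → (P ⟶ ModuleCat.of A A))
    (p : Fin n → (ModuleCat.of A A ⟶ P)) (h : ∑ i, f i ≫ p i = 𝟙 P) (x : Ext Q P a) :
    x = ∑ i, (x.comp (Ext.mk₀ (f i)) (add_zero a)).comp (Ext.mk₀ (p i)) (add_zero a) := by
  calc x = x.comp (Ext.mk₀ (𝟙 P)) (add_zero a) := (Ext.comp_mk₀_id x).symm
    _ = x.comp (Ext.mk₀ (∑ i, f i ≫ p i)) (add_zero a) := by rw [h]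
    _ = ∑ i, (x.comp (Ext.mk₀ (f i)) (add_zero a)).comp (Ext.mk₀ (p i)) (add_zero a) := by
      rw [Ext.mk₀_sum, Ext.comp_sum]
      refine Finset.sum_congr rfl fun i _ => ?_
      rw [← Ext.mk₀_comp_mk₀]
      exact (Ext.comp_assoc_of_second_deg_zero _ _ _ _).symm

theorem zero_of {P Q : ModuleCat.{0} A} {n a : ℕ} (f : Fin n → (P ⟶ ModuleCat.of A A))
    (p : Fin n → (ModuleCat.of A A ⟶ P)) (h : ∑ i, f i ≫ p i = 𝟙 P)
    (h0 : ∀ y : Ext Q (ModuleCat.of A A) a, y = 0) (x : Ext Q P a) : x = 0 := by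
  rw [expand f p h x]
  apply Finset.sum_eq_zero
  intro i _
  rw [h0 (x.comp (Ext.mk₀ (f i)) (add_zero a)), Ext.zero_comp]

/-- `Hom(A, A/m)` is one dimensional -/
theorem hom_scalar {m : Ideal A} (hm : m.IsMaximal) (h1 : Module.finrank K (A ⧸ m) = 1)
    (γ : Ext (ModuleCat.of A A) (kk m) 0) : ∃ c : K, γ = c • Ext.mk₀ (qk m) := by
  obtain ⟨g, rfl⟩ := Ext.addEquiv₀.symm.surjective γ
  have hne : (Ideal.Quotient.mk m 1 : A ⧸ m) ≠ 0 := by
    rw [map_one]
    have : Nontrivial (A ⧸ m) := Ideal.Quotient.nontrivial_iff.2 hm.ne_top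
    exact one_ne_zero
  obtain ⟨c, hc⟩ := (finrank_eq_one_iff_of_nonzero' _ hne).1 h1 (g.hom (1 : A))
  refine ⟨c, ?_⟩
  change Ext.mk₀ g = c • Ext.mk₀ (qk m)
  rw [← Ext.mk₀_smul]
  congr 1
  apply ModuleCat.hom_ext
  apply LinearMap.ext_ring
  rw [← hc]
  exact (algebraMap_smul A c (Ideal.Quotient.mk m 1 : A ⧸ m)).symm

end

end LPR_

theorem lpr_proof (hLHOM : Stmt_LHOM) (hLE1 : Stmt_LE1) (hLE2 : Stmt_LE2) : Stmt_LPR := by
  intro K _ A _ _ m hLS P hfin hproj
  have hpP : Projective P := (IsProjective.iff_projective P).1 hproj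
  obtain ⟨n, f, p, hfp⟩ := LPR_.dual_basis P hfin hproj
  have hpd : HasProjectiveDimensionLT (kk m) 3 := hLS.pd (kk m) (Module.Finite.quotient A m)
  -- the case `P = A`
  have a0 : ∀ y : Ext (kk m) (ModuleCat.of A A) 0, y = 0 := by
    intro y
    obtain ⟨g, rfl⟩ := Ext.addEquiv₀.symm.surjective y
    have h1 : g = 0 := by
      apply ModuleCat.hom_ext
      apply LinearMap.ext
      intro x
      change g.hom x = 0
      apply (hLHOM K A m hLS).1
      intro a ha
      have h2 : g.hom (a • x) = a • g.hom x := map_smul g.hom a x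
      have h3 : a • x = 0 := by
        obtain ⟨z, rfl⟩ := Ideal.Quotient.mk_surjective x
        have h4 : a • (Ideal.Quotient.mk m z : A ⧸ m) = Ideal.Quotient.mk m (a * z) := rfl
        rw [h4, Ideal.Quotient.eq_zero_iff_mem]
        exact Ideal.mul_mem_right _ _ ha
      rw [h3, map_zero] at h2
      exact h2.symm
    rw [h1, map_zero]
  have a1 : ∀ y : Ext (kk m) (ModuleCat.of A A) 1, y = 0 := by
    intro y
    have := hLE1 K A m hLS
    exact Subsingleton.elim _ _
  obtain ⟨-, -, hinj, hsur⟩ := hLE2 K A m hLS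
  refine ⟨?_, ?_⟩
  · intro i j h
    have hcase : (i = 0 ∧ j = 2) ∨ (i = 1 ∧ j = 1) ∨ (i = 2 ∧ j = 0) := by omega
    rcases hcase with ⟨rfl, rfl⟩ | ⟨rfl, rfl⟩ | ⟨rfl, rfl⟩
    · have s1 : Subsingleton (Ext (kk m) P 0) :=
        subsingleton_of_forall_eq 0 (LPR_.zero_of f p hfp a0)
      have s2 : Subsingleton (Ext P (kk m) 2) := Ext.subsingleton_of_projective P (kk m) 1
      refine ⟨Function.injective_of_subsingleton _, fun y => ⟨0, ?_⟩⟩
      apply LinearMap.ext
      intro z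
      rw [Subsingleton.elim z 0, map_zero, map_zero]
    · have s1 : Subsingleton (Ext (kk m) P 1) :=
        subsingleton_of_forall_eq 0 (LPR_.zero_of f p hfp a1)
      have s2 : Subsingleton (Ext P (kk m) 1) := Ext.subsingleton_of_projective P (kk m) 0
      refine ⟨Function.injective_of_subsingleton _, fun y => ⟨0, ?_⟩⟩
      apply LinearMap.ext
      intro z
      rw [Subsingleton.elim z 0, map_zero, map_zero]
    · constructor
      · rw [injective_iff_map_eq_zero]
        intro x hx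
        have h1 : ∀ β : Ext P (kk m) 0, x.comp β (add_zero 2) = 0 := fun β =>
          LinearMap.congr_fun hx β
        rw [LPR_.expand f p hfp x]
        apply Finset.sum_eq_zero
        intro i _
        have h2 : x.comp (Ext.mk₀ (f i)) (add_zero 2) = 0 := by
          apply hinj
          change (x.comp (Ext.mk₀ (f i)) (add_zero 2)).comp (Ext.mk₀ (qk m)) (add_zero 2) =
            (0 : Ext (kk m) (ModuleCat.of A A) 2).comp (Ext.mk₀ (qk m)) (add_zero 2)
          rw [Ext.zero_comp, Ext.comp_assoc_of_second_deg_zero, h1]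
        rw [h2, Ext.zero_comp]
      · intro Λ
        have h1 : ∀ i, ∃ x : Ext (kk m) (ModuleCat.of A A) 2,
            ∀ γ : Ext (ModuleCat.of A A) (kk m) 0, x.comp γ (add_zero 2) =
              Λ ((Ext.mk₀ (f i)).comp γ (zero_add 0)) := by
          intro i
          obtain ⟨x, hx⟩ := hsur (Λ ((Ext.mk₀ (f i)).comp (Ext.mk₀ (qk m)) (zero_add 0)))
          refine ⟨x, fun γ => ?_⟩
          obtain ⟨c, rfl⟩ := LPR_.hom_scalar (K := K) hLS.max hLS.one γ
          rw [Ext.comp_smul, Ext.comp_smul, map_smul, ← hx]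
        choose x hx using h1
        refine ⟨∑ i, (x i).comp (Ext.mk₀ (p i)) (add_zero 2), ?_⟩
        apply LinearMap.ext
        intro β
        change (∑ i, (x i).comp (Ext.mk₀ (p i)) (add_zero 2)).comp β (add_zero 2) = Λ β
        rw [Ext.sum_comp]
        have h2 : ∀ i, ((x i).comp (Ext.mk₀ (p i)) (add_zero 2)).comp β (add_zero 2) =
            Λ ((Ext.mk₀ (f i ≫ p i)).comp β (zero_add 0)) := by
          intro i
          rw [Ext.comp_assoc_of_second_deg_zero, hx, Ext.mk₀_comp_mk₀_assoc]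
        rw [Finset.sum_congr rfl fun i _ => h2 i, ← map_sum, ← Ext.sum_comp, ← Ext.mk₀_sum, hfp,
          Ext.mk₀_id_comp]
  · intro k hk
    refine ⟨HasProjectiveDimensionLT.subsingleton (kk m) 3 k hk P, ?_⟩
    exact HasProjectiveDimensionLT.subsingleton P 1 k (by omega) (kk m)

end Pool.CRD.Loc
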