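import Pool.Agent.CRD.C.LStmts

/-!
Module LRK of CRD, area C, part L: the dimension of `Hom(P, A/m)` for a finite projective `P` is
the rank of `P` at `m`; the Euler characteristic of a resolution of `A/m` is zero.
-/

open CategoryTheory Abelian

namespace Pool.CRD.Loc

namespace LRK_

open TensorProduct Module

section
variable (K : Type) [Field K] (A : Type) [CommRing A] [Algebra K A] (m : Ideal A)

/-- morphisms of `ModuleCat` are linear maps -/
noncomputable def homE (P : ModuleCat.{0} A) : (P ⟶ kk m) ≃ₗ[K] (P →ₗ[A] (A ⧸ m)) where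
  toFun f := f.hom
  map_add' _ _ := rfl
  map_smul' _ _ := rfl
  invFun f := ModuleCat.ofHom f
  left_inv _ := rfl
  right_inv _ := rfl

theorem main (hmax : m.IsMaximal) (h1 : finrank K (A ⧸ m) = 1) (P : Type) [AddCommGroup P]
    [Module A P] [Module.Finite A P] [Module.Projective A P] :
    Module.Finite K (P →ₗ[A] (A ⧸ m)) ∧
      finrank K (P →ₗ[A] (A ⧸ m)) = rankAtStalk P ⟨m, hmax.isPrime⟩ := by
  let _ : Field (A ⧸ m) := Ideal.Quotient.field m
  have : Module.Finite K (A ⧸ m) := Module.finite_of_finrank_pos (by rw [h1]; exact one_pos)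
  let e : (P →ₗ[A] (A ⧸ m)) ≃ₗ[A ⧸ m] ((A ⧸ m) ⊗[A] P →ₗ[A ⧸ m] (A ⧸ m)) :=
    LinearMap.liftBaseChangeEquiv (A ⧸ m)
  have : Module.Finite (A ⧸ m) (P →ₗ[A] (A ⧸ m)) := Module.Finite.equiv e.symm
  have : IsScalarTower K (A ⧸ m) (P →ₗ[A] (A ⧸ m)) := inferInstance
  refine ⟨Module.Finite.trans (A ⧸ m) _, ?_⟩
  have e1 : finrank (A ⧸ m) (P →ₗ[A] (A ⧸ m)) = finrank (A ⧸ m) ((A ⧸ m) ⊗[A] P) := by
    rw [LinearEquiv.finrank_eq e]
    exact Subspace.dual_finrank_eq
  have e2 : finrank K (P →ₗ[A] (A ⧸ m)) = finrank (A ⧸ m) (P →ₗ[A] (A ⧸ m)) := by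
    rw [← Module.finrank_mul_finrank K (A ⧸ m) (P →ₗ[A] (A ⧸ m)), h1, one_mul]
  have e3 := rankAtStalk_baseChange (R := A) (M := P) (⟨⊥, Ideal.isPrime_bot⟩ : PrimeSpectrum (A ⧸ m))
  rw [rankAtStalk_eq_finrank_of_free] at e3
  rw [e2, e1]
  have e4 : PrimeSpectrum.comap (algebraMap A (A ⧸ m)) ⟨⊥, Ideal.isPrime_bot⟩ =
      ⟨m, hmax.isPrime⟩ := by
    apply PrimeSpectrum.ext
    show Ideal.comap (Ideal.Quotient.mk m) ⊥ = m
    exact Ideal.mk_ker
  rw [e4] at e3
  exact_mod_cast e3

end

/-- additivity of the rank after localisation at a prime which does not contain `u` -/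
theorem add_rank (A : Type) [CommRing A] (N P0 P1 P2 : Type) [AddCommGroup N] [AddCommGroup P0]
    [AddCommGroup P1] [AddCommGroup P2] [Module A N] [Module A P0] [Module A P1] [Module A P2]
    [Module.Finite A P0] [Module.Finite A P1] [Module.Finite A P2] [Module.Projective A P0]
    [Module.Projective A P1] [Module.Projective A P2] (d2 : P2 →ₗ[A] P1) (d1 : P1 →ₗ[A] P0)
    (d0 : P0 →ₗ[A] N) (hinj : Function.Injective d2) (h1 : Function.Exact d2 d1)
    (h0 : Function.Exact d1 d0) (q : PrimeSpectrum A) (u : A) (hu : u ∉ q.asIdeal)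
    (hN : ∀ x : N, u • x = 0) :
    rankAtStalk P1 q = rankAtStalk P2 q + rankAtStalk P0 q := by
  set B := Localization.AtPrime q.asIdeal with hB
  have hz : ∀ z : B ⊗[A] N, z = 0 := by
    intro z
    have hunit : IsUnit (algebraMap A B u) :=
      IsLocalization.map_units B (⟨u, hu⟩ : q.asIdeal.primeCompl)
    obtain ⟨v, hv⟩ := hunit.exists_left_inv
    induction z using TensorProduct.induction_on with
    | zero => rfl
    | tmul b x =>
      have h : b = u • (b * v) := by
        rw [Algebra.smul_def, mul_comm, mul_assoc, hv, mul_one]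
      rw [h, TensorProduct.smul_tmul, hN, TensorProduct.tmul_zero]
    | add a b ha hb => rw [ha, hb, add_zero]
  have hI : Function.Injective (LinearMap.baseChange B d2) := by
    have := Module.Flat.lTensor_preserves_injective_linearMap (M := B) d2 hinj
    exact this
  have hE1 : Function.Exact (LinearMap.baseChange B d2) (LinearMap.baseChange B d1) :=
    Module.Flat.lTensor_exact B h1
  have hE0 : Function.Exact (LinearMap.baseChange B d1) (LinearMap.baseChange B d0) :=
    Module.Flat.lTensor_exact B h0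
  have hS : Function.Surjective (LinearMap.baseChange B d1) := by
    intro y
    exact (hE0 y).1 (hz _)
  obtain ⟨l, hl⟩ := Module.projective_lifting_property (LinearMap.baseChange B d1)
    (LinearMap.id : B ⊗[A] P0 →ₗ[B] B ⊗[A] P0) hS
  obtain ⟨e, -⟩ := hE1.splitSurjectiveEquiv hI ⟨l, hl⟩
  have : Module.Free B (B ⊗[A] P0) := Module.free_of_flat_of_isLocalRing
  have : Module.Free B (B ⊗[A] P2) := Module.free_of_flat_of_isLocalRing
  rw [rankAtStalk_eq_finrank_tensorProduct, rankAtStalk_eq_finrank_tensorProduct,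
    rankAtStalk_eq_finrank_tensorProduct, ← Module.finrank_prod]
  exact LinearEquiv.finrank_eq e

end LRK_

open LRK_ in
theorem lrk_proof (hLHOM : Stmt_LHOM) : Stmt_LRK := by
  intro K _ A _ _ m hLS
  have hmax := hLS.max
  have hone := hLS.one
  constructor
  · intro P hf hp
    have := hf
    have := hp
    have := (main K A m hmax hone P).1
    exact Module.Finite.equiv (homE K A m P).symm
  · intro r
    have := r.fin0
    have := r.fin1
    have := r.fin2
    have := r.pr0
    have := r.pr1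
    have := r.pr2
    obtain ⟨-, u, hum, hu⟩ := hLHOM K A m hLS
    have := hmax.isPrime
    obtain ⟨q, hq, hqm⟩ := Ideal.exists_minimalPrimes_le (bot_le : (⊥ : Ideal A) ≤ m)
    have hqp : q.IsPrime := hq.1.1
    have huq : u ∉ q := by
      intro h
      refine notMem_nonZeroDivisors_of_mem_mem_minimalPrimes h hq ?_
      rw [mem_nonZeroDivisors_iff_right]
      intro x hx
      apply hu
      show u • x = u • 0
      rw [smul_zero, smul_eq_mul, mul_comm, hx]
    have hadd := add_rank A (A ⧸ m) r.P0 r.P1 r.P2 r.d2.hom r.d1.hom r.d0.hom r.inj2 r.ex1 r.ex0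
      ⟨q, hqp⟩ u huq (by
        intro x
        obtain ⟨y, rfl⟩ := Ideal.Quotient.mk_surjective x
        show Ideal.Quotient.mk m (u * y) = 0
        rw [Ideal.Quotient.eq_zero_iff_mem]
        exact m.mul_mem_right _ hum)
    have h0 := Module.rankAtStalk_eq_of_le_of_finite_of_flat' r.P0 (p := q) (q := m) hqm
    have h1 := Module.rankAtStalk_eq_of_le_of_finite_of_flat' r.P1 (p := q) (q := m) hqm
    have h2 := Module.rankAtStalk_eq_of_le_of_finite_of_flat' r.P2 (p := q) (q := m) hqm
    rw [h0, h1, h2, ← (main K A m hmax hone r.P0).2, ← (main K A m hmax hone r.P1).2,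
      ← (main K A m hmax hone r.P2).2] at hadd
    rw [LinearEquiv.finrank_eq (homE K A m r.P0), LinearEquiv.finrank_eq (homE K A m r.P1),
      LinearEquiv.finrank_eq (homE K A m r.P2), hadd]
    push_cast
    ring

end Pool.CRD.Loc
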