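import Pool.Agent.CRD.C.LRES
import Pool.Agent.CRD.C.LEX
import Pool.Agent.CRD.C.LEUL
import Pool.Agent.CRD.C.LPM
import Pool.Agent.CRD.C.LINJ
import Pool.Agent.CRD.C.LHOM
import Pool.Agent.CRD.C.LE1
import Pool.Agent.CRD.C.LKB
import Pool.Agent.CRD.C.LDR
import Pool.Agent.CRD.C.LE2
import Pool.Agent.CRD.C.LRK
import Pool.Agent.CRD.C.LE12
import Pool.Agent.CRD.C.LPR
import Pool.Agent.CRD.C.LDU

/-!
# CRD, area C, local part: assembly
-/

namespace Pool.CRD.Loc

theorem linj : Stmt_LINJ := linj_proof lex_proof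
theorem lhom : Stmt_LHOM := lhom_proof lres_proof linj lpm_proof
theorem le1 : Stmt_LE1 := le1_proof lres_proof linj lpm_proof lhom
theorem lkb : Stmt_LKB := lkb_proof lres_proof lex_proof
theorem ldr : Stmt_LDR := ldr_proof lex_proof lhom le1
theorem le2 : Stmt_LE2 := le2_proof lres_proof lex_proof lkb ldr
theorem lrk : Stmt_LRK := lrk_proof lhom
theorem le12 : Stmt_LE12 := le12_proof lres_proof leul_proof lrk le2
theorem lpr : Stmt_LPR := lpr_proof lhom le1 le2
theorem ldu : Stmt_LDU := ldu_proof lpr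

end Pool.CRD.Loc
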