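import Pool.Agent.CRD.C.GStmts

open CategoryTheory Opposite Limits Pretriangulated Abelian

namespace Pool.CRD.Sky

namespace LSB_

variable {K : Type} [Field K] {C : Type} [SmallCategory C] {R : PAlg K C} [R.Good]

/-- evaluation of a coherent module as an object of the derived category -/
noncomputable def alpha (V : C) (F : Coh R) (N : ModuleCat.{0} (R.ring V))
    (θ : sec F.obj V ≃ₗ[R.ring V] N) : (evB R V).obj ((sgB R).obj F) ≅
      (DerivedCategory.singleFunctor (ModuleCat.{0} (R.ring V)) 0).obj N :=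
  (evSg R V).app F ≪≫ (DerivedCategory.singleFunctor (ModuleCat.{0} (R.ring V)) 0).mapIso
    (θ.toModuleIso : ModuleCat.of (R.ring V) (sec F.obj V) ≅ ModuleCat.of (R.ring V) N)

end LSB_

open LSB_ in
theorem lsb_proof (hLAT : Stmt_LAT) (hJST : Stmt_JST) (hEVS : Stmt_EVS) : Stmt_LSB := by
  intro K _ _ C _ _ R _ hE ι _ A hpd S hS ⟨e, he⟩
  obtain ⟨i, m, hmax, hone, ⟨θ⟩, hsupp⟩ := hJST K C R ι A S hS
  refine ⟨i, m, ⟨PAlg.Good.noeth (op (A.v i)), hmax, hone, fun M hM => hpd i M hM, ?_⟩, ⟨θ⟩,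
    hsupp⟩
  have hloc := hLAT K C R K ι A i
  have h1 := (hEVS K C R hE (A.v i) hloc S hsupp (((sgB R).obj S)⟦(2 : ℤ)⟧)).1.1
  have h2 : (evB R (A.v i)).map e ≠ 0 := by
    intro h
    apply he
    apply h1
    simp only [h, Functor.map_zero]
  let α := alpha (A.v i) S (Loc.kk m) θ
  let z := α.inv ≫ (evB R (A.v i)).map e ≫ ((evB R (A.v i)).commShiftIso (2 : ℤ)).hom.app _ ≫
    α.hom⟦(2 : ℤ)⟧'
  have hz : z ≠ 0 := by
    intro h
    apply h2
    have h3 : (evB R (A.v i)).map e = α.hom ≫ z ≫ α.inv⟦(2 : ℤ)⟧' ≫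
        ((evB R (A.v i)).commShiftIso (2 : ℤ)).inv.app _ := by
      have h4 : α.hom⟦(2 : ℤ)⟧' ≫ α.inv⟦(2 : ℤ)⟧' = 𝟙 _ := by
        rw [← Functor.map_comp, α.hom_inv_id, CategoryTheory.Functor.map_id]
      simp only [z, Category.assoc]
      rw [reassoc_of% h4]
      simp
    rw [h3, h, zero_comp, comp_zero]
  refine ⟨(Ext.homEquiv (X := Loc.kk m) (Y := Loc.kk m) (n := 2)).symm z, fun h => hz ?_⟩
  have h5 := (Ext.homEquiv (X := Loc.kk m) (Y := Loc.kk m) (n := 2)).apply_symm_apply z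
  rw [h] at h5
  rw [← h5]
  exact Ext.zero_hom _ _ _

end Pool.CRD.Sky
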