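import Pool.Agent.CRD.C.LSB
import Pool.Agent.CRD.C.DTP

open CategoryTheory Opposite Limits Pretriangulated Abelian

namespace Pool.CRD.Sky

namespace PT1_

open EXD_ DTP_

section Alg
variable (K : Type) [Field K] {A : Type} [CommRing A] [Algebra K A] (m : Ideal A)

lemma finrank_one : @Module.finrank K (ModuleCat.of A A ⟶ Loc.kk m) _ _
    (Linear.homModule (ModuleCat.of A A) (Loc.kk m)) = Module.finrank K (A ⧸ m) := by
  let _ : Module K (ModuleCat.of A A ⟶ Loc.kk m) :=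
    Linear.homModule (ModuleCat.of A A) (Loc.kk m)
  refine LinearEquiv.finrank_eq (R := K) (M := (ModuleCat.of A A ⟶ Loc.kk m)) (N := A ⧸ m)
    { toFun := fun f => f.hom (1 : A)
      invFun := fun x => ModuleCat.ofHom (LinearMap.toSpanSingleton A (A ⧸ m) x)
      map_add' := fun f g => rfl
      map_smul' := fun c f => ?_
      left_inv := fun f => ?_
      right_inv := fun x => ?_ }
  · change algebraMap K A c • f.hom (1 : A) = c • f.hom (1 : A)
    rw [algebraMap_smul]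
  · apply ModuleCat.hom_ext
    apply LinearMap.ext_ring
    change (1 : A) • f.hom (1 : A) = f.hom (1 : A)
    rw [one_smul]
  · change (1 : A) • x = x
    rw [one_smul]

end Alg

section Geo
variable {K : Type} [Field K] {C : Type} [SmallCategory C] {R : PAlg K C} [R.Good]

/-- `Hom(sgB F, (sgB G)[n])` computed at the chart `V`, first form -/
noncomputable def homE (V : C) (F G : Coh R) (N N' : ModuleCat.{0} (R.ring V)) (n : ℤ)
    (θ : sec F.obj V ≃ₗ[R.ring V] N) (θ' : sec G.obj V ≃ₗ[R.ring V] N')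
    (hb : Function.Bijective (fun f : (sgB R).obj F ⟶ ((sgB R).obj G)⟦n⟧ => (evB R V).map f)) :
    ((sgB R).obj F ⟶ ((sgB R).obj G)⟦n⟧) ≃ₗ[K]
      ((DerivedCategory.singleFunctor (ModuleCat.{0} (R.ring V)) 0).obj N ⟶
        ((DerivedCategory.singleFunctor (ModuleCat.{0} (R.ring V)) 0).obj N')⟦n⟧) :=
  (LinearEquiv.ofBijective ((evB R V).mapLinearMap K) hb).trans
    ((postIso _ (((evB R V).commShiftIso n).app ((sgB R).obj G) ≪≫
      (shiftFunctor _ n).mapIso (LSB_.alpha V G N' θ'))).trans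
        (preIso _ (LSB_.alpha V F N θ)))

/-- `Hom(sgB F, (sgB G)[n])` computed at the chart `V`, second form -/
noncomputable def homE' (V : C) (F G : Coh R) (N N' : ModuleCat.{0} (R.ring V)) (n : ℤ)
    (θ : sec F.obj V ≃ₗ[R.ring V] N) (θ' : sec G.obj V ≃ₗ[R.ring V] N')
    (hb : Function.Bijective
      (fun f : ((sgB R).obj F)⟦-n⟧ ⟶ (sgB R).obj G => (evB R V).map f)) :
    ((sgB R).obj F ⟶ ((sgB R).obj G)⟦n⟧) ≃ₗ[K]
      ((DerivedCategory.singleFunctor (ModuleCat.{0} (R.ring V)) 0).obj N ⟶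
        ((DerivedCategory.singleFunctor (ModuleCat.{0} (R.ring V)) 0).obj N')⟦n⟧) :=
  ((shEq _ _ (-n)).trans (postIso _ ((shiftFunctorCompIsoId (Db R) n (-n) (by omega)).app
    ((sgB R).obj G)))).trans
  ((LinearEquiv.ofBijective ((evB R V).mapLinearMap K) hb).trans
    (((postIso _ (LSB_.alpha V G N' θ')).trans
        (preIso _ (((evB R V).commShiftIso (-n)).app ((sgB R).obj F) ≪≫
      (shiftFunctor _ (-n)).mapIso (LSB_.alpha V F N θ)))).trans
        ((shEq _ _ (-n)).trans (postIso _ ((shiftFunctorCompIsoId _ n (-n) (by omega)).app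
          _))).symm))

end Geo

end PT1_

open LSB_ EXD_ DTP_ PT1_ in
theorem pt1_proof (hLAT : Stmt_LAT) (hLSB : Stmt_LSB) (hEVS : Stmt_EVS)
    (hLE12 : Loc.Stmt_LE12) : Stmt_PT1 := by
  intro K _ _ C _ _ R _ hE ι _ A hpd S hS he
  obtain ⟨i, m, hLS, ⟨θ⟩, hsupp⟩ := hLSB K C R hE ι A hpd S hS he
  have hloc := hLAT K C R K ι A i
  have ev := hEVS K C R hE (A.v i) hloc S hsupp
  set P := (sgB R).obj S with hP
  let V := A.v i
  let D := DerivedCategory (ModuleCat.{0} (R.ring V))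
  let s₀ := DerivedCategory.singleFunctor (ModuleCat.{0} (R.ring V)) 0
  have E : ∀ n : ℤ, (P ⟶ P⟦n⟧) ≃ₗ[K] (s₀.obj (Loc.kk m) ⟶ (s₀.obj (Loc.kk m))⟦n⟧) :=
    fun n => homE V S S (Loc.kk m) (Loc.kk m) n θ θ (ev _).1
  have hdim := hLE12 K (R.ring V) m hLS
  have pdk : HasProjectiveDimensionLT (Loc.kk m) 3 := hLS.pd (Loc.kk m) inferInstance
  have f0 : Module.finrank K (P ⟶ P⟦(0 : ℤ)⟧) = 1 :=
    ((E 0).trans (Ext.homLinearEquiv (R := K) (X := Loc.kk m) (Y := Loc.kk m)
      (n := 0)).symm).finrank_eq.trans hdim.1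
  have f1 : Module.finrank K (P ⟶ P⟦(1 : ℤ)⟧) = 2 :=
    ((E 1).trans (Ext.homLinearEquiv (R := K) (X := Loc.kk m) (Y := Loc.kk m)
      (n := 1)).symm).finrank_eq.trans hdim.2.1
  have f2 : Module.finrank K (P ⟶ P⟦(2 : ℤ)⟧) = 1 :=
    ((E 2).trans (Ext.homLinearEquiv (R := K) (X := Loc.kk m) (Y := Loc.kk m)
      (n := 2)).symm).finrank_eq.trans hdim.2.2
  have fs : ∀ n : ℤ, n ≠ 0 → n ≠ 1 → n ≠ 2 → Subsingleton (P ⟶ P⟦n⟧) := by
    intro n h0 h1 h2
    rcases lt_or_ge n 0 with hn | hn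
    · have := neg_vanish (Loc.kk m) (Loc.kk m) n hn
      exact (E n).toEquiv.subsingleton
    · have := ext_vanish (Loc.kk m) (Loc.kk m) n n.toNat (by omega)
        (HasProjectiveDimensionLT.subsingleton (Loc.kk m) 3 n.toNat (by omega) (Loc.kk m))
      exact (E n).toEquiv.subsingleton
  refine ⟨⟨fun n => ?_, f0, f1, f2, fs⟩, ?_⟩
  · by_cases h0 : n = 0
    · subst h0
      exact Module.finite_of_finrank_pos (by rw [f0]; norm_num)
    by_cases h1 : n = 1
    · subst h1
      exact Module.finite_of_finrank_pos (by rw [f1]; norm_num)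
    by_cases h2 : n = 2
    · subst h2
      exact Module.finite_of_finrank_pos (by rw [f2]; norm_num)
    have := fs n h0 h1 h2
    infer_instance
  · let AA : ModuleCat.{0} (R.ring V) := ModuleCat.of (R.ring V) (R.ring V)
    have pA : Projective AA := (IsProjective.iff_projective _).1 inferInstance
    have G : ∀ n : ℤ, ((sgB R).obj (OCoh R) ⟶ P⟦n⟧) ≃ₗ[K]
        (s₀.obj AA ⟶ (s₀.obj (Loc.kk m))⟦n⟧) :=
      fun n => homE' V (OCoh R) S AA (Loc.kk m) n (LinearEquiv.refl _ _) θ (ev _).2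
    rw [chi, finsum_eq_single _ (0 : ℤ)]
    · have h0 : Module.finrank K ((sgB R).obj (OCoh R) ⟶ P⟦(0 : ℤ)⟧) = 1 := by
        have h1 := ((G 0).trans (Ext.homLinearEquiv (R := K) (X := AA) (Y := Loc.kk m)
          (n := 0)).symm).finrank_eq
        rw [h1]
        have h2 := @LinearEquiv.finrank_eq K (Ext AA (Loc.kk m) 0) (AA ⟶ Loc.kk m) _ _ _ _
          (Linear.homModule AA (Loc.kk m)) (Ext.linearEquiv₀ (R := K) (X := AA) (Y := Loc.kk m))
        exact h2.trans ((finrank_one K m).trans hLS.one)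
      rw [h0]
      simp
    · intro n hn
      have hs : Subsingleton (s₀.obj AA ⟶ (s₀.obj (Loc.kk m))⟦n⟧) := by
        rcases lt_or_ge n 0 with hn' | hn'
        · exact neg_vanish AA (Loc.kk m) n hn'
        · refine ext_vanish AA (Loc.kk m) n n.toNat (by omega) ?_
          obtain ⟨k, hk⟩ : ∃ k : ℕ, n.toNat = k + 1 := ⟨n.toNat - 1, by omega⟩
          rw [hk]
          exact Ext.subsingleton_of_projective AA (Loc.kk m) k
      have hs' : Subsingleton ((sgB R).obj (OCoh R) ⟶ P⟦n⟧) := (G n).toEquiv.subsingleton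
      rw [Module.finrank_zero_of_subsingleton]
      simp

end Pool.CRD.Sky
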