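import Pool.Agent.CRD.C.LSB

open CategoryTheory Opposite Limits Pretriangulated Abelian

namespace Pool.CRD.Sky

open LSB_ in
theorem pt2_proof (hLAT : Stmt_LAT) (hLSB : Stmt_LSB) (hEVS : Stmt_EVS) (hLDU : Loc.Stmt_LDU)
    (hEXD : Stmt_EXD) (hDTP : Stmt_DTP) (hDTR : Stmt_DTR) (hDVD : Stmt_DVD) : Stmt_PT2 := by
  intro K _ _ C _ _ R _ hE ι _ A hpd S hS he
  obtain ⟨i, m, hLS, ⟨θ⟩, hsupp⟩ := hLSB K C R hE ι A hpd S hS he
  have hloc := hLAT K C R K ι A i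
  have ev := hEVS K C R hE (A.v i) hloc S hsupp
  let P := (sgB R).obj S
  have hT := hDTR K (Db R) P
  let Q : ObjectProperty (Db R) := fun M => ∀ n : ℤ, DU K P (M⟦n⟧)
  have key : ∀ X : Db R, Q X := by
    refine hDVD K C R Q ⟨fun {M N} e hM n => ?_⟩ (fun X n hX k => ?_) (fun Δ hΔ h1 h3 => ?_)
      (fun F n => ?_)
    · exact hT.1 _ _ ⟨(shiftFunctor (Db R) n).mapIso e⟩ (hM n)
    · exact hT.1 _ _ ⟨(shiftFunctorAdd (Db R) n k).app X⟩ (hX (n + k))
    · exact hT.2 Δ hΔ h1 h3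
    · let V := A.v i
      have hF : Module.Finite (R.ring V) ((evc R V).obj F) := F.property.1 (op V)
      have hperf := hLDU K (R.ring V) m hLS ((evc R V).obj F) hF
      have hD := hEXD K (R.ring V) (Loc.kk m) ((evc R V).obj F) hperf.1 hperf.2 n
      refine hDTP K (Db R) (DerivedCategory (ModuleCat.{0} (R.ring V))) (evB R V) P
        (((sgB R).obj F)⟦n⟧) _ _ ⟨alpha V S (Loc.kk m) θ⟩ ⟨?_⟩ (ev _).1 (ev _).2 (ev _).1 hD
      exact ((evB R V).commShiftIso n).app ((sgB R).obj F) ≪≫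
        (shiftFunctor (DerivedCategory (ModuleCat.{0} (R.ring V))) n).mapIso ((evSg R V).app F)
  exact fun M n => key M n

end Pool.CRD.Sky
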