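import Pool.Agent.CRD.C.GStmts

/-!
# CRD, area C: smooth algebras over a field are reduced
-/

open CategoryTheory Opposite Limits Pretriangulated Abelian
open scoped TensorProduct Polynomial

namespace Pool.CRD.Sky

namespace RSM_

/-- polynomials integral over the field of constants are constant -/
theorem coeff_one {K : Type} [Field K] (y : K[X]) (hy : IsIntegral K y) : y.coeff 1 = 0 := by
  obtain ⟨p, hp, h⟩ := hy
  have h1 : p.comp y = 0 := h
  have h2 : y.natDegree = 0 := by
    by_contra hne
    have h3 : (p.comp y).natDegree = p.natDegree * y.natDegree := Polynomial.natDegree_comp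
    rw [h1, Polynomial.natDegree_zero] at h3
    have h4 : p.natDegree = 0 := by
      rcases Nat.mul_eq_zero.mp h3.symm with h5 | h5
      · exact h5
      · exact absurd h5 hne
    have h6 : p = 1 := hp.natDegree_eq_zero.mp h4
    rw [h6, Polynomial.one_comp] at h1
    exact one_ne_zero h1
  exact Polynomial.coeff_eq_zero_of_natDegree_lt (by omega)

end RSM_

theorem rsm_proof : Stmt_RSM := by
  intro K _ B _ _ _
  refine ⟨fun n hn => ?_⟩
  obtain ⟨N, hN⟩ := hn
  have hbij := TensorProduct.toIntegralClosure_bijective_of_smooth (R := K) (S := B) (B := K[X])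
  have hN' : (n ^ (N + 1)) = 0 := by rw [pow_succ, hN, zero_mul]
  have hint : IsIntegral B (n ⊗ₜ[K] (Polynomial.X : K[X])) := by
    refine IsIntegral.of_pow (n := N + 1) (Nat.succ_pos N) ?_
    rw [Algebra.TensorProduct.tmul_pow, hN', TensorProduct.zero_tmul]
    exact isIntegral_zero
  obtain ⟨z, hz⟩ := hbij.2 ⟨_, hint⟩
  let φ : B ⊗[K] K[X] →ₗ[K] B :=
    (TensorProduct.rid K B).toLinearMap ∘ₗ LinearMap.lTensor B (Polynomial.lcoeff K 1)
  have hφ : ∀ (b : B) (y : K[X]), φ (b ⊗ₜ y) = y.coeff 1 • b := fun b y => by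
    simp [φ]
  have hz' : (Algebra.TensorProduct.map (AlgHom.id B B) (integralClosure K K[X]).val) z =
      n ⊗ₜ[K] (Polynomial.X : K[X]) := congrArg Subtype.val hz
  have hzero : ∀ w : B ⊗[K] integralClosure K K[X],
      φ ((Algebra.TensorProduct.map (AlgHom.id B B) (integralClosure K K[X]).val) w) = 0 := by
    intro w
    induction w with
    | zero => simp
    | add x y hx hy => rw [map_add, map_add, hx, hy, add_zero]
    | tmul b y =>
      rw [Algebra.TensorProduct.map_tmul, hφ]
      have h := RSM_.coeff_one (y : K[X]) y.2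
      change (y : K[X]).coeff 1 • b = 0
      rw [h, zero_smul]
  have h0 := hzero z
  rw [hz', hφ, Polynomial.coeff_X_one, one_smul] at h0
  exact h0

end Pool.CRD.Sky
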