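import Pool.Agent.CRD.C.GStmts

/-!
# CRD, area C, module SKE: existence of skyscrapers
-/

open CategoryTheory Opposite Limits Pretriangulated Abelian TensorProduct

namespace Pool.CRD.Sky

/-- existence of skyscrapers -/
def Stmt_SKE' : Prop := ∀ (K : Type) [Field K] (C : Type) [SemilatticeInf C] (R : PAlg K C)
  [R.Good] (V : C), LocAt R V → (∀ s : C, ∃ t : C, s ≤ t ∧ LocAt R t) →
    ∀ m : Ideal (R.ring V), m.IsMaximal →
    Module.finrank K (R.ring V ⧸ m) = 1 →
    ∃ Q : Coh R, SuppIn V Q.obj ∧ Nonempty (sec Q.obj V ≃ₗ[R.ring V] (R.ring V ⧸ m))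

namespace SKE_

section Alg
variable {A B A' B' M N : Type} [CommRing A] [CommRing B] [CommRing A'] [CommRing B']
  [Algebra A B] [Algebra A A'] [Algebra B B'] [Algebra A' B'] [Algebra A B']
  [IsScalarTower A B B'] [IsScalarTower A A' B']

/-- quotients of localisations: base change -/
theorem bc (w : A) [IsLocalization.Away w A'] [IsLocalization.Away (algebraMap A B w) B']
    (I : Ideal A') [AddCommGroup M] [AddCommGroup N] [Module A M] [Module B N] [Module A N]
    [IsScalarTower A B N] (p : A' →ₗ[A] M) (q : B' →ₗ[B] N)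
    (hp : Function.Surjective p) (hq : Function.Surjective q) (kp : ∀ x, p x = 0 ↔ x ∈ I)
    (kq : ∀ x, q x = 0 ↔ x ∈ I.map (algebraMap A' B')) (m : M →ₗ[A] N)
    (hm : ∀ x, m (p x) = q (algebraMap A' B' x)) : IsBaseChange B m := by
  have hpush : IsBaseChange B (IsScalarTower.toAlgHom A A' B').toLinearMap := by
    have hS : Algebra.algebraMapSubmonoid B (Submonoid.powers w) =
        Submonoid.powers (algebraMap A B w) := by
      unfold Algebra.algebraMapSubmonoid
      exact Submonoid.map_powers _ _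
    haveI : IsLocalization (Algebra.algebraMapSubmonoid B (Submonoid.powers w)) B' := by
      rw [hS]; infer_instance
    haveI : IsLocalization (Submonoid.powers w) A' := by infer_instance
    exact (Algebra.isPushout_of_isLocalization (Submonoid.powers w) A' B B').out
  set J := I.map (algebraMap A' B') with hJ
  have hIJ : ∀ x ∈ I, algebraMap A' B' x ∈ J := fun x hx => Ideal.mem_map_of_mem _ hx
  let m₁ : (I.restrictScalars A) →ₗ[A] (J.restrictScalars B) :=
    { toFun := fun x => ⟨algebraMap A' B' x.1, hIJ x.1 x.2⟩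
      map_add' := fun x y => Subtype.ext (map_add _ _ _)
      map_smul' := fun r x => Subtype.ext (by
        change algebraMap A' B' (r • x.1) = r • algebraMap A' B' x.1
        rw [Algebra.smul_def, Algebra.smul_def, map_mul, ← IsScalarTower.algebraMap_apply A A' B']) }
  have hm₁ : Function.Surjective (cmp B m₁) := by
    rintro ⟨x, hx⟩
    have hb' : ∀ (b : B) (t : B ⊗[A] (I.restrictScalars A)), ∃ u : B ⊗[A] (I.restrictScalars A),
        (cmp B m₁ u).1 = algebraMap B B' b * (cmp B m₁ t).1 := by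
      intro b t
      induction t with
      | zero => exact ⟨0, by rw [map_zero]; exact (mul_zero _).symm⟩
      | tmul c i =>
        refine ⟨(b * c) ⊗ₜ i, ?_⟩
        rw [cmp_tmul, cmp_tmul, mul_smul]
        change b • (c • m₁ i).1 = _
        rw [Algebra.smul_def]
      | add t u h1 h2 =>
        obtain ⟨t', h1⟩ := h1
        obtain ⟨u', h2⟩ := h2
        refine ⟨t' + u', ?_⟩
        rw [map_add, map_add]
        change (cmp B m₁ t').1 + (cmp B m₁ u').1 = _ * ((cmp B m₁ t).1 + (cmp B m₁ u).1)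
        rw [h1, h2, mul_add]
    have hv : ∀ (a : A') (t : B ⊗[A] (I.restrictScalars A)), ∃ u : B ⊗[A] (I.restrictScalars A),
        (cmp B m₁ u).1 = algebraMap A' B' a * (cmp B m₁ t).1 := by
      intro b t
      induction t with
      | zero => exact ⟨0, by rw [map_zero]; exact (mul_zero _).symm⟩
      | tmul c i =>
        refine ⟨c ⊗ₜ ⟨b * i.1, I.mul_mem_left b i.2⟩, ?_⟩
        rw [cmp_tmul, cmp_tmul]
        change c • (algebraMap A' B' (b * i.1)) = _ * (c • algebraMap A' B' i.1)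
        rw [map_mul, mul_smul_comm]
      | add t u h1 h2 =>
        obtain ⟨t', h1⟩ := h1
        obtain ⟨u', h2⟩ := h2
        refine ⟨t' + u', ?_⟩
        rw [map_add, map_add]
        change (cmp B m₁ t').1 + (cmp B m₁ u').1 = _ * ((cmp B m₁ t).1 + (cmp B m₁ u).1)
        rw [h1, h2, mul_add]
    have key : ∀ x : B', x ∈ J → ∃ t : B ⊗[A] (I.restrictScalars A), (cmp B m₁ t).1 = x := by
      intro x hx
      induction hx using Submodule.span_induction with
      | mem x hx =>
        obtain ⟨y, hy, rfl⟩ := hx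
        refine ⟨1 ⊗ₜ ⟨y, hy⟩, ?_⟩
        rw [cmp_tmul, one_smul]
        rfl
      | zero => exact ⟨0, by rw [map_zero]; rfl⟩
      | add x y _ _ h1 h2 =>
        obtain ⟨t, rfl⟩ := h1
        obtain ⟨u, rfl⟩ := h2
        exact ⟨t + u, by rw [map_add]; rfl⟩
      | smul c x _ h =>
        obtain ⟨t, rfl⟩ := h
        obtain ⟨⟨b, d, n, rfl⟩, hb⟩ := IsLocalization.surj (Submonoid.powers (algebraMap A B w)) c
        obtain ⟨u, hu⟩ := IsLocalization.Away.algebraMap_isUnit (S := A') w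
        have hc : c = algebraMap B B' b * algebraMap A' B' ((↑u⁻¹ : A') ^ n) := by
          change c * algebraMap B B' ((algebraMap A B w) ^ n) = algebraMap B B' b at hb
          rw [← hb, map_pow, ← IsScalarTower.algebraMap_apply A B B',
            IsScalarTower.algebraMap_apply A A' B', ← hu, mul_assoc, ← map_pow, ← map_mul,
            ← mul_pow, Units.mul_inv, one_pow, map_one, mul_one]
        obtain ⟨t₁, h₁⟩ := hv ((↑u⁻¹ : A') ^ n) t
        obtain ⟨t₂, h₂⟩ := hb' b t₁
        refine ⟨t₂, ?_⟩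
        rw [h₂, h₁, smul_eq_mul, hc, mul_assoc]
    obtain ⟨t, ht⟩ := key x hx
    exact ⟨t, Subtype.ext ht⟩
  refine LinearMap.bijective_of_surjective_of_bijective_of_right_exact
    ((I.restrictScalars A).subtype.lTensor B) (p.lTensor B)
    ((J.restrictScalars B).subtype.restrictScalars A) (q.restrictScalars A) (cmp B m₁)
    (cmp B (IsScalarTower.toAlgHom A A' B').toLinearMap) (cmp B m)
    (cmp_comm (I.restrictScalars A).subtype (J.restrictScalars B).subtype m₁ _ (fun x => rfl))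
    (cmp_comm p q _ m (fun x => (hm x).symm)) (lTensor_exact B ?_ hp) ?_ hm₁
    ((isBaseChange_iff_cmp _).1 hpush) (LinearMap.lTensor_surjective B hp) hq
  · intro x
    rw [kp]
    constructor
    · intro hx
      exact ⟨⟨x, hx⟩, rfl⟩
    · rintro ⟨y, rfl⟩
      exact y.2
  · intro x
    change q x = 0 ↔ _
    rw [kq]
    constructor
    · intro hx
      exact ⟨⟨x, hx⟩, rfl⟩
    · rintro ⟨y, rfl⟩
      exact y.2

end Alg

section Sheaf
variable {K : Type} [Field K] {C : Type} [SemilatticeInf C] (R : PAlg K C) (V : C)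
  (m : Ideal (R.ring V))

/-- restriction to the intersection with the chart `V` -/
noncomputable def lft (X : Cᵒᵖ) : R.obj X →+* R.obj (op (X.unop ⊓ V)) :=
  (R.map (homOfLE (inf_le_left : X.unop ⊓ V ≤ X.unop)).op).hom.toRingHom

/-- restriction from the chart `V` -/
noncomputable def rgt (X : Cᵒᵖ) : R.ring V →+* R.obj (op (X.unop ⊓ V)) :=
  (R.map (homOfLE (inf_le_right : X.unop ⊓ V ≤ V)).op).hom.toRingHom

/-- restriction between intersections -/
noncomputable def mid {X Y : Cᵒᵖ} (f : X ⟶ Y) :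
    R.obj (op (X.unop ⊓ V)) →+* R.obj (op (Y.unop ⊓ V)) :=
  (R.map (homOfLE (inf_le_inf_right V (leOfHom f.unop))).op).hom.toRingHom

lemma map_map {X Y Z : Cᵒᵖ} (f : X ⟶ Y) (g : Y ⟶ Z) (h : X ⟶ Z) (x : R.obj X) :
    (R.map g).hom ((R.map f).hom x) = (R.map h).hom x := by
  have : h = f ≫ g := Subsingleton.elim _ _
  rw [this, R.map_comp]
  rfl

lemma mid_rgt {X Y : Cᵒᵖ} (f : X ⟶ Y) (x : R.ring V) : mid R V f (rgt R V X x) = rgt R V Y x :=
  map_map R _ _ _ x

lemma mid_lft {X Y : Cᵒᵖ} (f : X ⟶ Y) (x : R.obj X) :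
    mid R V f (lft R V X x) = lft R V Y ((R.map f).hom x) := by
  refine (map_map R _ _ (f ≫ (homOfLE (inf_le_left : Y.unop ⊓ V ≤ Y.unop)).op) x).trans ?_
  exact (map_map R _ _ _ x).symm

lemma mid_id (X : Cᵒᵖ) (x : R.obj (op (X.unop ⊓ V))) : mid R V (𝟙 X) x = x := by
  have : (homOfLE (inf_le_inf_right V (leOfHom (𝟙 X : X ⟶ X).unop))).op =
    𝟙 (op (X.unop ⊓ V)) := Subsingleton.elim _ _
  unfold mid
  rw [this, R.map_id]
  rfl

lemma mid_comp {X Y Z : Cᵒᵖ} (f : X ⟶ Y) (g : Y ⟶ Z) (x : R.obj (op (X.unop ⊓ V))) :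
    mid R V (f ≫ g) x = mid R V g (mid R V f x) :=
  (map_map R _ _ _ x).symm

/-- the ideal generated by `m` -/
noncomputable def idl (X : Cᵒᵖ) : Ideal (R.obj (op (X.unop ⊓ V))) := m.map (rgt R V X)

lemma idl_map {X Y : Cᵒᵖ} (f : X ⟶ Y) : (idl R V m X).map (mid R V f) = idl R V m Y := by
  unfold idl
  rw [Ideal.map_map]
  congr 1
  ext x
  exact mid_rgt R V f x

/-- the modules of sections of the skyscraper -/
def Qt (X : Cᵒᵖ) : Type := R.obj (op (X.unop ⊓ V)) ⧸ idl R V m X

noncomputable instance (X : Cᵒᵖ) : CommRing (Qt R V m X) :=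
  inferInstanceAs (CommRing (R.obj (op (X.unop ⊓ V)) ⧸ idl R V m X))

noncomputable def qmk (X : Cᵒᵖ) : R.obj (op (X.unop ⊓ V)) →+* Qt R V m X :=
  Ideal.Quotient.mk (idl R V m X)

lemma qmk_surj (X : Cᵒᵖ) : Function.Surjective (qmk R V m X) := Ideal.Quotient.mk_surjective

lemma qmk_zero (X : Cᵒᵖ) (x : R.obj (op (X.unop ⊓ V))) : qmk R V m X x = 0 ↔ x ∈ idl R V m X :=
  Ideal.Quotient.eq_zero_iff_mem

noncomputable instance (X : Cᵒᵖ) : Module (R.toRing.obj X) (Qt R V m X) :=
  Module.compHom (Qt R V m X) (((qmk R V m X).comp (lft R V X)) : R.obj X →+* Qt R V m X)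

/-- restriction maps of the skyscraper -/
noncomputable def qrho {X Y : Cᵒᵖ} (f : X ⟶ Y) : Qt R V m X →+* Qt R V m Y :=
  Ideal.quotientMap (idl R V m Y) (mid R V f)
    (Ideal.map_le_iff_le_comap.1 (idl_map R V m f).le)

lemma qrho_mk {X Y : Cᵒᵖ} (f : X ⟶ Y) (x : R.obj (op (X.unop ⊓ V))) :
    qrho R V m f (qmk R V m X x) = qmk R V m Y (mid R V f x) := rfl

/-- the skyscraper -/
noncomputable def QQ : PMod R := mkP R (fun X => ModuleCat.of (R.toRing.obj X) (Qt R V m X))
  (fun f => qrho R V m f) (fun f x y => map_add _ x y)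
  (fun {X Y} f r x => by
    change qrho R V m f (qmk R V m X (lft R V X r) * x) = qmk R V m Y (lft R V Y _) * _
    rw [map_mul, qrho_mk, mid_lft]
    rfl)
  (fun X x => by
    obtain ⟨x, rfl⟩ := qmk_surj R V m X x
    rw [qrho_mk, mid_id])
  (fun {X Y Z} f g x => by
    obtain ⟨x, rfl⟩ := qmk_surj R V m X x
    rw [qrho_mk, qrho_mk, qrho_mk, mid_comp])

lemma QQ_smul (X : Cᵒᵖ) (r : R.toRing.obj X) (x : Qt R V m X) :
    (r • (show (QQ R V m).obj X from x) : (QQ R V m).obj X) =
      (qmk R V m X (lft R V X r) * x : Qt R V m X) := rfl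

/-- the skyscraper is cartesian -/
lemma QQ_cart (hV : LocAt R V) {X Y : Cᵒᵖ} (f : X ⟶ Y) : IsCart (QQ R V m) f := by
  obtain ⟨w, hw⟩ := hV X.unop
  have h1 := hw X.unop le_rfl
  have h2 := hw Y.unop (leOfHom f.unop)
  have hw1 : (R.map (homOfLE (le_refl X.unop)).op).hom w = w := by
    have : (homOfLE (le_refl X.unop)).op = 𝟙 (op X.unop) := Subsingleton.elim _ _
    rw [this, R.map_id]
    rfl
  rw [hw1] at h1
  unfold IsCart
  letI a1 : Algebra (R.obj X) (R.obj Y) := (R.map f).hom.toRingHom.toAlgebra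
  letI a2 : Algebra (R.obj X) (R.obj (op (X.unop ⊓ V))) := (lft R V X).toAlgebra
  letI a3 : Algebra (R.obj Y) (R.obj (op (Y.unop ⊓ V))) := (lft R V Y).toAlgebra
  letI a4 : Algebra (R.obj (op (X.unop ⊓ V))) (R.obj (op (Y.unop ⊓ V))) := (mid R V f).toAlgebra
  letI a5 : Algebra (R.obj X) (R.obj (op (Y.unop ⊓ V))) :=
    ((lft R V Y).comp (R.map f).hom.toRingHom).toAlgebra
  haveI t1 : IsScalarTower (R.obj X) (R.obj Y) (R.obj (op (Y.unop ⊓ V))) :=
    IsScalarTower.of_algebraMap_eq (fun x => rfl)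
  haveI t2 : IsScalarTower (R.obj X) (R.obj (op (X.unop ⊓ V))) (R.obj (op (Y.unop ⊓ V))) :=
    IsScalarTower.of_algebraMap_eq (fun x => (mid_lft R V f x).symm)
  haveI l1 : IsLocalization.Away w (R.obj (op (X.unop ⊓ V))) := h1
  haveI l2 : IsLocalization.Away (algebraMap (R.obj X) (R.obj Y) w)
    (R.obj (op (Y.unop ⊓ V))) := h2
  letI b1 : Module (R.obj X) ((QQ R V m).obj X) :=
    inferInstanceAs (Module (R.toRing.obj X) ((QQ R V m).obj X))
  letI b2 : Module (R.obj Y) ((QQ R V m).obj Y) :=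
    inferInstanceAs (Module (R.toRing.obj Y) ((QQ R V m).obj Y))
  letI b3 : Module (R.obj X) ((QQ R V m).obj Y) :=
    Module.compHom ((QQ R V m).obj Y) (R.map f).hom.toRingHom
  haveI b4 : IsScalarTower (R.obj X) (R.obj Y) ((QQ R V m).obj Y) :=
    ⟨fun a b c => by rw [Algebra.smul_def, mul_smul]; rfl⟩
  let p : R.obj (op (X.unop ⊓ V)) →ₗ[R.obj X] (QQ R V m).obj X :=
    { toFun := fun x => qmk R V m X x
      map_add' := fun x y => map_add _ x y
      map_smul' := fun r x => map_mul (qmk R V m X) (lft R V X r) x }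
  let q : R.obj (op (Y.unop ⊓ V)) →ₗ[R.obj Y] (QQ R V m).obj Y :=
    { toFun := fun x => qmk R V m Y x
      map_add' := fun x y => map_add _ x y
      map_smul' := fun r x => map_mul (qmk R V m Y) (lft R V Y r) x }
  exact bc w (idl R V m X) p q (qmk_surj R V m X) (qmk_surj R V m Y) (qmk_zero R V m X)
    (fun x => by
      have : (idl R V m X).map (algebraMap (R.obj (op (X.unop ⊓ V))) (R.obj (op (Y.unop ⊓ V)))) =
        idl R V m Y := idl_map R V m f
      rw [this]
      exact qmk_zero R V m Y x) _ (fun x => rfl)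

/-- scalars generate the fibre over a principal open subset of `V` -/
lemma surjK (hm : Module.finrank K (R.ring V ⧸ m) = 1) (hmm : m.IsMaximal) (t : C)
    (ht : LocAt R t) (Z : C) (hZ : Z ≤ V) (hZt : Z = V ⊓ t) (x : R.ring Z) :
    ∃ k : K, x - algebraMap K (R.ring Z) k ∈ m.map (R.map (homOfLE hZ).op).hom.toRingHom := by
  subst hZt
  have hsur : ∀ r : R.ring V, ∃ k : K, r - algebraMap K (R.ring V) k ∈ m := by
    intro r
    have h1 := Subalgebra.bot_eq_top_of_finrank_eq_one hm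
    have h2 : Ideal.Quotient.mk m r ∈ (⊥ : Subalgebra K (R.ring V ⧸ m)) := by rw [h1]; trivial
    obtain ⟨k, hk⟩ := Algebra.mem_bot.1 h2
    refine ⟨k, ?_⟩
    rw [← Ideal.Quotient.eq_zero_iff_mem, map_sub, ← hk]
    exact sub_self _
  obtain ⟨w, hw⟩ := ht V
  have h1 := hw V le_rfl
  have hw1 : (R.map (homOfLE (le_refl V)).op).hom w = w := by
    have : (homOfLE (le_refl V)).op = 𝟙 (op V) := Subsingleton.elim _ _
    rw [this, R.map_id]
    rfl
  rw [hw1] at h1
  letI a1 : Algebra (R.ring V) (R.ring (V ⊓ t)) :=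
    (R.map (homOfLE (inf_le_left : V ⊓ t ≤ V)).op).hom.toRingHom.toAlgebra
  haveI l1 : IsLocalization.Away w (R.ring (V ⊓ t)) := h1
  have hk : ∀ k : K, algebraMap (R.ring V) (R.ring (V ⊓ t)) (algebraMap K (R.ring V) k) =
      algebraMap K (R.ring (V ⊓ t)) k := fun k =>
    (R.map (homOfLE (inf_le_left : V ⊓ t ≤ V)).op).hom.commutes k
  change ∃ k : K, _ ∈ m.map (algebraMap (R.ring V) (R.ring (V ⊓ t)))
  set I := m.map (algebraMap (R.ring V) (R.ring (V ⊓ t))) with hI
  obtain ⟨⟨r, d, n, rfl⟩, hx⟩ := IsLocalization.surj (Submonoid.powers w) x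
  obtain ⟨c, hc⟩ := hsur w
  obtain ⟨e, he⟩ := hsur r
  have hc' := Ideal.mem_map_of_mem (algebraMap (R.ring V) (R.ring (V ⊓ t))) hc
  have he' := Ideal.mem_map_of_mem (algebraMap (R.ring V) (R.ring (V ⊓ t))) he
  rw [map_sub, hk] at hc' he'
  change x * algebraMap _ _ (w ^ n) = algebraMap _ _ r at hx
  rw [map_pow] at hx
  by_cases h0 : c = 0
  · subst h0
    rw [map_zero, sub_zero] at hc'
    refine ⟨0, ?_⟩
    have : I = ⊤ := Ideal.eq_top_of_isUnit_mem _ hc' (IsLocalization.Away.algebraMap_isUnit w)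
    rw [this]; trivial
  · refine ⟨e * (c ^ n)⁻¹, ?_⟩
    rw [← Ideal.Quotient.eq_zero_iff_mem, map_sub, sub_eq_zero] at hc' he' ⊢
    have hx' := congrArg (Ideal.Quotient.mk I) hx
    rw [map_mul, map_pow, hc', he', ← map_pow, ← map_pow] at hx'
    have hcc : algebraMap K (R.ring (V ⊓ t)) (c ^ n) * algebraMap K (R.ring (V ⊓ t)) (c ^ n)⁻¹ =
        1 := by
      rw [← map_mul, mul_inv_cancel₀ (pow_ne_zero n h0), map_one]
    rw [map_mul (algebraMap K (R.ring (V ⊓ t))), map_mul (Ideal.Quotient.mk I), ← hx', mul_assoc,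
      ← map_mul (Ideal.Quotient.mk I), hcc, map_one, mul_one]

/-- the skyscraper is finitely generated -/
lemma QQ_fin (hm : Module.finrank K (R.ring V ⧸ m) = 1) (hmm : m.IsMaximal) (hV : LocAt R V)
    (hc : ∀ s : C, ∃ t : C, s ≤ t ∧ LocAt R t) (X : Cᵒᵖ) :
    Module.Finite (R.toRing.obj X) ((QQ R V m).obj X) := by
  obtain ⟨t, hst, ht⟩ := hc X.unop
  have h1 : ∀ x : Qt R V m (op t), ∃ k : K,
      x = qmk R V m (op t) (lft R V (op t) (algebraMap K (R.obj (op t)) k)) := by
    intro x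
    obtain ⟨x, rfl⟩ := qmk_surj R V m (op t) x
    obtain ⟨k, hk⟩ := surjK R V m hm hmm t ht (t ⊓ V) inf_le_right (inf_comm t V) x
    refine ⟨k, ?_⟩
    rw [← sub_eq_zero, ← map_sub, qmk_zero]
    have : lft R V (op t) (algebraMap K (R.obj (op t)) k) = algebraMap K (R.ring (t ⊓ V)) k :=
      (R.map (homOfLE (inf_le_left : t ⊓ V ≤ t)).op).hom.commutes k
    rw [this]
    exact hk
  let f : op t ⟶ X := (homOfLE hst).op
  letI a1 : Algebra (R.obj (op t)) (R.obj X) := (R.map f).hom.toRingHom.toAlgebra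
  letI b1 : Module (R.obj (op t)) ((QQ R V m).obj (op t)) :=
    inferInstanceAs (Module (R.toRing.obj (op t)) ((QQ R V m).obj (op t)))
  letI b2 : Module (R.obj X) ((QQ R V m).obj X) :=
    inferInstanceAs (Module (R.toRing.obj X) ((QQ R V m).obj X))
  letI b3 : Module (R.obj (op t)) ((QQ R V m).obj X) :=
    Module.compHom ((QQ R V m).obj X) (R.map f).hom.toRingHom
  haveI b4 : IsScalarTower (R.obj (op t)) (R.obj X) ((QQ R V m).obj X) :=
    ⟨fun a b c => by rw [Algebra.smul_def, mul_smul]; rfl⟩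
  have hcart := (isBaseChange_iff_cmp _).1 (QQ_cart R V m hV f)
  have h2 : ∀ y : Qt R V m X, ∃ r : R.obj X, y = qmk R V m X (lft R V X r) := by
    intro y
    obtain ⟨T, hT⟩ := hcart.2 y
    rw [← hT]
    clear hT
    induction T with
    | zero => exact ⟨0, by rw [map_zero, map_zero, map_zero]; rfl⟩
    | tmul b x =>
      obtain ⟨k, hk⟩ := h1 x
      refine ⟨b * (R.map f).hom (algebraMap K (R.obj (op t)) k), ?_⟩
      rw [cmp_tmul]
      change qmk R V m X (lft R V X b) * qrho R V m f x = _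
      rw [hk, qrho_mk, mid_lft, map_mul, map_mul]
    | add T U h1 h2 =>
      obtain ⟨r, hr⟩ := h1
      obtain ⟨r', hr'⟩ := h2
      refine ⟨r + r', ?_⟩
      rw [map_add, hr, hr', map_add, map_add]
      rfl
  refine Module.Finite.of_surjective (LinearMap.toSpanSingleton (R.toRing.obj X)
    ((QQ R V m).obj X) (show (QQ R V m).obj X from (1 : Qt R V m X))) (fun y => ?_)
  obtain ⟨r, hr⟩ := h2 y
  refine ⟨r, ?_⟩
  rw [LinearMap.toSpanSingleton_apply, hr]
  change qmk R V m X (lft R V X r) * 1 = _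
  exact mul_one _

/-- quotients by corresponding ideals -/
lemma qbij {A B : Type} [CommRing A] [CommRing B] (e : A →+* B) (he : Function.Bijective e)
    (I : Ideal A) (J : Ideal B) (h : I.map e = J) :
    Function.Bijective (Ideal.quotientMap J e (Ideal.map_le_iff_le_comap.1 h.le)) := by
  subst h
  constructor
  · apply Ideal.quotientMap_injective'
    rw [Ideal.comap_map_of_bijective e he]
  · exact Ideal.quotientMap_surjective he.2

lemma map_bij {X Y : Cᵒᵖ} (f : X ⟶ Y) (g : Y ⟶ X) : Function.Bijective (R.map f).hom := by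
  refine Function.bijective_iff_has_inverse.2 ⟨(R.map g).hom, fun x => ?_, fun x => ?_⟩
  · rw [map_map R f g (𝟙 X), R.map_id]; rfl
  · rw [map_map R g f (𝟙 Y), R.map_id]; rfl

lemma QQ_supp : SuppIn V (QQ R V m) := by
  intro X
  exact qbij (mid R V (homOfLE (inf_le_left : X ⊓ V ≤ X)).op)
    (map_bij R _ (homOfLE (le_inf le_rfl inf_le_right)).op) _ _ (idl_map R V m _)

end Sheaf

end SKE_

open SKE_ in
theorem ske_proof' : Stmt_SKE' := by
  intro K _ C _ R _ V hV hc m hmm hm
  refine ⟨⟨QQ R V m, fun X => QQ_fin R V m hm hmm hV hc X, fun f => QQ_cart R V m hV f⟩,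
    QQ_supp R V m, ⟨?_⟩⟩
  have hl : lft R V (op V) = rgt R V (op V) := rfl
  let g : (R.ring V ⧸ m) →ₗ[R.ring V] sec (QQ R V m) V :=
    { toFun := fun x => Ideal.quotientMap (idl R V m (op V)) (rgt R V (op V))
        (Ideal.map_le_iff_le_comap.1 le_rfl) x
      map_add' := fun x y => map_add _ x y
      map_smul' := fun r x => by
        rw [Algebra.smul_def, map_mul]
        rfl }
  exact (LinearEquiv.ofBijective g (qbij (rgt R V (op V))
    (map_bij R _ (homOfLE (le_inf le_rfl le_rfl)).op) _ _ rfl)).symm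

theorem ske_proof : Stmt_SKE := ske_proof'

end Pool.CRD.Sky
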