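import Pool.Agent.CRD.C.GStmts

/-!
# CRD, area C: sub- and quotient modules of modules supported in a chart
-/

open CategoryTheory Opposite Limits Pretriangulated Abelian

namespace Pool.CRD.Sky

namespace SKQ_

theorem bij_iff {A B M N : Type} [CommRing A] [CommRing B] [Algebra A B]
    [AddCommGroup M] [AddCommGroup N] [Module A M] [Module B N] [Module A N]
    [IsScalarTower A B N] (m : M →ₗ[A] N) (hm : IsBaseChange B m) (w : A)
    (hw : IsLocalization.Away w B) :
    Function.Bijective m ↔ Function.Bijective (fun x : M => w • x) := by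
  have := hw
  have hl : IsLocalizedModule (Submonoid.powers w) m :=
    (isLocalizedModule_iff_isBaseChange (Submonoid.powers w) B m).2 hm
  have hu : IsUnit (algebraMap A B w) := IsLocalization.Away.algebraMap_isUnit (S := B) w
  have hN : Function.Bijective (fun y : N => w • y) := by
    obtain ⟨v, hv⟩ := hu.exists_left_inv
    constructor
    · intro y z hyz
      have h1 : algebraMap A B w • y = algebraMap A B w • z := by
        rw [algebraMap_smul, algebraMap_smul]; exact hyz
      exact hu.smul_left_cancel.1 h1
    · intro y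
      refine ⟨v • y, ?_⟩
      change w • v • y = y
      rw [← algebraMap_smul B w, smul_smul, mul_comm, hv, one_smul]
  constructor
  · intro hb
    constructor
    · intro x y hxy
      apply hb.1
      apply hN.1
      change w • m x = w • m y
      rw [← map_smul, ← map_smul]
      exact congrArg m hxy
    · intro y
      obtain ⟨z, hz⟩ := hN.2 (m y)
      obtain ⟨x, rfl⟩ := hb.2 z
      refine ⟨x, ?_⟩
      apply hb.1
      change m (w • x) = m y
      rw [map_smul]
      exact hz
  · intro hb
    have hpow : ∀ n : ℕ, Function.Injective (fun x : M => w ^ n • x) := by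
      intro n
      induction n with
      | zero => intro x y hxy; simpa using hxy
      | succ n ih =>
        intro x y hxy
        apply ih
        apply hb.1
        change w • w ^ n • x = w • w ^ n • y
        rw [smul_smul, smul_smul, ← pow_succ']
        exact hxy
    have hpow' : ∀ n : ℕ, Function.Surjective (fun x : M => w ^ n • x) := by
      intro n
      induction n with
      | zero => intro y; exact ⟨y, by simp⟩
      | succ n ih =>
        intro y
        obtain ⟨z, hz⟩ := hb.2 y
        obtain ⟨x, hx⟩ := ih z
        refine ⟨x, ?_⟩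
        have hx' : w ^ n • x = z := hx
        have hz' : w • z = y := hz
        change w ^ (n + 1) • x = y
        rw [pow_succ', mul_smul, hx', hz']
    have hpowN : ∀ n : ℕ, Function.Injective (fun x : N => w ^ n • x) := by
      intro n
      induction n with
      | zero => intro x y hxy; simpa using hxy
      | succ n ih =>
        intro x y hxy
        apply ih
        apply hN.1
        change w • w ^ n • x = w • w ^ n • y
        rw [smul_smul, smul_smul, ← pow_succ']
        exact hxy
    constructor
    · rw [injective_iff_map_eq_zero]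
      intro y hy
      obtain ⟨⟨_, n, rfl⟩, hs⟩ := (IsLocalizedModule.eq_zero_iff (Submonoid.powers w) m).1 hy
      have hs' : w ^ n • y = 0 := hs
      apply hpow n
      change w ^ n • y = w ^ n • (0 : M)
      rw [hs', smul_zero]
    · intro y
      obtain ⟨⟨z, ⟨_, n, rfl⟩⟩, hz⟩ := IsLocalizedModule.surj (Submonoid.powers w) m y
      have hz' : w ^ n • y = m z := hz
      obtain ⟨x, hx⟩ := hpow' n z
      refine ⟨x, ?_⟩
      apply hpowN n
      change w ^ n • m x = w ^ n • y
      rw [hz', ← map_smul]
      exact congrArg m hx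

section
variable {K : Type} [Field K] {C : Type} [SemilatticeInf C] {R : PAlg K C}

/-- `M(s) → M(s ⊓ V)` is bijective iff `w` acts bijectively -/
theorem rs_bij_iff (M : Coh R) (s V : C) (w : R.ring s)
    (hw : letI := (R.map (homOfLE (inf_le_left : s ⊓ V ≤ s)).op).hom.toRingHom.toAlgebra
      IsLocalization.Away w (R.ring (s ⊓ V))) :
    Function.Bijective (rs M.obj (homOfLE (inf_le_left : s ⊓ V ≤ s)).op) ↔
      Function.Bijective (fun x : sec M.obj s => w • x) := by
  have hc := M.property.2 (homOfLE (inf_le_left : s ⊓ V ≤ s)).op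
  set f := (homOfLE (inf_le_left : s ⊓ V ≤ s)).op with hf
  set Y : Cᵒᵖ := op (s ⊓ V) with hY
  set M' : PMod R := M.obj with hM
  let iA : Algebra (R.obj (op s)) (R.obj Y) := (R.map f).hom.toRingHom.toAlgebra
  let iM : Module (R.obj (op s)) (M'.obj (op s)) :=
    inferInstanceAs (Module (R.toRing.obj (op s)) (M'.obj (op s)))
  let iN : Module (R.obj Y) (M'.obj Y) := inferInstanceAs (Module (R.toRing.obj Y) (M'.obj Y))
  let iN' : Module (R.obj (op s)) (M'.obj Y) := Module.compHom (M'.obj Y) (R.map f).hom.toRingHom
  have iT : IsScalarTower (R.obj (op s)) (R.obj Y) (M'.obj Y) :=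
    ⟨fun a b c => by rw [Algebra.smul_def, mul_smul]; rfl⟩
  have h := @bij_iff (R.obj (op s)) (R.obj Y) (M'.obj (op s)) (M'.obj Y) _ _ iA _ _ iM iN iN' iT
    _ hc w hw
  exact h

theorem loc_self (V : C) (hV : LocAt R V) (s : C) : ∃ w : R.ring s,
    let _ := (R.map (homOfLE (inf_le_left : s ⊓ V ≤ s)).op).hom.toRingHom.toAlgebra
    IsLocalization.Away w (R.ring (s ⊓ V)) := by
  obtain ⟨w, hw⟩ := hV s
  refine ⟨w, ?_⟩
  have h := hw s le_rfl
  have h1 : (R.map (homOfLE (le_refl s)).op).hom w = w := by
    have h2 : R.map (homOfLE (le_refl s)).op = 𝟙 (R.obj (op s)) := by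
      have : (homOfLE (le_refl s)).op = 𝟙 (op s) := Subsingleton.elim _ _
      rw [this, R.map_id]
    exact congr(($h2).hom w)
  rw [h1] at h
  exact h

end

end SKQ_

open SKQ_ in
theorem skq_proof : Stmt_SKQ := by
  intro K _ C _ R _ V hV S hS hF
  have hex := (coh_exact_iff S).1 hS.exact
  have hmono := (coh_mono_iff S.f).1 hS.mono_f
  have hepi := (coh_epi_iff S.g).1 hS.epi_g
  have key : ∀ s : C, ∀ w : R.ring s,
      Function.Bijective (fun x : sec S.X₂.obj s => w • x) →
      Function.Bijective (fun x : sec S.X₁.obj s => w • x) ∧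
      Function.Bijective (fun x : sec S.X₃.obj s => w • x) := by
    intro s w hw
    let f : sec S.X₁.obj s →ₗ[R.ring s] sec S.X₂.obj s := (S.f.hom.app (op s)).hom
    let g : sec S.X₂.obj s →ₗ[R.ring s] sec S.X₃.obj s := (S.g.hom.app (op s)).hom
    have hf : Function.Injective f := hmono (op s)
    have hg : Function.Surjective g := hepi (op s)
    have hfg : Function.Exact f g := hex (op s)
    have hno : IsNoetherianRing (R.ring s) := PAlg.Good.noeth (op s)
    have hfin : Module.Finite (R.ring s) (sec S.X₃.obj s) := S.X₃.property.1 (op s)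
    have h3s : Function.Surjective (fun x : sec S.X₃.obj s => w • x) := by
      intro y
      obtain ⟨x, rfl⟩ := hg y
      obtain ⟨z, hz⟩ := hw.2 x
      refine ⟨g z, ?_⟩
      change w • g z = g x
      rw [← map_smul]
      exact congrArg g hz
    have h3i : Function.Injective (fun x : sec S.X₃.obj s => w • x) := by
      have h4 : Function.Surjective (LinearMap.lsmul (R.ring s) (sec S.X₃.obj s) w) := h3s
      exact IsNoetherian.injective_of_surjective_endomorphism _ h4
    refine ⟨⟨?_, ?_⟩, ⟨h3i, h3s⟩⟩
    · intro x y hxy
      apply hf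
      apply hw.1
      change w • f x = w • f y
      rw [← map_smul, ← map_smul]
      exact congrArg f hxy
    · intro x
      obtain ⟨y, hy⟩ := hw.2 (f x)
      have hy' : w • y = f x := hy
      have h5 : g y = 0 := by
        apply h3i
        change w • g y = w • 0
        rw [← map_smul, hy', smul_zero]
        exact hfg.apply_apply_eq_zero x
      obtain ⟨z, rfl⟩ := (hfg y).1 h5
      refine ⟨z, ?_⟩
      apply hf
      change f (w • z) = f x
      rw [map_smul]
      exact hy'
  constructor
  · intro s
    obtain ⟨w, hw⟩ := loc_self V hV s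
    exact (rs_bij_iff S.X₁ s V w hw).2 (key s w ((rs_bij_iff S.X₂ s V w hw).1 (hF s))).1
  · intro s
    obtain ⟨w, hw⟩ := loc_self V hV s
    exact (rs_bij_iff S.X₃ s V w hw).2 (key s w ((rs_bij_iff S.X₂ s V w hw).1 (hF s))).2

end Pool.CRD.Sky
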