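import Pool.Agent.CRD.C.GStmts

/-!
# CRD, area C, SKS: simple coherent modules
-/

open CategoryTheory Opposite Limits Pretriangulated Abelian

namespace Pool.CRD.Sky

namespace SKS_

lemma nontriv_bc {A B M N : Type} [CommRing A] [CommRing B] [Algebra A B]
    [AddCommGroup M] [AddCommGroup N] [Module A M] [Module B N] [Module A N]
    [IsScalarTower A B N] (m : M →ₗ[A] N) (hm : IsBaseChange B m) [Nontrivial N] :
    Nontrivial M := by
  by_contra h
  rw [not_nontrivial_iff_subsingleton] at h
  have hz : ∀ y : N, y = 0 := by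
    intro y
    induction y using hm.inductionOn with
    | zero => rfl
    | tmul x => rw [Subsingleton.elim x 0, map_zero]
    | smul s n hn => rw [hn, smul_zero]
    | add a b ha hb => rw [ha, hb, add_zero]
  obtain ⟨a, b, hab⟩ := exists_pair_ne N
  exact hab ((hz a).trans (hz b).symm)

section
variable {K : Type} [Field K] {C : Type} [SemilatticeInf C] {R : PAlg K C}

lemma nontriv_cart (M : PMod R) {X Y : Cᵒᵖ} (f : X ⟶ Y) (h : IsCart M f)
    (hY : Nontrivial (M.obj Y)) : Nontrivial (M.obj X) := by
  letI : Algebra (R.obj X) (R.obj Y) := (R.map f).hom.toRingHom.toAlgebra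
  letI : Module (R.obj X) (M.obj X) := inferInstanceAs (Module (R.toRing.obj X) (M.obj X))
  letI : Module (R.obj Y) (M.obj Y) := inferInstanceAs (Module (R.toRing.obj Y) (M.obj Y))
  letI : Module (R.obj X) (M.obj Y) := Module.compHom (M.obj Y) (R.map f).hom.toRingHom
  haveI : IsScalarTower (R.obj X) (R.obj Y) (M.obj Y) :=
    ⟨fun a b c => by rw [Algebra.smul_def, mul_smul]; rfl⟩
  exact nontriv_bc (A := R.obj X) (B := R.obj Y) (M := M.obj X) (N := M.obj Y) _ h

lemma zero_of_sup (G : Coh R) (V : C) (h : SuppIn V G.obj)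
    (hV : Subsingleton (G.obj.obj (op V))) : IsZero G := by
  have h1 : ∀ X : Cᵒᵖ, Subsingleton (G.obj.obj X) := by
    intro X
    rw [← not_nontrivial_iff_subsingleton]
    intro hX
    have hXV : Nontrivial (G.obj.obj (op (X.unop ⊓ V))) := by
      obtain ⟨a, b, hab⟩ := exists_pair_ne (G.obj.obj X)
      exact ⟨_, _, fun hc => hab ((h X.unop).1 hc)⟩
    have := nontriv_cart G.obj (X := op V) (Y := op (X.unop ⊓ V))
      (homOfLE (inf_le_right : X.unop ⊓ V ≤ V)).op (G.property.2 _) hXV
    exact not_nontrivial_iff_subsingleton.2 hV this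
  have h2 : IsZero G.obj := isZero_of_subsingleton h1
  rw [IsZero.iff_id_eq_zero]
  apply ObjectProperty.hom_ext
  exact h2.eq_of_src _ _

end

end SKS_

theorem sks_proof (hSKQ : Stmt_SKQ) : Stmt_SKS := by
  intro K _ C _ R _ V hV F hF hs
  constructor
  intro T f hf
  constructor
  · intro hi h0
    have hz : IsZero F := by
      rw [IsZero.iff_id_eq_zero]
      have h1 : inv f ≫ f = 𝟙 F := IsIso.inv_hom_id f
      rw [← h1]
      exact (congrArg (fun t => inv f ≫ t) h0).trans comp_zero
    have h2 : IsZero F.obj := (IsCoh R).ι.map_isZero hz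
    have h3 := subsingleton_of_isZero h2 (op V)
    have h4 : Nontrivial (sec F.obj V) := IsSimpleModule.nontrivial (R.ring V) _
    exact not_nontrivial_iff_subsingleton.2 h3 h4
  · intro h0
    let S : ShortComplex (Coh R) := ShortComplex.mk f (cokernel.π f) (cokernel.condition f)
    have hex : S.Exact := ShortComplex.exact_of_g_is_cokernel _ (cokernelIsCokernel f)
    have hS : S.ShortExact :=
      { exact := hex
        mono_f := hf
        epi_g := by dsimp [S]; infer_instance }
    obtain ⟨hT, hQ⟩ := hSKQ K C R V hV S hS hF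
    have hex' := (coh_exact_iff S).1 hex (op V)
    have hinj := (coh_mono_iff f).1 hf (op V)
    have hsur := (coh_epi_iff (cokernel.π f)).1 inferInstance (op V)
    let g : sec T.obj V →ₗ[R.ring V] sec F.obj V := (f.hom.app (op V)).hom
    have hr := hs.eq_bot_or_eq_top (LinearMap.range g)
    rcases hr with hr | hr
    · exfalso
      apply h0
      have hsub : Subsingleton (T.obj.obj (op V)) := by
        refine ⟨fun a b => hinj ?_⟩
        have ha : g a = 0 := by
          have : g a ∈ LinearMap.range g := ⟨a, rfl⟩
          rwa [hr, Submodule.mem_bot] at this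
        have hb : g b = 0 := by
          have : g b ∈ LinearMap.range g := ⟨b, rfl⟩
          rwa [hr, Submodule.mem_bot] at this
        exact ha.trans hb.symm
      exact (SKS_.zero_of_sup T V hT hsub).eq_of_src _ _
    · have hsub : Subsingleton ((cokernel f).obj.obj (op V)) := by
        have hz : ∀ y : (cokernel f).obj.obj (op V), y = 0 := by
          intro y
          obtain ⟨x, rfl⟩ := hsur y
          have hx : x ∈ LinearMap.range g := by rw [hr]; exact Submodule.mem_top
          obtain ⟨z, hz⟩ := hx
          exact (hex' x).2 ⟨z, hz⟩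
        exact ⟨fun a b => (hz a).trans (hz b).symm⟩
      have hc : IsZero (cokernel f) := SKS_.zero_of_sup _ V hQ hsub
      have : Epi f := Preadditive.epi_of_isZero_cokernel f hc
      exact isIso_of_mono_of_epi f

end Pool.CRD.Sky
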