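import Pool.Agent.CRD.C.GStmts

/-!
# CRD, area C, SSF: a coherent module supported in a chart with semisimple sections
-/

open CategoryTheory Opposite Limits Pretriangulated Abelian

namespace Pool.CRD.Sky

namespace SSF_

section alg
variable {A M : Type} [CommRing A] [AddCommGroup M] [Module A M] {n : ℕ}
  (m : Fin n → Ideal A) (e : M ≃ₗ[A] (∀ k, A ⧸ m k))

/-- the projection on the factor `k` -/
noncomputable def pr (k : Fin n) : M →ₗ[A] M :=
  e.symm.toLinearMap ∘ₗ LinearMap.single A (fun k => A ⧸ m k) k ∘ₗ LinearMap.proj k ∘ₗ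
    e.toLinearMap

lemma pr_apply (k : Fin n) (x : M) :
    pr m e k x = e.symm (Pi.single k (e x k)) := rfl

lemma sum_pr (x : M) : ∑ k, pr m e k x = x := by
  simp only [pr_apply]
  rw [← map_sum]
  have h : ∑ k, (Pi.single k (e x k) : ∀ k, A ⧸ m k) = e x := Finset.univ_sum_single (e x)
  rw [h, LinearEquiv.symm_apply_apply]

/-- the image of the projection -/
lemma simple_of (k : Fin n) (hk : (m k).IsMaximal) {N : Type} [AddCommGroup N] [Module A N]
    (a : M →ₗ[A] N) (b : N →ₗ[A] M) (ha : Function.Surjective a) (hb : Function.Injective b)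
    (hab : ∀ x, b (a x) = pr m e k x) : IsSimpleModule A N := by
  rw [isSimpleModule_iff_quot_maximal]
  refine ⟨m k, hk, ⟨?_⟩⟩
  refine LinearEquiv.ofBijective (LinearMap.proj k ∘ₗ e.toLinearMap ∘ₗ b) ⟨?_, ?_⟩
  · rw [injective_iff_map_eq_zero]
    intro y hy
    obtain ⟨x, rfl⟩ := ha y
    have h1 : e (b (a x)) k = 0 := hy
    rw [hab, pr_apply, LinearEquiv.apply_symm_apply, Pi.single_eq_same] at h1
    apply hb
    rw [hab, pr_apply, h1, Pi.single_zero, map_zero, map_zero]
  · intro z
    refine ⟨a (e.symm (Pi.single k z)), ?_⟩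
    change e (b (a (e.symm (Pi.single k z)))) k = z
    rw [hab, pr_apply, LinearEquiv.apply_symm_apply, LinearEquiv.apply_symm_apply,
      Pi.single_eq_same, Pi.single_eq_same]

end alg

end SSF_

theorem ssf_proof (hSKF : Stmt_SKF) (hSKQ : Stmt_SKQ) (hSKS : Stmt_SKS) : Stmt_SSF := by
  intro K _ C _ R _ V hV F hF n m hm ⟨e⟩
  have hbij := hSKF K C R V F F hF
  have hex : ∀ k, ∃ f : F ⟶ F, (f.hom.app (op V)).hom =
      (SSF_.pr (A := R.ring V) (M := sec F.obj V) m e k : F.obj.obj (op V) →ₗ[R.toRing.obj (op V)]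
        F.obj.obj (op V)) := fun k => hbij.2 _
  choose f hf using hex
  refine ⟨fun k => Abelian.image (f k), fun k => Abelian.factorThruImage (f k),
    fun k => Abelian.image.ι (f k), fun k => ?_, ?_⟩
  · let S : ShortComplex (Coh R) := ShortComplex.mk (Abelian.image.ι (f k)) (cokernel.π (f k))
      (kernel.condition _)
    have hS : S.ShortExact :=
      { exact := ShortComplex.exact_of_f_is_kernel _ (kernelIsKernel (cokernel.π (f k)))
        mono_f := by dsimp [S]; infer_instance
        epi_g := by dsimp [S]; infer_instance }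
    have hsup : SuppIn V (Abelian.image (f k)).obj := (hSKQ K C R V hV S hS hF).1
    refine hSKS K C R V hV _ hsup ?_
    have hsur := (coh_epi_iff (Abelian.factorThruImage (f k))).1 inferInstance (op V)
    have hinj := (coh_mono_iff (Abelian.image.ι (f k))).1 inferInstance (op V)
    have hfac := Abelian.image.fac (f k)
    refine SSF_.simple_of (A := R.ring V) (M := sec F.obj V) m e k (hm k)
      (N := sec (Abelian.image (f k)).obj V)
      ((Abelian.factorThruImage (f k)).hom.app (op V)).hom
      ((Abelian.image.ι (f k)).hom.app (op V)).hom hsur hinj ?_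
    intro x
    have h1 := congrArg (fun a : F ⟶ F => (a.hom.app (op V)).hom x) hfac
    have h2 : ((f k).hom.app (op V)).hom x = SSF_.pr (A := R.ring V) (M := sec F.obj V) m e k x :=
      LinearMap.congr_fun (hf k) x
    exact h1.trans h2
  · apply hbij.1
    have h0 : ∑ k, Abelian.factorThruImage (f k) ≫ Abelian.image.ι (f k) = ∑ k, f k :=
      Finset.sum_congr rfl (fun k _ => Abelian.image.fac (f k))
    rw [h0]
    apply LinearMap.ext
    intro x
    have h3 : ∀ s : Finset (Fin n), ((∑ k ∈ s, f k).hom.app (op V)).hom x =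
        ∑ k ∈ s, ((f k).hom.app (op V)).hom x := by
      intro s
      induction s using Finset.induction_on with
      | empty => rfl
      | insert a s ha ih => rw [Finset.sum_insert ha, Finset.sum_insert ha, ← ih]; rfl
    change ((∑ k, f k).hom.app (op V)).hom x = x
    rw [h3]
    have h4 : ∀ k, ((f k).hom.app (op V)).hom x =
        SSF_.pr (A := R.ring V) (M := sec F.obj V) m e k x := fun k => LinearMap.congr_fun (hf k) x
    rw [Finset.sum_congr rfl (fun k _ => h4 k)]
    exact SSF_.sum_pr (A := R.ring V) (M := sec F.obj V) m e x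

end Pool.CRD.Sky
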