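import Pool.Agent.CRD.B.AllC
import Pool.Agent.CRD.Br.Asm
import Pool.Agent.CRD.C.LAll
import Pool.Agent.CRD.C.AXK
import Pool.Agent.CRD.C.DTP
import Pool.Agent.CRD.C.DTR
import Pool.Agent.CRD.C.DVD
import Pool.Agent.CRD.C.EM1
import Pool.Agent.CRD.C.EM2
import Pool.Agent.CRD.C.EM3
import Pool.Agent.CRD.C.EM4
import Pool.Agent.CRD.C.EMA
import Pool.Agent.CRD.C.EMB
import Pool.Agent.CRD.C.EML
import Pool.Agent.CRD.C.EMR
import Pool.Agent.CRD.C.EMS
import Pool.Agent.CRD.C.EMZ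
import Pool.Agent.CRD.C.EVP
import Pool.Agent.CRD.C.EVS
import Pool.Agent.CRD.C.EVU
import Pool.Agent.CRD.C.EXD
import Pool.Agent.CRD.C.FSA
import Pool.Agent.CRD.C.FSB
import Pool.Agent.CRD.C.FTR
import Pool.Agent.CRD.C.FV3
import Pool.Agent.CRD.C.GB0
import Pool.Agent.CRD.C.GCH
import Pool.Agent.CRD.C.GCR
import Pool.Agent.CRD.C.GET
import Pool.Agent.CRD.C.GFL
import Pool.Agent.CRD.C.GKS
import Pool.Agent.CRD.C.GPO
import Pool.Agent.CRD.C.GRD
import Pool.Agent.CRD.C.GUN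
import Pool.Agent.CRD.C.GUX
import Pool.Agent.CRD.C.IYA
import Pool.Agent.CRD.C.IYT
import Pool.Agent.CRD.C.JST
import Pool.Agent.CRD.C.KLC
import Pool.Agent.CRD.C.KOS
import Pool.Agent.CRD.C.KPO
import Pool.Agent.CRD.C.KSA
import Pool.Agent.CRD.C.KSB
import Pool.Agent.CRD.C.KSC
import Pool.Agent.CRD.C.LAT
import Pool.Agent.CRD.C.LSB
import Pool.Agent.CRD.C.PT1
import Pool.Agent.CRD.C.PT2
import Pool.Agent.CRD.C.RSM
import Pool.Agent.CRD.C.SKE
import Pool.Agent.CRD.C.SKF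
import Pool.Agent.CRD.C.SKQ
import Pool.Agent.CRD.C.SKS
import Pool.Agent.CRD.C.SSF

/-!
# CRD, area C: everything together
-/

namespace Pool.CRD.Sky

theorem c_sks : Stmt_SKS := sks_proof skq_proof
theorem c_ssf : Stmt_SSF := ssf_proof skf_proof skq_proof c_sks
theorem c_jst : Stmt_JST := jst_proof lat_proof ftr_proof skf_proof c_sks ske_proof
theorem c_evp : Stmt_EVP := evp_proof trf_proof trh_proof c_loc
theorem c_evu : Stmt_EVU := evu_proof ind_proof mvt_proof trf_proof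
theorem c_evs : Stmt_EVS := evs_proof c_evp c_evu evb_proof trf_proof c_ffd
theorem c_lsb : Stmt_LSB := lsb_proof lat_proof c_jst c_evs
theorem c_pt1 : Stmt_PT1 := pt1_proof lat_proof c_lsb c_evs Loc.le12
theorem c_pt2 : Stmt_PT2 := pt2_proof lat_proof c_lsb c_evs Loc.ldu exd_proof dtp_proof dtr_proof
  (dvd_proof dvs_proof)
theorem c_em4 : Stmt_EM4 := em4_proof emz_proof eml_proof (ems_proof emb_proof)
theorem c_ema : Stmt_EMA := ema_proof emz_proof em1_proof (em2_proof emr_proof)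
  (em3_proof emz_proof eml_proof) c_em4
theorem c_gb0 : Stmt_GB0 := gb0_proof kpo_proof klc_proof rsm_proof gfl_proof get_proof gch_proof
  gcr_proof gun_proof
theorem c_axk : Stmt_AXK :=
  axk_proof (ksc_proof (grd_proof c_gb0 gpo_proof (gks_proof klc_proof gux_proof)) ksa_proof
    ksb_proof gux_proof c_ssf lat_proof) kos_proof

/-- the interface of area C -/
theorem c_iyt : Stmt_IYT :=
  iyt_proof pam_proof c_sef c_ypd c_hfn iya_proof c_pt1 c_pt2 c_ema c_axk (fsa_proof sra_proof)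
    (fsb_proof c_srb c_sef c_ffd) (fv3_proof c_bdm c_ffd)

end Pool.CRD.Sky

namespace Pool.CRD

/-- the interface of area C, as used in the final assembly -/
theorem iyt_proof : Stmt_IYT := Sky.c_iyt

end Pool.CRD
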