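import Pool.Agent.CRD.C.EMR
import Pool.Agent.CRD.Top.T1a

open CategoryTheory Opposite Limits Pretriangulated Abelian

namespace Pool.CRD.Sky

namespace EMZ_

lemma sgB_additive {K : Type} [Field K] {C : Type} [SmallCategory C] (R : PAlg K C) [R.Good] :
    (sgB R).Additive where
  map_add {X Y f g} := by
    apply (DerivedCategory.Bounded.ι (C := Coh R)).map_injective
    exact (DerivedCategory.singleFunctor (Coh R) 0).map_add (f := f) (g := g)

variable {K : Type} [Field K] {C : Type} [SmallCategory C] {R : PAlg K C} [R.Good]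
  (φ : CycFun K (Db R))

lemma zero_iso {X Y : Db R} (e : X ≅ Y) (h : φ.φ X = 0) : φ.φ Y = 0 := by
  by_contra h'
  exact (φ.ne_of_iso e.symm h') h

/-- vanishing for a retract decomposition -/
lemma sum_van {X : Db R} {ι : Type} [Fintype ι] (Y : ι → Db R) (a : ∀ k, X ⟶ Y k)
    (b : ∀ k, Y k ⟶ X) (h : ∑ k, a k ≫ b k = 𝟙 X) (hY : ∀ k, φ.φ (Y k) = 0) : φ.φ X = 0 := by
  ext e
  have h1 : e = ∑ k, a k ≫ (b k ≫ e) := by
    have h2 : (∑ k, a k ≫ b k) ≫ e = e := by rw [h, Category.id_comp]
    rw [Preadditive.sum_comp] at h2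
    exact h2.symm.trans (Finset.sum_congr rfl (fun k _ => Category.assoc _ _ _))
  rw [h1, map_sum]
  refine (Finset.sum_eq_zero (fun k _ => ?_)).trans rfl
  rw [φ.cyc, hY k]
  rfl

end EMZ_

open EMZ_ in
theorem emz_proof : Stmt_EMZ := by
  intro K _ C _ R _ φ
  refine ⟨?_, ?_, ?_, ?_⟩
  · rintro M N ⟨e⟩ h n
    exact zero_iso φ ((shiftFunctor (Db R) n).mapIso e) (h n)
  · intro M n h k
    exact zero_iso φ ((shiftFunctorAdd (Db R) n k).app M) (h (n + k))
  · intro M h
    exact zero_iso φ ((shiftFunctorZero (Db R) ℤ).app M) (h 0)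
  · intro F r h n
    refine sum_van φ (fun _ : Fin r => ((sgB R).obj F)⟦n⟧)
      (fun k => ((sgB R).map (biproduct.π (fun _ : Fin r => F) k))⟦n⟧')
      (fun k => ((sgB R).map (biproduct.ι (fun _ : Fin r => F) k))⟦n⟧') ?_ (fun _ => h n)
    have h1 := biproduct.total (f := fun _ : Fin r => F)
    have h2 : ∑ k, (sgB R).map (biproduct.π (fun _ : Fin r => F) k) ≫
        (sgB R).map (biproduct.ι (fun _ : Fin r => F) k) = 𝟙 _ := by
      have h3 : ∑ k, (sgB R).map (biproduct.π (fun _ : Fin r => F) k ≫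
        biproduct.ι (fun _ : Fin r => F) k) = 𝟙 _ := by
        have := sgB_additive R
        rw [← Functor.map_sum, h1, CategoryTheory.Functor.map_id]
      simpa only [Functor.map_comp] using h3
    have h4 : (∑ k, (sgB R).map (biproduct.π (fun _ : Fin r => F) k) ≫
        (sgB R).map (biproduct.ι (fun _ : Fin r => F) k))⟦n⟧' = 𝟙 _ := by
      rw [h2, CategoryTheory.Functor.map_id]
    rw [Functor.map_sum] at h4
    simpa only [Functor.map_comp] using h4

end Pool.CRD.Sky
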