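import Pool.Agent.CRD.C.GStmts
import Pool.Agent.CRD.B.Stmts

/-!
# CRD, area C: final statements, the interface `IY` for smooth projective surfaces
-/

open CategoryTheory Opposite Limits Pretriangulated Abelian

namespace Pool.CRD.Sky

/-- Serre's theorem A for `O(-d)` in `Coh R` -/
def Stmt_FSA : Prop := ∀ (K : Type) [Field K] (C : Type) [SemilatticeInf C] (R : PAlg K C)
  [R.Good] (A : Amp K K (Fin 3) R), SerreA A.LO

/-- Serre's theorem B for `O(-d)` in `D^b(Coh R)` -/
def Stmt_FSB : Prop := ∀ (K : Type) [Field K] (C : Type) [SemilatticeInf C] (R : PAlg K C)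
  [R.Good] (A : Amp K K (Fin 3) R), SerreB A.LO

/-- vanishing of `Ext³` from locally projective modules -/
def Stmt_FV3 : Prop := ∀ (K : Type) [Field K] (R : PAlg K (Cov (Fin 3))) [R.Good], Effac R →
  ∀ (V F : Coh R), LocProj V → ∀ f : (sgB R).obj V ⟶ ((sgB R).obj F)⟦(3 : ℤ)⟧, f = 0

/-- the interface `IY` for smooth projective surfaces -/
def Stmt_IYT : Prop := ∀ (K : Type) [Field K] [IsAlgClosed K] [CharZero K]
  (R : PAlg K (Cov (Fin 3))) [R.Good], IsSmoothSurfCov K R → IY K (Db R)

end Pool.CRD.Sky
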