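import Pool.Agent.CRD.C.GStmts

set_option autoImplicit false

open CategoryTheory Opposite Limits Pretriangulated Abelian

namespace Pool.CRD.Sky

namespace GUN_

theorem sub_eval_mem {K : Type} [Field K] (a b : K) (p : P2 K) :
    p - MvPolynomial.C (MvPolynomial.eval ![a, b] p) ∈
      (Ideal.span {MvPolynomial.X 0 - MvPolynomial.C a} ⊔
        Ideal.span {MvPolynomial.X 1 - MvPolynomial.C b} : Ideal (P2 K)) := by
  set J : Ideal (P2 K) := Ideal.span {MvPolynomial.X 0 - MvPolynomial.C a} ⊔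
        Ideal.span {MvPolynomial.X 1 - MvPolynomial.C b} with hJ
  rw [← Ideal.Quotient.eq]
  have h1 : (Ideal.Quotient.mk J) = (Ideal.Quotient.mk J).comp
      ((MvPolynomial.C : K →+* P2 K).comp (MvPolynomial.eval ![a, b])) := by
    refine MvPolynomial.ringHom_ext ?_ ?_
    · intro c
      simp
    · intro i
      rw [RingHom.comp_apply, RingHom.comp_apply, MvPolynomial.eval_X, Ideal.Quotient.eq]
      fin_cases i
      · exact Ideal.mem_sup_left (Ideal.mem_span_singleton_self _)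
      · exact Ideal.mem_sup_right (Ideal.mem_span_singleton_self _)
  exact RingHom.congr_fun h1 p

end GUN_

open GUN_ in
theorem gun_proof : Stmt_GUN := by
  intro K _ δ m a b _ _ h
  have h1 : ∀ i j, (Ideal.span {δ} ⊔ Ideal.span {MvPolynomial.X 1 - MvPolynomial.C (b j)}) ⊔
      Ideal.span {MvPolynomial.X 0 - MvPolynomial.C (a i)} = (⊤ : Ideal (P2 K)) := by
    intro i j
    set I : Ideal (P2 K) := (Ideal.span {δ} ⊔
      Ideal.span {MvPolynomial.X 1 - MvPolynomial.C (b j)}) ⊔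
      Ideal.span {MvPolynomial.X 0 - MvPolynomial.C (a i)} with hI
    have h2 : δ - MvPolynomial.C (MvPolynomial.eval ![a i, b j] δ) ∈ I := by
      have h3 : (Ideal.span {MvPolynomial.X 0 - MvPolynomial.C (a i)} ⊔
        Ideal.span {MvPolynomial.X 1 - MvPolynomial.C (b j)} : Ideal (P2 K)) ≤ I :=
        sup_le le_sup_right (le_sup_right.trans le_sup_left)
      exact h3 (sub_eval_mem (a i) (b j) δ)
    have h4 : δ ∈ I := (le_sup_left.trans le_sup_left : Ideal.span {δ} ≤ I)
      (Ideal.mem_span_singleton_self _)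
    have h5 : (MvPolynomial.C (MvPolynomial.eval ![a i, b j] δ) : P2 K) ∈ I := by
      have := I.sub_mem h4 h2
      rwa [sub_sub_cancel] at this
    refine Ideal.eq_top_of_isUnit_mem I h5 ?_
    exact (isUnit_iff_ne_zero.2 (h i j)).map (MvPolynomial.C : K →+* P2 K)
  have h2 : ∀ j, (Ideal.span {δ} ⊔ Ideal.span {gridP 0 a}) ⊔
      Ideal.span {MvPolynomial.X 1 - MvPolynomial.C (b j)} = (⊤ : Ideal (P2 K)) := by
    intro j
    have h3 := Ideal.sup_prod_eq_top (s := Finset.univ)
      (I := Ideal.span {δ} ⊔ Ideal.span {MvPolynomial.X 1 - MvPolynomial.C (b j)})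
      (J := fun i => Ideal.span {MvPolynomial.X 0 - MvPolynomial.C (a i)}) (fun i _ => h1 i j)
    rw [Ideal.prod_span_singleton] at h3
    rw [sup_right_comm]
    exact h3
  have h3 := Ideal.sup_prod_eq_top (s := Finset.univ)
      (I := Ideal.span {δ} ⊔ Ideal.span {gridP 0 a})
      (J := fun j => Ideal.span {MvPolynomial.X 1 - MvPolynomial.C (b j)}) (fun j _ => h2 j)
  rw [Ideal.prod_span_singleton] at h3
  have h4 : (1 : P2 K) ∈ (Ideal.span {δ} ⊔ Ideal.span {gridP 0 a}) ⊔
      Ideal.span {gridP 1 b} := by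
    have : (1 : P2 K) ∈ (⊤ : Ideal (P2 K)) := Submodule.mem_top
    rw [← h3] at this
    exact this
  obtain ⟨x, hx, y, hy, hxy⟩ := Submodule.mem_sup.1 h4
  obtain ⟨u, hu, v, hv, huv⟩ := Submodule.mem_sup.1 hx
  obtain ⟨r, rfl⟩ := Ideal.mem_span_singleton'.1 hu
  obtain ⟨s, rfl⟩ := Ideal.mem_span_singleton'.1 hv
  obtain ⟨t, rfl⟩ := Ideal.mem_span_singleton'.1 hy
  exact ⟨r, s, t, by rw [huv, hxy]⟩

end Pool.CRD.Sky
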