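import Pool.Agent.CRD.C.LStmts

open CategoryTheory Abelian

namespace Pool.CRD.Loc

theorem lres_proof : Stmt_LRES := by
  intro K _ A _ _ m hLS
  have hN := hLS.noeth
  have hk : HasProjectiveDimensionLT (kk m) 3 := hLS.pd (kk m) inferInstance
  have hq : Function.Surjective (Submodule.mkQ m) := Submodule.mkQ_surjective m
  have S1 := LinearMap.shortExact_shortComplexKer hq
  have hpA : Projective (ModuleCat.of A A) :=
    (IsProjective.iff_projective A).1 inferInstance
  have h1 : HasProjectiveDimensionLT (ModuleCat.of A (LinearMap.ker (Submodule.mkQ m))) 2 :=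
    S1.hasProjectiveDimensionLT_X₁ 2 (hasProjectiveDimensionLT_of_ge _ 1 2 (by norm_num)) hk
  obtain ⟨n, f, hf⟩ := Module.Finite.exists_fin' A (LinearMap.ker (Submodule.mkQ m))
  have S2 := LinearMap.shortExact_shortComplexKer hf
  have hpn : Projective (ModuleCat.of A (Fin n → A)) :=
    (IsProjective.iff_projective (Fin n → A)).1 inferInstance
  have h2 : HasProjectiveDimensionLT (ModuleCat.of A (LinearMap.ker f)) 1 :=
    S2.hasProjectiveDimensionLT_X₁ 1 inferInstance h1
  have hp2 : Module.Projective A (LinearMap.ker f) :=
    (IsProjective.iff_projective (LinearMap.ker f)).2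
      (projective_iff_hasProjectiveDimensionLT_one.2 h2)
  refine ⟨{ P0 := ModuleCat.of A A, P1 := ModuleCat.of A (Fin n → A),
            P2 := ModuleCat.of A (LinearMap.ker f),
            d2 := ModuleCat.ofHom (LinearMap.ker f).subtype,
            d1 := ModuleCat.ofHom ((LinearMap.ker (Submodule.mkQ m)).subtype ∘ₗ f),
            d0 := qk m,
            fin0 := inferInstanceAs (Module.Finite A A),
            fin1 := inferInstanceAs (Module.Finite A (Fin n → A)),
            fin2 := inferInstanceAs (Module.Finite A (LinearMap.ker f)),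
            pr0 := inferInstanceAs (Module.Projective A A),
            pr1 := inferInstanceAs (Module.Projective A (Fin n → A)),
            pr2 := hp2,
            inj2 := ?_, ex1 := ?_, ex0 := ?_, sur0 := hq }, Iso.refl _, ?_⟩
  · exact (LinearMap.ker f).injective_subtype
  · intro x
    constructor
    · intro h
      have h' : f x = 0 := Subtype.ext h
      exact ⟨⟨x, h'⟩, rfl⟩
    · rintro ⟨y, rfl⟩
      have h' : f y.1 = 0 := y.2
      change ((f y.1 : LinearMap.ker (Submodule.mkQ m)) : A) = 0
      rw [h']; rfl
  · intro x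
    constructor
    · intro h
      have hx : x ∈ LinearMap.ker (Submodule.mkQ m) := h
      obtain ⟨y, hy⟩ := hf ⟨x, hx⟩
      exact ⟨y, by change ((f y : LinearMap.ker (Submodule.mkQ m)) : A) = x; rw [hy]⟩
    · rintro ⟨y, rfl⟩
      exact (f y).2
  · simp

end Pool.CRD.Loc
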