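import Pool.Agent.CRD.C.GStmts
import Pool.Agent.CRD.B.PCC

open CategoryTheory Opposite Limits Pretriangulated Abelian

namespace Pool.CRD.Sky

namespace SKF_

open PCC_

section Alg
variable {A B M N : Type} [CommRing A] [CommRing B] (α : A →+* B) [AddCommGroup M]
  [AddCommGroup N] [Module A M] [Module B N]

theorem skf_lift (f : M → N) (ha : ∀ x y, f (x + y) = f x + f y)
    (hs : ∀ (a : A) x, f (a • x) = α a • f x) (h : BC α f ha hs) {N' : Type}
    [AddCommGroup N'] [Module B N'] (u : M → N') (ua : ∀ x y, u (x + y) = u x + u y)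
    (us : ∀ (a : A) x, u (a • x) = α a • u x) : ∃ g : N →ₗ[B] N', ∀ x, g (f x) = u x := by
  letI : Algebra A B := α.toAlgebra
  letI : Module A N := Module.compHom N α
  haveI : IsScalarTower A B N := ⟨fun a b c => by rw [Algebra.smul_def, mul_smul]; rfl⟩
  letI : Module A N' := Module.compHom N' α
  haveI : IsScalarTower A B N' := ⟨fun a b c => by rw [Algebra.smul_def, mul_smul]; rfl⟩
  have h' : IsBaseChange B ({ toFun := f, map_add' := ha, map_smul' := hs } : M →ₗ[A] N) := h
  refine ⟨h'.lift { toFun := u, map_add' := ua, map_smul' := us }, fun x => ?_⟩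
  exact h'.lift_eq _ x

theorem skf_ext (f : M → N) (ha : ∀ x y, f (x + y) = f x + f y)
    (hs : ∀ (a : A) x, f (a • x) = α a • f x) (h : BC α f ha hs) {B' N' : Type} [CommRing B']
    [AddCommGroup N'] [Module B' N'] (σ : B →+* B') (g g' : N → N')
    (ga : ∀ x y, g (x + y) = g x + g y) (gs : ∀ (b : B) x, g (b • x) = σ b • g x)
    (ga' : ∀ x y, g' (x + y) = g' x + g' y) (gs' : ∀ (b : B) x, g' (b • x) = σ b • g' x)
    (hg : ∀ x, g (f x) = g' (f x)) (y : N) : g y = g' y := by
  letI : Algebra A B := α.toAlgebra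
  letI : Module A N := Module.compHom N α
  haveI : IsScalarTower A B N := ⟨fun a b c => by rw [Algebra.smul_def, mul_smul]; rfl⟩
  letI : Module B N' := Module.compHom N' σ
  letI : Module A N' := Module.compHom N' α
  haveI : IsScalarTower A B N' := ⟨fun a b c => by rw [Algebra.smul_def, mul_smul]; rfl⟩
  have h' : IsBaseChange B ({ toFun := f, map_add' := ha, map_smul' := hs } : M →ₗ[A] N) := h
  have e := h'.algHom_ext ({ toFun := g, map_add' := ga, map_smul' := gs } : N →ₗ[B] N')
    ({ toFun := g', map_add' := ga', map_smul' := gs' } : N →ₗ[B] N') hg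
  exact congrArg (fun t : N →ₗ[B] N' => t y) e

end Alg

end SKF_

open SKF_ PCC_ in
theorem skf_proof : Stmt_SKF := by
  intro K _ C _ R V F G hG
  have hle : ∀ X : C, X ⊓ V ≤ V := fun X => inf_le_right
  have hle' : ∀ X : C, X ⊓ V ≤ X := fun X => inf_le_left
  -- cartesian restriction maps
  have hc := fun X : C => (isCart_iff F.obj (homOfLE (hle X)).op).1
    (F.property.2 (homOfLE (hle X)).op)
  constructor
  · intro f f' hff
    have hV : ∀ y : F.obj.obj (op V), f.hom.app (op V) y = f'.hom.app (op V) y := fun y =>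
      congrArg (fun t : F.obj.obj (op V) →ₗ[R.toRing.obj (op V)] G.obj.obj (op V) => t y) hff
    have key : ∀ (X : C) (y : F.obj.obj (op (X ⊓ V))),
        f.hom.app (op (X ⊓ V)) y = f'.hom.app (op (X ⊓ V)) y := by
      intro X
      refine skf_ext (A := R.obj (op V)) (B := R.obj (op (X ⊓ V))) (M := F.obj.obj (op V))
        (N := F.obj.obj (op (X ⊓ V))) (B' := R.obj (op (X ⊓ V)))
        (N' := G.obj.obj (op (X ⊓ V))) _ _ _ _ (hc X) (RingHom.id _) _ _
        (fun x y => map_add (f.hom.app (op (X ⊓ V))).hom x y)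
        (fun b x => (f.hom.app (op (X ⊓ V))).hom.map_smul b x)
        (fun x y => map_add (f'.hom.app (op (X ⊓ V))).hom x y)
        (fun b x => (f'.hom.app (op (X ⊓ V))).hom.map_smul b x) ?_
      intro x
      rw [rs_nat, rs_nat, hV]
    apply (IsCoh R).ι.map_injective
    apply pmod_ext
    intro X x
    apply (hG X.unop).1
    change rs G.obj _ (f.hom.app X x) = rs G.obj _ (f'.hom.app X x)
    rw [← rs_nat f.hom, ← rs_nat f'.hom]
    exact key X.unop _
  · intro u
    have hex : ∀ X : C, ∃ g : F.obj.obj (op (X ⊓ V)) →ₗ[R.toRing.obj (op (X ⊓ V))]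
        G.obj.obj (op (X ⊓ V)), ∀ y : F.obj.obj (op V),
          g (rs F.obj (homOfLE (hle X)).op y) = rs G.obj (homOfLE (hle X)).op (u y) := by
      intro X
      exact skf_lift (A := R.obj (op V)) (B := R.obj (op (X ⊓ V))) (M := F.obj.obj (op V))
        (N := F.obj.obj (op (X ⊓ V))) (N' := G.obj.obj (op (X ⊓ V))) _ _ _ _ (hc X)
        (fun y => rs G.obj (homOfLE (hle X)).op (u y))
        (fun x y => by rw [map_add, rs_add])
        (fun a x => by
          have h1 : u (a • x) = (a : R.toRing.obj (op V)) • u x := u.map_smul a x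
          rw [h1, rs_smul]
          rfl)
    choose g hg using hex
    have hex2 : ∀ (X : C) (x : F.obj.obj (op X)), ∃ y : G.obj.obj (op X),
        rs G.obj (homOfLE (hle' X)).op y = g X (rs F.obj (homOfLE (hle' X)).op x) :=
      fun X x => (hG X).2 _
    choose φ hφ using hex2
    have hadd : ∀ (X : C) (x y : F.obj.obj (op X)), φ X (x + y) = φ X x + φ X y := by
      intro X x y
      apply (hG X).1
      change rs G.obj (homOfLE (hle' X)).op (φ X (x + y)) =
        rs G.obj (homOfLE (hle' X)).op (φ X x + φ X y)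
      rw [rs_add, hφ, hφ, hφ, rs_add, map_add]
    have hsmul : ∀ (X : C) (r : R.toRing.obj (op X)) (x : F.obj.obj (op X)),
        φ X (r • x) = r • φ X x := by
      intro X r x
      apply (hG X).1
      change rs G.obj (homOfLE (hle' X)).op (φ X (r • x)) =
        rs G.obj (homOfLE (hle' X)).op (r • φ X x)
      rw [rs_smul, hφ, hφ, rs_smul, map_smul]
    have hnat0 : ∀ (X Y : C) (h : Y ≤ X) (y : F.obj.obj (op (X ⊓ V))),
        g Y (rs F.obj (homOfLE (inf_le_inf_right V h)).op y) =
          rs G.obj (homOfLE (inf_le_inf_right V h)).op (g X y) := by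
      intro X Y h
      refine skf_ext (A := R.obj (op V)) (B := R.obj (op (X ⊓ V))) (M := F.obj.obj (op V))
        (N := F.obj.obj (op (X ⊓ V))) (B' := R.obj (op (Y ⊓ V)))
        (N' := G.obj.obj (op (Y ⊓ V))) _ _ _ _ (hc X)
        (R.map (homOfLE (inf_le_inf_right V h)).op).hom.toRingHom _ _
        (fun x y => by rw [rs_add, map_add])
        (fun b x => by
          have h1 : rs F.obj (homOfLE (inf_le_inf_right V h)).op (b • x) =
            (R.toRing.map (homOfLE (inf_le_inf_right V h)).op (b : R.toRing.obj (op (X ⊓ V)))) •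
              rs F.obj (homOfLE (inf_le_inf_right V h)).op x := rs_smul _ _ _ _
          rw [h1, map_smul]
          rfl)
        (fun x y => by rw [map_add, rs_add])
        (fun b x => by
          have h1 : g X (b • x) = (b : R.toRing.obj (op (X ⊓ V))) • g X x := (g X).map_smul b x
          rw [h1, rs_smul]
          rfl) ?_
      intro y
      change g Y (rs F.obj (homOfLE (inf_le_inf_right V h)).op
        (rs F.obj (homOfLE (hle X)).op y)) =
        rs G.obj (homOfLE (inf_le_inf_right V h)).op (g X (rs F.obj (homOfLE (hle X)).op y))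
      rw [hg, ← rs_comp, ← rs_comp]
      exact hg Y y
    have hnat : ∀ {X Y : Cᵒᵖ} (f : X ⟶ Y) (x : F.obj.obj X),
        φ Y.unop (rs F.obj f x) = rs G.obj f (φ X.unop x) := by
      intro X Y f x
      apply (hG Y.unop).1
      change rs G.obj (homOfLE (hle' Y.unop)).op (φ Y.unop (rs F.obj f x)) =
        rs G.obj (homOfLE (hle' Y.unop)).op (rs G.obj f (φ X.unop x))
      have h1 : Y.unop ≤ X.unop := leOfHom f.unop
      have h2 := hnat0 X.unop Y.unop h1 (rs F.obj (homOfLE (hle' X.unop)).op x)
      rw [← hφ, ← rs_comp, ← rs_comp] at h2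
      rw [hφ, ← rs_comp, ← rs_comp]
      exact h2
    let ψ : F.obj ⟶ G.obj := mkHom (M := F.obj) (N := G.obj)
      (fun X => { toFun := fun x => φ X.unop x
                  map_add' := hadd X.unop
                  map_smul' := hsmul X.unop }) hnat
    refine ⟨⟨ψ⟩, ?_⟩
    apply LinearMap.ext
    intro x
    apply (hG V).1
    change rs G.obj (homOfLE (hle' V)).op (φ V x) = rs G.obj (homOfLE (hle' V)).op (u x)
    rw [hφ]
    exact hg V x

end Pool.CRD.Sky
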